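import Pool.Agent.Lib_MP_b9fedf_lo.CharExp
import Pool.Agent.Lib_MP_b9fedf_st.NbarL
import Pool.Agent.Lib_MP_b9fedf_ag.CharTF
import Pool.Agent.Lib_MP_b9fedf_sq.AbsZ

/-! Piece LO-7: curves ramified on average. -/

set_option autoImplicit false

namespace Pool.Agent.LO
open MvPolynomial Pool.Agent.GGL Pool.Agent.SQ Pool.Agent.Stat Pool.Agent.QY

private theorem nev_le {σ : Type} [Fintype σ] {p : MvPolynomial σ ℂ} {D : ℕ} (hD : p.IsHomogeneous D)
    (x : σ → ℂ) : ‖MvPolynomial.eval x p‖ ≤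
      (∑ a ∈ p.support, ‖MvPolynomial.coeff a p‖) * ‖x‖ ^ D := by
  rw [MvPolynomial.eval_eq', Finset.sum_mul]
  refine (norm_sum_le _ _).trans ?_
  apply Finset.sum_le_sum
  intro a ha
  have h1 := hD (MvPolynomial.mem_support_iff.mp ha)
  rw [Finsupp.weight_apply, Finsupp.sum_fintype _ _ (by simp)] at h1
  have h2 : ∑ k, a k = D := by simpa using h1
  rw [norm_mul, norm_prod, ← h2, ← Finset.prod_pow_eq_pow_sum]
  apply mul_le_mul_of_nonneg_left _ (norm_nonneg _)
  apply Finset.prod_le_prod (fun i _ => norm_nonneg _)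
  intro i _
  rw [norm_pow]
  exact pow_le_pow_left₀ (norm_nonneg _) (norm_le_pi_norm x i) _

private theorem dev {σ : Type} [Fintype σ] {f : ℂ → σ → ℂ} (hf : Differentiable ℂ f)
    (p : MvPolynomial σ ℂ) : Differentiable ℂ (fun z => MvPolynomial.eval (f z) p) := by
  simp_rw [MvPolynomial.eval_eq']
  refine Differentiable.fun_sum fun a _ => Differentiable.const_mul ?_ _
  have h1 := differentiable_pi.1 hf
  exact Differentiable.fun_finsetProd fun i _ => (h1 i).pow _

/-- the two counting functions as sums over a finite set of points -/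
private theorem count_facts {W : ℂ → ℂ} (hW : Differentiable ℂ W) (hW0 : ∃ z, W z ≠ 0) {r : ℝ}
    (hr : 1 ≤ r) : {a : ℂ | ‖a‖ ≤ r ∧ W a = 0}.Finite ∧
      ∀ S : Finset ℂ, (∀ a ∈ S, ‖a‖ ≤ r) → (∀ a, ‖a‖ ≤ r → W a = 0 → a ∈ S) →
        Nbar W r = (∑ a ∈ S, if analyticOrderAt W a = 0 then 0 else Real.log (r / max 1 ‖a‖)) ∧
        ∑ a ∈ S, ((analyticOrderAt W a).toNat : ℝ) * Real.log (r / max 1 ‖a‖) ≤
          Function.locallyFinsuppWithin.logCounting (Pool.Agent.GGL.Dv W) r := by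
  classical
  have hr0 : 0 < r := by linarith
  have hz : ∀ a, analyticOrderAt W a = 0 ↔ W a ≠ 0 := fun a =>
    (hW.analyticAt a).analyticOrderAt_eq_zero
  have hord : ∀ a, W a = 0 → Pool.Agent.GGL.Dv W a ≠ 0 := by
    intro a ha h
    rw [Pool.Agent.GGL.Dv_apply hW] at h
    have h1 : analyticOrderAt W a ≠ 0 := (hW.analyticAt a).analyticOrderAt_ne_zero.2 ha
    have h2 := Pool.Agent.GGL.order_ne_top hW hW0 a
    have h3 : (analyticOrderAt W a).toNat = 0 := by exact_mod_cast h
    rw [ENat.toNat_eq_zero] at h3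
    exact h3.elim h1 h2
  have hord0 : ∀ a, W a ≠ 0 → Pool.Agent.GGL.Dv W a = 0 := by
    intro a ha
    rw [Pool.Agent.GGL.Dv_apply hW, (hz a).2 ha]
    rfl
  have hfin : {a : ℂ | ‖a‖ ≤ r ∧ W a = 0}.Finite := by
    refine ((Function.locallyFinsuppWithin.toClosedBall r (Pool.Agent.GGL.Dv W)).finiteSupport
      (isCompact_closedBall 0 |r|)).subset ?_
    rintro a ⟨ha, hWa⟩
    rw [Function.mem_support, Function.locallyFinsuppWithin.toClosedBall_eval_within]
    · exact hord a hWa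
    · rw [mem_closedBall_zero_iff]
      exact ha.trans (le_abs_self r)
  refine ⟨hfin, fun S hS1 hS2 => ⟨?_, ?_⟩⟩
  · have h3 : Nbar W r = ∑ a ∈ hfin.toFinset, Real.log (r / max 1 ‖a‖) := by
      unfold Nbar
      exact finsum_mem_eq_finite_toFinset_sum _ hfin
    have h4 : hfin.toFinset = S.filter fun a => W a = 0 := by
      ext a
      rw [Set.Finite.mem_toFinset, Finset.mem_filter, Set.mem_ofPred_eq]
      exact ⟨fun h => ⟨hS2 a h.1 h.2, h.2⟩, fun h => ⟨hS1 a h.1, h.2⟩⟩
    rw [h3, h4, Finset.sum_filter]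
    refine Finset.sum_congr rfl fun a _ => ?_
    by_cases h : W a = 0
    · rw [if_pos h, if_neg]
      rw [hz]
      exact not_not.2 h
    · rw [if_neg h, if_pos ((hz a).2 h)]
  · have h1 : Function.locallyFinsuppWithin.logCounting (Pool.Agent.GGL.Dv W) r =
        ∑ a ∈ S, (Pool.Agent.GGL.Dv W a : ℝ) * Real.log (r * ‖a‖⁻¹) +
          (Pool.Agent.GGL.Dv W 0 : ℝ) * Real.log r := by
      show ∑ᶠ z, (Function.locallyFinsuppWithin.toClosedBall r (Pool.Agent.GGL.Dv W) z : ℝ) *
        Real.log (r * ‖z‖⁻¹) + (Pool.Agent.GGL.Dv W 0 : ℝ) * Real.log r = _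
      congr 1
      rw [finsum_eq_sum_of_support_subset _ (s := S)]
      · refine Finset.sum_congr rfl fun a ha => ?_
        rw [Function.locallyFinsuppWithin.toClosedBall_eval_within]
        rw [mem_closedBall_zero_iff]
        exact (hS1 a ha).trans (le_abs_self r)
      · intro a ha
        rw [Function.mem_support] at ha
        have h2 : Function.locallyFinsuppWithin.toClosedBall r (Pool.Agent.GGL.Dv W) a ≠ 0 := by
          intro h
          rw [h, Int.cast_zero, zero_mul] at ha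
          exact ha rfl
        have h3 : a ∈ Metric.closedBall (0 : ℂ) |r| :=
          Function.locallyFinsuppWithin.toClosedBall_support_subset_closedBall _ h2
        rw [Function.locallyFinsuppWithin.toClosedBall_eval_within _ h3] at h2
        rw [mem_closedBall_zero_iff, abs_of_pos hr0] at h3
        refine hS2 a h3 ?_
        by_contra h
        exact h2 (hord0 a h)
    have h2 : (∑ a ∈ S, if a = 0 then (Pool.Agent.GGL.Dv W 0 : ℝ) * Real.log r else 0) =
        (Pool.Agent.GGL.Dv W 0 : ℝ) * Real.log r := by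
      rw [Finset.sum_ite_eq']
      split_ifs with h
      · rfl
      · by_cases h0 : W 0 = 0
        · exact absurd (hS2 0 (by rw [norm_zero]; exact hr0.le) h0) h
        · rw [hord0 0 h0, Int.cast_zero, zero_mul]
    rw [h1, ← h2, ← Finset.sum_add_distrib]
    refine Finset.sum_le_sum fun a _ => ?_
    have h5 : (Pool.Agent.GGL.Dv W a : ℝ) = ((analyticOrderAt W a).toNat : ℝ) := by
      rw [Pool.Agent.GGL.Dv_apply hW]
      norm_cast
    by_cases ha : a = 0
    · subst ha
      rw [h5]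
      simp
    · rw [if_neg ha, add_zero, h5]
      refine mul_le_mul_of_nonneg_left ?_ (Nat.cast_nonneg _)
      have ha0 : 0 < ‖a‖ := norm_pos_iff.2 ha
      refine Real.log_le_log (by positivity) ?_
      rw [div_eq_mul_inv]
      exact mul_le_mul_of_nonneg_left (inv_anti₀ ha0 (le_max_right _ _)) hr0.le

/-- `Nbar` is bounded by the counting functions -/
private theorem nbar_sum_le {ι : Type} [DecidableEq ι] (D : Finset ι) (W : ι → ℂ → ℂ) {ρ : ℝ}
    (hρ : 0 ≤ ρ)
    (hW : ∀ P ∈ D, Differentiable ℂ (W P)) (hW0 : ∀ P ∈ D, ∃ z, W P z ≠ 0)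
    (hR : ∀ z, ∀ o : ι → ℕ, (∀ P ∈ D, analyticOrderAt (W P) z = o P) →
      ((D.filter fun P => o P ≠ 0).card : ℝ) ≤ ρ * ∑ P ∈ D, (o P : ℝ)) {r : ℝ} (hr : 1 ≤ r) :
    ∑ P ∈ D, Nbar (W P) r ≤
      ρ * ∑ P ∈ D, Function.locallyFinsuppWithin.logCounting (Pool.Agent.GGL.Dv (W P)) r := by
  classical
  have hfin : (⋃ P ∈ D, {a : ℂ | ‖a‖ ≤ r ∧ W P a = 0}).Finite :=
    Set.Finite.biUnion D.finite_toSet fun P hP => (count_facts (hW P hP) (hW0 P hP) hr).1
  set S := hfin.toFinset with hS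
  have hSm : ∀ a, a ∈ S ↔ ∃ P ∈ D, ‖a‖ ≤ r ∧ W P a = 0 := by
    intro a
    rw [hS, Set.Finite.mem_toFinset]
    simp only [Set.mem_iUnion, Set.mem_ofPred_eq, exists_prop]
  have hS1 : ∀ a ∈ S, ‖a‖ ≤ r := fun a ha => by
    obtain ⟨P, -, h, -⟩ := (hSm a).1 ha
    exact h
  have hS2 : ∀ P ∈ D, ∀ a, ‖a‖ ≤ r → W P a = 0 → a ∈ S := fun P hP a h1 h2 =>
    (hSm a).2 ⟨P, hP, h1, h2⟩
  have hL : ∀ a ∈ S, 0 ≤ Real.log (r / max 1 ‖a‖) := by
    intro a ha
    apply Real.log_nonneg
    rw [one_le_div (by positivity)]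
    exact max_le hr (hS1 a ha)
  have h1 : ∀ P ∈ D, Nbar (W P) r =
      ∑ a ∈ S, if analyticOrderAt (W P) a = 0 then 0 else Real.log (r / max 1 ‖a‖) := fun P hP =>
    ((count_facts (hW P hP) (hW0 P hP) hr).2 S hS1 (hS2 P hP)).1
  have h2 : ∀ P ∈ D, ∑ a ∈ S, ((analyticOrderAt (W P) a).toNat : ℝ) * Real.log (r / max 1 ‖a‖) ≤
      Function.locallyFinsuppWithin.logCounting (Pool.Agent.GGL.Dv (W P)) r := fun P hP =>
    ((count_facts (hW P hP) (hW0 P hP) hr).2 S hS1 (hS2 P hP)).2
  rw [Finset.sum_congr rfl h1]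
  refine le_trans ?_ (mul_le_mul_of_nonneg_left (Finset.sum_le_sum h2) hρ)
  rw [Finset.sum_comm, Finset.sum_comm (s := D), Finset.mul_sum]
  refine Finset.sum_le_sum fun a ha => ?_
  have h3 := hR a (fun P => (analyticOrderAt (W P) a).toNat) (fun P hP =>
    (ENat.natCast_toNat (Pool.Agent.GGL.order_ne_top (hW P hP) (hW0 P hP) a)).symm)
  have h4 : (∑ P ∈ D, if analyticOrderAt (W P) a = 0 then 0 else Real.log (r / max 1 ‖a‖)) =
      ((D.filter fun P => (analyticOrderAt (W P) a).toNat ≠ 0).card : ℝ) *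
        Real.log (r / max 1 ‖a‖) := by
    rw [← nsmul_eq_mul, ← Finset.sum_const, Finset.sum_filter]
    refine Finset.sum_congr rfl fun P hP => ?_
    have h5 := Pool.Agent.GGL.order_ne_top (hW P hP) (hW0 P hP) a
    by_cases h : analyticOrderAt (W P) a = 0
    · rw [if_pos h, if_neg]
      rw [h]
      simp
    · rw [if_neg h, if_pos]
      rw [Ne, ENat.toNat_eq_zero, not_or]
      exact ⟨h, h5⟩
  rw [h4, ← Finset.sum_mul, ← mul_assoc]
  exact mul_le_mul_of_nonneg_right h3 (hL a ha)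

/-- PIECE LO-7. A curve which is ramified on average over `D` is constant or lies in `Z = 0`.  Proof.
Assume `f` is not constant, `G(z) = f(exp z)`: entire, no zeros, not constant (`exp` is onto `ℂ - 0`, and `f` is
continuous), in `V(q)`, `Z(G) ≢ 0`.  `hL` for `G`.  For `P ∈ D`: `p = P(G)` is entire, not identically zero
(`P ∣ Z`), its order at `z` is the order of `P(f)` at `exp z` (`analyticOrderAt_comp_of_deriv_ne_zero`, as in
CurveY.lean), so `hR` holds for `G` in place of `f`.  Reduced divisors `Z_P` of `p` (`exists_reduced`,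
Lib_MP_b9fedf_st/NbarL.lean; I also need `Nbar p r ≤ logCounting Z_P r` for `r ≥ 1`: prove
it from the formulas for both in the proof of `exists_reduced`:
`log (r / max 1 |a|) ≤ log (r / |a|)` for `a ≠ 0`, and equality for `a = 0`).
Pointwise `∑_P Z_P ≤ ρ ∑_P Dv p` (`hR`), hence `∑ logCounting Z_P r ≤ ρ ∑ logCounting (Dv p) r`
(real `ρ`: work with the finite sum over the points of the closed disc, or use: `logCounting` is a sum
`∑ D(a) log (r/|a|)`; see the formula in NbarL.lean), and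
`logCounting (Dv p) r ≤ deg P * charT G r + C` (`N_le_TF`, Lib_MP_b9fedf_ag/CharTF.lean, `|P(x)| ≤ K ‖x‖^deg`).
With `s = ∑ deg P ≥ 1`: `(1 - η - ρ) s charT G r ≤ K' (posLog (charT G r) + log r + 1)` for all
`r ≥ 1` off `E`, `volume E < ⊤`.  `charT_exp` with large `A` and `log x ≤ δ x + C_δ` contradict this for some large
`r ∉ E` (such `r` exist as `E` has finite measure). -/
theorem avg_const {n : ℕ} {η ρ : ℝ} (hρ : ρ < 1 - η) (hρ0 : 0 ≤ ρ)
    (q : Ideal (MvPolynomial (Fin (n + 1)) ℂ)) (D : Finset (MvPolynomial (Fin (n + 1)) ℂ))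
    (hDn : D.Nonempty)
    (Z : MvPolynomial (Fin (n + 1)) ℂ)
    (hD : ∀ P ∈ D, 1 ≤ P.totalDegree ∧ P.IsHomogeneous P.totalDegree)
    (hZ : ∀ P ∈ D, P ∣ Z) (hL : LevelOne η q D Z)
    (f : ℂ → Fin (n + 1) → ℂ) (hf : Differentiable ℂ f) (hf0 : ∀ z, f z ≠ 0)
    (hfq : ∀ g ∈ q, ∀ z, eval (f z) g = 0) (hfZ : ∃ z, eval (f z) Z ≠ 0)
    (hR : ∀ z, ∀ o : MvPolynomial (Fin (n + 1)) ℂ → ℕ,
      (∀ P ∈ D, analyticOrderAt (fun ζ => eval (f ζ) P) z = o P) →
      ((D.filter fun P => o P ≠ 0).card : ℝ) ≤ ρ * ∑ P ∈ D, (o P : ℝ)) :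
    ∀ z w, ∃ c : ℂ, f w = c • f z := by
  classical
  by_contra hnc
  set G : ℂ → Fin (n + 1) → ℂ := fun z => f (Complex.exp z) with hG
  have hGd : Differentiable ℂ G := hf.comp Complex.differentiable_exp
  have hG0 : ∀ z, G z ≠ 0 := fun z => hf0 _
  have hGZ : ∀ R : MvPolynomial (Fin (n + 1)) ℂ, (∃ z, eval (f z) R ≠ 0) →
      ∃ z, eval (G z) R ≠ 0 := by
    rintro R ⟨z, hz⟩
    by_contra hcon
    push Not at hcon
    have h1 := Pool.Agent.GGL.eq_of_comp_exp (g := fun w => eval (f w) R) (h := fun _ => 0)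
      (dev hf R).continuous continuous_const (fun z => hcon z)
    exact hz (congrFun h1 z)
  have hGnc : ¬ ∀ z w, ∃ c : ℂ, G w = c • G z := by
    intro hc
    apply hnc
    have h1 : ∀ z w i j, G w i * G z j = G w j * G z i := by
      intro z w i j
      obtain ⟨c, hc⟩ := hc z w
      rw [hc]
      simp only [Pi.smul_apply, smul_eq_mul]
      ring
    have hfc : ∀ i, Continuous (fun w => f w i) := fun i => (differentiable_pi.1 hf i).continuous
    have h2 : ∀ z w i j, f w i * G z j = f w j * G z i := by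
      intro z w i j
      have := Pool.Agent.GGL.eq_of_comp_exp (g := fun w => f w i * G z j)
        (h := fun w => f w j * G z i) ((hfc i).mul continuous_const)
        ((hfc j).mul continuous_const) (fun w => h1 z w i j)
      exact congrFun this w
    have h3 : ∀ z w i j, f w i * f z j = f w j * f z i := by
      intro z w i j
      have := Pool.Agent.GGL.eq_of_comp_exp (g := fun z => f w i * f z j)
        (h := fun z => f w j * f z i) (continuous_const.mul (hfc j))
        (continuous_const.mul (hfc i)) (fun z => h2 z w i j)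
      exact congrFun this z
    intro z w
    obtain ⟨j, hj⟩ := Function.ne_iff.1 (hf0 z)
    rw [Pi.zero_apply] at hj
    refine ⟨f w j / f z j, funext fun i => ?_⟩
    rw [Pi.smul_apply, smul_eq_mul, div_mul_eq_mul_div, eq_div_iff hj]
    exact h3 z w i j
  obtain ⟨K, E, hE, hKE⟩ := hL G hGd hG0 (fun g hg z => hfq g hg _) (hGZ Z hfZ) hGnc
  set W : MvPolynomial (Fin (n + 1)) ℂ → ℂ → ℂ := fun P z => eval (G z) P with hW
  have hWd : ∀ P ∈ D, Differentiable ℂ (W P) := fun P _ => dev hGd P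
  have hWne : ∀ P ∈ D, ∃ z, W P z ≠ 0 := by
    intro P hP
    obtain ⟨Q, hQ⟩ := hZ P hP
    apply hGZ P
    obtain ⟨z, hz⟩ := hfZ
    refine ⟨z, fun h0 => hz ?_⟩
    rw [hQ, map_mul, h0, zero_mul]
  have hord : ∀ P z, analyticOrderAt (W P) z =
      analyticOrderAt (fun ζ => eval (f ζ) P) (Complex.exp z) := by
    intro P z
    exact analyticOrderAt_comp_of_deriv_ne_zero (f := fun ζ => eval (f ζ) P) (g := Complex.exp)
      (z₀ := z) (by fun_prop) (by rw [Complex.deriv_exp]; exact Complex.exp_ne_zero z)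
  have hcount : ∀ r, 1 ≤ r → ∑ P ∈ D, Nbar (W P) r ≤ ρ * ∑ P ∈ D,
      Function.locallyFinsuppWithin.logCounting (Pool.Agent.GGL.Dv (W P)) r := fun r hr =>
    nbar_sum_le D W hρ0 hWd hWne (fun z o ho => hR (Complex.exp z) o (fun P hP => by
      rw [← hord]; exact ho P hP)) hr
  have hC : ∀ P ∈ D, ∃ C : ℝ, ∀ r, 1 ≤ r →
      Function.locallyFinsuppWithin.logCounting (Pool.Agent.GGL.Dv (W P)) r ≤
        P.totalDegree * charT G r + C := by
    intro P hP
    exact Pool.Agent.GGL.N_le_TF (f := fun k z => G z k) (fun k => differentiable_pi.1 hGd k)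
      (fun z => Function.ne_iff.1 (hG0 z)) (hWd P hP) (hWne P hP) P.totalDegree _
      (fun z => nev_le (hD P hP).2 (G z))
  choose! C hC using hC
  set s : ℝ := ∑ P ∈ D, (P.totalDegree : ℝ) with hs
  have hs1 : 1 ≤ s := by
    obtain ⟨P, hP⟩ := hDn
    have h1 : (1 : ℝ) ≤ P.totalDegree := by exact_mod_cast (hD P hP).1
    exact h1.trans (Finset.single_le_sum (f := fun P : MvPolynomial (Fin (n + 1)) ℂ =>
      (P.totalDegree : ℝ)) (fun _ _ => Nat.cast_nonneg _) hP)
  set δ : ℝ := (1 - η - ρ) * s with hδ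
  have hδ0 : 0 < δ := mul_pos (by linarith) (by linarith)
  have hmain : ∀ r, 1 ≤ r → r ∉ E → δ * charT G r ≤ ρ * (∑ P ∈ D, C P) +
      |K| * (Real.posLog (charT G r) + Real.log r + 1) := by
    intro r hr hrE
    have h1 := hKE r hr hrE
    have h2 := hcount r hr
    have h3 : ∑ P ∈ D, Function.locallyFinsuppWithin.logCounting (Pool.Agent.GGL.Dv (W P)) r ≤
        s * charT G r + ∑ P ∈ D, C P := by
      rw [hs, Finset.sum_mul, ← Finset.sum_add_distrib]
      exact Finset.sum_le_sum fun P hP => hC P hP r hr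
    have h4 := mul_le_mul_of_nonneg_left h3 hρ0
    have h5 : K * (Real.posLog (charT G r) + Real.log r + 1) ≤
        |K| * (Real.posLog (charT G r) + Real.log r + 1) := by
      refine mul_le_mul_of_nonneg_right (le_abs_self K) ?_
      have := Real.posLog_nonneg (x := charT G r)
      have := Real.log_nonneg hr
      linarith
    have h6 : ∑ P ∈ D, Nbar (fun z => eval (G z) P) r = ∑ P ∈ D, Nbar (W P) r := rfl
    rw [h6] at h1
    rw [hδ]
    linarith
  set ε : ℝ := δ / (2 * (|K| + 1)) with hε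
  have hK0 : 0 ≤ |K| := abs_nonneg K
  have hε0 : 0 < ε := by positivity
  have hεK : |K| * ε ≤ δ / 2 := by
    rw [hε, ← mul_div_assoc, div_le_iff₀ (by positivity)]
    nlinarith
  set A : ℝ := 2 * (|K| + 1) / δ with hA
  have hA0 : 0 < A := by positivity
  obtain ⟨r₀, hr₀⟩ := charT_exp f hf hf0 hnc A
  set M₀ : ℝ := ρ * (∑ P ∈ D, C P) + |K| * (|Real.log ε| + 1) with hM₀
  obtain ⟨r, hrR, hrE⟩ : ∃ r, max (max r₀ 1) (max (Real.exp M₀ + 1) (Real.exp (1 / A))) ≤ r ∧
      r ∉ E := by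
    by_contra hcon
    push Not at hcon
    have h1 : Set.Ici (max (max r₀ 1) (max (Real.exp M₀ + 1) (Real.exp (1 / A)))) ⊆ E :=
      fun r hr => hcon r hr
    have h2 := MeasureTheory.measure_mono (μ := MeasureTheory.volume) h1
    rw [Real.volume_Ici] at h2
    exact absurd hE (not_lt.2 h2)
  have e1 : r₀ ≤ r := ((le_max_left _ _).trans (le_max_left _ _)).trans hrR
  have e2 : 1 ≤ r := ((le_max_right _ _).trans (le_max_left _ _)).trans hrR
  have e3 : Real.exp M₀ + 1 ≤ r := ((le_max_left _ _).trans (le_max_right _ _)).trans hrR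
  have e4 : Real.exp (1 / A) ≤ r := ((le_max_right _ _).trans (le_max_right _ _)).trans hrR
  have hr0 : 0 < r := by linarith
  have hlog1 : M₀ < Real.log r := (Real.lt_log_iff_exp_lt hr0).2 (by linarith)
  have hlog2 : 1 / A ≤ Real.log r := (Real.le_log_iff_exp_le hr0).2 e4
  have hT := hr₀ r e1
  have hm := hmain r e2 hrE
  have hTG : charT (fun z => f (Complex.exp z)) r = charT G r := rfl
  rw [hTG] at hT
  set T : ℝ := charT G r with hTdef
  have hT1 : 1 ≤ T := by
    have : A * (1 / A) ≤ A * Real.log r := mul_le_mul_of_nonneg_left hlog2 hA0.le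
    rw [mul_one_div_cancel hA0.ne'] at this
    linarith
  have hpl : Real.posLog T ≤ ε * T + |Real.log ε| := by
    have h1 : Real.log (ε * T) ≤ ε * T - 1 := Real.log_le_sub_one_of_pos (by positivity)
    rw [Real.log_mul hε0.ne' (by linarith)] at h1
    have h2 := neg_abs_le (Real.log ε)
    have h3 : Real.posLog T = max 0 (Real.log T) := rfl
    rw [h3]
    refine max_le ?_ ?_
    · have := abs_nonneg (Real.log ε)
      positivity
    · linarith
  have h7 : |K| * (Real.posLog T + Real.log r + 1) ≤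
      |K| * (ε * T + |Real.log ε| + Real.log r + 1) := by
    refine mul_le_mul_of_nonneg_left ?_ hK0
    linarith
  have h8 : |K| * (ε * T) ≤ δ / 2 * T := by
    rw [← mul_assoc]
    exact mul_le_mul_of_nonneg_right hεK (by linarith)
  have h9 : δ / 2 * T ≤ M₀ + |K| * Real.log r := by
    rw [hM₀]
    have : |K| * (ε * T + |Real.log ε| + Real.log r + 1) =
        |K| * (ε * T) + |K| * (|Real.log ε| + 1) + |K| * Real.log r := by ring
    rw [this] at h7
    linarith
  have h10 : (|K| + 1) * Real.log r ≤ δ / 2 * T := by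
    have h11 : δ / 2 * (A * Real.log r) ≤ δ / 2 * T := mul_le_mul_of_nonneg_left hT (by positivity)
    have h12 : δ / 2 * (A * Real.log r) = (|K| + 1) * Real.log r := by
      rw [hA]
      field_simp
    linarith
  nlinarith

end Pool.Agent.LO
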