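import Pool.Agent.Lib_MP_1209e6_ag.Defs

/-! Definition: rational maps such that no place is transverse to a family of hypersurfaces. -/

set_option autoImplicit false

namespace Pool.Agent.LO
open MvPolynomial Pool.Agent.Campana

/-- `y_0, …, y_n` are homogeneous coordinates of a rational map from a variety with function field
`K` to `ℙⁿ`, which is ramified over the members of `D`: at each place, the orders of the members of
`D` (relative to the least order `c` of the nonzero coordinates) are not all at most one, unless all
are zero. -/
def RamifiedPl {K : Type} [Field K] [Algebra ℂ K] {n : ℕ} (y : Fin (n + 1) → K)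
    (D : Finset (MvPolynomial (Fin (n + 1)) ℂ)) : Prop :=
  ∀ O : ValuationSubring K, IsPlace O → ∀ v : K → ℤ, IsOrd O v → ∀ c : ℤ,
    (∀ i, y i ≠ 0 → c ≤ v (y i)) → (∃ i, y i ≠ 0 ∧ v (y i) = c) →
    (∀ P ∈ D, v (aeval y P) ≤ P.totalDegree * c + 1) → ∀ P ∈ D, v (aeval y P) ≤ P.totalDegree * c

end Pool.Agent.LO
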