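import Pool.Agent.Lib_MP_1209e6_fl.W1

/-! Piece LO-5: common zeros of entire functions. -/

set_option autoImplicit false

open Filter Topology

namespace Pool.Agent.LO


/-- PIECE LO-5. Removing the common zeros of entire functions.  Proof.  `m z` = least order of the `h i` at
`z` (finite; `0` outside a discrete set); `weierstrass` (Lib_MP_1209e6_fl/W1.lean, namespace
Pool.Agent.CampanaFlow) gives `u` entire of order exactly `m z` at every `z`.  `g z i = h i z / u z`
where `u z ≠ 0`, extended over the zeros of `u` (the order of the quotient is `≥ 0`: see W4.lean of the same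
folder for the same extension, `brody_of_curve`).  Differentiable, and at each `z` some `g z i ≠ 0`, the one of least
order. -/
theorem exists_gcd {n : ℕ} (h : Fin (n + 1) → ℂ → ℂ) (hd : ∀ i, Differentiable ℂ (h i))
    (h0 : ∃ i z, h i z ≠ 0) :
    ∃ (u : ℂ → ℂ) (g : ℂ → Fin (n + 1) → ℂ), Differentiable ℂ u ∧ (∃ z, u z ≠ 0) ∧
      Differentiable ℂ g ∧ (∀ z, g z ≠ 0) ∧ ∀ z i, h i z = u z * g z i := by
  classical
  obtain ⟨i₀, z₀, hi₀⟩ := h0
  have hana : ∀ i z, AnalyticAt ℂ (h i) z := fun i z => (hd i).analyticAt z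
  have htop : ∀ z, analyticOrderAt (h i₀) z ≠ ⊤ := by
    intro z hz
    rw [analyticOrderAt_eq_top] at hz
    have h1 : AnalyticOnNhd ℂ (h i₀) Set.univ := fun z _ => hana i₀ z
    have h2 := h1.eqOn_zero_of_preconnected_of_eventuallyEq_zero isPreconnected_univ (Set.mem_univ z) hz
    exact hi₀ (h2 (Set.mem_univ z₀))
  have hmex : ∀ z, ∃ m : ℕ, ∃ l, analyticOrderAt (h l) z = (m : ℕ∞) ∧
      ∀ i, (m : ℕ∞) ≤ analyticOrderAt (h i) z := by
    intro z
    obtain ⟨l, hl⟩ := Finite.exists_min fun l => analyticOrderAt (h l) z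
    have hne : analyticOrderAt (h l) z ≠ ⊤ := fun h1 => by
      have h2 := hl i₀
      rw [h1] at h2
      exact htop z (top_le_iff.1 h2)
    obtain ⟨k, hk⟩ := ENat.ne_top_iff_exists.1 hne
    refine ⟨k, l, hk.symm, fun i => ?_⟩
    rw [hk]
    exact hl i
  choose m hm using hmex
  have hne0 : ∀ z, ∀ᶠ w in 𝓝[≠] z, h i₀ w ≠ 0 := by
    intro z
    rcases (hana i₀ z).eventually_eq_zero_or_eventually_ne_zero with h1 | h1
    · exact absurd (analyticOrderAt_eq_top.2 h1) (htop z)
    · exact h1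
  have hm0 : ∀ z, ∀ᶠ w in 𝓝[≠] z, m w = 0 := by
    intro z
    filter_upwards [hne0 z] with w hw
    obtain ⟨l, -, h1⟩ := hm w
    have h2 := h1 i₀
    rw [(hana i₀ w).analyticOrderAt_eq_zero.2 hw] at h2
    exact_mod_cast nonpos_iff_eq_zero.1 h2
  obtain ⟨E, hE, hEord⟩ := Pool.Agent.CampanaFlow.weierstrass m hm0
  have hEana : ∀ z, AnalyticAt ℂ E z := fun z => hE.analyticAt z
  have hEmer : ∀ z, meromorphicOrderAt E z = ((m z : ℤ) : WithTop ℤ) := by
    intro z
    rw [(hEana z).meromorphicOrderAt_eq, hEord z]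
    rfl
  have hEne : ∀ z, ∀ᶠ w in 𝓝[≠] z, E w ≠ 0 := by
    intro z
    rw [← meromorphicOrderAt_ne_top_iff_eventually_ne_zero (hEana z).meromorphicAt, hEmer z]
    exact WithTop.coe_ne_top
  have hEinv : ∀ z, meromorphicOrderAt E⁻¹ z = ((-(m z : ℤ) : ℤ) : WithTop ℤ) := by
    intro z
    rw [meromorphicOrderAt_inv, hEmer z]
    rfl
  have hhmer : ∀ l z, ((m z : ℤ) : WithTop ℤ) ≤ meromorphicOrderAt (h l) z := by
    intro l z
    obtain ⟨-, -, h1⟩ := hm z
    have h2 := h1 l
    rw [(hana l z).meromorphicOrderAt_eq]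
    by_cases h3 : analyticOrderAt (h l) z = ⊤
    · rw [h3]
      exact le_top
    · obtain ⟨k, hk⟩ := ENat.ne_top_iff_exists.1 h3
      rw [← hk] at h2 ⊢
      have h4 : m z ≤ k := by exact_mod_cast h2
      have h5 : ((m z : ℤ) : WithTop ℤ) ≤ ((k : ℤ) : WithTop ℤ) := by exact_mod_cast h4
      exact h5
  have hsum0 : ∀ z, ((m z : ℤ) : WithTop ℤ) + ((-(m z : ℤ) : ℤ) : WithTop ℤ) = 0 := by
    intro z
    rw [← WithTop.coe_add, add_neg_cancel]
    rfl
  obtain ⟨G, hG⟩ : ∃ G : Fin (n + 1) → ℂ → ℂ, G = fun l => h l * E⁻¹ := ⟨_, rfl⟩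
  have hGmer : ∀ l, MeromorphicOn (G l) Set.univ := fun l z _ => by
    rw [hG]
    exact (hana l z).meromorphicAt.mul (hEana z).meromorphicAt.inv
  have hGord : ∀ l z, meromorphicOrderAt (G l) z =
      meromorphicOrderAt (h l) z + ((-(m z : ℤ) : ℤ) : WithTop ℤ) := by
    intro l z
    rw [← hEinv z, hG]
    exact meromorphicOrderAt_mul (hana l z).meromorphicAt (hEana z).meromorphicAt.inv
  obtain ⟨F, hF⟩ : ∃ F : Fin (n + 1) → ℂ → ℂ, F = fun l => toMeromorphicNFOn (G l) Set.univ := ⟨_, rfl⟩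
  have hFnf : ∀ l z, MeromorphicNFAt (F l) z := fun l z => by
    rw [hF]
    exact meromorphicNFOn_toMeromorphicNFOn (G l) Set.univ (Set.mem_univ z)
  have hFord : ∀ l z, meromorphicOrderAt (F l) z =
      meromorphicOrderAt (h l) z + ((-(m z : ℤ) : ℤ) : WithTop ℤ) := fun l z => by
    rw [hF]
    exact (meromorphicOrderAt_toMeromorphicNFOn (hGmer l) (Set.mem_univ z)).trans (hGord l z)
  have hFana : ∀ l z, AnalyticAt ℂ (F l) z := by
    intro l z
    rw [← (hFnf l z).meromorphicOrderAt_nonneg_iff_analyticAt, hFord, ← hsum0 z]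
    exact add_le_add (hhmer l z) le_rfl
  have hFeq : ∀ l z, ∀ᶠ w in 𝓝[≠] z, F l w = G l w := by
    intro l z
    rw [hF]
    exact (hGmer l).toMeromorphicNFOn_eq_self_on_nhdsNE (Set.mem_univ z)
  have hFd : Differentiable ℂ (fun z l => F l z) := by
    rw [differentiable_pi]
    exact fun l z => (hFana l z).differentiableAt
  refine ⟨E, fun z l => F l z, hE, (hEne 0).exists, hFd, ?_, ?_⟩
  · intro z hz
    obtain ⟨l, hl, -⟩ := hm z
    have h1 : meromorphicOrderAt (F l) z = 0 := by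
      rw [hFord, (hana l z).meromorphicOrderAt_eq, hl]
      exact hsum0 z
    exact ((hFnf l z).meromorphicOrderAt_eq_zero_iff.1 h1) (congrFun hz l)
  · intro z l
    have hev : (fun w => h l w) =ᶠ[𝓝[≠] z] fun w => E w * F l w := by
      filter_upwards [hFeq l z, hEne z] with w hw hEw
      rw [hw, hG]
      show h l w = E w * (h l w * (E w)⁻¹)
      field_simp
    exact ((hana l z).continuousAt.eventuallyEq_nhds_iff_eventuallyEq_nhdsNE
      ((hEana z).continuousAt.mul (hFana l z).continuousAt)).1 hev |>.eq_of_nhds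

end Pool.Agent.LO
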