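import Mathlib

/-! Definition: rational maps such that no arc is transverse to a family of hypersurfaces. -/

set_option autoImplicit false

namespace Pool.Agent.LO
open MvPolynomial

/-- The rational map `φ` from `V(S)` to projective space is ramified over the members of `D`: along
each holomorphic arc `u` of `V(S)` the orders of vanishing of the members of `D` at the centre
(relative to the least order `c` of the coordinates of `φ(u)`), if finite, are not all at most one,
unless all are zero. -/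
def Ramified {m n : ℕ} (S : Set (MvPolynomial (Fin (m + 1)) ℂ))
    (φ : Fin (n + 1) → MvPolynomial (Fin (m + 1)) ℂ)
    (D : Finset (MvPolynomial (Fin (n + 1)) ℂ)) : Prop :=
  ∀ u : ℂ → Fin (m + 1) → ℂ, AnalyticAt ℂ u 0 → u 0 ≠ 0 →
    (∀ᶠ ζ in nhds (0 : ℂ), ∀ p ∈ S, eval (u ζ) p = 0) →
    ∀ c : ℕ, (∀ i, (c : ℕ∞) ≤ analyticOrderAt (fun ζ => eval (u ζ) (φ i)) 0) →
    (∃ i, analyticOrderAt (fun ζ => eval (u ζ) (φ i)) 0 = c) →
    ∀ o : MvPolynomial (Fin (n + 1)) ℂ → ℕ,
      (∀ P ∈ D, analyticOrderAt (fun ζ => eval (u ζ) (aeval φ P)) 0 =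
        ((P.totalDegree * c + o P : ℕ) : ℕ∞)) →
      (∀ P ∈ D, o P ≤ 1) → ∀ P ∈ D, o P = 0

end Pool.Agent.LO
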