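import Pool.Agent.Lib_MP_b9fedf_lo.DefsLO
import Pool.Agent.Lib_MP_b9fedf_lo.DefsRa

/-! Ramified maps are ramified on average with ratio `M / (M + 1)`, if at most `M` members pass
through a point. -/

set_option autoImplicit false

namespace Pool.Agent.LO
open MvPolynomial Pool.Agent.QY Pool.Agent.Stat

/-- elementary counting -/
theorem ratio_count {ι : Type} (D : Finset ι) (o : ι → ℕ) {M : ℕ}
    (hM : (D.filter fun P => o P ≠ 0).card ≤ M)
    (h : (∀ P ∈ D, o P ≤ 1) → ∀ P ∈ D, o P = 0) :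
    ((D.filter fun P => o P ≠ 0).card : ℝ) ≤ (M : ℝ) / (M + 1) * ∑ P ∈ D, (o P : ℝ) := by
  classical
  set k := (D.filter fun P => o P ≠ 0).card with hk
  have hM1 : (0 : ℝ) < (M : ℝ) + 1 := by positivity
  by_cases h1 : ∀ P ∈ D, o P ≤ 1
  · have h2 := h h1
    have h3 : k = 0 := by
      rw [hk, Finset.card_eq_zero, Finset.filter_eq_empty_iff]
      intro P hP
      rw [not_not]
      exact h2 P hP
    rw [h3, Nat.cast_zero]
    positivity
  push Not at h1
  obtain ⟨P₁, hP₁, hP₁o⟩ := h1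
  have h2 : k + 1 ≤ ∑ P ∈ D, o P := by
    have h3 : ∑ P ∈ D, ((if o P ≠ 0 then 1 else 0) + if P = P₁ then 1 else 0) ≤ ∑ P ∈ D, o P := by
      refine Finset.sum_le_sum fun P hP => ?_
      by_cases hPP : P = P₁
      · subst hPP
        rw [if_pos rfl, if_pos (by omega)]
        omega
      · rw [if_neg hPP]
        split_ifs with h4
        · omega
        · omega
    rw [Finset.sum_add_distrib, Finset.sum_ite_eq', if_pos hP₁, ← Finset.sum_filter,
      ← Finset.card_eq_sum_ones] at h3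
    exact h3
  have h3 : ((k : ℝ) + 1) ≤ ∑ P ∈ D, (o P : ℝ) := by exact_mod_cast h2
  have h4 : (k : ℝ) ≤ M := by exact_mod_cast hM
  have h5 : (M : ℝ) / (M + 1) * ((k : ℝ) + 1) ≤ (M : ℝ) / (M + 1) * ∑ P ∈ D, (o P : ℝ) :=
    mul_le_mul_of_nonneg_left h3 (by positivity)
  refine le_trans ?_ h5
  rw [div_mul_eq_mul_div, le_div_iff₀ hM1]
  nlinarith

/-- scaling of a homogeneous form -/
private theorem eval_scale_ra {n d : ℕ} (P : MvPolynomial (Fin (n + 1)) ℂ) (hP : P.IsHomogeneous d)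
    (t : ℂ) (x : Fin (n + 1) → ℂ) : eval (fun i => t * x i) P = t ^ d * eval x P := by
  classical
  rw [eval_eq', eval_eq', Finset.mul_sum]
  refine Finset.sum_congr rfl fun s hs => ?_
  have h1 : ∑ i, s i = d := by
    have := hP (mem_support_iff.mp hs)
    rw [Finsupp.weight_apply, Finsupp.sum_fintype _ _ (by simp)] at this
    simpa using this
  have h2 : ∏ i, (t * x i) ^ s i = t ^ d * ∏ i, x i ^ s i := by
    rw [← h1, ← Finset.prod_pow_eq_pow_sum, ← Finset.prod_mul_distrib]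
    exact Finset.prod_congr rfl fun i _ => mul_pow _ _ _
  rw [h2]
  ring

theorem ramified_avg {m n M : ℕ} {q : Ideal (MvPolynomial (Fin (n + 1)) ℂ)} (hqh : HomI q)
    {D : Finset (MvPolynomial (Fin (n + 1)) ℂ)}
    (hD : ∀ P ∈ D, P.IsHomogeneous P.totalDegree)
    (hpos : ∀ x : Fin (n + 1) → ℂ, x ≠ 0 → (∀ g ∈ q, eval x g = 0) → ∀ D' ⊆ D,
        (∀ P ∈ D', eval x P = 0) → D'.card ≤ M)
    {S : Set (MvPolynomial (Fin (m + 1)) ℂ)} {φ : Fin (n + 1) → MvPolynomial (Fin (m + 1)) ℂ}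
    (hφq : ∀ g ∈ q, ∀ x : Fin (m + 1) → ℂ, (∀ p ∈ S, eval x p = 0) → eval x (aeval φ g) = 0)
    (hR : Ramified S φ D) : RamifiedOnAverage ((M : ℝ) / (M + 1)) S φ D := by
  classical
  intro u hu hu0 huS c hc hc' o ho
  have hhomP := hR u hu hu0 huS c hc hc' o ho
  refine ratio_count D o ?_ hhomP
  -- the limit point
  have hev : ∀ (x : Fin (m + 1) → ℂ) (Q : MvPolynomial (Fin (n + 1)) ℂ),
      eval x (aeval φ Q) = eval (fun i => eval x (φ i)) Q := by
    intro x Q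
    have h1 := comp_aeval_apply (f := φ) (aeval x : MvPolynomial (Fin (m + 1)) ℂ →ₐ[ℂ] ℂ) Q
    rw [← coe_aeval_eq_eval, ← coe_aeval_eq_eval]
    exact h1
  have hpa : ∀ Q : MvPolynomial (Fin (m + 1)) ℂ, AnalyticAt ℂ (fun ζ => eval (u ζ) Q) 0 := by
    intro Q
    have h1 : AnalyticAt ℂ (fun x : Fin (m + 1) → ℂ => eval x Q) (u 0) :=
      AnalyticOnNhd.eval_mvPolynomial Q (u 0) (Set.mem_univ _)
    exact h1.comp hu
  have hg : ∀ i, ∃ g : ℂ → ℂ, AnalyticAt ℂ g 0 ∧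
      ∀ᶠ ζ in nhds (0 : ℂ), eval (u ζ) (φ i) = ζ ^ c * g ζ := by
    intro i
    obtain ⟨g, hga, hg⟩ := (natCast_le_analyticOrderAt (hpa (φ i))).1 (hc i)
    refine ⟨g, hga, hg.mono fun ζ hζ => ?_⟩
    rw [hζ, sub_zero, smul_eq_mul]
  choose g hga hg using hg
  set x : Fin (n + 1) → ℂ := fun i => g i 0 with hx
  have hx0 : x ≠ 0 := by
    obtain ⟨i, hi⟩ := hc'
    obtain ⟨g', hg'a, hg'0, hg'⟩ := ((hpa (φ i)).analyticOrderAt_eq_natCast).1 hi
    intro h0
    have h1 : g i 0 = 0 := congrFun h0 i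
    apply hg'0
    have h2 : ∀ᶠ ζ in nhdsWithin (0 : ℂ) {0}ᶜ, g' ζ = g i ζ := by
      filter_upwards [nhdsWithin_le_nhds hg', nhdsWithin_le_nhds (hg i), self_mem_nhdsWithin]
        with ζ h3 h4 h5
      rw [h4, sub_zero, smul_eq_mul] at h3
      have h6 : ζ ^ c ≠ 0 := pow_ne_zero _ h5
      exact (mul_left_cancel₀ h6 h3).symm
    have h3 := tendsto_nhds_unique_of_eventuallyEq
      (hg'a.continuousAt.tendsto.mono_left nhdsWithin_le_nhds)
      ((hga i).continuousAt.tendsto.mono_left nhdsWithin_le_nhds) h2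
    rw [h3, h1]
  have hall : ∀ᶠ ζ in nhds (0 : ℂ), ∀ i, eval (u ζ) (φ i) = ζ ^ c * g i ζ :=
    Filter.eventually_all.2 fun i => hg i
  have hPg : ∀ (d : ℕ) (Q : MvPolynomial (Fin (n + 1)) ℂ), Q.IsHomogeneous d →
      ∀ᶠ ζ in nhds (0 : ℂ), eval (u ζ) (aeval φ Q) = ζ ^ (c * d) * eval (fun i => g i ζ) Q := by
    intro d Q hQ
    filter_upwards [hall] with ζ hζ
    rw [hev, show (fun i => eval (u ζ) (φ i)) = fun i => ζ ^ c * g i ζ from funext hζ,
      eval_scale_ra Q hQ, ← pow_mul]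
  have hQga : ∀ Q : MvPolynomial (Fin (n + 1)) ℂ, AnalyticAt ℂ (fun ζ => eval (fun i => g i ζ) Q) 0 := by
    intro Q
    have h1 : AnalyticAt ℂ (fun x : Fin (n + 1) → ℂ => eval x Q) (fun i => g i 0) :=
      AnalyticOnNhd.eval_mvPolynomial Q _ (Set.mem_univ _)
    have h2 : AnalyticAt ℂ (fun ζ => (fun i => g i ζ)) 0 := AnalyticAt.pi fun i => hga i
    exact h1.comp (f := fun ζ => (fun i => g i ζ)) h2
  have hxq : ∀ Q ∈ q, eval x Q = 0 := by
    have hom : ∀ (d : ℕ) (Q : MvPolynomial (Fin (n + 1)) ℂ), Q ∈ q → Q.IsHomogeneous d →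
        eval x Q = 0 := by
      intro d Q hQ hQh
      have h2 : ∀ᶠ ζ in nhdsWithin (0 : ℂ) {0}ᶜ, eval (fun i => g i ζ) Q = (0 : ℂ) := by
        filter_upwards [nhdsWithin_le_nhds (hPg d Q hQh), nhdsWithin_le_nhds huS,
          self_mem_nhdsWithin] with ζ h3 h4 h5
        rw [hφq Q hQ (u ζ) h4] at h3
        have h6 : ζ ^ (c * d) ≠ 0 := pow_ne_zero _ h5
        rcases mul_eq_zero.1 h3.symm with h7 | h7
        · exact absurd h7 h6
        · exact h7
      exact tendsto_nhds_unique_of_eventuallyEq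
        ((hQga Q).continuousAt.tendsto.mono_left nhdsWithin_le_nhds) tendsto_const_nhds h2
    intro Q hQ
    rw [← sum_homogeneousComponent Q, map_sum]
    exact Finset.sum_eq_zero fun d _ => hom d _ (hqh Q hQ d) (homogeneousComponent_isHomogeneous d Q)
  refine hpos x hx0 hxq _ (Finset.filter_subset _ _) ?_
  intro P hP
  obtain ⟨hPD, hPo⟩ := Finset.mem_filter.1 hP
  have h1 := hPg _ P (hD P hPD)
  by_contra hne
  have h2 : analyticOrderAt (fun ζ => eval (fun i => g i ζ) P) 0 = 0 :=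
    (hQga P).analyticOrderAt_eq_zero.2 hne
  have h3 : analyticOrderAt (fun ζ => eval (u ζ) (aeval φ P)) 0 =
      ((c * P.totalDegree : ℕ) : ℕ∞) := by
    rw [(hpa (aeval φ P)).analyticOrderAt_eq_natCast]
    refine ⟨fun ζ => eval (fun i => g i ζ) P, hQga P, hne, h1.mono fun ζ hζ => ?_⟩
    rw [hζ, sub_zero, smul_eq_mul]
  rw [ho P hPD] at h3
  have h4 : P.totalDegree * c + o P = c * P.totalDegree := by exact_mod_cast h3
  rw [mul_comm] at h4
  omega

end Pool.Agent.LO
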