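import Pool.Agent.Lib_MP_b9fedf_lo.LoForms

/-! Piece LO-4: forms of bounded degree. -/

set_option autoImplicit false

namespace Pool.Agent.LO
open MvPolynomial Pool.Agent.GGL Pool.Agent.SQ Pool.Agent.Stat Pool.Agent.QY

private theorem Nbar_nonneg_lomixed (W : ℂ → ℂ) {r : ℝ} (hr : 1 ≤ r) : 0 ≤ Nbar W r := by
  unfold Nbar
  refine finsum_mem_induction (fun x : ℝ => 0 ≤ x) le_rfl (fun x y hx hy => add_nonneg hx hy)
    fun a ha => ?_
  apply Real.log_nonneg
  rw [one_le_div (by positivity)]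
  exact max_le hr ha.1

private theorem fiber_lomixed {α : Type} (D : Finset α) (deg : α → ℕ) (e : ℕ)
    (hdeg : ∀ P ∈ D, 1 ≤ deg P ∧ deg P ≤ e) (g : α → ℝ) :
    ∑ k ∈ Finset.Icc 1 e, ∑ P ∈ D.filter (fun P => deg P = k), g P = ∑ P ∈ D, g P :=
  Finset.sum_fiberwise_of_maps_to (fun P hP => Finset.mem_Icc.2 (hdeg P hP)) g

private theorem fiber_le_lomixed {α : Type} (D : Finset α) (deg : α → ℕ) (e : ℕ)
    (hdeg : ∀ P ∈ D, 1 ≤ deg P ∧ deg P ≤ e) (g : α → ℝ) (hg : ∀ P ∈ D, 0 ≤ g P) (B : Finset ℕ)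
    (hB : B ⊆ Finset.Icc 1 e) :
    ∑ k ∈ B, ∑ P ∈ D.filter (fun P => deg P = k), g P ≤ ∑ P ∈ D, g P := by
  rw [← fiber_lomixed D deg e hdeg g]
  refine Finset.sum_le_sum_of_subset_of_nonneg hB fun k _ _ => ?_
  exact Finset.sum_nonneg fun P hP => hg P (Finset.mem_of_mem_filter _ hP)

/-- the classes with few members have a small total degree -/
private theorem small_lomixed {α : Type} (D : Finset α) (deg : α → ℕ) (e : ℕ)
    (hdeg : ∀ P ∈ D, 1 ≤ deg P ∧ deg P ≤ e) (N : ℕ → ℕ) {η' : ℝ} (hη' : 0 < η')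
    (hcard : ⌈((e : ℝ) * (∑ k ∈ Finset.Icc 1 e, N k : ℕ)) / η'⌉₊ < D.card) (B : Finset ℕ)
    (hB : B = (Finset.Icc 1 e).filter (fun k => N k < (D.filter (fun P => deg P = k)).card)) :
    (1 - η') * ∑ P ∈ D, (deg P : ℝ) ≤
      ∑ k ∈ B, ∑ P ∈ D.filter (fun P => deg P = k), (deg P : ℝ) := by
  have h1 := fiber_lomixed D deg e hdeg (fun P => (deg P : ℝ))
  rw [← Finset.sum_filter_add_sum_filter_not (Finset.Icc 1 e)
    (fun k => N k < (D.filter (fun P => deg P = k)).card), ← hB] at h1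
  have h2 : ∑ k ∈ (Finset.Icc 1 e).filter (fun k => ¬ N k < (D.filter (fun P => deg P = k)).card),
      ∑ P ∈ D.filter (fun P => deg P = k), (deg P : ℝ) ≤ (e : ℝ) * (∑ k ∈ Finset.Icc 1 e, N k : ℕ) := by
    calc ∑ k ∈ (Finset.Icc 1 e).filter (fun k => ¬ N k < (D.filter (fun P => deg P = k)).card),
          ∑ P ∈ D.filter (fun P => deg P = k), (deg P : ℝ)
        ≤ ∑ k ∈ (Finset.Icc 1 e).filter (fun k => ¬ N k < (D.filter (fun P => deg P = k)).card),
          (e : ℝ) * N k := by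
          refine Finset.sum_le_sum fun k hk => ?_
          rw [Finset.mem_filter, Finset.mem_Icc, not_lt] at hk
          have h3 : ∑ P ∈ D.filter (fun P => deg P = k), (deg P : ℝ) =
              ∑ P ∈ D.filter (fun P => deg P = k), (k : ℝ) := by
            refine Finset.sum_congr rfl fun P hP => ?_
            rw [(Finset.mem_filter.1 hP).2]
          rw [h3, Finset.sum_const, nsmul_eq_mul, mul_comm]
          have h4 : (k : ℝ) ≤ e := by exact_mod_cast hk.1.2
          have h5 : ((D.filter (fun P => deg P = k)).card : ℝ) ≤ N k := by exact_mod_cast hk.2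
          exact mul_le_mul h4 h5 (by positivity) (by positivity)
      _ ≤ ∑ k ∈ Finset.Icc 1 e, (e : ℝ) * N k :=
          Finset.sum_le_sum_of_subset_of_nonneg (Finset.filter_subset _ _) fun k _ _ => by positivity
      _ = (e : ℝ) * (∑ k ∈ Finset.Icc 1 e, N k : ℕ) := by
          rw [← Finset.mul_sum]
          push_cast
          rfl
  have h3 : ((e : ℝ) * (∑ k ∈ Finset.Icc 1 e, N k : ℕ)) / η' < D.card := Nat.lt_of_ceil_lt hcard
  rw [div_lt_iff₀ hη'] at h3
  have h4 : (D.card : ℝ) ≤ ∑ P ∈ D, (deg P : ℝ) := by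
    have h5 : ∑ P ∈ D, (1 : ℝ) ≤ ∑ P ∈ D, (deg P : ℝ) :=
      Finset.sum_le_sum fun P hP => by exact_mod_cast (hdeg P hP).1
    simpa using h5
  have h5 : (D.card : ℝ) * η' ≤ (∑ P ∈ D, (deg P : ℝ)) * η' := mul_le_mul_of_nonneg_right h4 hη'.le
  linarith

/-- PIECE LO-4. Many forms of bounded degree; all members of `D` divide `Z`.  Proof.  `N_k` from
`lo_forms` for degree `k`, `1 ≤ k ≤ e`, and `η' = η / 2`; `N₁ = max N_k`, `N` with `e * e * N₁ ≤ η' N`.
`D_k` = members of degree `k`.  Let `Z` be the product of the members of `D` and of the `Z_k` over the `k` with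
`|D_k| > N_k`; `LevelOne η' q D_k Z_k` for these `k`; add them up (finite union of the sets `E`).  The total
degree of the other classes is at most `e * e * N₁ ≤ η' |D| ≤ η' ∑ deg`, so
`(1 - η) ∑_D deg ≤ (1 - η') ∑_(big classes) deg`; `charT f r` is bounded below as in LO-3, and the terms
`Nbar` are nonnegative.  `d ≥ 1` as `D` is not empty and its members have positive degree. -/
theorem lo_mixed (n e M : ℕ) (q : Ideal (MvPolynomial (Fin (n + 1)) ℂ))
    (hq : q.IsPrime) (hqh : HomI q) {η : ℝ} (hη : 0 < η) (hη1 : η < 1) :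
    ∃ N : ℕ, ∀ D : Finset (MvPolynomial (Fin (n + 1)) ℂ),
      (∀ P ∈ D, 1 ≤ P.totalDegree ∧ P.totalDegree ≤ e ∧ P.IsHomogeneous P.totalDegree ∧
        RedOn q P) →
      (∀ P ∈ D, ∀ P' ∈ D, ∀ c : ℂ, P' - C c * P ∈ q → P' = P) →
      (∀ x : Fin (n + 1) → ℂ, x ≠ 0 → (∀ g ∈ q, eval x g = 0) → ∀ D' ⊆ D,
        (∀ P ∈ D', eval x P = 0) → D'.card ≤ M) →
      N < D.card →
      ∃ (d : ℕ) (Z : MvPolynomial (Fin (n + 1)) ℂ), 1 ≤ d ∧ Z ∉ q ∧ Z.IsHomogeneous d ∧
        (∀ P ∈ D, P ∣ Z) ∧ LevelOne η q D Z := by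
  classical
  have hη' : 0 < η / 2 := by positivity
  have hη'1 : η / 2 < 1 := by linarith
  have h0 := fun (k : ℕ) (hk : 1 ≤ k) => lo_forms n k M hk q hq hqh hη' hη'1
  choose! N hN using h0
  refine ⟨⌈((e : ℝ) * (∑ k ∈ Finset.Icc 1 e, N k : ℕ)) / (η / 2)⌉₊, fun D hD hprop hM hcard => ?_⟩
  have hdeg : ∀ P ∈ D, 1 ≤ P.totalDegree ∧ P.totalDegree ≤ e := fun P hP => ⟨(hD P hP).1, (hD P hP).2.1⟩
  obtain ⟨B, hBdef⟩ : ∃ B : Finset ℕ, B = (Finset.Icc 1 e).filter
      (fun k => N k < (D.filter (fun P => P.totalDegree = k)).card) := ⟨_, rfl⟩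
  have hBsub : B ⊆ Finset.Icc 1 e := by
    rw [hBdef]
    exact Finset.filter_subset _ _
  have hB : ∀ k ∈ B, ∃ (d : ℕ) (Z : MvPolynomial (Fin (n + 1)) ℂ), Z ∉ q ∧ Z.IsHomogeneous d ∧
      LevelOne (η / 2) q (D.filter (fun P => P.totalDegree = k)) Z := by
    intro k hk
    rw [hBdef, Finset.mem_filter, Finset.mem_Icc] at hk
    refine hN k hk.1.1 (D.filter (fun P => P.totalDegree = k)) ?_ ?_ ?_ hk.2
    · intro P hP
      rw [Finset.mem_filter] at hP
      have h1 := hD P hP.1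
      refine ⟨?_, h1.2.2.2⟩
      have h2 := h1.2.2.1
      rw [hP.2] at h2
      exact h2
    · intro P hP P' hP' c h
      exact hprop P (Finset.mem_of_mem_filter _ hP) P' (Finset.mem_of_mem_filter _ hP') c h
    · intro x hx hxq D' hD' h
      exact hM x hx hxq D' (hD'.trans (Finset.filter_subset _ _)) h
  choose! d Z hZq hZh hL using hB
  refine ⟨(∑ P ∈ D, P.totalDegree) + ∑ k ∈ B, d k, (∏ P ∈ D, P) * ∏ k ∈ B, Z k, ?_, ?_, ?_, ?_, ?_⟩
  · have hne : D.Nonempty := Finset.card_pos.1 (lt_of_le_of_lt (Nat.zero_le _) hcard)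
    obtain ⟨P, hP⟩ := hne
    have h1 := (hD P hP).1
    have h2 : P.totalDegree ≤ ∑ P ∈ D, P.totalDegree :=
      Finset.single_le_sum (f := fun P : MvPolynomial (Fin (n + 1)) ℂ => P.totalDegree)
        (fun _ _ => Nat.zero_le _) hP
    omega
  · intro h
    rcases hq.mem_or_mem h with h1 | h1
    · obtain ⟨P, hP, hPq⟩ := (hq.prod_mem_iff).1 h1
      exact (hD P hP).2.2.2.1 hPq
    · obtain ⟨k, hk, hkq⟩ := (hq.prod_mem_iff).1 h1
      exact hZq k hk hkq
  · exact (MvPolynomial.IsHomogeneous.prod D (fun P => P) (fun P => P.totalDegree)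
      (fun P hP => (hD P hP).2.2.1)).mul (MvPolynomial.IsHomogeneous.prod B Z d fun k hk => hZh k hk)
  · intro P hP
    exact (Finset.dvd_prod_of_mem (fun P => P) hP).mul_right _
  · intro f hf hf0 hfq hfZ hnc
    obtain ⟨z₀, hz₀⟩ := hfZ
    rw [map_mul, map_prod, map_prod] at hz₀
    have hz1 : ∏ k ∈ B, eval (f z₀) (Z k) ≠ 0 := right_ne_zero_of_mul hz₀
    have hBex := fun (k : ℕ) (hk : k ∈ B) =>
      hL k hk f hf hf0 hfq ⟨z₀, Finset.prod_ne_zero_iff.1 hz1 k hk⟩ hnc
    choose! K E hE hKE using hBex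
    refine ⟨∑ k ∈ B, |K k|, ⋃ k ∈ B, E k, ?_, fun r hr hrE => ?_⟩
    · exact (MeasureTheory.measure_biUnion_finset_le B E).trans_lt (ENNReal.sum_lt_top.2 hE)
    · have hlr : 0 ≤ Real.log r := Real.log_nonneg hr
      have hX : 0 ≤ Real.posLog (charT f r) + Real.log r + 1 := by
        have := Real.posLog_nonneg (x := charT f r)
        linarith
      have hNb : ∀ P ∈ D, 0 ≤ Nbar (fun z => eval (f z) P) r := fun P _ => Nbar_nonneg_lomixed _ hr
      have hNsum : 0 ≤ ∑ P ∈ D, Nbar (fun z => eval (f z) P) r := Finset.sum_nonneg hNb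
      have hKs : 0 ≤ ∑ k ∈ B, |K k| := Finset.sum_nonneg fun k _ => abs_nonneg _
      have hRHS : 0 ≤ ∑ P ∈ D, Nbar (fun z => eval (f z) P) r +
          (∑ k ∈ B, |K k|) * (Real.posLog (charT f r) + Real.log r + 1) :=
        add_nonneg hNsum (mul_nonneg hKs hX)
      have hS : 0 ≤ ∑ P ∈ D, (P.totalDegree : ℝ) := Finset.sum_nonneg fun P _ => by positivity
      rcases lt_or_ge (charT f r) 0 with hT | hT
      · refine le_trans ?_ hRHS
        exact mul_nonpos_of_nonneg_of_nonpos (mul_nonneg (by linarith) hS) hT.le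
      · have hk : ∀ k ∈ B, (1 - η / 2) * (∑ P ∈ D.filter (fun P => P.totalDegree = k),
              (P.totalDegree : ℝ)) * charT f r ≤
            ∑ P ∈ D.filter (fun P => P.totalDegree = k), Nbar (fun z => eval (f z) P) r +
              |K k| * (Real.posLog (charT f r) + Real.log r + 1) := by
          intro k hk
          have h1 := hKE k hk r hr (fun h => hrE (Set.mem_biUnion hk h))
          have h2 := mul_le_mul_of_nonneg_right (le_abs_self (K k)) hX
          linarith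
        have hsum := Finset.sum_le_sum hk
        rw [Finset.sum_add_distrib, ← Finset.sum_mul, ← Finset.sum_mul, ← Finset.mul_sum] at hsum
        have hle := fiber_le_lomixed D (fun P => P.totalDegree) e hdeg
          (fun P => Nbar (fun z => eval (f z) P) r) hNb B hBsub
        have hsm := small_lomixed D (fun P => P.totalDegree) e hdeg N hη' hcard B hBdef
        have h3 : (1 - η) * (∑ P ∈ D, (P.totalDegree : ℝ)) ≤ (1 - η / 2) *
            ∑ k ∈ B, ∑ P ∈ D.filter (fun P => P.totalDegree = k), (P.totalDegree : ℝ) := by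
          have h4 := mul_le_mul_of_nonneg_left hsm (show 0 ≤ 1 - η / 2 by linarith)
          refine le_trans ?_ h4
          rw [← mul_assoc]
          refine mul_le_mul_of_nonneg_right ?_ hS
          nlinarith [sq_nonneg η]
        have h5 := mul_le_mul_of_nonneg_right h3 hT
        linarith

end Pool.Agent.LO
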