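import Pool.Agent.Lib_MP_b9fedf_lo.DefsLC
import Pool.Agent.Lib_MP_1209e6_mh.CoreE

/-! Piece LO-9: varieties ramified on average are not special. -/

set_option autoImplicit false

namespace Pool.Agent.LO
open MvPolynomial Pool.Agent.Campana

/-- PIECE LO-9. Proof.  Adapt `not_special_forms` (Lib_MP_1209e6_mh/CoreE.lean; `card_vanishing` there
is general).  Changes: (1) the members have their own degrees `P.totalDegree` between `1` and `e`: `m = 2 M e`,
`1 + r + m (n+1) = ∑_(Q ∈ D) deg Q`, possible as `∑ deg ≥ |D| > 2 e (n+1) M`.  (2) `hν1` (no member has order one) was used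
only in the case `β = 0`, to get that all members have order `0`; now: if `β = 0` then all orders `v (aeval x Q)` are at most
`1` (`ord_squarefree`), so the sum of the orders equals the number of the members of positive order, and
`hT` (with `c = v h`, `v (aeval y Q) = deg Q * v h + v (aeval x Q)`) gives `k ≤ ρ k`, `k = 0`. -/
theorem not_special_avg {K : Type} [Field K] [Algebra ℂ K] {n e M : ℕ} (hn : 1 ≤ n)
    (he : 1 ≤ e) (hM : 1 ≤ M) (y : Fin (n + 1) → K) (hy0 : y 0 ≠ 0)
    (hy : AlgebraicIndependent ℂ (fun i : Fin n => y i.succ / y 0))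
    (D : Finset (MvPolynomial (Fin (n + 1)) ℂ))
    (hD : ∀ P ∈ D, 1 ≤ P.totalDegree ∧ P.totalDegree ≤ e ∧ P.IsHomogeneous P.totalDegree ∧
      Squarefree P) (hcard : 2 * e * (n + 1) * M < D.card)
    (hpt : ∀ x : Fin (n + 1) → ℂ, x ≠ 0 → ∀ A ⊆ D, (∀ P ∈ A, eval x P = 0) → A.card ≤ M)
    {ρ : ℝ} (hρ : ρ < 1) (hT : RamifiedAt ρ y D) : ¬ SpecialField K := by
  classical
  intro hS
  have hnd := hom_eq_zero y hy0 hy
  have hyne : ∀ l, y l ≠ 0 := by
    intro l h0
    have h1 := hnd 1 (X l) (isHomogeneous_X ℂ l) (by rw [aeval_X]; exact h0)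
    exact X_ne_zero l h1
  have hPne : ∀ P ∈ D, aeval y P ≠ 0 := fun P hP h0 =>
    (hD P hP).2.2.2.ne_zero (hnd P.totalDegree P (hD P hP).2.2.1 h0)
  -- derivations
  have hex : ∀ i : Fin n, ∃ E : Derivation ℂ K K, ∀ j : Fin n,
      E (y j.succ / y 0) = if j = i then 1 else 0 :=
    fun i => exists_derivation (fun i : Fin n => y i.succ / y 0) hy (fun j => if j = i then 1 else 0)
  choose D₀ hD₀ using hex
  have hω : wr y ≠ 0 := by
    intro h0
    have h1 := wr_ne_zero y hy0 D₀ hD₀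
    rw [h0] at h1
    exact pow_ne_zero (n + 1) hy0 h1.symm
  set m := 2 * M * e with hm
  have hm1 : 1 ≤ m := by
    rw [hm]
    exact Nat.mul_pos (Nat.mul_pos (by norm_num) hM) he
  obtain ⟨r, hr⟩ : ∃ r, 1 + r + m * (n + 1) = ∑ Q ∈ D, Q.totalDegree := by
    refine ⟨∑ Q ∈ D, Q.totalDegree - 1 - m * (n + 1), ?_⟩
    have h1 : D.card ≤ ∑ Q ∈ D, Q.totalDegree := by
      rw [Finset.card_eq_sum_ones]
      exact Finset.sum_le_sum fun Q hQ => (hD Q hQ).1
    have h2 : 2 * e * (n + 1) * M = m * (n + 1) := by rw [hm]; ring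
    omega
  set P := ∏ Q ∈ D, aeval y Q with hP
  have hPne' : P ≠ 0 := Finset.prod_ne_zero_iff.2 hPne
  set f : Fin (n + 1) → K := fun i => y i * y 0 ^ r / P with hf
  have hfne : ∀ i, f i ≠ 0 := fun i => div_ne_zero (mul_ne_zero (hyne i) (pow_ne_zero _ hy0)) hPne'
  refine hS n hn (wr y) hω m hm1 (f 0) (hfne 0) (fun i => f i.succ) ?_ ?_
  swap
  · have h1 : (fun i : Fin n => f i.succ / f 0) = fun i : Fin n => y i.succ / y 0 := by
      ext i
      simp only [hf]
      have h2 : y 0 ^ r ≠ 0 := pow_ne_zero _ hy0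
      field_simp
    rw [h1]
    exact hy
  intro O hO
  suffices hreg : ∀ i, RegularAt O (wr y) m (f i) from ⟨hreg 0, fun i => hreg i.succ⟩
  obtain ⟨v, hv⟩ := place_order O hO
  obtain ⟨t, ht0, hvt⟩ := hv.2.2
  have htO : t ∈ O := by
    rw [hv.2.1 t ht0, hvt]
    norm_num
  obtain ⟨i₀, hi₀⟩ := Finite.exists_min (fun i => v (y i))
  set h := y i₀ with hh
  have hh0 : h ≠ 0 := hyne i₀
  set x : Fin (n + 1) → K := fun j => y j / h with hx
  have hxO : ∀ j, x j ∈ O := by
    intro i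
    rw [hx, hv.2.1 _ (div_ne_zero (hyne i) hh0), ord_div hv _ _ (hyne i) hh0]
    have h1 : v h ≤ v (y i) := hi₀ i
    omega
  have hxi : x i₀ = 1 := div_self hh0
  have hyx : y = fun j => h * x j := by
    ext j
    rw [hx]
    field_simp
  have hPx : ∀ (d : ℕ) (Q : MvPolynomial (Fin (n + 1)) ℂ), Q.IsHomogeneous d →
      aeval y Q = h ^ d * aeval x Q := by
    intro d Q hQ
    conv_lhs => rw [hyx]
    exact aeval_mul_hom _ _ _ _ hQ
  have hndx : ∀ (d : ℕ) (Q : MvPolynomial (Fin (n + 1)) ℂ), Q.IsHomogeneous d →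
      aeval x Q = 0 → Q = 0 := by
    intro d Q hQ h0
    refine hnd d Q hQ ?_
    rw [hPx d Q hQ, h0, mul_zero]
  have hPxne : ∀ Q ∈ D, aeval x Q ≠ 0 := fun Q hQ h0 =>
    (hD Q hQ).2.2.2.ne_zero (hndx Q.totalDegree Q (hD Q hQ).2.2.1 h0)
  have hvP : ∀ Q ∈ D, v (aeval y Q) = Q.totalDegree * v h + v (aeval x Q) := by
    intro Q hQ
    rw [hPx Q.totalDegree Q (hD Q hQ).2.2.1, hv.1 _ _ (pow_ne_zero _ hh0) (hPxne Q hQ),
      F_ord_pow hv _ hh0]
  have hν0 : ∀ Q ∈ D, 0 ≤ v (aeval x Q) := fun Q hQ =>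
    (hv.2.1 _ (hPxne Q hQ)).1 (aeval_mem hO x hxO Q)
  set B := D.filter (fun Q => 1 ≤ v (aeval x Q)) with hB
  have hBM : B.card ≤ M := card_vanishing hO hv x hxO i₀ hxi D hPxne hpt B
    (Finset.filter_subset _ _) fun Q hQ => (Finset.mem_filter.1 hQ).2
  -- if all orders are at most one then they are zero
  have hone : (∀ Q ∈ D, v (aeval x Q) ≤ 1) → ∀ Q ∈ D, v (aeval x Q) ≤ 0 := by
    intro hle
    have h1 := hT O hO v hv (v h) hi₀ ⟨i₀, rfl⟩
    have h2 : (D.filter fun P => (P.totalDegree : ℤ) * v h < v (aeval y P)) = B := by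
      rw [hB]
      refine Finset.filter_congr fun Q hQ => ?_
      rw [hvP Q hQ]
      omega
    have h3 : ∑ P ∈ D, ((v (aeval y P) - P.totalDegree * v h : ℤ) : ℝ) = B.card := by
      have h4 : ∀ Q ∈ D, ((v (aeval y Q) - Q.totalDegree * v h : ℤ) : ℝ) =
          if 1 ≤ v (aeval x Q) then (1 : ℝ) else 0 := by
        intro Q hQ
        rw [hvP Q hQ, add_sub_cancel_left]
        have h5 := hle Q hQ
        have h6 := hν0 Q hQ
        split_ifs with h7
        · have h8 : v (aeval x Q) = 1 := le_antisymm h5 h7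
          rw [h8]
          norm_num
        · have h8 : v (aeval x Q) = 0 := by omega
          rw [h8]
          norm_num
      rw [Finset.sum_congr rfl h4, ← Finset.sum_filter, ← hB, Finset.sum_const, nsmul_eq_mul,
        mul_one]
    rw [h2, h3] at h1
    have h4 : (B.card : ℝ) ≤ 0 := by
      by_contra hcon
      push Not at hcon
      have h5 : ρ * (B.card : ℝ) < 1 * B.card := mul_lt_mul_of_pos_right hρ hcon
      linarith
    have h5 : B.card = 0 := by
      have h6 : (B.card : ℝ) = 0 := le_antisymm h4 (Nat.cast_nonneg _)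
      exact_mod_cast h6
    intro Q hQ
    by_contra hcon
    have h6 : Q ∈ B := by
      rw [hB]
      exact Finset.mem_filter.2 ⟨hQ, by omega⟩
    rw [Finset.card_eq_zero] at h5
    rw [h5] at h6
    exact absurd h6 (Finset.notMem_empty Q)
  -- the discrepancy
  have hwry : ∀ E : Fin n → Derivation ℂ K K, wr y E = h ^ (n + 1) * wr x E := by
    intro E
    have h2 := wr_scale h x E
    rw [← hyx] at h2
    exact h2
  have hcases : ∃ β N : ℕ, (M * N ≤ m * β) ∧ (∀ Q ∈ D, v (aeval x Q) ≤ N) ∧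
      ∀ E : Fin n → Derivation ℂ K K, (∀ i, ∀ a ∈ O, E i a ∈ O) →
        (h ^ (n + 1) * t ^ β)⁻¹ * wr y E ∈ O := by
    by_cases hall : ∀ E : Fin n → Derivation ℂ K K, (∀ i, ∀ a ∈ O, E i a ∈ O) → wr x E = 0
    · obtain ⟨N, hN⟩ : ∃ N : ℕ, ∀ Q ∈ D, v (aeval x Q) ≤ N := by
        refine ⟨∑ Q ∈ D, (v (aeval x Q)).toNat, fun Q hQ => ?_⟩
        have h1 : (v (aeval x Q)).toNat ≤ ∑ Q ∈ D, (v (aeval x Q)).toNat :=
          Finset.single_le_sum (f := fun Q => (v (aeval x Q)).toNat) (fun _ _ => Nat.zero_le _) hQ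
        have h2 := Int.self_le_toNat (v (aeval x Q))
        omega
      refine ⟨M * N, N, ?_, hN, ?_⟩
      · exact Nat.le_mul_of_pos_left _ hm1
      · intro E hE
        rw [hwry, hall E hE, mul_zero, mul_zero]
        exact O.zero_mem
    · push Not at hall
      have hex : ∃ β : ℕ, ∃ E : Fin n → Derivation ℂ K K, (∀ i, ∀ a ∈ O, E i a ∈ O) ∧
          wr x E ≠ 0 ∧ v (wr x E) = β := by
        obtain ⟨E, hE, hEne⟩ := hall
        have h1 := (hv.2.1 _ hEne).1 (wr_mem x hxO E hE)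
        exact ⟨(v (wr x E)).toNat, E, hE, hEne, by omega⟩
      set β := Nat.find hex with hβ
      obtain ⟨E, hE, hEne, hEv⟩ := Nat.find_spec hex
      rw [← hβ] at hEv
      have hmin : ∀ E' : Fin n → Derivation ℂ K K, (∀ i, ∀ a ∈ O, E' i a ∈ O) →
          wr x E' ≠ 0 → (β : ℤ) ≤ v (wr x E') := by
        intro E' hE' hne
        by_contra hcon
        push Not at hcon
        have h1 := (hv.2.1 _ hne).1 (wr_mem x hxO E' hE')
        exact Nat.find_min hex (m := (v (wr x E')).toNat) (by rw [← hβ]; omega)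
          ⟨E', hE', hne, by omega⟩
      have hform : ∀ E' : Fin n → Derivation ℂ K K, (∀ i, ∀ a ∈ O, E' i a ∈ O) →
          (h ^ (n + 1) * t ^ β)⁻¹ * wr y E' ∈ O := by
        intro E' hE'
        by_cases hne : wr x E' = 0
        · rw [hwry, hne, mul_zero, mul_zero]
          exact O.zero_mem
        have h1 : (h ^ (n + 1) * t ^ β)⁻¹ * wr y E' = wr x E' / t ^ β := by
          rw [hwry]
          have h2 : h ^ (n + 1) ≠ 0 := pow_ne_zero _ hh0
          field_simp
        rw [h1, hv.2.1 _ (div_ne_zero hne (pow_ne_zero _ ht0)),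
          ord_div hv _ _ hne (pow_ne_zero _ ht0), F_ord_pow hv t ht0, hvt]
        have := hmin E' hE' hne
        omega
      rcases Nat.eq_zero_or_pos β with hβ0 | hβ1
      · refine ⟨β, 0, by simp, ?_, hform⟩
        rw [hβ0] at hEv
        have h0 : v (wrM x E).det = 0 := by
          rw [← wr_apply, hEv]
          simp
        intro Q hQ
        have h2 := hone (fun Q' hQ' => ord_squarefree hO hv x hxO hndx E hE hEne h0
          Q'.totalDegree Q' (hD Q' hQ').2.2.1 (hD Q' hQ').2.2.2) Q hQ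
        push_cast
        exact h2
      · refine ⟨β, 2 * e * β, ?_, ?_, hform⟩
        · rw [hm]
          apply le_of_eq
          ring
        · intro Q hQ
          have h1 := ord_form_le hO hv x hxO hndx E hE hEne Q.totalDegree Q (hD Q hQ).2.2.1
            (hD Q hQ).2.2.2.ne_zero
          have h4 : v (wrM x E).det = β := hEv
          rw [h4] at h1
          have h5 : (1 : ℤ) + β ≤ 2 * β := by
            have : (1 : ℤ) ≤ β := by exact_mod_cast hβ1
            linarith
          have h6 : (e : ℤ) * (1 + β) ≤ e * (2 * β) := mul_le_mul_of_nonneg_left h5 (by positivity)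
          have h7 : (Q.totalDegree : ℤ) * (1 + β) ≤ e * (1 + β) :=
            mul_le_mul_of_nonneg_right (by exact_mod_cast (hD Q hQ).2.1) (by positivity)
          push_cast
          linarith
  obtain ⟨β, N, hβN, hN, hEO⟩ := hcases
  intro i
  have hu0 : h ^ (n + 1) * t ^ β ≠ 0 := mul_ne_zero (pow_ne_zero _ hh0) (pow_ne_zero _ ht0)
  refine ⟨h ^ (n + 1) * t ^ β, hu0, hEO, ?_⟩
  rw [hv.2.1 _ (mul_ne_zero (hfne i) (pow_ne_zero _ hu0)),
    hv.1 _ _ (hfne i) (pow_ne_zero _ hu0), F_ord_pow hv _ hu0,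
    hv.1 _ _ (pow_ne_zero _ hh0) (pow_ne_zero _ ht0), F_ord_pow hv _ hh0, F_ord_pow hv _ ht0, hvt]
  have h1 : v (f i) = v (y i) + r * v (y 0) - ∑ Q ∈ D, v (aeval y Q) := by
    simp only [hf]
    rw [ord_div hv _ _ (mul_ne_zero (hyne i) (pow_ne_zero _ hy0)) hPne',
      hv.1 _ _ (hyne i) (pow_ne_zero _ hy0), F_ord_pow hv _ hy0, hP,
      ord_prod hv D _ hPne]
  have h2 : ∑ Q ∈ D, v (aeval y Q) ≤ (∑ Q ∈ D, (Q.totalDegree : ℤ)) * v h + M * N := by
    have h3 : ∀ Q ∈ D, v (aeval y Q) ≤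
        Q.totalDegree * v h + if 1 ≤ v (aeval x Q) then (N : ℤ) else 0 := by
      intro Q hQ
      rw [hvP Q hQ]
      split_ifs with h4
      · have := hN Q hQ
        omega
      · omega
    refine (Finset.sum_le_sum h3).trans ?_
    rw [Finset.sum_add_distrib, ← Finset.sum_mul, ← Finset.sum_filter,
      Finset.sum_const, nsmul_eq_mul, ← hB]
    have h4 : (B.card : ℤ) * N ≤ M * N :=
      mul_le_mul_of_nonneg_right (by exact_mod_cast hBM) (by positivity)
    linarith
  have h3 : v h ≤ v (y i) := hi₀ i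
  have h4 : (r : ℤ) * v h ≤ r * v (y 0) := mul_le_mul_of_nonneg_left (hi₀ 0) (by positivity)
  have h5 : ((1 : ℤ) + r + m * (n + 1)) = ∑ Q ∈ D, (Q.totalDegree : ℤ) := by exact_mod_cast hr
  have h6 : (M : ℤ) * N ≤ m * β := by exact_mod_cast hβN
  rw [← h5] at h2
  rw [h1]
  push_cast
  nlinarith

end Pool.Agent.LO
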