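import Pool.Agent.Lib_MP_b9fedf_lo.DefsLC
import Pool.Agent.Lib_MP_b9fedf_lo.AvgConst
import Pool.Agent.Lib_MP_b9fedf_lo.Gcd
import Pool.Agent.Lib_MP_1209e6_mh.Final

/-! Piece LO-10: varieties ramified on average are not Brody-special. -/

set_option autoImplicit false

namespace Pool.Agent.LO
open MvPolynomial Pool.Agent.Campana

/-- common factor of a homogeneous form -/
private lemma aeval_mul_nba {A : Type} [CommRing A] [Algebra ℂ A] {n : ℕ} (u : A) (g : Fin (n + 1) → A) {d : ℕ}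
    (Q : MvPolynomial (Fin (n + 1)) ℂ) (hQ : Q.IsHomogeneous d) :
    aeval (fun i => u * g i) Q = u ^ d * aeval g Q := by
  rw [aeval_def, aeval_def, eval₂_eq', eval₂_eq', Finset.mul_sum]
  refine Finset.sum_congr rfl fun m hm => ?_
  have h1 : ∑ i, m i = d := by
    have h2 := hQ (mem_support_iff.1 hm)
    rw [Finsupp.weight_apply, Finsupp.sum_fintype _ _ (by simp)] at h2
    simpa using h2
  rw [← h1, ← Finset.prod_pow_eq_pow_sum]
  simp only [mul_pow, Finset.prod_mul_distrib]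
  ring

/-- PIECE LO-10. Proof.  As `not_brody` (Lib_MP_1209e6_mh/Final.lean): `exists_pullback`,
`curve_orders` give `F : Fin (n+1) → Ent` without homogeneous relations (`hF0`) and, at each `z`, a place `O` with
`eord z (aeval F Q) = e' * v (aeval y Q) + D * c` for `Q ≠ 0` homogeneous of degree `D` (also for `Q = X i`).  `exists_gcd` for
`F`: `F k = u g_k`, `g` without common zeros; `Q(F) = u^D Q(g)`; so
`ord Q(g) = e' v (aeval y Q) + D (c - ord u)` and, as the minimum over `Q = X i` is `0`: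
`ord Q(g) = e' (v (aeval y Q) - D c₀)`, `c₀ = min v (y i)`, `e' ≥ 1`.  So `RamifiedAt` at `O` gives the hypothesis `hR`
of `avg_const` for `g` (`k ≤ ρ ∑ (v - D c₀) ≤ ρ e' ∑ (v - D c₀)`).  `Z(g) ≢ 0` by `hF0`.  `avg_const` with `q = ⊥`: `g` is constant,
so `F 0` and `F 1` are proportional, contradicting `hF0` (`n ≥ 1`). -/
theorem not_brody_avg {n : ℕ} (hn : 1 ≤ n) {η ρ : ℝ} (hρ : ρ < 1 - η) (hρ0 : 0 ≤ ρ)
    (D : Finset (MvPolynomial (Fin (n + 1)) ℂ)) (hDn : D.Nonempty)
    (hD : ∀ P ∈ D, 1 ≤ P.totalDegree ∧ P.IsHomogeneous P.totalDegree) {d : ℕ}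
    (Z : MvPolynomial (Fin (n + 1)) ℂ) (hZ0 : Z ≠ 0) (hZh : Z.IsHomogeneous d)
    (hZ : ∀ P ∈ D, P ∣ Z) (hL : LevelOne η ⊥ D Z)
    {m : ℕ} (P : Ideal (MvPolynomial (Fin (m + 1)) ℂ)) [P.IsPrime] (hP : IsVariety P)
    (y : Fin (n + 1) → FunField P) (hy0 : y 0 ≠ 0)
    (hy : AlgebraicIndependent ℂ (fun i : Fin n => y i.succ / y 0)) (hT : RamifiedAt ρ y D) :
    ¬ BrodySpecial P := by
  classical
  rintro ⟨f, hf, -, hfP, hdense⟩
  obtain ⟨j₀, hj₀⟩ := hP.2.2
  obtain ⟨ψ, -⟩ := exists_pullback P j₀ hj₀ f hf hfP hdense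
  obtain ⟨F, hF0, hF⟩ := curve_orders ψ hn y hy0 hy
  have hFi : ∀ i, F i ≠ 0 := by
    intro i h0
    have h1 := hF0 1 (X i) (isHomogeneous_X ℂ i) (by rw [aeval_X]; exact h0)
    exact X_ne_zero i h1
  obtain ⟨z₁, hz₁⟩ := (SQ.Ent.ne_zero_iff (F 0)).1 (hFi 0)
  obtain ⟨u, g, hu, ⟨z₂, hz₂⟩, hg, hg0, hug⟩ := exists_gcd (fun i => (F i).1) (fun i => (F i).2) ⟨0, z₁, hz₁⟩
  -- the entire functions
  obtain ⟨uE, huE⟩ : ∃ uE : SQ.Ent, ∀ z, uE.1 z = u z := ⟨⟨u, hu⟩, fun _ => rfl⟩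
  obtain ⟨gE, hgE⟩ : ∃ gE : Fin (n + 1) → SQ.Ent, ∀ i z, (gE i).1 z = g z i :=
    ⟨fun i => ⟨fun z => g z i, fun z => (differentiableAt_pi.1 (hg z)) i⟩, fun _ _ => rfl⟩
  have hFg : F = fun i => uE * gE i := by
    funext i
    refine SQ.Ent.ext' fun z => ?_
    show (F i).1 z = uE.1 z * (gE i).1 z
    rw [huE, hgE]
    exact hug z i
  have huE0 : uE ≠ 0 := (SQ.Ent.ne_zero_iff uE).2 ⟨z₂, by rw [huE]; exact hz₂⟩
  have hQF : ∀ (k : ℕ) (Q : MvPolynomial (Fin (n + 1)) ℂ), Q.IsHomogeneous k →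
      aeval F Q = uE ^ k * aeval gE Q := by
    intro k Q hQ
    rw [hFg]
    exact aeval_mul_nba uE gE Q hQ
  have hQg : ∀ (k : ℕ) (Q : MvPolynomial (Fin (n + 1)) ℂ), Q.IsHomogeneous k → Q ≠ 0 → aeval gE Q ≠ 0 := by
    intro k Q hQ hQ0 h0
    apply hQ0
    refine hF0 k Q hQ ?_
    rw [hQF k Q hQ, h0, mul_zero]
  have hval : ∀ (Q : MvPolynomial (Fin (n + 1)) ℂ) (z : ℂ), (aeval gE Q).1 z = eval (g z) Q := by
    intro Q z
    rw [SQ.ent_aeval]
    congr 2
    funext k
    exact hgE k z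
  -- orders
  have hpow : ∀ (z : ℂ) (k : ℕ), eord z (uE ^ k) = k * eord z uE := by
    intro z k
    induction k with
    | zero =>
      have h1 := eord_const z 1 one_ne_zero
      rw [map_one] at h1
      rw [pow_zero, h1, zero_mul]
    | succ k ih =>
      rw [pow_succ, eord_mul z _ _ (pow_ne_zero k huE0) huE0, ih]
      ring
  have hordg : ∀ (z : ℂ) (k : ℕ) (Q : MvPolynomial (Fin (n + 1)) ℂ), Q.IsHomogeneous k → Q ≠ 0 →
      eord z (aeval F Q) = k * eord z uE + eord z (aeval gE Q) := by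
    intro z k Q hQ hQ0
    rw [hQF k Q hQ, eord_mul z _ _ (pow_ne_zero k huE0) (hQg k Q hQ hQ0), hpow]
  have hR : ∀ z, ∀ o : MvPolynomial (Fin (n + 1)) ℂ → ℕ,
      (∀ P ∈ D, analyticOrderAt (fun ζ => eval (g ζ) P) z = o P) →
      ((D.filter fun P => o P ≠ 0).card : ℝ) ≤ ρ * ∑ P ∈ D, (o P : ℝ) := by
    intro z o ho
    obtain ⟨O, hO, e', v, c, he', hv, hvQ⟩ := hF z
    have key : ∀ (k : ℕ) (Q : MvPolynomial (Fin (n + 1)) ℂ), Q.IsHomogeneous k → Q ≠ 0 →
        (eord z (aeval gE Q) : ℤ) = e' * v (aeval y Q) + k * (c - eord z uE) := by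
      intro k Q hQ hQ0
      have h1 := hvQ k Q hQ hQ0
      rw [hordg z k Q hQ hQ0] at h1
      push_cast at h1
      linear_combination h1
    have keyX : ∀ i, (eord z (gE i) : ℤ) = e' * v (y i) + (c - eord z uE) := by
      intro i
      have h1 := key 1 (X i) (isHomogeneous_X ℂ i) (X_ne_zero i)
      rw [aeval_X, aeval_X, Nat.cast_one, one_mul] at h1
      exact h1
    obtain ⟨i₀, hi₀⟩ : ∃ i, g z i ≠ 0 := by
      by_contra hcon
      push Not at hcon
      exact hg0 z (funext hcon)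
    have h0 : eord z (gE i₀) = 0 := by
      have h1 : analyticOrderAt (gE i₀).1 z = 0 := by
        rw [analyticOrderAt_eq_zero]
        right
        rw [hgE]
        exact hi₀
      unfold eord analyticOrderNatAt
      rw [h1]
      rfl
    have hc : c - eord z uE = - (e' * v (y i₀)) := by
      have h1 := keyX i₀
      rw [h0] at h1
      push_cast at h1
      linear_combination -h1
    have hmin : ∀ i, v (y i₀) ≤ v (y i) := by
      intro i
      have h1 := keyX i
      rw [hc] at h1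
      have h2 : (0 : ℤ) ≤ e' * (v (y i) - v (y i₀)) := by
        have h3 : (0 : ℤ) ≤ (eord z (gE i) : ℤ) := by positivity
        rw [h1] at h3
        linarith
      by_contra hcon
      push Not at hcon
      have h3 : v (y i) - v (y i₀) < 0 := by linarith
      have h4 : e' * (v (y i) - v (y i₀)) < 0 := mul_neg_of_pos_of_neg (by omega) h3
      linarith
    have hoP : ∀ Q ∈ D, (o Q : ℤ) = e' * (v (aeval y Q) - Q.totalDegree * v (y i₀)) := by
      intro Q hQ
      have hQ0 : Q ≠ 0 := by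
        rintro rfl
        have h1 := (hD 0 hQ).1
        simp at h1
      have h1 := key Q.totalDegree Q (hD Q hQ).2 hQ0
      have h2 := eord_cast z _ (hQg _ Q (hD Q hQ).2 hQ0)
      have h3 : (aeval gE Q).1 = fun ζ => eval (g ζ) Q := funext fun ζ => hval Q ζ
      rw [h3, ho Q hQ] at h2
      have h4 : eord z (aeval gE Q) = o Q := by exact_mod_cast h2
      rw [h4, hc] at h1
      rw [h1]
      ring
    have h1 := hT O hO v hv (v (y i₀)) hmin ⟨i₀, rfl⟩
    have h2 : (D.filter fun P => o P ≠ 0) = D.filter fun P => (P.totalDegree : ℤ) * v (y i₀) < v (aeval y P) := by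
      refine Finset.filter_congr fun Q hQ => ?_
      have h3 := hoP Q hQ
      constructor
      · intro h4
        by_contra hcon
        push Not at hcon
        have h5 : v (aeval y Q) - Q.totalDegree * v (y i₀) ≤ 0 := by linarith
        have h6 : e' * (v (aeval y Q) - Q.totalDegree * v (y i₀)) ≤ 0 :=
          mul_nonpos_of_nonneg_of_nonpos (by omega) h5
        omega
      · intro h4 h5
        rw [h5] at h3
        have h6 : 0 < e' * (v (aeval y Q) - Q.totalDegree * v (y i₀)) :=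
          mul_pos (by omega) (by linarith)
        push_cast at h3
        omega
    rw [h2]
    refine h1.trans (mul_le_mul_of_nonneg_left (Finset.sum_le_sum fun Q hQ => ?_) hρ0)
    have h3 := hoP Q hQ
    have h4 : v (aeval y Q) - Q.totalDegree * v (y i₀) ≤ (o Q : ℤ) := by
      rw [h3]
      have h5 : 0 ≤ v (aeval y Q) - Q.totalDegree * v (y i₀) := by
        by_contra hcon
        push Not at hcon
        have h6 : e' * (v (aeval y Q) - Q.totalDegree * v (y i₀)) < 0 :=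
          mul_neg_of_pos_of_neg (by omega) hcon
        omega
      nlinarith
    exact_mod_cast h4
  have hconst := avg_const hρ hρ0 ⊥ D hDn Z hD hZ hL g hg hg0 (by
    intro q hq z
    rw [Ideal.mem_bot] at hq
    rw [hq, map_zero]) (by
    obtain ⟨z, hz⟩ := (SQ.Ent.ne_zero_iff (aeval gE Z)).1 (hQg d Z hZh hZ0)
    exact ⟨z, by rw [← hval]; exact hz⟩) hR
  -- a linear relation
  obtain ⟨i₀, hi₀⟩ : ∃ i, g 0 i ≠ 0 := by
    by_contra hcon
    push Not at hcon
    exact hg0 0 (funext hcon)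
  have : Nontrivial (Fin (n + 1)) := Fin.nontrivial_iff_two_le.2 (by omega)
  obtain ⟨j, hj⟩ := exists_ne i₀
  have hQh : (C (g 0 i₀) * X j - C (g 0 j) * X i₀ : MvPolynomial (Fin (n + 1)) ℂ).IsHomogeneous 1 := by
    refine IsHomogeneous.sub ?_ ?_
    · simpa using (isHomogeneous_C (Fin (n + 1)) (g 0 i₀)).mul (isHomogeneous_X ℂ j)
    · simpa using (isHomogeneous_C (Fin (n + 1)) (g 0 j)).mul (isHomogeneous_X ℂ i₀)
  refine hQg 1 _ hQh ?_ (SQ.Ent.ext' fun z => ?_)
  · intro h0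
    have h1 := congrArg (eval (Pi.single j (1 : ℂ))) h0
    simp [Pi.single_apply, hj.symm] at h1
    exact hi₀ h1
  · rw [hval]
    obtain ⟨c, hc⟩ := hconst 0 z
    rw [hc]
    simp only [map_sub, map_mul, eval_C, eval_X, Pi.smul_apply, smul_eq_mul]
    show _ = (0 : ℂ)
    ring

end Pool.Agent.LO
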