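import Pool.Agent.Lib_MP_b9fedf_lo.AvgConst
import Pool.Agent.Lib_MP_b9fedf_lo.Gcd
import Pool.Agent.Lib_MP_b9fedf_sq.Statement2

/-! Piece LO-8: varieties ramified on average. -/

set_option autoImplicit false

namespace Pool.Agent.LO
open MvPolynomial Pool.Agent.GGL Pool.Agent.SQ Pool.Agent.Stat Pool.Agent.QY

private theorem hom_eval_lo8 {n e : ℕ} {P : MvPolynomial (Fin (n + 1)) ℂ}
    (hP : P.IsHomogeneous e) (r : ℂ) (u : Fin (n + 1) → ℂ) :
    eval (fun i => r * u i) P = r ^ e * eval u P := by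
  rw [eval_eq', eval_eq', Finset.mul_sum]
  refine Finset.sum_congr rfl fun d hd => ?_
  have h1 : ∑ i, d i = e := by
    by_contra hne
    have h2 : d.degree ≠ e := by
      rw [Finsupp.degree_eq_sum]
      exact hne
    exact (mem_support_iff.mp hd) (hP.coeff_eq_zero h2)
  have h3 : ∏ i, (r * u i) ^ d i = r ^ e * ∏ i, u i ^ d i := by
    rw [← h1, ← Finset.prod_pow_eq_pow_sum, ← Finset.prod_mul_distrib]
    exact Finset.prod_congr rfl fun i _ => mul_pow _ _ _
  rw [h3]
  ring

private theorem diff_lo8 {n : ℕ} {f : ℂ → Fin (n + 1) → ℂ} (hf : Differentiable ℂ f)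
    (P : MvPolynomial (Fin (n + 1)) ℂ) : Differentiable ℂ (fun z => eval (f z) P) := by
  induction P using MvPolynomial.induction_on with
  | C a => simp only [eval_C]; exact differentiable_const a
  | add p q hp hq => simp only [map_add]; exact hp.add hq
  | mul_X p j hp => simp only [map_mul, eval_X]; exact hp.mul (differentiable_pi.1 hf j)

private theorem dense_ne_lo8 {u : ℂ → ℂ} (hu : Differentiable ℂ u) (h0 : ∃ z, u z ≠ 0) :
    Dense {z | u z ≠ 0} := by
  intro z
  rw [mem_closure_iff_frequently]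
  rcases (hu.analyticAt z).eventually_eq_zero_or_eventually_ne_zero with h1 | h1
  · exfalso
    obtain ⟨w, hw⟩ := h0
    have h3 : AnalyticOnNhd ℂ u Set.univ := fun z _ => hu.analyticAt z
    exact hw (h3.eqOn_zero_of_preconnected_of_eventuallyEq_zero isPreconnected_univ
      (Set.mem_univ z) h1 (Set.mem_univ w))
  · exact (h1.frequently).filter_mono nhdsWithin_le_nhds

/-- PIECE LO-8. Entire curves of varieties ramified on average.  Proof.  Let `f` be an entire curve of
`V(S)`, `h i z = eval (f z) (φ i)`.  If all `h i` are identically zero, the second alternative holds for every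
`t` (`Fibre S φ t` consists of `S` and the forms `t_i φ_j - t_j φ_i`; see the proof of
Results/MP_b9fedf_ag/ManyHypersurfaces.lean for `hev`, `key2`, and the shift `f (z + ζ)`).  Otherwise `exists_gcd`: `h i = u g_i`.
`eval (f z) (aeval φ P) = eval (h z) P = u(z)^deg * eval (g z) P` for `P` homogeneous.  `g` lies in `V(q)`: for homogeneous
`G ∈ q` where `u ≠ 0`, then everywhere (continuity, zeros of `u` are isolated); for general `G` by `hqh`.  If `Z(g) ≡ 0`
then `aeval φ Z` vanishes on `f`.  Otherwise `avg_const` for `g`: given `z` and `o` with order of `P(g)` at `z` equal to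
`o P`, apply `hR` to the arc `ζ ↦ f (z + ζ)` with `c` = order of `u` at `z`: the order of `h i` at `z` is `c` + order of
`g_i` at `z`, some `g_i(z) ≠ 0`; the order of `P(h)` is `deg P * c + o P`.  So `g` is constant, `g w = c g z`; then
`t_i h_j = t_j h_i` with `t = g 0`. -/
theorem avg_curves {n : ℕ} {η ρ : ℝ} (hρ : ρ < 1 - η) (hρ0 : 0 ≤ ρ)
    (q : Ideal (MvPolynomial (Fin (n + 1)) ℂ)) (hqh : HomI q)
    (D : Finset (MvPolynomial (Fin (n + 1)) ℂ)) (hDn : D.Nonempty) {d : ℕ}
    (Z : MvPolynomial (Fin (n + 1)) ℂ) (hd : 1 ≤ d) (hZh : Z.IsHomogeneous d)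
    (hD : ∀ P ∈ D, 1 ≤ P.totalDegree ∧ P.IsHomogeneous P.totalDegree)
    (hZ : ∀ P ∈ D, P ∣ Z) (hL : LevelOne η q D Z)
    {m : ℕ} (S : Set (MvPolynomial (Fin (m + 1)) ℂ)) (φ : Fin (n + 1) → MvPolynomial (Fin (m + 1)) ℂ)
    (hφq : ∀ g ∈ q, ∀ x : Fin (m + 1) → ℂ, (∀ p ∈ S, eval x p = 0) → eval x (aeval φ g) = 0)
    (hR : RamifiedOnAverage ρ S φ D) :
    CurvesIn S (aeval φ Z) φ := by
  classical
  have hev : ∀ (x : Fin (m + 1) → ℂ) (Q : MvPolynomial (Fin (n + 1)) ℂ),
      eval x (aeval φ Q) = eval (fun i => eval x (φ i)) Q := by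
    intro x Q
    have h1 := MvPolynomial.comp_aeval_apply (f := φ) (MvPolynomial.aeval x :
      MvPolynomial (Fin (m + 1)) ℂ →ₐ[ℂ] ℂ) Q
    rw [← MvPolynomial.coe_aeval_eq_eval, ← MvPolynomial.coe_aeval_eq_eval]
    exact h1
  intro f hf hf0 hfS
  by_cases hall : ∀ i z, eval (f z) (φ i) = 0
  · refine Or.inr ⟨fun _ => 1, fun h => one_ne_zero (congrFun h 0), ?_⟩
    rintro z p (hp | ⟨i, j, rfl⟩)
    · exact hfS z p hp
    · rw [map_sub, map_mul, map_mul, hall i z, hall j z, mul_zero, sub_zero]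
  push Not at hall
  have hhd : ∀ i, Differentiable ℂ (fun z => eval (f z) (φ i)) := fun i => diff_lo8 hf (φ i)
  obtain ⟨u, g, hud, hu0, hgd, hg0, hug⟩ := exists_gcd (fun i z => eval (f z) (φ i)) hhd hall
  have hug' : ∀ z i, eval (f z) (φ i) = u z * g z i := hug
  have hpt : ∀ z, (fun i => eval (f z) (φ i)) = fun i => u z * g z i := fun z => funext (hug' z)
  have hhom : ∀ {e : ℕ} (Q : MvPolynomial (Fin (n + 1)) ℂ), Q.IsHomogeneous e → ∀ z,
      eval (f z) (aeval φ Q) = u z ^ e * eval (g z) Q := by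
    intro e Q hQ z
    rw [hev, hpt, hom_eval_lo8 hQ]
  have hud' : Dense {z | u z ≠ 0} := dense_ne_lo8 hud hu0
  have hgq : ∀ G ∈ q, ∀ z, eval (g z) G = 0 := by
    intro G hG z
    rw [← sum_homogeneousComponent G, map_sum]
    refine Finset.sum_eq_zero fun e _ => ?_
    have h1 : Continuous fun z => eval (g z) (homogeneousComponent e G) :=
      (diff_lo8 hgd _).continuous
    have h2 : (fun z => eval (g z) (homogeneousComponent e G)) = fun _ => 0 := by
      refine Continuous.ext_on hud' h1 continuous_const ?_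
      intro w hw
      have h3 := hφq _ (hqh G hG e) (f w) (hfS w)
      rw [hhom _ (homogeneousComponent_isHomogeneous e G) w] at h3
      exact (mul_eq_zero.mp h3).resolve_left (pow_ne_zero _ hw)
    exact congrFun h2 z
  by_cases hZ0 : ∀ z, eval (g z) Z = 0
  · left
    intro z
    rw [hhom Z hZh z, hZ0 z, mul_zero]
  push Not at hZ0
  have hconst := avg_const hρ hρ0 q D hDn Z hD hZ hL g hgd hg0 hgq hZ0 (by
    intro z o ho
    have huan : AnalyticAt ℂ u z := hud.analyticAt z
    have hgan : ∀ i, AnalyticAt ℂ (fun ζ => g ζ i) z := fun i =>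
      (differentiable_pi.mp hgd i).analyticAt z
    have hsh : ∀ v : ℂ → ℂ, analyticOrderAt (fun ζ => v (z + ζ)) 0 = analyticOrderAt v z := by
      intro v
      have h1 := analyticOrderAt_comp_of_deriv_ne_zero (f := v) (g := fun ζ : ℂ => z + ζ)
        (z₀ := 0) (by fun_prop) (by
          rw [deriv_const_add]
          simp)
      simpa [Function.comp_def] using h1
    obtain ⟨c, hc⟩ : ∃ c : ℕ, analyticOrderAt u z = (c : ℕ∞) := by
      have h1 : analyticOrderAt u z ≠ ⊤ := by
        intro h2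
        rw [analyticOrderAt_eq_top] at h2
        obtain ⟨w, hw⟩ := hu0
        have h3 : AnalyticOnNhd ℂ u Set.univ := fun z _ => hud.analyticAt z
        exact hw (h3.eqOn_zero_of_preconnected_of_eventuallyEq_zero isPreconnected_univ
          (Set.mem_univ z) h2 (Set.mem_univ w))
      obtain ⟨k, hk⟩ := ENat.ne_top_iff_exists.1 h1
      exact ⟨k, hk.symm⟩
    have hord : ∀ i, analyticOrderAt (fun ζ => eval (f (z + ζ)) (φ i)) 0 =
        (c : ℕ∞) + analyticOrderAt (fun ζ => g ζ i) z := by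
      intro i
      rw [hsh (fun ζ => eval (f ζ) (φ i))]
      have h1 : (fun ζ => eval (f ζ) (φ i)) = u * fun ζ => g ζ i := by
        funext ζ
        rw [Pi.mul_apply]
        exact hug' ζ i
      rw [h1, analyticOrderAt_mul huan (hgan i), hc]
    refine hR (fun ζ => f (z + ζ)) ?_ ?_ ?_ c ?_ ?_ o ?_
    · have h1 : AnalyticAt ℂ f (z + 0) := hf.analyticAt _
      exact h1.fun_comp (f := fun ζ : ℂ => z + ζ) (by fun_prop)
    · exact hf0 _
    · exact Filter.Eventually.of_forall fun ζ => hfS _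
    · intro i
      rw [hord i]
      exact le_self_add
    · obtain ⟨i, hi⟩ : ∃ i, g z i ≠ 0 := by
        by_contra hcon
        push Not at hcon
        exact hg0 z (funext hcon)
      refine ⟨i, ?_⟩
      rw [hord i, (hgan i).analyticOrderAt_eq_zero.2 hi, add_zero]
    · intro P hP
      rw [hsh (fun ζ => eval (f ζ) (aeval φ P))]
      have h1 : (fun ζ => eval (f ζ) (aeval φ P)) = u ^ P.totalDegree * fun ζ => eval (g ζ) P := by
        funext ζ
        rw [Pi.mul_apply, Pi.pow_apply]
        exact hhom P (hD P hP).2 ζ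
      have h2 : AnalyticAt ℂ (fun ζ => eval (g ζ) P) z := (diff_lo8 hgd P).analyticAt z
      rw [h1, analyticOrderAt_mul (huan.pow _) h2, analyticOrderAt_pow huan, hc, ho P hP]
      push_cast
      rw [nsmul_eq_mul])
  refine Or.inr ⟨g 0, hg0 0, ?_⟩
  rintro z p (hp | ⟨i, j, rfl⟩)
  · exact hfS z p hp
  · obtain ⟨c, hc⟩ := hconst 0 z
    rw [map_sub, map_mul, map_mul, eval_C, eval_C]
    rw [hug' z i, hug' z j, hc, Pi.smul_apply, Pi.smul_apply, smul_eq_mul, smul_eq_mul]
    ring

end Pool.Agent.LO
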