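import Pool.Agent.Lib_MP_b9fedf_lo.HypSum
import Pool.Agent.Lib_MP_b9fedf_lo.AvgCurves
import Pool.Agent.Lib_MP_b9fedf_lo.RamArc
import Pool.Agent.Lib_MP_b9fedf_sq.PackAll

/-! Varieties over projective space which are ramified over many hyperplanes. -/

set_option autoImplicit false

namespace Pool.Agent.LO
open MvPolynomial Pool.Agent.GGL Pool.Agent.SQ Pool.Agent.QY Pool.Agent.Stat

theorem eval_lin_dot {n : ℕ} (a x : Fin (n + 1) → ℂ) : eval x (lin a) = ∑ i, a i * x i := by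
  rw [eval_lin']
  exact Finset.sum_congr rfl fun i _ => mul_comm _ _

theorem lin_inj {n : ℕ} : Function.Injective (lin : (Fin (n + 1) → ℂ) → _) := by
  intro a b hab
  funext i
  have h1 : eval (Pi.single i 1) (lin a) = eval (Pi.single i 1) (lin b) := by rw [hab]
  simpa [eval_lin_dot, Pi.single_apply] using h1

theorem lin_totalDegree {n : ℕ} {a : Fin (n + 1) → ℂ} (ha : a ≠ 0) : (lin a).totalDegree = 1 := by
  refine (lin_homogeneous a).totalDegree ?_
  intro h
  apply ha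
  apply lin_inj
  rw [h]
  simp [lin]

/-- members of a unisolvent set are not zero -/
theorem uni_set_ne_zero {n d : ℕ} (hd : 1 ≤ d) (A : Finset (Fin (n + 1) → ℂ))
    (hcard : (n + d).choose n ≤ A.card)
    (huni : ∀ B ⊆ A, B.card = (n + d).choose n → ∀ P : MvPolynomial (Fin (n + 1)) ℂ,
      P.IsHomogeneous d → (∀ b ∈ B, MvPolynomial.eval b P = 0) → P = 0) :
    ∀ a ∈ A, a ≠ 0 := by
  classical
  intro a ha h0
  have hK : 1 ≤ (n + d).choose n := Nat.choose_pos (by omega)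
  obtain ⟨B, hB1, hB2, hB3⟩ := Finset.exists_subsuperset_card_eq
      (Finset.singleton_subset_iff.mpr ha) (by rw [Finset.card_singleton]; omega) hcard
  have hMon : Fintype.card (Mon n d) = (n + d).choose n := by
    rw [card_Mon, Nat.choose_symm_add]
  have hcB : Fintype.card (Mon n d) = Fintype.card B := by
    rw [hMon, Fintype.card_coe, hB3]
  let e : Mon n d ≃ B := Fintype.equivOfCardEq hcB
  have hU : Pool.Agent.GGL.Uni (fun i : Mon n d => ((e i : B) : Fin (n + 1) → ℂ)) := by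
    intro P hP hz
    refine huni B hB2 hB3 P hP fun b hb => ?_
    have h1 : MvPolynomial.eval ((e (e.symm ⟨b, hb⟩) : B) : Fin (n + 1) → ℂ) P = 0 := hz _
    rw [Equiv.apply_symm_apply] at h1
    exact h1
  have h1 := Pool.Agent.GGL.uni_ne_zero hd hU (e.symm ⟨a, hB1 (Finset.mem_singleton_self a)⟩)
  apply h1
  have h2 : ((e (e.symm ⟨a, hB1 (Finset.mem_singleton_self a)⟩) : B) : Fin (n + 1) → ℂ) = a := by
    rw [Equiv.apply_symm_apply]
  exact h2.trans h0

open scoped Classical in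
/-- the level one second main theorem for the set of linear forms `A.image lin` -/
theorem hyp_level {n d : ℕ} (hd : 2 * n + 1 ≤ d) (A : Finset (Fin (n + 1) → ℂ))
    (hcard : (n + d).choose n ≤ A.card)
    (huni : ∀ B ⊆ A, B.card = (n + d).choose n → ∀ P : MvPolynomial (Fin (n + 1)) ℂ,
      P.IsHomogeneous d → (∀ b ∈ B, MvPolynomial.eval b P = 0) → P = 0)
    (q : Ideal (MvPolynomial (Fin (n + 1)) ℂ)) (Z : MvPolynomial (Fin (n + 1)) ℂ)
    {η : ℝ} (hη : (1 - η) * A.card =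
      (1 - (3 * (n : ℝ) + 1) / (n + d)) * ((A.card : ℝ) - ((n + d).choose n : ℝ))) :
    LevelOne η q (A.image lin) Z := by
  intro f hf hf0 _ _ hfc
  obtain ⟨K, E, hE, hK⟩ := hyp_sum' hd A huni f hf hf0 hfc
  refine ⟨K, E, hE, fun r hr hrE => ?_⟩
  have h1 := hK r hr hrE
  have hinj : Set.InjOn (lin : (Fin (n + 1) → ℂ) → MvPolynomial (Fin (n + 1)) ℂ) (A : Set _) :=
    fun a _ b _ h => lin_inj h
  have hA0 := uni_set_ne_zero (by omega) A hcard huni
  have h2 : ∑ P ∈ A.image lin, (P.totalDegree : ℝ) = A.card := by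
    rw [Finset.sum_image hinj]
    have h4 : ∀ a ∈ A, ((lin a).totalDegree : ℝ) = 1 := by
      intro a ha
      rw [lin_totalDegree (hA0 a ha), Nat.cast_one]
    rw [Finset.sum_congr rfl h4]
    simp
  have h3 : ∑ P ∈ A.image lin, Nbar (fun z => eval (f z) P) r =
      ∑ a ∈ A, Nbar (fun z => ∑ i, a i * f z i) r := by
    rw [Finset.sum_image hinj]
    refine Finset.sum_congr rfl fun a _ => ?_
    congr 1
    funext z
    exact eval_lin_dot a (f z)
  rw [h2, h3, hη]
  exact h1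

open scoped Classical in
/-- Varieties over projective space, ramified over many hyperplanes. -/
theorem hyp_ram {n d : ℕ} (hd : 2 * n + 1 ≤ d) (A : Finset (Fin (n + 1) → ℂ))
    (huni : ∀ B ⊆ A, B.card = (n + d).choose n → ∀ P : MvPolynomial (Fin (n + 1)) ℂ,
      P.IsHomogeneous d → (∀ b ∈ B, MvPolynomial.eval b P = 0) → P = 0)
    {ρ : ℝ} (hρ0 : 0 ≤ ρ)
    (hρ : ρ * A.card <
      (1 - (3 * (n : ℝ) + 1) / (n + d)) * ((A.card : ℝ) - ((n + d).choose n : ℝ)))
    {m : ℕ} (S : Set (MvPolynomial (Fin (m + 1)) ℂ)) (φ : Fin (n + 1) → MvPolynomial (Fin (m + 1)) ℂ)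
    (hR : RamifiedOnAverage ρ S φ (A.image lin) ∨
      ∃ M : ℕ, ρ = (M : ℝ) / (M + 1) ∧
        (∀ x : Fin (n + 1) → ℂ, x ≠ 0 → ∀ B ⊆ A, (∀ b ∈ B, ∑ i, b i * x i = 0) → B.card ≤ M) ∧
        Ramified S φ (A.image lin)) :
    CurvesIn S (aeval φ (∏ a ∈ A, lin a)) φ := by
  have hnd : (0 : ℝ) < (n : ℝ) + d := by
    have h1 : (1 : ℝ) ≤ d := by exact_mod_cast (by omega : 1 ≤ d)
    positivity
  have hx0 : 0 ≤ 1 - (3 * (n : ℝ) + 1) / (n + d) := by
    have : (3 * (n : ℝ) + 1) / (n + d) ≤ 1 := by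
      rw [div_le_one hnd]
      have h1 : (2 * (n : ℝ) + 1) ≤ d := by exact_mod_cast hd
      linarith
    linarith
  have hcard : (n + d).choose n ≤ A.card := by
    by_contra hcon
    push Not at hcon
    have h1 : (A.card : ℝ) < ((n + d).choose n : ℝ) := by exact_mod_cast hcon
    have h2 : 0 ≤ ρ * A.card := mul_nonneg hρ0 (Nat.cast_nonneg _)
    have h3 : (1 - (3 * (n : ℝ) + 1) / (n + d)) * ((A.card : ℝ) - ((n + d).choose n : ℝ)) ≤ 0 :=
      mul_nonpos_of_nonneg_of_nonpos hx0 (by linarith)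
    linarith
  have hK : 1 ≤ (n + d).choose n := Nat.choose_pos (by omega)
  have hA0 := uni_set_ne_zero (by omega) A hcard huni
  have hq : (0 : ℝ) < A.card := by exact_mod_cast (by omega : 0 < A.card)
  set Y : ℝ := (1 - (3 * (n : ℝ) + 1) / (n + d)) * ((A.card : ℝ) - ((n + d).choose n : ℝ)) with hY
  set η : ℝ := 1 - Y / A.card with hη
  have h1η : (1 - η) * A.card = Y := by
    rw [hη]
    field_simp
    ring
  have hρη : ρ < 1 - η := by
    have h1 : ρ * A.card < (1 - η) * A.card := by rw [h1η]; exact hρ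
    exact lt_of_mul_lt_mul_right h1 hq.le
  have hL := hyp_level hd A hcard huni ⊥ (∏ a ∈ A, lin a) (η := η) h1η
  have hDn : (A.image (lin : (Fin (n + 1) → ℂ) → _)).Nonempty := by
    rw [Finset.image_nonempty]
    exact Finset.card_pos.mp (by omega)
  have hmem : ∀ P ∈ A.image (lin : (Fin (n + 1) → ℂ) → _), ∃ a ∈ A, lin a = P := by
    intro P hP
    simpa using hP
  have hDh : ∀ P ∈ A.image (lin : (Fin (n + 1) → ℂ) → _),
      1 ≤ P.totalDegree ∧ P.IsHomogeneous P.totalDegree := by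
    intro P hP
    obtain ⟨a, ha, rfl⟩ := hmem P hP
    rw [lin_totalDegree (hA0 a ha)]
    exact ⟨le_rfl, lin_homogeneous a⟩
  have hZh : (∏ a ∈ A, lin a).IsHomogeneous A.card := by
    have h1 := IsHomogeneous.prod A (fun a : Fin (n + 1) → ℂ => lin a) (fun _ => 1)
      fun a _ => lin_homogeneous a
    simpa using h1
  have hbot : HomI (⊥ : Ideal (MvPolynomial (Fin (n + 1)) ℂ)) := by
    intro g hg k
    rw [Ideal.mem_bot] at hg
    subst hg
    simp
  have hφq : ∀ g ∈ (⊥ : Ideal (MvPolynomial (Fin (n + 1)) ℂ)), ∀ x : Fin (m + 1) → ℂ,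
      (∀ p ∈ S, eval x p = 0) → eval x (aeval φ g) = 0 := by
    intro g hg x _
    rw [Ideal.mem_bot] at hg
    subst hg
    simp
  have hR' : RamifiedOnAverage ρ S φ (A.image lin) := by
    rcases hR with h | ⟨M, rfl, hpos, hR⟩
    · exact h
    refine ramified_avg hbot (fun P hP => (hDh P hP).2) ?_ hφq hR
    intro x hx _ D' hD' hD'x
    have h1 : D'.card = (A.filter fun a => lin a ∈ D').card := by
      rw [← Finset.card_image_of_injective (A.filter fun a => lin a ∈ D') lin_inj]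
      congr 1
      ext P
      rw [Finset.mem_image]
      constructor
      · intro hP
        obtain ⟨a, ha, rfl⟩ := hmem P (hD' hP)
        exact ⟨a, Finset.mem_filter.mpr ⟨ha, hP⟩, rfl⟩
      · rintro ⟨a, ha, rfl⟩
        exact (Finset.mem_filter.mp ha).2
    rw [h1]
    refine hpos x hx _ (Finset.filter_subset _ _) fun b hb => ?_
    rw [← eval_lin_dot]
    exact hD'x _ (Finset.mem_filter.mp hb).2
  refine avg_curves hρη hρ0 ⊥ hbot (A.image lin) hDn (∏ a ∈ A, lin a) (d := A.card) (by omega)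
    hZh hDh ?_ hL S φ hφq hR'
  intro P hP
  obtain ⟨a, ha, rfl⟩ := hmem P hP
  exact Finset.dvd_prod_of_mem _ ha

/-- the explicit case -/
theorem hyp_ram_explicit {n M : ℕ} {q : ℕ}
    (hq : 2 * (M + 1) * (n + 2 * (M + 1) * (3 * n + 1)).choose n ≤ q) :
    (M : ℝ) / (M + 1) * q < (1 - (3 * (n : ℝ) + 1) / (n + (2 * (M + 1) * (3 * n + 1) : ℕ))) *
      ((q : ℝ) - ((n + 2 * (M + 1) * (3 * n + 1)).choose n : ℝ)) := by
  set K : ℕ := (n + 2 * (M + 1) * (3 * n + 1)).choose n with hK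
  have hK1 : 1 ≤ K := Nat.choose_pos (by omega)
  have hM0 : (0 : ℝ) ≤ M := Nat.cast_nonneg M
  have hM1 : (0 : ℝ) < (M : ℝ) + 1 := by positivity
  have hqR : 2 * ((M : ℝ) + 1) * K ≤ q := by exact_mod_cast hq
  have hK0 : (1 : ℝ) ≤ K := by exact_mod_cast hK1
  have hq0 : (0 : ℝ) < q := by nlinarith
  have hn0 : (0 : ℝ) ≤ n := Nat.cast_nonneg n
  set x : ℝ := 1 / (2 * ((M : ℝ) + 1)) with hx
  have hx0 : 0 < x := by positivity
  have hx1 : x ≤ 1 / 2 := by
    rw [hx]
    exact one_div_le_one_div_of_le (by norm_num) (by linarith)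
  have h1 : (3 * (n : ℝ) + 1) / (n + (2 * (M + 1) * (3 * n + 1) : ℕ)) ≤ x := by
    rw [hx, div_le_div_iff₀ (by positivity) (by positivity)]
    push_cast
    nlinarith
  have h2 : (K : ℝ) ≤ x * q := by
    rw [hx, div_mul_eq_mul_div, one_mul, le_div_iff₀ (by positivity)]
    linarith
  have h3 : (M : ℝ) / (M + 1) = 1 - 2 * x := by
    rw [hx]
    field_simp
    ring
  have h4 : (1 - x) * ((1 - x) * q) ≤ (1 - (3 * (n : ℝ) + 1) / (n + (2 * (M + 1) * (3 * n + 1) : ℕ))) *
      ((q : ℝ) - K) := by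
    apply mul_le_mul (by linarith) (by linarith) (by nlinarith) (by linarith)
  rw [h3]
  refine lt_of_lt_of_le ?_ h4
  nlinarith [mul_pos hx0 hx0, mul_pos (mul_pos hx0 hx0) hq0]

end Pool.Agent.LO
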