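import Pool.Agent.Lib_MP_b9fedf_ag.TanRed
import Pool.Agent.Lib_MP_b9fedf_ag.TanStatement
import Pool.Agent.Lib_MP_b9fedf_ag.Hyper
import Pool.Agent.Lib_MP_b9fedf_lo.HypRam

/-! Varieties over projective space on which many hyperplanes are multiple. -/

set_option autoImplicit false

namespace Pool.Agent.LO
open Pool.Agent.GGL Pool.Agent.SQ Pool.Agent.Stat

/-- the curves lie in the fibres -/
theorem mult_curves (m n e : ℕ) (S : Set (MvPolynomial (Fin (m + 1)) ℂ))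
      (φ : Fin (n + 1) → MvPolynomial (Fin (m + 1)) ℂ)
      (hA : ∀ P : MvPolynomial (Fin (n + 1)) ℂ, P.IsHomogeneous (4 * n + 2) →
        (∀ a : Fin (n + 1) → ℂ, Multiple S φ a → MvPolynomial.eval a P = 0) → P = 0) :
      ∀ f : ℂ → (Fin (m + 1) → ℂ), Differentiable ℂ f → (∀ z, f z ≠ 0) →
        (∀ z, ∀ p ∈ S, MvPolynomial.eval (f z) p = 0) →
        ∃ t : Fin (n + 1) → ℂ, t ≠ 0 ∧
          ∀ z, ∀ p ∈ Fibre S φ t, MvPolynomial.eval (f z) p = 0 := by
    intro f hf hf0 hfS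
    obtain ⟨t, ht0, ht⟩ := tangential {a | Multiple S φ a} hA
      (fun i z => MvPolynomial.eval (f z) (φ i)) (fun i => diff_eval hf (φ i)) (by
        intro a ha z c hc hc' hcon
        have hsh : ∀ u : ℂ → ℂ, analyticOrderAt (fun ζ => u (z + ζ)) 0 = analyticOrderAt u z := by
          intro u
          have h1 := analyticOrderAt_comp_of_deriv_ne_zero (f := u) (g := fun ζ : ℂ => z + ζ)
            (z₀ := 0) (by fun_prop) (by
              rw [deriv_const_add]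
              simp)
          simpa [Function.comp_def] using h1
        refine ha (fun ζ => f (z + ζ)) ?_ ?_ ?_ c ?_ ?_ ?_
        · have h1 : AnalyticAt ℂ f (z + 0) := hf.analyticAt _
          exact h1.fun_comp (f := fun ζ : ℂ => z + ζ) (by fun_prop)
        · exact hf0 _
        · exact Filter.Eventually.of_forall fun ζ => hfS _
        · intro i
          rw [hsh (fun w => MvPolynomial.eval (f w) (φ i))]
          exact hc i
        · obtain ⟨i, hi⟩ := hc'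
          refine ⟨i, ?_⟩
          rw [hsh (fun w => MvPolynomial.eval (f w) (φ i))]
          exact hi
        · rw [hsh (fun w => ∑ i, a i * MvPolynomial.eval (f w) (φ i))]
          exact hcon)
    refine ⟨t, ht0, ?_⟩
    rintro z p (hp | ⟨i, j, rfl⟩)
    · exact hfS z p hp
    · rw [map_sub, map_mul, map_mul, MvPolynomial.eval_C, MvPolynomial.eval_C, sub_eq_zero]
      exact ht z i j

/-- no form of degree `4n+2` vanishes on the members of a large set -/
theorem deg_reduce {n d : ℕ} (hd : 4 * n + 2 ≤ d) (A : Finset (Fin (n + 1) → ℂ))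
    (hcard : (n + d).choose n ≤ A.card)
    (huni : ∀ B ⊆ A, B.card = (n + d).choose n → ∀ P : MvPolynomial (Fin (n + 1)) ℂ,
      P.IsHomogeneous d → (∀ b ∈ B, MvPolynomial.eval b P = 0) → P = 0)
    (P : MvPolynomial (Fin (n + 1)) ℂ) (hP : P.IsHomogeneous (4 * n + 2))
    (h0 : ∀ a ∈ A, MvPolynomial.eval a P = 0) : P = 0 := by
  obtain ⟨B, hBA, hB⟩ := Finset.exists_subset_card_eq hcard
  have h1 : (P * MvPolynomial.X 0 ^ (d - (4 * n + 2))).IsHomogeneous d := by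
    have h2 := hP.mul ((MvPolynomial.isHomogeneous_X ℂ (0 : Fin (n + 1))).pow (d - (4 * n + 2)))
    have h3 : 4 * n + 2 + 1 * (d - (4 * n + 2)) = d := by omega
    rwa [h3] at h2
  have h2 := huni B hBA hB _ h1 fun b hb => by
    rw [map_mul, h0 b (hBA hb), zero_mul]
  rcases mul_eq_zero.mp h2 with h | h
  · exact h
  · exact absurd h (pow_ne_zero _ (MvPolynomial.X_ne_zero _))

/-- the inequality for all `d ≥ 1` -/
theorem hyp_sum_all {n d : ℕ} (hd : 1 ≤ d) (A : Finset (Fin (n + 1) → ℂ))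
    (hcard : (n + d).choose n ≤ A.card)
    (huni : ∀ B ⊆ A, B.card = (n + d).choose n → ∀ P : MvPolynomial (Fin (n + 1)) ℂ,
      P.IsHomogeneous d → (∀ b ∈ B, MvPolynomial.eval b P = 0) → P = 0)
    (f : ℂ → Fin (n + 1) → ℂ) (hf : Differentiable ℂ f) (hf0 : ∀ z, f z ≠ 0)
    (hnc : ¬ ∀ z w, ∃ c : ℂ, f w = c • f z) :
      ∃ (K : ℝ) (E : Set ℝ), MeasureTheory.volume E < ⊤ ∧ ∀ r, 1 ≤ r → r ∉ E →
        (1 - (3 * (n : ℝ) + 1) / (n + d)) * ((A.card : ℝ) - ((n + d).choose n : ℝ)) * charT f r ≤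
          ∑ a ∈ A, Nbar (fun z => ∑ i, a i * f z i) r +
            K * (Real.posLog (charT f r) + Real.log r + 1) := by
  rcases Nat.lt_or_ge d (2 * n + 1) with hlt | hge
  swap
  · exact hyp_sum' hge A huni f hf hf0 hnc
  have hnd : (0 : ℝ) < (n : ℝ) + d := by
    have h1 : (1 : ℝ) ≤ d := by exact_mod_cast hd
    positivity
  have hx0 : 1 - (3 * (n : ℝ) + 1) / (n + d) ≤ 0 := by
    have : 1 ≤ (3 * (n : ℝ) + 1) / (n + d) := by
      rw [le_div_iff₀ hnd]
      have h1 : (d : ℝ) ≤ 2 * n + 1 := by exact_mod_cast hlt.le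
      linarith
    linarith
  have hy0 : 0 ≤ (A.card : ℝ) - ((n + d).choose n : ℝ) := by
    have : ((n + d).choose n : ℝ) ≤ A.card := by exact_mod_cast hcard
    linarith
  set κ : ℝ := (1 - (3 * (n : ℝ) + 1) / (n + d)) * ((A.card : ℝ) - ((n + d).choose n : ℝ)) with hκd
  have hκ : κ ≤ 0 := mul_nonpos_of_nonpos_of_nonneg hx0 hy0
  refine ⟨|κ * charT f 1|, ∅, by simp, fun r hr _ => ?_⟩
  have h1 := charT_mono hf hf0 one_pos hr
  have h2 : κ * charT f r ≤ κ * charT f 1 := mul_le_mul_of_nonpos_left h1 hκ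
  have h3 : 0 ≤ ∑ a ∈ A, Nbar (fun z => ∑ i, a i * f z i) r :=
    Finset.sum_nonneg fun a _ => Nbar_nonneg _ hr
  have h4 : 0 ≤ Real.posLog (charT f r) := Real.posLog_nonneg
  have h5 : 0 ≤ Real.log r := Real.log_nonneg hr
  have h6 : |κ * charT f 1| ≤ |κ * charT f 1| * (Real.posLog (charT f r) + Real.log r + 1) :=
    le_mul_of_one_le_right (abs_nonneg _) (by linarith)
  linarith [le_abs_self (κ * charT f 1)]

open scoped Classical in
/-- Varieties over projective space, ramified over many hyperplanes, all `d ≥ 1`. -/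
theorem hyp_ram_all {n d : ℕ} (hd : 1 ≤ d) (A : Finset (Fin (n + 1) → ℂ))
    (hcard : (n + d).choose n ≤ A.card)
    (huni : ∀ B ⊆ A, B.card = (n + d).choose n → ∀ P : MvPolynomial (Fin (n + 1)) ℂ,
      P.IsHomogeneous d → (∀ b ∈ B, MvPolynomial.eval b P = 0) → P = 0)
    {ρ : ℝ} (hρ0 : 0 ≤ ρ)
    (hρ : ρ * A.card <
      (1 - (3 * (n : ℝ) + 1) / (n + d)) * ((A.card : ℝ) - ((n + d).choose n : ℝ)))
    {m : ℕ} (S : Set (MvPolynomial (Fin (m + 1)) ℂ)) (φ : Fin (n + 1) → MvPolynomial (Fin (m + 1)) ℂ)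
    (hR : RamifiedOnAverage ρ S φ (A.image lin) ∨
      ∃ M : ℕ, ρ = (M : ℝ) / (M + 1) ∧
        (∀ x : Fin (n + 1) → ℂ, x ≠ 0 → ∀ B ⊆ A, (∀ b ∈ B, ∑ i, b i * x i = 0) → B.card ≤ M) ∧
        Ramified S φ (A.image lin)) :
    CurvesIn S (MvPolynomial.aeval φ (∏ a ∈ A, lin a)) φ := by
  refine hyp_ram ?_ A huni hρ0 hρ S φ hR
  by_contra hlt
  push Not at hlt
  have hnd : (0 : ℝ) < (n : ℝ) + d := by
    have h1 : (1 : ℝ) ≤ d := by exact_mod_cast hd
    positivity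
  have hx0 : 1 - (3 * (n : ℝ) + 1) / (n + d) ≤ 0 := by
    have : 1 ≤ (3 * (n : ℝ) + 1) / (n + d) := by
      rw [le_div_iff₀ hnd]
      have h1 : (d : ℝ) ≤ 2 * n + 1 := by exact_mod_cast hlt.le
      linarith
    linarith
  have hy0 : 0 ≤ (A.card : ℝ) - ((n + d).choose n : ℝ) := by
    have : ((n + d).choose n : ℝ) ≤ A.card := by exact_mod_cast hcard
    linarith
  have h1 := mul_nonpos_of_nonpos_of_nonneg hx0 hy0
  have h2 : 0 ≤ ρ * A.card := mul_nonneg hρ0 (Nat.cast_nonneg _)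
  linarith

/-- the statement of Green, Griffiths and Lang from `CurvesIn` -/
theorem ggl_of_curves {m n : ℕ} {S : Set (MvPolynomial (Fin (m + 1)) ℂ)}
    {φ : Fin (n + 1) → MvPolynomial (Fin (m + 1)) ℂ} {Z : MvPolynomial (Fin (m + 1)) ℂ}
    (key2 : CurvesIn S Z φ) (hGZ : GGL m (insert Z S))
    (hGF : ∀ t : Fin (n + 1) → ℂ, t ≠ 0 → GGL m (Fibre S φ t)) : GGL m S := by
  intro htor f hf hf0 hfS
  rcases key2 f hf hf0 hfS with h1 | ⟨t, ht0, ht⟩
  · refine hGZ ?_ f hf hf0 ?_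
    · intro g L hL hspan F hF hF0 hFX hFL
      exact htor g L hL hspan F hF hF0 (fun z p hp => hFX z p (Set.mem_insert_of_mem _ hp)) hFL
    · intro z p hp
      rcases Set.mem_insert_iff.mp hp with rfl | hp
      · exact h1 z
      · exact hfS z p hp
  · refine hGF t ht0 ?_ f hf hf0 ht
    intro g L hL hspan F hF hF0 hFX hFL
    exact htor g L hL hspan F hF hF0 (fun z p hp => hFX z p (Or.inl hp)) hFL

/-- the same, all curves in the fibres -/
theorem ggl_of_fibres {m n : ℕ} {S : Set (MvPolynomial (Fin (m + 1)) ℂ)}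
    {φ : Fin (n + 1) → MvPolynomial (Fin (m + 1)) ℂ}
    (key : ∀ f : ℂ → (Fin (m + 1) → ℂ), Differentiable ℂ f → (∀ z, f z ≠ 0) →
        (∀ z, ∀ p ∈ S, MvPolynomial.eval (f z) p = 0) →
        ∃ t : Fin (n + 1) → ℂ, t ≠ 0 ∧ ∀ z, ∀ p ∈ Fibre S φ t, MvPolynomial.eval (f z) p = 0)
    (hfib : ∀ t : Fin (n + 1) → ℂ, t ≠ 0 → GGL m (Fibre S φ t)) : GGL m S := by
  intro htor f hf hf0 hfS
  obtain ⟨t, ht0, ht⟩ := key f hf hf0 hfS
  refine hfib t ht0 ?_ f hf hf0 ht
  intro g L hL hspan F hF hF0 hFX hFL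
  exact htor g L hL hspan F hF hF0 (fun z p hp => hFX z p (Or.inl hp)) hFL

end Pool.Agent.LO
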