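import Pool.Agent.Lib_MP_b9fedf_sq.PkgKey

/-! Cartan's estimate from a greedy estimate of weight `s`. -/

set_option autoImplicit false

namespace Pool.Agent.LO
open Filter Metric Real Set Function MeromorphicOn ValueDistribution
open Pool.Agent.GGL Pool.Agent.SQ

/-- the greedy estimate with weight `s` -/
def Greedy {m : ℕ} {ι : Type} [Fintype ι] (q : ι → Fin (m + 1) → ℂ) (s : ℝ) : Prop :=
  ∃ C : ℝ, ∀ x : Fin (m + 1) → ℂ, (∀ i, ∑ a, q i a * x a ≠ 0) →
      ∃ κ : Fin (m + 1) → ι, LinearIndependent ℂ (fun k => q (κ k)) ∧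
        ∑ i, (Real.log ‖x‖ - Real.log ‖∑ a, q i a * x a‖) ≤
          s * ∑ k, (Real.log ‖x‖ - Real.log ‖∑ a, q (κ k) a * x a‖) + C

lemma pointwise_gen {m : ℕ} {ι : Type} [Fintype ι] (q : ι → Fin (m + 1) → ℂ) {s : ℝ}
    (hs0 : 0 ≤ s) (hgr : Greedy q s)
    (g : Fin (m + 1) → ℂ → ℂ) (hg : ∀ k, Differentiable ℂ (g k)) :
    ∃ C : ℝ, ∀ (z : ℂ) (B : ℝ), 1 ≤ B → g 0 z ≠ 0 → (∀ i, ∑ a, q i a * g a z ≠ 0) →
      Wr g z ≠ 0 → (∀ i, Good (fun z => (∑ a, q i a * g a z) / g 0 z) B z) →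
      ((Fintype.card ι : ℝ) - (m + 1) * s) *
        Real.log ‖fun a => g a z‖ + s * Real.log ‖Wr g z‖ ≤
      ∑ i, Real.log ‖∑ a, q i a * g a z‖ + C +
        s * ((m + 1) ^ 2 * Real.log B) := by
  classical
  obtain ⟨C1, hC1⟩ := hgr
  set C2 : ℝ := ∑ κ : Fin (m + 1) → ι,
    |Real.log ‖(Matrix.of fun k a => q (κ k) a).det‖| with hC2
  set c0 : ℝ := Real.log ((m + 1).factorial : ℝ) +
    (m + 1) * (1 + Real.log ((m + 1).factorial : ℝ)) with hc0
  refine ⟨C1 + s * (C2 + c0), ?_⟩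
  intro z B hB hg0 hhz hW hgood
  obtain ⟨κ, hκ, hsum⟩ := hC1 (fun a => g a z) hhz
  have hdet : (Matrix.of fun k a => q (κ k) a).det ≠ 0 := by
    have h1 : LinearIndependent ℂ (Matrix.of fun k a => q (κ k) a).row := hκ
    rw [Matrix.linearIndependent_rows_iff_isUnit] at h1
    exact ((Matrix.isUnit_iff_isUnit_det _).mp h1).ne_zero
  have hWr := Wr_linear (fun k a => q (κ k) a) g hg z
  have hle := Wr_le_prod (g0 := g 0) (h := fun k ζ => ∑ a, q (κ k) a * g a ζ) (z := z) hB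
    ((hg 0).analyticAt z) (fun k => (Differentiable.fun_sum (fun a _ =>
      (hg a).const_mul (q (κ k) a))).analyticAt z) hg0 (fun k => hgood (κ k))
  rw [hWr, norm_mul] at hle
  have hdpos : 0 < ‖(Matrix.of fun k a => q (κ k) a).det‖ := norm_pos_iff.mpr hdet
  have hWpos : 0 < ‖Wr g z‖ := norm_pos_iff.mpr hW
  have hf : (0 : ℝ) < ((m + 1).factorial : ℝ) := by exact_mod_cast Nat.factorial_pos (m + 1)
  have hBm : 0 < B ^ (m + 1) := by positivity
  have he : 0 < Real.exp 1 := Real.exp_pos 1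
  have hprod : 0 < ∏ k, ‖∑ a, q (κ k) a * g a z‖ :=
    Finset.prod_pos fun k _ => norm_pos_iff.mpr (hhz _)
  have h6 := Real.log_le_log (mul_pos hdpos hWpos) hle
  rw [Real.log_mul hdpos.ne' hWpos.ne', Real.log_mul (by positivity) hprod.ne',
    Real.log_mul hf.ne' (by positivity), Real.log_pow,
    Real.log_mul (by positivity) hBm.ne', Real.log_mul he.ne' hf.ne', Real.log_exp, Real.log_pow,
    Real.log_prod (fun i _ => (norm_pos_iff.mpr (hhz _)).ne')] at h6
  have h7 : -C2 ≤ Real.log ‖(Matrix.of fun k a => q (κ k) a).det‖ := by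
    have h8 : |Real.log ‖(Matrix.of fun k a => q (κ k) a).det‖| ≤ C2 :=
      Finset.single_le_sum (f := fun κ : Fin (m + 1) → ι =>
        |Real.log ‖(Matrix.of fun k a => q (κ k) a).det‖|) (fun _ _ => abs_nonneg _)
        (Finset.mem_univ κ)
    linarith [neg_abs_le (Real.log ‖(Matrix.of fun k a => q (κ k) a).det‖)]
  rw [Finset.sum_sub_distrib, Finset.sum_sub_distrib, Finset.sum_const, Finset.sum_const,
    Finset.card_univ, Finset.card_univ, Fintype.card_fin, nsmul_eq_mul,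
    nsmul_eq_mul] at hsum
  push_cast at hsum h6
  set X := Real.log ‖fun a => g a z‖ with hX
  set Y := ∑ k, Real.log ‖∑ a, q (κ k) a * g a z‖ with hY
  set Z := ∑ i, Real.log ‖∑ a, q i a * g a z‖ with hZ
  have h9 : -Y ≤ -Real.log ‖Wr g z‖ + (C2 + c0) + (m + 1) ^ 2 * Real.log B := by
    rw [hc0]
    linarith
  have h10 := mul_le_mul_of_nonneg_left h9 hs0
  linarith

/-- the averaged inequality -/
lemma average_gen {m : ℕ} {ι : Type} [Fintype ι] (q : ι → Fin (m + 1) → ℂ)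
    (hq0 : ∀ i, q i ≠ 0) {s : ℝ} (hs0 : 0 ≤ s) (hgr : Greedy q s)
    (g : Fin (m + 1) → ℂ → ℂ) (hg : ∀ k, Differentiable ℂ (g k))
    (hli : LinearIndependent ℂ g) :
    ∃ C : ℝ, ∀ (r B : ℝ), 1 ≤ r → 1 ≤ B →
      (∀ i, ∀ z ∈ sphere (0 : ℂ) r, Good (fun z => (∑ a, q i a * g a z) / g 0 z) B z) →
      ((Fintype.card ι : ℝ) - (m + 1) * s) *
        circleAverage (fun z => Real.log ‖fun a => g a z‖) 0 r ≤
      ∑ i, Function.locallyFinsuppWithin.logCounting
        (Dv (fun z => ∑ a, q i a * g a z)) r + C +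
        s * ((m + 1) ^ 2 * Real.log B) := by
  classical
  obtain ⟨C, hC⟩ := pointwise_gen q hs0 hgr g hg
  have hhd : ∀ i, Differentiable ℂ (fun z => ∑ a, q i a * g a z) := fun i =>
    Differentiable.fun_sum fun a _ => (hg a).const_mul (q i a)
  have hhne : ∀ i, ∃ z, ∑ a, q i a * g a z ≠ 0 := fun i =>
    combination_ne_zero (q i) (hq0 i) g hli
  have hg0ne : ∃ z, g 0 z ≠ 0 := by
    have := hli.ne_zero 0
    by_contra hcon
    push Not at hcon
    exact this (funext hcon)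
  have hWd : Differentiable ℂ (Wr g) := Wr_differentiable hg
  have hWne := exists_Wr_ne_zero g hg hli
  have hW0 : 0 ≤ Dv (Wr g) := Dv_nonneg hWd
  refine ⟨C + ∑ i, Real.log ‖meromorphicTrailingCoeffAt
      (fun z => ∑ a, q i a * g a z) 0‖ -
    s * Real.log ‖meromorphicTrailingCoeffAt (Wr g) 0‖, ?_⟩
  intro r B hr hB hgood
  have hr0 : 0 < r := by linarith
  set κ : ℝ := (Fintype.card ι : ℝ) - (m + 1) * s with hκ
  have hvI : CircleIntegrable (fun z => Real.log ‖fun a => g a z‖) 0 r := vec_integrable hg r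
  have hWI := log_integrable (mero_of_diff hWd) r
  have hhI : ∀ i, CircleIntegrable (fun z => Real.log ‖∑ a, q i a * g a z‖) 0 r := fun i =>
    log_integrable (mero_of_diff (hhd i)) r
  have hsI : CircleIntegrable (fun z => ∑ i, Real.log ‖∑ a, q i a * g a z‖) 0 r := by
    have := CircleIntegrable.sum Finset.univ (f := fun i z => Real.log ‖∑ a, q i a * g a z‖)
      (c := 0) (R := r) (fun k _ => hhI k)
    convert! this using 1
    ext z
    simp
  have h1 : circleAverage (fun z => κ * Real.log ‖fun a => g a z‖ + s * Real.log ‖Wr g z‖) 0 r ≤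
      circleAverage (fun z => (∑ i, Real.log ‖∑ a, q i a * g a z‖) +
        (C + s * ((m + 1) ^ 2 * Real.log B))) 0 r := by
    apply circleAverage_mono_codiscrete hr0
      (CircleIntegrable.add (ci_mul κ hvI) (ci_mul s hWI))
      (CircleIntegrable.add hsI (circleIntegrable_const _ _ _))
    have h2 : ∀ᶠ z in codiscreteWithin (sphere (0 : ℂ) r), ∀ i, ∑ a, q i a * g a z ≠ 0 :=
      Filter.eventually_all.mpr fun i => nonzero_codiscrete (hhd i) (hhne i) r
    filter_upwards [h2, nonzero_codiscrete hWd hWne r, nonzero_codiscrete (hg 0) hg0ne r,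
      self_mem_codiscreteWithin _] with z hz hWz hg0z hzs
    have := hC z B hB hg0z hz hWz (fun i => hgood i z hzs)
    show κ * Real.log ‖fun a => g a z‖ + s * Real.log ‖Wr g z‖ ≤
      (∑ i, Real.log ‖∑ a, q i a * g a z‖) + (C + s * ((m + 1) ^ 2 * Real.log B))
    linarith
  rw [circleAverage_fun_add (ci_mul κ hvI) (ci_mul s hWI),
    circleAverage_fun_add hsI (circleIntegrable_const _ _ _),
    circleAverage_const] at h1
  rw [ca_mul, ca_mul, circleAverage_fun_sum (fun k _ => hhI k), jensen (mero_of_diff hWd) hr] at h1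
  have h4 : ∑ i, circleAverage (fun z => Real.log ‖∑ a, q i a * g a z‖) 0 r =
      ∑ i, Function.locallyFinsuppWithin.logCounting (Dv (fun z => ∑ a, q i a * g a z)) r +
        ∑ i, Real.log ‖meromorphicTrailingCoeffAt (fun z => ∑ a, q i a * g a z) 0‖ := by
    rw [← Finset.sum_add_distrib]
    exact Finset.sum_congr rfl fun k _ => jensen (mero_of_diff (hhd k)) hr
  rw [h4] at h1
  have h5 : 0 ≤ s * Function.locallyFinsuppWithin.logCounting (Dv (Wr g)) r :=
    mul_nonneg hs0 (Function.locallyFinsuppWithin.logCounting_nonneg hW0 hr)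
  linarith

end Pool.Agent.LO
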