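import Mathlib

/-! Borel's growth lemma in the measure form, additive version. -/

set_option autoImplicit false

namespace Pool.Agent.LO

/-- A monotone function `T ≥ 1` satisfies `T (r + 1 / T r ^ 2) ≤ T r + 1` outside a set of finite
measure. -/
theorem growth_add (T : ℝ → ℝ) (hmono : MonotoneOn T (Set.Ici 1))
    (h1 : ∀ r, 1 ≤ r → 1 ≤ T r) :
    MeasureTheory.volume {r : ℝ | 1 ≤ r ∧ T r + 1 < T (r + 1 / T r ^ 2)} < ⊤ := by
  set E : ℕ → Set ℝ := fun k =>
    {r : ℝ | (1 ≤ r ∧ T r + 1 < T (r + 1 / T r ^ 2)) ∧ ((k : ℝ) + 1) ≤ T r ∧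
      T r < (k : ℝ) + 2} with hE
  have hsub : {r : ℝ | 1 ≤ r ∧ T r + 1 < T (r + 1 / T r ^ 2)} ⊆ ⋃ k, E k := by
    intro r hr
    have h2 := h1 r hr.1
    refine Set.mem_iUnion.mpr ⟨⌊T r - 1⌋₊, hr, ?_, ?_⟩
    · have := Nat.floor_le (show 0 ≤ T r - 1 by linarith)
      linarith
    · have := Nat.lt_floor_add_one (T r - 1)
      linarith
  have hpair : ∀ (k : ℕ) (x y : ℝ), x ∈ E k → y ∈ E k → x ≤ y →
      y - x ≤ 1 / ((k : ℝ) + 1) ^ 2 := by
    intro k x y hx hy hxy
    obtain ⟨⟨hx1, hx2⟩, hx3, hx4⟩ := hx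
    obtain ⟨⟨hy1, hy2⟩, hy3, hy4⟩ := hy
    have hT : 0 < T x := lt_of_lt_of_le one_pos (h1 x hx1)
    have hle : y ≤ x + 1 / T x ^ 2 := by
      by_contra hcon
      push Not at hcon
      have h2 : T (x + 1 / T x ^ 2) ≤ T y := by
        apply hmono _ _ hcon.le
        · exact Set.mem_Ici.mpr (by have : 0 < 1 / T x ^ 2 := by positivity
                                    linarith)
        · exact Set.mem_Ici.mpr hy1
      linarith
    have hk : (0 : ℝ) < (k : ℝ) + 1 := by positivity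
    have h4 : 1 / T x ^ 2 ≤ 1 / ((k : ℝ) + 1) ^ 2 :=
      one_div_le_one_div_of_le (by positivity) (pow_le_pow_left₀ hk.le hx3 2)
    linarith
  have hvol : ∀ k, MeasureTheory.volume (E k) ≤ ENNReal.ofReal (1 / ((k : ℝ) + 1) ^ 2) := by
    intro k
    refine (Real.volume_le_diam _).trans (Metric.ediam_le ?_)
    intro x hx y hy
    rw [edist_dist]
    apply ENNReal.ofReal_le_ofReal
    have hk : (0 : ℝ) ≤ 1 / ((k : ℝ) + 1) ^ 2 := by positivity
    rw [Real.dist_eq, abs_le]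
    rcases le_total x y with hxy | hxy
    · have h := hpair k x y hx hy hxy
      constructor <;> linarith
    · have h := hpair k y x hy hx hxy
      constructor <;> linarith
  have hsm : Summable (fun k : ℕ => 1 / ((k : ℝ) + 1) ^ 2) := by
    have h2 := (summable_nat_add_iff 1).mpr (Real.summable_one_div_nat_pow.mpr one_lt_two)
    refine h2.congr fun k => ?_
    push_cast
    rfl
  calc MeasureTheory.volume {r : ℝ | 1 ≤ r ∧ T r + 1 < T (r + 1 / T r ^ 2)}
      ≤ MeasureTheory.volume (⋃ k, E k) := MeasureTheory.measure_mono hsub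
    _ ≤ ∑' k, MeasureTheory.volume (E k) := MeasureTheory.measure_iUnion_le _
    _ ≤ ∑' k : ℕ, ENNReal.ofReal (1 / ((k : ℝ) + 1) ^ 2) := ENNReal.tsum_le_tsum hvol
    _ = ENNReal.ofReal (∑' k : ℕ, 1 / ((k : ℝ) + 1) ^ 2) := by
        rw [ENNReal.ofReal_tsum_of_nonneg (fun k => by positivity) hsm]
    _ < ⊤ := ENNReal.ofReal_lt_top

end Pool.Agent.LO
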