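import Pool.Agent.Lib_MP_b9fedf_st.Defs

/-! The characteristic `charT` is a monotone function of the radius. -/

set_option autoImplicit false

namespace Pool.Agent.LO
open Metric Real Set Filter MeasureTheory
open Pool.Agent.Stat

/-- the points `z ω^j` -/
private noncomputable def rot (n j : ℕ) : ℂ := Complex.exp (((2 * π * j / n : ℝ) : ℂ) * Complex.I)

private theorem norm_rot (n j : ℕ) : ‖rot n j‖ = 1 := Complex.norm_exp_ofReal_mul_I _

private theorem circleMap_rot (r η : ℝ) (n j : ℕ) :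
    circleMap 0 r (2 * π * j / n + η) = circleMap 0 r η * rot n j := by
  have h : Complex.exp ((((2 * π * j / n : ℝ) + η : ℝ) : ℂ) * Complex.I) =
      Complex.exp ((η : ℂ) * Complex.I) * Complex.exp (((2 * π * j / n : ℝ) : ℂ) * Complex.I) := by
    rw [← Complex.exp_add]
    congr 1
    push_cast
    ring
  simp only [circleMap, rot, zero_add]
  rw [h]
  ring

/-- equidistributed sums approximate the circle average -/
private theorem avg_sum (u : ℂ → ℝ) (hu : Continuous u) (r : ℝ) {ε : ℝ} (hε : 0 < ε) :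
    ∃ n₀ : ℕ, ∀ n : ℕ, n₀ ≤ n → 0 < n → ∀ η : ℝ,
      |circleAverage u 0 r - (∑ j ∈ Finset.range n, u (circleMap 0 r η * rot n j)) / n| ≤ ε := by
  have hK : IsCompact (sphere (0 : ℂ) |r|) := isCompact_sphere _ _
  have hUC := hK.uniformContinuousOn_of_continuous hu.continuousOn
  rw [Metric.uniformContinuousOn_iff] at hUC
  obtain ⟨δ, hδ, hUC⟩ := hUC ε hε
  obtain ⟨n₀, hn₀⟩ := exists_nat_gt (2 * π * |r| / δ)
  refine ⟨n₀, fun n hn hn0 η => ?_⟩
  have hnr : (0 : ℝ) < n := by exact_mod_cast hn0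
  have hstep : 2 * π / n * |r| < δ := by
    have h1 : 2 * π * |r| / δ < n := hn₀.trans_le (by exact_mod_cast hn)
    rw [div_lt_iff₀ hδ] at h1
    rw [div_mul_eq_mul_div, div_lt_iff₀ hnr]
    linarith
  set F : ℝ → ℝ := fun θ => u (circleMap 0 r (θ + η)) with hF
  have hFc : Continuous F := hu.comp ((continuous_circleMap 0 r).comp (continuous_id.add continuous_const))
  have hFd : ∀ x y : ℝ, |x - y| ≤ 2 * π / n → |F x - F y| < ε := by
    intro x y hxy
    have h1 : dist (circleMap 0 r (x + η)) (circleMap 0 r (y + η)) < δ := by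
      refine lt_of_le_of_lt ((lipschitzWith_circleMap 0 r).dist_le_mul _ _) ?_
      rw [Real.dist_eq, Real.coe_nnabs, add_sub_add_right_eq_sub, mul_comm]
      exact lt_of_le_of_lt (mul_le_mul_of_nonneg_right hxy (abs_nonneg r)) hstep
    have h2 := hUC _ (circleMap_mem_sphere' 0 r (x + η)) _ (circleMap_mem_sphere' 0 r (y + η)) h1
    rwa [Real.dist_eq] at h2
  set a : ℕ → ℝ := fun j => 2 * π * j / n with ha
  have hsum : ∑ j ∈ Finset.range n, ∫ x in a j..a (j + 1), F x = ∫ x in (a 0)..(a n), F x :=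
    intervalIntegral.sum_integral_adjacent_intervals fun k _ => hFc.intervalIntegrable _ _
  have ha0 : a 0 = 0 := by simp [ha]
  have han : a n = 2 * π := by
    simp only [ha]
    field_simp
  have hda : ∀ j, a (j + 1) - a j = 2 * π / n := by
    intro j
    simp only [ha]
    push_cast
    ring
  have hpi : (0 : ℝ) < 2 * π := by positivity
  have hpiece : ∀ j, |(∫ x in a j..a (j + 1), F x) - 2 * π / n * F (a j)| ≤ ε * (2 * π / n) := by
    intro j
    have h1 : (∫ x in a j..a (j + 1), F x) - 2 * π / n * F (a j) =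
        ∫ x in a j..a (j + 1), (F x - F (a j)) := by
      rw [intervalIntegral.integral_sub (hFc.intervalIntegrable _ _) intervalIntegrable_const,
        intervalIntegral.integral_const, hda, smul_eq_mul]
    rw [h1]
    have h2 := intervalIntegral.norm_integral_le_of_norm_le_const (a := a j) (b := a (j + 1))
      (f := fun x => F x - F (a j)) (C := ε) (by
        intro x hx
        have hle : a j ≤ a (j + 1) := by
          have := hda j
          have : 0 < 2 * π / n := by positivity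
          linarith
        rw [Set.uIoc_of_le hle] at hx
        have h3 := hFd x (a j) (by
          rw [abs_of_pos (by linarith [hx.1])]
          linarith [hx.2, hda j])
        exact h3.le)
    rw [hda, abs_of_pos (by positivity), Real.norm_eq_abs] at h2
    exact h2
  have hdiff : |(∫ x in (0 : ℝ)..(2 * π), F x) -
      2 * π / n * ∑ j ∈ Finset.range n, F (a j)| ≤ 2 * π * ε := by
    rw [← ha0, ← han, ← hsum, han, Finset.mul_sum, ← Finset.sum_sub_distrib]
    refine (Finset.abs_sum_le_sum_abs _ _).trans ?_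
    refine (Finset.sum_le_sum fun j _ => hpiece j).trans ?_
    rw [Finset.sum_const, Finset.card_range, nsmul_eq_mul]
    apply le_of_eq
    field_simp
  rw [circleAverage_eq_integral_add η, smul_eq_mul]
  have hFa : ∀ j, F (a j) = u (circleMap 0 r η * rot n j) := by
    intro j
    simp only [hF, ha]
    rw [circleMap_rot]
  have h5 : (2 * π)⁻¹ * (∫ θ in (0 : ℝ)..2 * π, u (circleMap 0 r (θ + η))) -
      (∑ j ∈ Finset.range n, u (circleMap 0 r η * rot n j)) / n =
      (2 * π)⁻¹ * ((∫ x in (0 : ℝ)..(2 * π), F x) -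
      2 * π / n * ∑ j ∈ Finset.range n, F (a j)) := by
    rw [Finset.sum_congr rfl fun j _ => hFa j]
    simp only [hF]
    field_simp
  rw [h5, abs_mul, abs_of_pos (by positivity : (0 : ℝ) < (2 * π)⁻¹)]
  have h6 := mul_le_mul_of_nonneg_left hdiff (by positivity : (0 : ℝ) ≤ (2 * π)⁻¹)
  refine h6.trans (le_of_eq ?_)
  field_simp

/-- **The characteristic is monotone.** -/
theorem charT_mono {n : ℕ} {g : ℂ → Fin (n + 1) → ℂ} (hg : Differentiable ℂ g)
    (h0 : ∀ z, g z ≠ 0) {r₁ r₂ : ℝ} (h1 : 0 < r₁) (h2 : r₁ ≤ r₂) : charT g r₁ ≤ charT g r₂ := by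
  set u : ℂ → ℝ := fun z => Real.log ‖g z‖ with hu
  have huc : Continuous u := by
    apply Continuous.log hg.continuous.norm
    intro z
    exact norm_ne_zero_iff.mpr (h0 z)
  have hsel : ∀ z, ∃ a, ‖g z‖ = ‖g z a‖ := by
    intro z
    obtain ⟨a, -, ha⟩ := Finset.exists_mem_eq_sup' (s := (Finset.univ : Finset (Fin (n + 1))))
      Finset.univ_nonempty (fun a => ‖g z a‖₊)
    refine ⟨a, ?_⟩
    apply le_antisymm
    · rw [pi_norm_le_iff_of_nonneg (norm_nonneg _)]
      intro b
      have h3 : ‖g z b‖₊ ≤ Finset.univ.sup' Finset.univ_nonempty (fun a => ‖g z a‖₊) :=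
        Finset.le_sup' (fun a => ‖g z a‖₊) (Finset.mem_univ b)
      rw [ha] at h3
      exact h3
    · exact norm_le_pi_norm (g z) a
  choose sel hsel using hsel
  have hr2 : 0 < r₂ := lt_of_lt_of_le h1 h2
  show circleAverage u 0 r₁ ≤ circleAverage u 0 r₂
  apply le_of_forall_pos_le_add
  intro ε hε
  obtain ⟨n₁, hn₁⟩ := avg_sum u huc r₁ (half_pos hε)
  obtain ⟨n₂, hn₂⟩ := avg_sum u huc r₂ (half_pos hε)
  set N : ℕ := max (max n₁ n₂) 1 with hN
  have hN0 : 0 < N := lt_of_lt_of_le one_pos (le_max_right _ _)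
  have hNr : (0 : ℝ) < N := by exact_mod_cast hN0
  have e1 := hn₁ N ((le_max_left _ _).trans (le_max_left _ _)) hN0 0
  set c : ℕ → Fin (n + 1) := fun j => sel (circleMap 0 r₁ 0 * rot N j) with hc
  set F : ℂ → ℂ := fun l => ∏ j ∈ Finset.range N, g (l * (circleMap 0 r₁ 0 * rot N j)) (c j)
    with hF
  have hFd : Differentiable ℂ F := by
    apply Differentiable.fun_finsetProd
    intro j _
    have h3 : Differentiable ℂ (fun l : ℂ => g (l * (circleMap 0 r₁ 0 * rot N j))) :=
      hg.comp (differentiable_id.mul_const _)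
    exact (differentiable_pi.mp h3) (c j)
  set R : ℝ := r₂ / r₁ with hR
  have hR1 : 1 ≤ R := by rw [hR, le_div_iff₀ h1]; linarith
  have hR0 : 0 < R := by linarith
  obtain ⟨l, hl, hmax⟩ := Complex.exists_mem_frontier_isMaxOn_norm (f := F)
    (U := ball (0 : ℂ) R) isBounded_ball ⟨0, mem_ball_self hR0⟩ hFd.diffContOnCl
  rw [frontier_ball _ hR0.ne', mem_sphere_zero_iff_norm] at hl
  have h3 : ‖F 1‖ ≤ ‖F l‖ := hmax (by
    rw [closure_ball _ hR0.ne', mem_closedBall_zero_iff, norm_one]
    exact hR1)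
  have hF1 : ‖F 1‖ = ∏ j ∈ Finset.range N, ‖g (circleMap 0 r₁ 0 * rot N j)‖ := by
    simp only [hF, one_mul, norm_prod]
    exact Finset.prod_congr rfl fun j _ => (hsel _).symm
  have hpos1 : ∀ z, 0 < ‖g z‖ := fun z => norm_pos_iff.mpr (h0 z)
  have hF1pos : 0 < ‖F 1‖ := by
    rw [hF1]
    exact Finset.prod_pos fun j _ => hpos1 _
  have hFlpos : 0 < ‖F l‖ := lt_of_lt_of_le hF1pos h3
  have hFl : ‖F l‖ ≤ ∏ j ∈ Finset.range N, ‖g (l * (circleMap 0 r₁ 0 * rot N j))‖ := by
    simp only [hF, norm_prod]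
    exact Finset.prod_le_prod (fun j _ => norm_nonneg _) fun j _ => norm_le_pi_norm _ _
  have h4 : ∑ j ∈ Finset.range N, u (circleMap 0 r₁ 0 * rot N j) ≤
      ∑ j ∈ Finset.range N, u (l * (circleMap 0 r₁ 0 * rot N j)) := by
    have h5 := Real.log_le_log hF1pos (h3.trans hFl)
    rw [hF1, Real.log_prod (fun j _ => (hpos1 _).ne'), Real.log_prod (fun j _ => (hpos1 _).ne')]
      at h5
    exact h5
  -- the point `l r₁` lies on the circle of radius `r₂`
  obtain ⟨η, hη⟩ : ∃ η : ℝ, l * circleMap 0 r₁ 0 = circleMap 0 r₂ η := by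
    have h5 : ‖l * circleMap 0 r₁ 0‖ = r₂ := by
      rw [norm_mul, hl, norm_circleMap_zero, abs_of_pos h1, hR, div_mul_cancel₀ _ h1.ne']
    refine ⟨Complex.arg (l * circleMap 0 r₁ 0), ?_⟩
    set w := l * circleMap 0 r₁ 0 with hw
    have h6 : circleMap 0 r₂ (Complex.arg w) =
        (r₂ : ℂ) * Complex.exp ((Complex.arg w : ℂ) * Complex.I) := by
      simp only [circleMap, zero_add]
    rw [h6, ← h5]
    exact (Complex.norm_mul_exp_arg_mul_I w).symm
  have e2 := hn₂ N ((le_max_right _ _).trans (le_max_left _ _)) hN0 η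
  rw [← hη] at e2
  have h6 : ∑ j ∈ Finset.range N, u (l * circleMap 0 r₁ 0 * rot N j) =
      ∑ j ∈ Finset.range N, u (l * (circleMap 0 r₁ 0 * rot N j)) :=
    Finset.sum_congr rfl fun j _ => by rw [mul_assoc]
  rw [h6] at e2
  have h7 := div_le_div_of_nonneg_right h4 hNr.le
  have e3 := (abs_le.mp e1).2
  have e4 := (abs_le.mp e2).1
  linarith

end Pool.Agent.LO
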