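import Pool.Agent.Lib_MP_b9fedf_lo.GrowthE
import Pool.Agent.Lib_MP_b9fedf_lo.GrowAdd
import Pool.Agent.Lib_MP_b9fedf_lo.Mono
import Pool.Agent.Lib_MP_b9fedf_sq.Main2
import Pool.Agent.Lib_MP_b9fedf_ag.CharTF
import Pool.Agent.Lib_MP_b9fedf_st.NbarL

/-! From the estimate on good circles to the estimate outside a set of finite measure (adapted from
`SmtBasis.lean`). -/

set_option autoImplicit false

namespace Pool.Agent.LO
open Filter Metric Real Set Function MeromorphicOn ValueDistribution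
open Pool.Agent.GGL Pool.Agent.SQ Pool.Agent.Stat

private lemma comb_le_SK {m : ℕ} (q x : Fin (m + 1) → ℂ) :
    ‖∑ a, q a * x a‖ ≤ (∑ a, ‖q a‖) * ‖x‖ := by
  refine (norm_sum_le _ _).trans ?_
  rw [Finset.sum_mul]
  refine Finset.sum_le_sum fun a _ => ?_
  rw [norm_mul]
  exact mul_le_mul_of_nonneg_left (norm_le_pi_norm x a) (norm_nonneg _)

/-- From the estimate on good circles to the second main theorem: `Z i` are the reduced zero
divisors of the functions `q i · g`. -/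
theorem smt_of_key {m : ℕ} {ι : Type} [Fintype ι] (q : ι → Fin (m + 1) → ℂ)
    (hq0 : ∀ i, q i ≠ 0) (g : ℂ → Fin (m + 1) → ℂ)
    (hg : Differentiable ℂ g) (hg0 : ∀ z, g z ≠ 0)
    (hli : LinearIndependent ℂ (fun (a : Fin (m + 1)) z => g z a)) {κ : ℝ} (hκ0 : 0 ≤ κ)
    (hkey : ∀ Z : ι → locallyFinsupp ℂ ℤ, (∀ i z, ∑ a, q i a * g z a = 0 → Z i z = 1) →
      (∀ i z, ∑ a, q i a * g z a ≠ 0 → Z i z = 0) →
      ∃ C : ℝ, 0 ≤ C ∧ ∀ (r B : ℝ), 1 ≤ r → 1 ≤ B →
      (∀ a, ∀ z ∈ sphere (0 : ℂ) r, Good (fun z => g z a / g z 0) B z) →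
      (∀ i, ∀ z ∈ sphere (0 : ℂ) r, Good (fun z => (∑ a, q i a * g z a) / g z 0) B z) →
      κ * charT g r ≤
      ∑ i, Function.locallyFinsuppWithin.logCounting (Z i) r + C * (1 + Real.log B)) :
    ∃ (K : ℝ) (E : Set ℝ), MeasureTheory.volume E < ⊤ ∧ ∀ r, 1 ≤ r → r ∉ E →
      κ * charT g r ≤
        ∑ i, Nbar (fun z => ∑ a, q i a * g z a) r +
          K * (Real.posLog (charT g r) + Real.log r + 1) := by
  classical
  have hgd : ∀ a, Differentiable ℂ (fun z => g z a) := fun a => differentiable_pi.1 hg a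
  have hgz : ∀ z, ∃ a, g z a ≠ 0 := by
    intro z
    by_contra hcon
    push Not at hcon
    exact hg0 z (funext hcon)
  have hhd : ∀ i, Differentiable ℂ (fun z => ∑ a, q i a * g z a) := fun i =>
    Differentiable.fun_sum fun a _ => (hgd a).const_mul (q i a)
  have hhne : ∀ i, ∃ z, ∑ a, q i a * g z a ≠ 0 := fun i =>
    combination_ne_zero (q i) (hq0 i) (fun a z => g z a) hli
  have hgne : ∀ a, ∃ z, g z a ≠ 0 := by
    intro a
    have := hli.ne_zero a
    by_contra hcon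
    push Not at hcon
    exact this (funext hcon)
  choose Z hZ0 hZ1 hZ2 CN hCN using fun i => exists_reduced (hhd i) (hhne i)
  obtain ⟨C, hC0, hC⟩ := hkey Z hZ1 hZ2
  -- the family of quotients
  set F : Fin (m + 1) ⊕ ι → ℂ → ℂ := fun k => Sum.elim (fun a z => g z a)
    (fun i z => ∑ a, q i a * g z a) k with hF
  have hFd : ∀ k, Differentiable ℂ (F k) := by
    rintro (a | i)
    · exact hgd a
    · exact hhd i
  have hFne : ∀ k, ∃ z, F k z ≠ 0 := by
    rintro (a | i)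
    · exact hgne a
    · exact hhne i
  set G : Fin (m + 1) ⊕ ι → ℂ → ℂ := fun k z => F k z / g z 0 with hG
  have hGm : ∀ k, Meromorphic (G k) := fun k => div_mero (hFd k) (hgd 0)
  have hGne : ∀ k z, meromorphicOrderAt (G k) z ≠ ⊤ := by
    intro k z
    have h1 : G k = F k * (fun z => g z 0)⁻¹ := by
      ext z; simp only [hG, Pi.mul_apply, Pi.inv_apply, div_eq_mul_inv]
    rw [h1, meromorphicOrderAt_mul (mero_of_diff (hFd k) z) (mero_of_diff (hgd 0) z).inv,
      meromorphicOrderAt_inv]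
    have h2 := mOrder_ne_top (hFd k) (hFne k) z
    have h3 := mOrder_ne_top (hgd 0) (hgne 0) z
    cases h4 : meromorphicOrderAt (F k) z with
    | top => exact absurd h4 h2
    | coe n =>
      cases h5 : meromorphicOrderAt (fun z => g z 0) z with
      | top => exact absurd h5 h3
      | coe n' =>
        intro h6
        have : ((n - n' : ℤ) : WithTop ℤ) = ⊤ := by
          rw [← h6]
          rfl
        exact WithTop.coe_ne_top this
  obtain ⟨CL, hCL1, hCL⟩ := ldl G hGm hGne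
  set τ : ℝ → ℝ := fun ρ => ∑ k, characteristic (G k) ⊤ ρ with hτ
  have hτmono : MonotoneOn τ (Set.Ici 1) := by
    intro x hx y hy hxy
    apply Finset.sum_le_sum
    intro l _
    exact characteristic_monotoneOn (hGm _) (show (0 : ℝ) < x from lt_of_lt_of_le one_pos hx)
      (show (0 : ℝ) < y from lt_of_lt_of_le one_pos hy) hxy
  have hτ0 : ∀ ρ, 1 ≤ ρ → 0 ≤ τ ρ := fun ρ hρ =>
    Finset.sum_nonneg fun l _ => characteristic_nonneg hρ
  -- bounds by the characteristic
  set KF : ℝ := 1 + ∑ i, ∑ a, ‖q i a‖ with hKF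
  have hKF1 : 1 ≤ KF := by
    have : 0 ≤ ∑ i, ∑ a, ‖q i a‖ := Finset.sum_nonneg fun i _ =>
      Finset.sum_nonneg fun a _ => norm_nonneg _
    rw [hKF]; linarith
  have hFle : ∀ k z, ‖F k z‖ ≤ KF * ‖fun a => (fun a z => g z a) a z‖ ^ 1 := by
    intro k z
    rw [pow_one]
    have h1 : ‖(fun a => (fun a z => g z a) a z : Fin (m + 1) → ℂ)‖ = ‖g z‖ := rfl
    rw [h1]
    have h2 : 0 ≤ ‖g z‖ := norm_nonneg _
    rcases k with a | i
    · refine (norm_le_pi_norm (g z) a).trans ?_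
      nlinarith
    · refine (comb_le_SK (q i) (g z)).trans (mul_le_mul_of_nonneg_right ?_ h2)
      have h3 : ∑ a, ‖q i a‖ ≤ ∑ i, ∑ a, ‖q i a‖ :=
        Finset.single_le_sum (f := fun i => ∑ a, ‖q i a‖)
          (fun i _ => Finset.sum_nonneg fun a _ => norm_nonneg _) (Finset.mem_univ i)
      rw [hKF]
      linarith
  have hchar : ∀ k, ∃ C' : ℝ, ∀ r, 1 ≤ r → characteristic (G k) ⊤ r ≤ charT g r + C' := by
    intro k
    obtain ⟨C', hC'⟩ := char_div_le_TF (f := fun a z => g z a) hgd hgz (hFd k) (hgd 0) (hgne 0)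
      1 KF (hFle k) (hFle (Sum.inl 0))
    refine ⟨C', fun r hr => ?_⟩
    have h1 := hC' r hr
    rw [Nat.cast_one, one_mul] at h1
    exact h1
  choose Cc hCc using hchar
  have hcount : ∀ i, ∃ C' : ℝ, ∀ r, 1 ≤ r →
      Function.locallyFinsuppWithin.logCounting (Z i) r ≤ charT g r + C' := by
    intro i
    obtain ⟨C', hC'⟩ := N_le_TF (f := fun a z => g z a) hgd hgz (hhd i) (hhne i)
      1 KF (hFle (Sum.inr i))
    refine ⟨C', fun r hr => ?_⟩
    have h1 := hC' r hr
    rw [Nat.cast_one, one_mul] at h1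
    refine le_trans ?_ h1
    apply Function.locallyFinsuppWithin.logCounting_le _ hr
    intro z
    rw [Dv_apply (hhd i)]
    by_cases h5 : ∑ a, q i a * g z a = 0
    · rw [hZ1 i z h5]
      have h6 : analyticOrderAt (fun z => ∑ a, q i a * g z a) z ≠ 0 :=
        ((hhd i).analyticAt z).analyticOrderAt_ne_zero.2 h5
      have h7 := order_ne_top (hhd i) (hhne i) z
      have h8 : (analyticOrderAt (fun z => ∑ a, q i a * g z a) z).toNat ≠ 0 := by
        rw [Ne, ENat.toNat_eq_zero]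
        push Not
        exact ⟨h6, h7⟩
      exact Int.ofNat_le.2 (Nat.one_le_iff_ne_zero.2 h8)
    · rw [hZ2 i z h5]
      exact Int.natCast_nonneg _
  choose Cz hCz using hcount
  set NZ : ℝ → ℝ := fun r => ∑ i, Function.locallyFinsuppWithin.logCounting (Z i) r with hNZ
  have hNZ0 : ∀ r, 1 ≤ r → 0 ≤ NZ r := fun r hr => Finset.sum_nonneg fun i _ =>
    Function.locallyFinsuppWithin.logCounting_nonneg (hZ0 i) hr
  have hNZm : ∀ r r', 1 ≤ r → r ≤ r' → NZ r ≤ NZ r' := fun r r' hr hrr' =>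
    Finset.sum_le_sum fun i _ =>
    Function.locallyFinsuppWithin.logCounting_mono (hZ0 i) (show (0 : ℝ) < r by linarith)
      (show (0 : ℝ) < r' by linarith) hrr'
  -- growth
  set Ψ : ℝ → ℝ := fun r => 1 + τ r + NZ r with hΨ
  set Θ : ℝ → ℝ := fun r => 1 + NZ r with hΘ
  have hΨ1 : ∀ r, 1 ≤ r → 1 ≤ Ψ r := fun r hr => by
    have := hτ0 r hr; have := hNZ0 r hr
    show 1 ≤ 1 + τ r + NZ r
    linarith
  have hΘ1 : ∀ r, 1 ≤ r → 1 ≤ Θ r := fun r hr => by
    have := hNZ0 r hr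
    show 1 ≤ 1 + NZ r
    linarith
  have hΨm : MonotoneOn Ψ (Set.Ici 1) := fun a ha b hb hab => by
    have h1 := hτmono ha hb hab
    have h2 := hNZm a b ha hab
    show 1 + τ a + NZ a ≤ 1 + τ b + NZ b
    linarith
  have hΘm : MonotoneOn Θ (Set.Ici 1) := fun a ha b hb hab => by
    have := hNZm a b ha hab
    show 1 + NZ a ≤ 1 + NZ b
    linarith
  have hE1 := growthE (b := 2) (by norm_num) Ψ hΨm hΨ1
  have hE2 := growth_add Θ hΘm hΘ1
  set E1 : Set ℝ := {r : ℝ | 1 ≤ r ∧ 2 * Ψ r < Ψ (r + 1 / Ψ r)} with hE1d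
  set E2 : Set ℝ := {r : ℝ | 1 ≤ r ∧ Θ r + 1 < Θ (r + 1 / Θ r ^ 2)} with hE2d
  -- constants
  set c1 : ℝ := ∑ k, |Cc k| with hc1
  have hc10 : 0 ≤ c1 := Finset.sum_nonneg fun k _ => abs_nonneg _
  set c2 : ℝ := ∑ i, |Cz i| with hc2
  have hc20 : 0 ≤ c2 := Finset.sum_nonneg fun k _ => abs_nonneg _
  set c3 : ℝ := ∑ i, |CN i| with hc3
  have hc30 : 0 ≤ c3 := Finset.sum_nonneg fun k _ => abs_nonneg _
  set nn : ℝ := (Fintype.card (Fin (m + 1) ⊕ ι) : ℝ) + Fintype.card ι with hnn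
  have hnn0 : 0 ≤ nn := by rw [hnn]; positivity
  set K0 : ℝ := 1 + nn + c1 + c2 with hK0
  have hK01 : 1 ≤ K0 := by rw [hK0]; linarith
  have hlK0 : 0 ≤ Real.log K0 := Real.log_nonneg hK01
  have hlCL : 0 ≤ Real.log CL := Real.log_nonneg hCL1
  have hΨle : ∀ r, 1 ≤ r → Ψ r ≤ K0 * max 1 (charT g r) := by
    intro r hr
    have h1 : τ r ≤ (Fintype.card (Fin (m + 1) ⊕ ι) : ℝ) * charT g r + c1 := by
      have h2 : τ r ≤ ∑ k : Fin (m + 1) ⊕ ι, (charT g r + |Cc k|) := by
        refine Finset.sum_le_sum fun k _ => (hCc k r hr).trans ?_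
        have := le_abs_self (Cc k)
        linarith
      rw [Finset.sum_add_distrib, Finset.sum_const, Finset.card_univ, nsmul_eq_mul] at h2
      exact h2
    have h3 : NZ r ≤ (Fintype.card ι : ℝ) * charT g r + c2 := by
      have h2 : NZ r ≤ ∑ i : ι, (charT g r + |Cz i|) := by
        refine Finset.sum_le_sum fun k _ => (hCz k r hr).trans ?_
        have := le_abs_self (Cz k)
        linarith
      rw [Finset.sum_add_distrib, Finset.sum_const, Finset.card_univ, nsmul_eq_mul] at h2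
      exact h2
    set X := max 1 (charT g r) with hX
    have hX1 : 1 ≤ X := le_max_left _ _
    have hX2 : charT g r ≤ X := le_max_right _ _
    have h4 : nn * charT g r ≤ nn * X := mul_le_mul_of_nonneg_left hX2 hnn0
    have h5 : nn * charT g r = (Fintype.card (Fin (m + 1) ⊕ ι) : ℝ) * charT g r +
        Fintype.card ι * charT g r := by rw [hnn]; ring
    show 1 + τ r + NZ r ≤ K0 * X
    rw [hK0]
    nlinarith
  set c4 : ℝ := Real.log CL + 4 * (Real.log 4 + 3 * Real.log K0 + Real.log 3) with hc4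
  have hl4 : 0 ≤ Real.log 4 := Real.log_nonneg (by norm_num)
  have hl3 : 0 ≤ Real.log 3 := Real.log_nonneg (by norm_num)
  have hc40 : 0 ≤ c4 := by rw [hc4]; positivity
  refine ⟨1 + c3 + C * (1 + c4) + 12 * C, E1 ∪ E2, ?_, ?_⟩
  · exact lt_of_le_of_lt (MeasureTheory.measure_union_le _ _) (ENNReal.add_lt_top.2 ⟨hE1, hE2⟩)
  intro r hr hrE
  have hrE1 : Ψ (r + 1 / Ψ r) ≤ 2 * Ψ r := by
    by_contra hcon
    exact hrE (Or.inl ⟨hr, not_le.1 hcon⟩)
  have hrE2 : Θ (r + 1 / Θ r ^ 2) ≤ Θ r + 1 := by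
    by_contra hcon
    exact hrE (Or.inr ⟨hr, not_le.1 hcon⟩)
  have hP1 := hΨ1 r hr
  have hT1 := hΘ1 r hr
  have hP0 : 0 < Ψ r := by linarith
  have hT0 : 0 < Θ r := by linarith
  have hPT : Θ r ≤ Ψ r := by
    have := hτ0 r hr
    show 1 + NZ r ≤ 1 + τ r + NZ r
    linarith
  set δ : ℝ := 1 / (2 * Ψ r ^ 2) with hδ
  have hδ0 : 0 < δ := by rw [hδ]; positivity
  have hδ1 : δ ≤ 1 := by
    rw [hδ, div_le_one (by positivity)]
    nlinarith
  obtain ⟨r', ⟨hr1, hr2⟩, B, hB1, hB, hgood⟩ := hCL r δ hr hδ0 hδ1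
  have hr'1 : 1 ≤ r' := hr.trans hr1
  have hlB : 0 ≤ Real.log B := Real.log_nonneg hB1
  -- `NZ r'`
  have hN : NZ r' ≤ 1 + NZ r := by
    have h1 : δ ≤ 1 / Θ r ^ 2 := by
      rw [hδ]
      apply one_div_le_one_div_of_le (by positivity)
      nlinarith
    have h2 := hNZm r' (r + 1 / Θ r ^ 2) hr'1 (by linarith)
    have h3 : 1 + NZ (r + 1 / Θ r ^ 2) ≤ (1 + NZ r) + 1 := hrE2
    linarith
  -- `log B`
  have hlogΨ : Real.log (Ψ r) ≤ Real.log K0 + Real.posLog (charT g r) := by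
    have h1 := Real.log_le_log hP0 (hΨle r hr)
    rw [Real.log_mul (by linarith) (by positivity)] at h1
    refine h1.trans (add_le_add le_rfl ?_)
    rcases le_total (charT g r) 1 with h25 | h25
    · rw [max_eq_left h25, Real.log_one]
      exact Real.posLog_nonneg
    · rw [max_eq_right h25]
      exact le_max_right _ _
  have hpl : 0 ≤ Real.posLog (charT g r) := Real.posLog_nonneg
  have hlr : 0 ≤ Real.log r := Real.log_nonneg hr
  have hlogB : Real.log B ≤ c4 + 12 * Real.posLog (charT g r) + 4 * Real.log r := by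
    have h5 : r + 2 * δ ≤ r + 1 / Ψ r := by
      have h51 : 2 * δ = 1 / Ψ r ^ 2 := by
        rw [hδ]
        field_simp
      have h52 : 1 / Ψ r ^ 2 ≤ 1 / Ψ r := by
        apply one_div_le_one_div_of_le hP0
        nlinarith
      linarith
    have hr5 : 1 ≤ r + 1 / Ψ r := by
      have : 0 < 1 / Ψ r := by positivity
      linarith
    have hr6 : 1 ≤ r + 2 * δ := by linarith
    have h6 : 1 + ∑ k, characteristic (G k) ⊤ (r + 2 * δ) ≤ 2 * Ψ r := by
      have h61 : τ (r + 2 * δ) ≤ τ (r + 1 / Ψ r) := hτmono hr6 hr5 h5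
      refine le_trans ?_ hrE1
      have := hNZ0 _ hr5
      show 1 + τ (r + 2 * δ) ≤ 1 + τ (r + 1 / Ψ r) + NZ (r + 1 / Ψ r)
      linarith
    have h7 : (1 + ∑ k, characteristic (G k) ⊤ (r + 2 * δ)) * (r + 2) / δ ≤
        4 * Ψ r ^ 3 * (r + 2) := by
      rw [hδ, div_div_eq_mul_div, div_one]
      have h8 : (1 + ∑ k, characteristic (G k) ⊤ (r + 2 * δ)) * (r + 2) ≤
          2 * Ψ r * (r + 2) := mul_le_mul_of_nonneg_right h6 (by linarith)
      have h9 := mul_le_mul_of_nonneg_right h8 (show 0 ≤ 2 * Ψ r ^ 2 by positivity)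
      rw [← hδ]
      refine h9.trans (le_of_eq (by ring))
    have h8 : 0 ≤ (1 + ∑ k, characteristic (G k) ⊤ (r + 2 * δ)) * (r + 2) / δ := by
      have h9 : 0 ≤ ∑ k, characteristic (G k) ⊤ (r + 2 * δ) :=
        Finset.sum_nonneg fun k _ => characteristic_nonneg (by linarith)
      positivity
    have h9 : B ≤ CL * (4 * Ψ r ^ 3 * (r + 2)) ^ 4 :=
      hB.trans (mul_le_mul_of_nonneg_left (pow_le_pow_left₀ h8 h7 4) (by linarith))
    have h10 := Real.log_le_log (by linarith) h9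
    rw [Real.log_mul (by linarith) (by positivity), Real.log_pow,
      Real.log_mul (by positivity) (by linarith), Real.log_mul (by norm_num) (by positivity),
      Real.log_pow] at h10
    push_cast at h10
    have h11 : Real.log (r + 2) ≤ Real.log 3 + Real.log r := by
      rw [← Real.log_mul (by norm_num) (by positivity)]
      exact Real.log_le_log (by linarith) (by linarith)
    rw [hc4]
    linarith
  have h1 := hC r' B hr'1 hB1 (fun a z hz => hgood (Sum.inl a) z hz)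
    (fun i z hz => hgood (Sum.inr i) z hz)
  have h2 : κ * charT g r' ≤ NZ r' + C * (1 + Real.log B) := h1
  have h3 : κ * charT g r ≤ κ * charT g r' :=
    mul_le_mul_of_nonneg_left (charT_mono hg hg0 (by linarith) hr1) hκ0
  have h4 : NZ r ≤ ∑ i, Nbar (fun z => ∑ a, q i a * g z a) r + c3 := by
    rw [hc3, ← Finset.sum_add_distrib]
    refine Finset.sum_le_sum fun i _ => (hCN i r hr).trans ?_
    have := le_abs_self (CN i)
    linarith
  have h6 : C * (1 + Real.log B) ≤ C * (1 + c4) + C * (12 * Real.posLog (charT g r) +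
      4 * Real.log r) := by
    have := mul_le_mul_of_nonneg_left hlogB hC0
    linarith
  set PL := Real.posLog (charT g r) with hPL
  set LR := Real.log r with hLR
  have h7 : 0 ≤ (1 + c3 + C * (1 + c4)) * (PL + LR) := by positivity
  have h8 : 0 ≤ C * LR := mul_nonneg hC0 hlr
  nlinarith

end Pool.Agent.LO
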