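import Pool.Agent.Lib_MP_b9fedf_lo.SetPackY
import Pool.Agent.Lib_MP_b9fedf_qy.AbsAllY

/-! Packages on a variety, subspaces (helper17). -/

set_option autoImplicit false

namespace Pool.Agent.LO
open Filter Metric Real Set Function MeromorphicOn ValueDistribution
open Pool.Agent.GGL Pool.Agent.SQ Pool.Agent.Stat Pool.Agent.QY

/-- `abs_all_y` for packages (helper17). -/
theorem abs_pack_y (n e M m eₛ : ℕ) {η : ℝ} (hη : 0 < η) (hη1 : η < 1) : ∃ N₀ : ℕ,
    ∀ q : Ideal (MvPolynomial (Fin (n + 1)) ℂ), q.IsPrime →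
    ∀ P : Fin (m + 1) → MvPolynomial (Fin (n + 1)) ℂ, (∀ i, (P i).IsHomogeneous e) →
    ∀ A : Finset (Fin (m + 1) → ℂ), PW A → N₀ < A.card →
    (∀ a ∈ A, ∃ s : MvPolynomial (Fin (m + 1)) ℂ, s.IsHomogeneous eₛ ∧ MvPolynomial.eval a s ≠ 0 ∧
      ExcOn q P s) →
    ∃ (l : ℕ) (T : (Fin (l + 1) → ℂ) →ₗ[ℂ] (Fin (m + 1) → ℂ)) (A₁ Q : Finset (Fin (m + 1) → ℂ))
      (dZ : ℕ) (Z : MvPolynomial (Fin (n + 1)) ℂ), 1 ≤ l ∧ Function.Injective T ∧
    A₁ ⊆ A ∧ (∀ a ∈ A₁, ∃ v, T v = a) ∧ M < A₁.card ∧ Q ⊆ A₁ ∧ Q.Nonempty ∧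
    Z ∉ q ∧ Z.IsHomogeneous dZ ∧
    ∀ f : Fin (n + 1) → Ent, (∀ g ∈ q, MvPolynomial.aeval f g = 0) →
    (∀ a ∈ Q, (∑ i, a i • MvPolynomial.aeval f (P i) : Ent) ≠ 0) →
    (∀ t : Fin (l + 1) → ℂ, t ≠ 0 → ∃ i i', t i • (MvPolynomial.aeval f (pullP T P i') : Ent) ≠
      t i' • (MvPolynomial.aeval f (pullP T P i) : Ent)) →
    (∀ z, ∃ i, (MvPolynomial.aeval f (pullP T P i) : Ent).1 z ≠ 0) →
    MvPolynomial.aeval f Z ≠ 0 →
    ∃ (C : ℝ) (E : Set ℝ), MeasureTheory.volume E < ⊤ ∧ ∀ r, 1 ≤ r → r ∉ E →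
      (1 - η) * Q.card * TF (fun i z => (MvPolynomial.aeval f (pullP T P i) : Ent).1 z) r ≤
        ∑ a ∈ Q, Nbar (fun z => ∑ i, a i * (MvPolynomial.aeval f (P i) : Ent).1 z) r +
          C * (Real.posLog (TF (fun i z => (MvPolynomial.aeval f (pullP T P i) : Ent).1 z) r) +
            Real.log r + 1) := by
  classical
  induction m with
  | zero =>
    refine ⟨1, fun q hq P hP A hA hcard => ?_⟩
    exact absurd (pw_one hA) (by omega)
  | succ m ih =>
    obtain ⟨M₀, hM₀⟩ := ih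
    obtain ⟨N₀, hN₀⟩ := set_pack_y n e (m + 1) M₀ eₛ hη hη1
    refine ⟨max N₀ M, fun q hq P hP A hA hcard hsq => ?_⟩
    have hc1 := le_max_left N₀ M
    have hc2 := le_max_right N₀ M
    by_cases hcase : ∀ h : Fin (m + 1 + 1) → ℂ, h ≠ 0 → ∀ A' ⊆ A, (∀ a ∈ A', dt a h = 0) →
        A'.card ≤ M₀
    · obtain ⟨Q, dZ, Z, hQ, hQn, hZ0, hZh, hZ⟩ := hN₀ q hq P hP A hA (by omega) hsq hcase
      refine ⟨m + 1, LinearMap.id, A, Q, dZ, Z, by omega, Function.injective_id, Finset.Subset.refl A,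
        fun a _ => ⟨a, rfl⟩, by omega, hQ, hQn, hZ0, hZh, ?_⟩
      intro f hfq hfA
      rw [pullP_id]
      exact hZ f hfq hfA
    push Not at hcase
    obtain ⟨h, hh, A₁, hA₁, hA₁h, hA₁card⟩ := hcase
    obtain ⟨T, hT, hTr⟩ := exists_hyper m h hh
    set A₂ : Finset (Fin (m + 1) → ℂ) := A₁.preimage T hT.injOn with hA₂
    have hA₂mem : ∀ v ∈ A₂, T v ∈ A₁ := fun v hv => Finset.mem_preimage.mp hv
    have himg : A₂.image T = A₁ := by
      rw [hA₂, Finset.image_preimage]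
      apply Finset.filter_true_of_mem
      intro a ha
      exact hTr a (hA₁h a ha)
    have hcard₂ : A₂.card = A₁.card := by
      rw [← himg, Finset.card_image_of_injective _ hT]
    have hPW : PW A₂ := by
      intro a ha
      have h1 := hA (T a) (hA₁ (hA₂mem a ha))
      refine ⟨?_, ?_⟩
      · rintro rfl
        exact h1.1 (map_zero T)
      · intro b hb hab
        have h2 := h1.2 (T b) (hA₁ (hA₂mem b hb)) (fun h3 => hab (hT h3))
        apply LinearIndependent.of_comp T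
        convert h2 using 1
        funext i
        fin_cases i <;> rfl
    obtain ⟨l, T₂, A₃, Q, dZ, Z, hl, hT₂, hA₃, hA₃r, hA₃card, hQ, hQn, hZ0, hZh, hZ⟩ :=
      hM₀ q hq (pullP T P) (pullP_hom T P hP) A₂ hPW (by omega) (by
      intro a ha
      obtain ⟨s, hs1, hs2, hs3⟩ := hsq _ (hA₁ (hA₂mem a ha))
      exact ⟨subs T s, subs_hom T hs1, by rw [eval_subs]; exact hs2, excOn_pull T hs3⟩)
    refine ⟨l, T.comp T₂, A₃.image T, Q.image T, dZ, Z, hl, hT.comp hT₂, ?_, ?_, ?_,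
      Finset.image_subset_image hQ, hQn.image T, hZ0, hZh, ?_⟩
    · intro a ha
      obtain ⟨v, hv, rfl⟩ := Finset.mem_image.mp ha
      exact hA₁ (hA₂mem v (hA₃ hv))
    · intro a ha
      obtain ⟨v, hv, rfl⟩ := Finset.mem_image.mp ha
      obtain ⟨w, rfl⟩ := hA₃r v hv
      exact ⟨w, rfl⟩
    · rw [Finset.card_image_of_injective _ hT]
      exact hA₃card
    intro f hfq hfA
    rw [pullP_comp, Finset.card_image_of_injective _ hT]
    intro hnc hf0 hfZ
    have e1 : ∀ a : Fin (m + 1) → ℂ,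
        (fun ζ => ∑ k, a k * (MvPolynomial.aeval f (pullP T P k) : Ent).1 ζ) =
        (fun ζ => ∑ k, T a k * (MvPolynomial.aeval f (P k) : Ent).1 ζ) := by
      intro a
      funext ζ
      simp only [aeval_pullP]
      rw [pull_sum]
    have h1 := hZ f hfq (by
      intro a ha h0
      apply hfA (T a) (Finset.mem_image_of_mem T ha)
      apply Ent.ext'
      intro z
      rw [ent_sum_apply]
      have h2 := congrFun (e1 a) z
      rw [← h2, ← ent_sum_apply a (fun k => MvPolynomial.aeval f (pullP T P k)), h0])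
    obtain ⟨C, E, hE, hCE⟩ := h1 hnc hf0 hfZ
    refine ⟨C, E, hE, fun r hr hrE => ?_⟩
    have h2 := hCE r hr hrE
    simp only [e1] at h2
    rw [Finset.sum_image (fun x _ y _ h => hT h)]
    exact h2

end Pool.Agent.LO
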