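import Pool.Agent.Lib_MP_b9fedf_qy.ManyY
import Pool.Agent.Lib_MP_b9fedf_sq.Statement2
import Pool.Agent.Lib_MP_b9fedf_ag.Hyper

/-! Varieties which are multiple over many hypersurface sections in any position. -/

set_option autoImplicit false

namespace Pool.Agent.LO

open Pool.Agent.GGL Pool.Agent.SQ Pool.Agent.QY

theorem any_position :
    ∀ (n e M : ℕ) (q : Ideal (MvPolynomial (Fin (n + 1)) ℂ)), q.IsPrime → HomI q →
    ∃ N : ℕ, ∀ D : Finset (MvPolynomial (Fin (n + 1)) ℂ),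
      (∀ P ∈ D, P.IsHomogeneous e ∧ RedOn q P) →
      (∀ P ∈ D, ∀ P' ∈ D, ∀ c : ℂ, P' - MvPolynomial.C c * P ∈ q → P' = P) →
      N < D.card →
      ∃ (l d : ℕ) (ψ : Fin (l + 1) → MvPolynomial (Fin (n + 1)) ℂ)
        (Z : MvPolynomial (Fin (n + 1)) ℂ), 1 ≤ l ∧ (∀ i, (ψ i).IsHomogeneous e) ∧
        (∀ v : Fin (l + 1) → ℂ, ∑ i, MvPolynomial.C (v i) * ψ i ∈ q → v = 0) ∧
        Z ∉ q ∧ Z.IsHomogeneous d ∧
        ∀ (m e' : ℕ) (S : Set (MvPolynomial (Fin (m + 1)) ℂ))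
          (φ : Fin (n + 1) → MvPolynomial (Fin (m + 1)) ℂ),
          (∀ p ∈ S, ∃ d' : ℕ, p.IsHomogeneous d') → (∀ i, (φ i).IsHomogeneous e') →
          (∀ g ∈ q, ∀ x : Fin (m + 1) → ℂ, (∀ p ∈ S, MvPolynomial.eval x p = 0) →
            MvPolynomial.eval x (MvPolynomial.aeval φ g) = 0) →
          Multiple M S φ D →
          CurvesIn S (MvPolynomial.aeval φ Z) (fun i => MvPolynomial.aeval φ (ψ i)) := by
  intro n e M q hq hqh
  obtain ⟨N, hN⟩ := many_y n e M q hq hqh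
  refine ⟨N, fun D hD hD' hcard => ?_⟩
  obtain ⟨l, ψ, D₁, d, Z, hl, hψh, hψli, hD₁, hD₁c, hD₁ψ, hZ0, hZh, hZ⟩ := hN D hD hD' hcard
  refine ⟨l, d, ψ, Z, hl, hψh, hψli, hZ0, hZh, ?_⟩
  intro m e' S φ hS hφ hφq hM
  have hev : ∀ (x : Fin (m + 1) → ℂ) (Q : MvPolynomial (Fin (n + 1)) ℂ),
      MvPolynomial.eval x (MvPolynomial.aeval φ Q) =
        MvPolynomial.eval (fun i => MvPolynomial.eval x (φ i)) Q := by
    intro x Q
    have h1 := MvPolynomial.comp_aeval_apply (f := φ) (MvPolynomial.aeval x :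
      MvPolynomial (Fin (m + 1)) ℂ →ₐ[ℂ] ℂ) Q
    rw [← MvPolynomial.coe_aeval_eq_eval, ← MvPolynomial.coe_aeval_eq_eval]
    exact h1
  have hfq : ∀ f : ℂ → (Fin (m + 1) → ℂ), (∀ z, ∀ p ∈ S, MvPolynomial.eval (f z) p = 0) →
      ∀ g ∈ q, ∀ z, MvPolynomial.eval (fun i => MvPolynomial.eval (f z) (φ i)) g = 0 := by
    intro f hfS g hg z
    rw [← hev]
    exact hφq g hg _ (hfS z)
  have key : ∀ f : ℂ → (Fin (m + 1) → ℂ), Differentiable ℂ f → (∀ z, f z ≠ 0) →
      (∀ z, ∀ p ∈ S, MvPolynomial.eval (f z) p = 0) →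
      (∀ z, MvPolynomial.eval (fun i => MvPolynomial.eval (f z) (φ i)) Z = 0) ∨
      ∃ t : Fin (l + 1) → ℂ, t ≠ 0 ∧ ∀ z i i',
        t i * MvPolynomial.eval (fun i => MvPolynomial.eval (f z) (φ i)) (ψ i') =
        t i' * MvPolynomial.eval (fun i => MvPolynomial.eval (f z) (φ i)) (ψ i) := by
    intro f hf hf0 hfS
    refine hZ (fun i z => MvPolynomial.eval (f z) (φ i)) (fun i => diff_eval hf (φ i))
      (hfq f hfS) ?_
    intro P hP P' hP' z a ha ha' A hA hAa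
    have hsh : ∀ u : ℂ → ℂ, analyticOrderAt (fun ζ => u (z + ζ)) 0 = analyticOrderAt u z := by
      intro u
      have h1 := analyticOrderAt_comp_of_deriv_ne_zero (f := u) (g := fun ζ : ℂ => z + ζ)
        (z₀ := 0) (by fun_prop) (by
          rw [deriv_const_add]
          simp)
      simpa [Function.comp_def] using h1
    have hord : ∀ Q : MvPolynomial (Fin (n + 1)) ℂ,
        analyticOrderAt (fun ζ => MvPolynomial.eval (f (z + ζ)) (MvPolynomial.aeval φ Q)) 0 =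
        analyticOrderAt (fun ζ => MvPolynomial.eval
          (fun k => MvPolynomial.eval (f ζ) (φ k)) Q) z := by
      intro Q
      rw [← hsh]
      congr 1
      funext ζ
      exact hev _ Q
    refine hM (fun ζ => f (z + ζ)) ?_ ?_ ?_ P hP P' hP' a ?_ ?_ A hA ?_
    · have h1 : AnalyticAt ℂ f (z + 0) := hf.analyticAt _
      exact h1.fun_comp (f := fun ζ : ℂ => z + ζ) (by fun_prop)
    · exact hf0 _
    · exact Filter.Eventually.of_forall fun ζ => hfS _
    · rw [hord]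
      exact ha
    · rw [hord]
      exact ha'
    · intro Q hQ
      rw [hord]
      exact hAa Q hQ
  intro f hf hf0 hfS
  rcases key f hf hf0 hfS with h1 | ⟨t, ht0, ht⟩
  · exact Or.inl fun z => by rw [hev]; exact h1 z
  · refine Or.inr ⟨t, ht0, ?_⟩
    rintro z p (hp | ⟨i, i', rfl⟩)
    · exact hfS z p hp
    · rw [map_sub, map_mul, map_mul, MvPolynomial.eval_C, MvPolynomial.eval_C, hev, hev,
        sub_eq_zero]
      exact ht z i i'

end Pool.Agent.LO
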