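import Pool.Agent.Lib_MP_b9fedf_lo.DefsLO
import Pool.Agent.Lib_MP_b9fedf_sq.Main2
import Pool.Agent.Lib_MP_b9fedf_ag.CharTF

/-! Piece LO-6: growth of f(exp z). -/

set_option autoImplicit false

namespace Pool.Agent.LO
open MvPolynomial Pool.Agent.GGL Pool.Agent.SQ Pool.Agent.Stat Pool.Agent.QY

private theorem exists_exp_lo6 {h : ℂ → ℂ} (hh : Continuous h) (h0 : ∃ z, h z ≠ 0) :
    ∃ z, h (Complex.exp z) ≠ 0 := by
  have h1 : IsOpen {z : ℂ | h z ≠ 0} := isOpen_ne_fun hh continuous_const
  obtain ⟨z, hz, hz0⟩ := (dense_compl_singleton (0 : ℂ)).inter_open_nonempty _ h1 h0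
  refine ⟨Complex.log z, ?_⟩
  rw [Complex.exp_log hz0]
  exact hz

/-- PIECE LO-6. A non-constant curve `f(exp z)` grows faster than every multiple of `log r`.  Proof.  Some
quotient `f_i / f_j`, `f_j ≢ 0`, is not constant (otherwise `f` is constant: `f_i = c_i f_j` for all `i`, `f(z) = f_j(z) c`,
`f_j(z) ≠ 0` always).  With `u = f_i(exp z)`, `v = f_j(exp z)`: `characteristic_div_ge_log` (see the end of
`no_tangential2`, Lib_MP_b9fedf_sq/Main2.lean: both are `2 π I`-periodic, `u` is not a constant multiple of `v`)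
gives `A' log r ≤ characteristic (u/v) ⊤ r` for large `r` and every `A'`; `char_div_le_TF`
(Lib_MP_b9fedf_ag/CharTF.lean, with `D = 1`, `K = 1`): `characteristic (u/v) ⊤ r ≤ TF + C`, and `TF` is `charT` by
definition.  Use `A' = |A| + 1` and `C ≤ log r` for large `r`. -/
theorem charT_exp {n : ℕ} (f : ℂ → Fin (n + 1) → ℂ) (hf : Differentiable ℂ f)
    (hf0 : ∀ z, f z ≠ 0) (hnc : ¬ ∀ z w, ∃ c : ℂ, f w = c • f z) (A : ℝ) :
    ∃ r₀ : ℝ, ∀ r, r₀ ≤ r → A * Real.log r ≤ charT (fun z => f (Complex.exp z)) r := by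
  have hfd : ∀ k, Differentiable ℂ (fun z => f z k) := differentiable_pi.mp hf
  -- a component which is not zero
  obtain ⟨j, hj⟩ : ∃ j, f 0 j ≠ 0 := by
    by_contra hcon
    push Not at hcon
    exact hf0 0 (funext hcon)
  -- a quotient which is not constant
  obtain ⟨i, hi⟩ : ∃ i, ∀ c : ℂ, ∃ z, f z i ≠ c * f z j := by
    by_contra hcon
    push Not at hcon
    choose c hc using hcon
    apply hnc
    intro z w
    have hzj : f z j ≠ 0 := by
      intro h0
      apply hf0 z
      funext i
      rw [hc i z, h0, mul_zero]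
      rfl
    refine ⟨f w j / f z j, ?_⟩
    funext i
    rw [Pi.smul_apply, smul_eq_mul, hc i w, hc i z]
    field_simp
  have hexp : Differentiable ℂ Complex.exp := Complex.differentiable_exp
  have hud : Differentiable ℂ (fun z => f (Complex.exp z) i) := (hfd i).comp hexp
  have hvd : Differentiable ℂ (fun z => f (Complex.exp z) j) := (hfd j).comp hexp
  have hper : ∀ z : ℂ, Complex.exp (z + 2 * Real.pi * Complex.I) = Complex.exp z := fun z =>
    Complex.exp_periodic z
  have hv0 : ∃ z, f (Complex.exp z) j ≠ 0 :=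
    exists_exp_lo6 (h := fun z => f z j) (hfd j).continuous ⟨0, hj⟩
  have hnp : ∀ c : ℂ, ∃ z, f (Complex.exp z) i ≠ c * f (Complex.exp z) j := by
    intro c
    obtain ⟨z, hz⟩ := exists_exp_lo6 (h := fun z => f z i - c * f z j)
      ((hfd i).continuous.sub (continuous_const.mul (hfd j).continuous)) (by
        obtain ⟨z, hz⟩ := hi c
        exact ⟨z, sub_ne_zero.mpr hz⟩)
    exact ⟨z, sub_ne_zero.mp hz⟩
  obtain ⟨r₀, hr₀⟩ := characteristic_div_ge_log hud hvd hv0
    (fun z => by
      show f (Complex.exp (z + 2 * Real.pi * Complex.I)) i = f (Complex.exp z) i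
      rw [hper])
    (fun z => by
      show f (Complex.exp (z + 2 * Real.pi * Complex.I)) j = f (Complex.exp z) j
      rw [hper]) hnp (|A| + 1)
  obtain ⟨C, hC⟩ := char_div_le_TF (f := fun (k : Fin (n + 1)) z => f (Complex.exp z) k)
    (fun k => (hfd k).comp hexp) (fun z => by
      by_contra hcon
      push Not at hcon
      exact hf0 (Complex.exp z) (funext hcon)) hud hvd hv0 1 1
    (fun z => by
      rw [one_mul, pow_one]
      exact norm_le_pi_norm (fun k => f (Complex.exp z) k) i)
    (fun z => by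
      rw [one_mul, pow_one]
      exact norm_le_pi_norm (fun k => f (Complex.exp z) k) j)
  refine ⟨max r₀ (max 1 (Real.exp C)), fun r hr => ?_⟩
  have h1 : r₀ ≤ r := (le_max_left _ _).trans hr
  have h2 : 1 ≤ r := (le_max_left _ _).trans ((le_max_right _ _).trans hr)
  have h3 : Real.exp C ≤ r := (le_max_right _ _).trans ((le_max_right _ _).trans hr)
  have h4 := hr₀ r h1
  have h5 := hC r h2
  have h6 : C ≤ Real.log r := by
    have := Real.log_le_log (Real.exp_pos C) h3
    rwa [Real.log_exp] at this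
  have h7 : 0 ≤ Real.log r := Real.log_nonneg h2
  have h8 : A * Real.log r ≤ |A| * Real.log r :=
    mul_le_mul_of_nonneg_right (le_abs_self A) h7
  have h9 : TF (fun (k : Fin (n + 1)) z => f (Complex.exp z) k) r =
      charT (fun z => f (Complex.exp z)) r := rfl
  rw [h9, Nat.cast_one, one_mul] at h5
  linarith

end Pool.Agent.LO
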