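import Pool.Agent.Lib_MP_b9fedf_lo.DefsLO
import Pool.Agent.Lib_MP_b9fedf_ag.CharTF
import Pool.Agent.Lib_MP_b9fedf_qy.FiniteMapY

/-! Piece LO-1: the characteristic of the image of a curve under forms. -/

set_option autoImplicit false

namespace Pool.Agent.LO
open MvPolynomial Pool.Agent.GGL Pool.Agent.SQ Pool.Agent.Stat Pool.Agent.QY

private theorem hom_eval_CFL {n e : ℕ} {P : MvPolynomial (Fin (n + 1)) ℂ}
    (hP : P.IsHomogeneous e) (r : ℂ) (u : Fin (n + 1) → ℂ) :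
    eval (fun i => r * u i) P = r ^ e * eval u P := by
  rw [eval_eq', eval_eq', Finset.mul_sum]
  refine Finset.sum_congr rfl fun d hd => ?_
  have h1 : ∑ i, d i = e := by
    by_contra hne
    have h2 : d.degree ≠ e := by
      rw [Finsupp.degree_eq_sum]
      exact hne
    exact (mem_support_iff.mp hd) (hP.coeff_eq_zero h2)
  have h3 : ∏ i, (r * u i) ^ d i = r ^ e * ∏ i, u i ^ d i := by
    rw [← h1, ← Finset.prod_pow_eq_pow_sum, ← Finset.prod_mul_distrib]
    exact Finset.prod_congr rfl fun i _ => mul_pow _ _ _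
  rw [h3]
  ring

/-- The zero set of a homogeneous ideal is a cone. -/
private theorem cone_CFL {n : ℕ} {q : Ideal (MvPolynomial (Fin (n + 1)) ℂ)} (hq : HomI q)
    (r : ℂ) (u : Fin (n + 1) → ℂ) (hu : ∀ g ∈ q, eval u g = 0) :
    ∀ g ∈ q, eval (fun i => r * u i) g = 0 := by
  intro g hg
  rw [← sum_homogeneousComponent g, map_sum]
  refine Finset.sum_eq_zero fun d _ => ?_
  rw [hom_eval_CFL (homogeneousComponent_isHomogeneous d g) r u, hu _ (hq g hg d), mul_zero]

private theorem diff_CFL {n : ℕ} {f : ℂ → Fin (n + 1) → ℂ} (hf : Differentiable ℂ f)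
    (P : MvPolynomial (Fin (n + 1)) ℂ) : Differentiable ℂ (fun z => eval (f z) P) := by
  induction P using MvPolynomial.induction_on with
  | C a => simp only [eval_C]; exact differentiable_const a
  | add p q hp hq => simp only [map_add]; exact hp.add hq
  | mul_X p j hp => simp only [map_mul, eval_X]; exact hp.mul (differentiable_pi.1 hf j)

/-- The values of forms without common zeros on the cone are comparable to the power of the norm. -/
private theorem two_CFL {n l e : ℕ} (q : Ideal (MvPolynomial (Fin (n + 1)) ℂ))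
    (ψ : Fin (l + 1) → MvPolynomial (Fin (n + 1)) ℂ) (hψ : ∀ i, (ψ i).IsHomogeneous e)
    (hbase : ∀ x : Fin (n + 1) → ℂ, (∀ g ∈ q, eval x g = 0) → (∀ i, eval x (ψ i) = 0) → x = 0)
    (hq : HomI q) :
    ∃ a b : ℝ, 0 < a ∧ 0 < b ∧ ∀ x : Fin (n + 1) → ℂ, x ≠ 0 → (∀ g ∈ q, eval x g = 0) →
      a * ‖x‖ ^ e ≤ ‖fun i => eval x (ψ i)‖ ∧ ‖fun i => eval x (ψ i)‖ ≤ b * ‖x‖ ^ e := by
  have hc : Continuous (fun x : Fin (n + 1) → ℂ => ‖fun i => eval x (ψ i)‖) :=
    (continuous_pi fun i => MvPolynomial.continuous_eval (ψ i)).norm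
  let V : Set (Fin (n + 1) → ℂ) := {x | ∀ g ∈ q, eval x g = 0}
  have hV : IsClosed V := by
    have h1 : V = ⋂ g ∈ q, {x | eval x g = 0} := by
      ext x
      simp [V]
    rw [h1]
    exact isClosed_biInter fun g _ =>
      isClosed_eq (MvPolynomial.continuous_eval g) continuous_const
  have hK : IsCompact (Metric.sphere (0 : Fin (n + 1) → ℂ) 1 ∩ V) :=
    (isCompact_sphere (0 : Fin (n + 1) → ℂ) 1).inter_right hV
  have hunit : ∀ x : Fin (n + 1) → ℂ, x ≠ 0 → x ∈ V →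
      ∃ u ∈ Metric.sphere (0 : Fin (n + 1) → ℂ) 1 ∩ V,
        x = fun i => ((‖x‖ : ℝ) : ℂ) * u i := by
    intro x hx hxV
    have hx1 : ‖x‖ ≠ 0 := norm_ne_zero_iff.mpr hx
    have hxC : ((‖x‖ : ℝ) : ℂ) ≠ 0 := Complex.ofReal_ne_zero.mpr hx1
    let u : Fin (n + 1) → ℂ := fun i => ((‖x‖ : ℝ) : ℂ)⁻¹ * x i
    have hu : u = ((‖x‖ : ℝ) : ℂ)⁻¹ • x := rfl
    have hu1 : ‖u‖ = 1 := by
      rw [hu, norm_smul, norm_inv, Complex.norm_real, norm_norm, inv_mul_cancel₀ hx1]
    refine ⟨u, ⟨mem_sphere_zero_iff_norm.mpr hu1, cone_CFL hq _ x hxV⟩, ?_⟩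
    funext i
    show x i = ((‖x‖ : ℝ) : ℂ) * (((‖x‖ : ℝ) : ℂ)⁻¹ * x i)
    rw [mul_inv_cancel_left₀ hxC]
  rcases (Metric.sphere (0 : Fin (n + 1) → ℂ) 1 ∩ V).eq_empty_or_nonempty with hS | hS
  · refine ⟨1, 1, one_pos, one_pos, fun x hx hxV => ?_⟩
    exfalso
    obtain ⟨u, hu, _⟩ := hunit x hx hxV
    rw [hS] at hu
    exact hu
  obtain ⟨x₀, hx₀, hmin⟩ := hK.exists_isMinOn hS hc.continuousOn
  obtain ⟨x₁, hx₁, hmax⟩ := hK.exists_isMaxOn hS hc.continuousOn
  have hpos : 0 < ‖fun i => eval x₀ (ψ i)‖ := by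
    rw [norm_pos_iff]
    intro h1
    have h2 : x₀ = 0 := hbase x₀ hx₀.2 fun i => congrFun h1 i
    have h3 := hx₀.1
    rw [h2, mem_sphere_zero_iff_norm, norm_zero] at h3
    exact zero_ne_one h3
  refine ⟨‖fun i => eval x₀ (ψ i)‖, ‖fun i => eval x₁ (ψ i)‖, hpos,
    lt_of_lt_of_le hpos (hmin hx₁), fun x hx hxV => ?_⟩
  obtain ⟨u, hu, hxu⟩ := hunit x hx hxV
  have h1 : ‖fun i => eval x (ψ i)‖ = ‖x‖ ^ e * ‖fun i => eval u (ψ i)‖ := by
    have h2 : (fun i => eval x (ψ i)) = (((‖x‖ : ℝ) : ℂ) ^ e) • fun i => eval u (ψ i) := by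
      funext i
      conv_lhs => rw [hxu]
      rw [hom_eval_CFL (hψ i)]
      rfl
    rw [h2, norm_smul, norm_pow, Complex.norm_real, norm_norm]
  rw [h1, mul_comm (‖fun i => eval x₀ (ψ i)‖), mul_comm (‖fun i => eval x₁ (ψ i)‖)]
  exact ⟨mul_le_mul_of_nonneg_left (hmin hu) (by positivity),
    mul_le_mul_of_nonneg_left (hmax hu) (by positivity)⟩

/-- PIECE LO-1. The characteristic of the image of a curve under forms without common zeros on
`V(q)`.  Proof.  `K = {x : ‖x‖ = 1, all g ∈ q vanish at x}` is compact and `x ↦ ‖ψ(x)‖` is continuous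
and positive on it, so `a ≤ ‖ψ(x)‖ ≤ b` on `K` with `a > 0` (if `K` is empty there is no `f`).  By
homogeneity of `ψ` and of `q` (`hqh`: the zero set of `q` is a cone: if `x` is a zero of `q` then
`c • x` is one, as all homogeneous components vanish at `x`; see FiniteMap.lean, FiniteMapY.lean)
`a ‖x‖^e ≤ ‖ψ(x)‖ ≤ b ‖x‖^e` for all zeros `x ≠ 0` of `q`.  Take logarithms and circle averages
(`charT` is `circleAverage (log ‖f z‖)`; `vec_integrable`, `circleAverage_mono` or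
`circleAverage_mono_codiscrete`; see `CharTF.avg_bound`, `CharTF.log_bound`, `N_le_TF`). `C = |log a| + |log b|`. -/
theorem charT_forms {n l e : ℕ} (q : Ideal (MvPolynomial (Fin (n + 1)) ℂ))
    (ψ : Fin (l + 1) → MvPolynomial (Fin (n + 1)) ℂ) (hψ : ∀ i, (ψ i).IsHomogeneous e)
    (hbase : ∀ x : Fin (n + 1) → ℂ, (∀ g ∈ q, eval x g = 0) → (∀ i, eval x (ψ i) = 0) → x = 0)
    (hqh : HomI q) :
    ∃ C : ℝ, ∀ f : ℂ → Fin (n + 1) → ℂ, Differentiable ℂ f → (∀ z, f z ≠ 0) →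
      (∀ g ∈ q, ∀ z, eval (f z) g = 0) → ∀ r, 1 ≤ r →
      e * charT f r ≤ charT (fun z i => eval (f z) (ψ i)) r + C ∧
      charT (fun z i => eval (f z) (ψ i)) r ≤ e * charT f r + C := by
  obtain ⟨a, b, ha, hb, hab⟩ := two_CFL q ψ hψ hbase hqh
  refine ⟨|Real.log a| + |Real.log b|, fun f hf hf0 hfq r _ => ?_⟩
  have hF0 : ∀ z, 0 < ‖fun i => eval (f z) (ψ i)‖ := by
    intro z
    rw [norm_pos_iff]
    intro h1
    exact hf0 z (hbase (f z) (fun g hg => hfq g hg z) fun i => congrFun h1 i)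
  have hfz : ∀ z, 0 < ‖f z‖ := fun z => norm_pos_iff.2 (hf0 z)
  have h1 := CharTF.avg_bound (f := fun k z => f z k) (fun k => differentiable_pi.1 hf k) e a r
  have h2 := CharTF.avg_bound (f := fun k z => f z k) (fun k => differentiable_pi.1 hf k) e b r
  have h3 : CircleIntegrable (fun z => Real.log ‖fun i => eval (f z) (ψ i)‖) 0 r :=
    vec_integrable (g := fun i z => eval (f z) (ψ i)) (fun i => diff_CFL hf (ψ i)) r
  have hlow : Real.log a + e * charT f r ≤ charT (fun z i => eval (f z) (ψ i)) r := by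
    have h4 := Real.circleAverage_mono h1.2 h3 (fun z _ => by
      have h5 := Real.log_le_log (mul_pos ha (pow_pos (hfz z) e))
        (hab (f z) (hf0 z) (fun g hg => hfq g hg z)).1
      rw [Real.log_mul ha.ne' (pow_pos (hfz z) e).ne', Real.log_pow] at h5
      exact h5)
    rw [h1.1] at h4
    exact h4
  have hup : charT (fun z i => eval (f z) (ψ i)) r ≤ Real.log b + e * charT f r := by
    have h4 := Real.circleAverage_mono h3 h2.2 (fun z _ => by
      have h5 := Real.log_le_log (hF0 z) (hab (f z) (hf0 z) (fun g hg => hfq g hg z)).2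
      rw [Real.log_mul hb.ne' (pow_pos (hfz z) e).ne', Real.log_pow] at h5
      exact h5)
    rw [h2.1] at h4
    exact h4
  have h6 := neg_abs_le (Real.log a)
  have h7 := le_abs_self (Real.log b)
  have h8 := abs_nonneg (Real.log a)
  have h9 := abs_nonneg (Real.log b)
  constructor
  · linarith
  · linarith

end Pool.Agent.LO
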