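import Pool.Agent.Lib_MP_1209e6_ag.Defs

/-! Definition: rational maps ramified on average (function field version). -/

set_option autoImplicit false

namespace Pool.Agent.LO
open MvPolynomial Pool.Agent.Campana

/-- `y_0, …, y_n` are homogeneous coordinates of a rational map from a variety with function field
`K` to `ℙⁿ`, which is ramified on average over the members of `D`, with ratio `ρ`: at each place,
the number of the members of `D` of positive order is at most `ρ` times the sum of the orders of the
members of `D` (relative to the least order `c` of the coordinates). -/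
def RamifiedAt {K : Type} [Field K] [Algebra ℂ K] {n : ℕ} (ρ : ℝ) (y : Fin (n + 1) → K)
    (D : Finset (MvPolynomial (Fin (n + 1)) ℂ)) : Prop :=
  ∀ O : ValuationSubring K, IsPlace O → ∀ v : K → ℤ, IsOrd O v → ∀ c : ℤ,
    (∀ i, c ≤ v (y i)) → (∃ i, v (y i) = c) →
    ((D.filter fun P => (P.totalDegree : ℤ) * c < v (aeval y P)).card : ℝ) ≤
      ρ * ∑ P ∈ D, ((v (aeval y P) - P.totalDegree * c : ℤ) : ℝ)

end Pool.Agent.LO
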