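import Pool.Agent.Lib_MP_b9fedf_st.Defs
import Pool.Agent.Lib_MP_b9fedf_qy.DefsR

/-! Definitions for the second main theorem with truncation level one. -/

set_option autoImplicit false

namespace Pool.Agent.LO
open MvPolynomial Pool.Agent.QY Pool.Agent.Stat

/-- The second main theorem with truncation level one for the members of `D` and the non-constant
entire curves of `V(q)` which are not contained in `Z = 0`. -/
def LevelOne {n : ℕ} (ε : ℝ) (q : Ideal (MvPolynomial (Fin (n + 1)) ℂ))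
    (D : Finset (MvPolynomial (Fin (n + 1)) ℂ)) (Z : MvPolynomial (Fin (n + 1)) ℂ) : Prop :=
  ∀ f : ℂ → Fin (n + 1) → ℂ, Differentiable ℂ f → (∀ z, f z ≠ 0) →
    (∀ g ∈ q, ∀ z, eval (f z) g = 0) → (∃ z, eval (f z) Z ≠ 0) →
    (¬ ∀ z w, ∃ c : ℂ, f w = c • f z) →
    ∃ (K : ℝ) (E : Set ℝ), MeasureTheory.volume E < ⊤ ∧ ∀ r, 1 ≤ r → r ∉ E →
      (1 - ε) * (∑ P ∈ D, (P.totalDegree : ℝ)) * charT f r ≤
        ∑ P ∈ D, Nbar (fun z => eval (f z) P) r + K * (Real.posLog (charT f r) + Real.log r + 1)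

/-- The rational map `φ` from `V(S)` to projective space is ramified over the members of `D` on
average, with ratio `ρ`: along each holomorphic arc `u` of `V(S)`, the number of the members of `D`
which vanish at the centre is at most `ρ` times the sum of their orders of vanishing (all orders
relative to the least order `c` of the coordinates of `φ(u)`). -/
def RamifiedOnAverage {m n : ℕ} (ρ : ℝ) (S : Set (MvPolynomial (Fin (m + 1)) ℂ))
    (φ : Fin (n + 1) → MvPolynomial (Fin (m + 1)) ℂ)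
    (D : Finset (MvPolynomial (Fin (n + 1)) ℂ)) : Prop :=
  ∀ u : ℂ → Fin (m + 1) → ℂ, AnalyticAt ℂ u 0 → u 0 ≠ 0 →
    (∀ᶠ ζ in nhds (0 : ℂ), ∀ p ∈ S, eval (u ζ) p = 0) →
    ∀ c : ℕ, (∀ i, (c : ℕ∞) ≤ analyticOrderAt (fun ζ => eval (u ζ) (φ i)) 0) →
    (∃ i, analyticOrderAt (fun ζ => eval (u ζ) (φ i)) 0 = c) →
    ∀ o : MvPolynomial (Fin (n + 1)) ℂ → ℕ,
      (∀ P ∈ D, analyticOrderAt (fun ζ => eval (u ζ) (aeval φ P)) 0 =
        ((P.totalDegree * c + o P : ℕ) : ℕ∞)) →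
      ((D.filter fun P => o P ≠ 0).card : ℝ) ≤ ρ * ∑ P ∈ D, (o P : ℝ)

end Pool.Agent.LO
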