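import Mathlib

/-! The greedy estimate for hyperplanes in general position. -/

set_option autoImplicit false

namespace Pool.Agent.LO

private theorem pgrd_basis {m : ℕ} (v : Fin (m + 1) → Fin (m + 1) → ℂ)
    (hv : LinearIndependent ℂ v) :
    ∃ b : Module.Basis (Fin (m + 1)) ℂ (Fin (m + 1) → ℂ), ∀ k, b k = v k := by
  refine ⟨basisOfLinearIndependentOfCardEqFinrank hv (by simp), fun k => ?_⟩
  simp

private theorem pgrd_update {m : ℕ} (b : Module.Basis (Fin (m + 1)) ℂ (Fin (m + 1) → ℂ))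
    (y : Fin (m + 1) → ℂ) (k : Fin (m + 1)) (hk : b.repr y k ≠ 0)
    (v : Fin (m + 1) → Fin (m + 1) → ℂ)
    (hv : ∀ l, v l = if l = k then y else b l) : LinearIndependent ℂ v := by
  rw [Fintype.linearIndependent_iff]
  intro g hg
  have hc : ∀ j, ∑ l, g l * b.repr (v l) j = 0 := by
    intro j
    have := congrArg (fun z => b.repr z j) hg
    simpa [map_sum, Finsupp.finsetSum_apply] using this
  have hk0 : g k = 0 := by
    have h1 := hc k
    rw [Finset.sum_eq_single k] at h1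
    · rw [hv k, if_pos rfl] at h1
      exact (mul_eq_zero.mp h1).resolve_right hk
    · intro l _ hl
      rw [hv l, if_neg hl]
      simp [hl]
    · simp
  intro i
  by_cases hi : i = k
  · rw [hi, hk0]
  · have h1 := hc i
    rw [Finset.sum_eq_single i] at h1
    · rw [hv i, if_neg hi] at h1
      simpa using h1
    · intro l _ hl
      by_cases hlk : l = k
      · rw [hlk, hk0, zero_mul]
      · rw [hv l, if_neg hlk]
        simp [hl]
    · simp

private theorem pgrd_low1 {m : ℕ} (v : Fin (m + 1) → Fin (m + 1) → ℂ)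
    (hv : LinearIndependent ℂ v) :
    ∃ C : ℝ, 0 < C ∧ ∀ x : Fin (m + 1) → ℂ, ∃ k, ‖x‖ ≤ C * ‖∑ a, v k a * x a‖ := by
  obtain ⟨b, hb⟩ := pgrd_basis v hv
  refine ⟨(∑ a : Fin (m + 1), ∑ k, ‖b.repr (Pi.single a 1) k‖) + 1, by positivity, fun x => ?_⟩
  obtain ⟨k, -, hk⟩ := Finset.exists_max_image (Finset.univ : Finset (Fin (m + 1)))
    (fun k => ‖∑ a, v k a * x a‖) Finset.univ_nonempty
  refine ⟨k, ?_⟩
  have hM : ∀ j, ‖∑ a, v j a * x a‖ ≤ ‖∑ a, v k a * x a‖ := fun j => hk j (Finset.mem_univ _)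
  rw [pi_norm_le_iff_of_nonneg (by positivity)]
  intro a
  have h1 : x a = ∑ j, b.repr (Pi.single a 1) j * ∑ e, v j e * x e := by
    have h2 := b.sum_repr (Pi.single a (1 : ℂ))
    have h3 : ∀ e, (Pi.single a (1 : ℂ) : Fin (m + 1) → ℂ) e
        = ∑ j, b.repr (Pi.single a 1) j * v j e := by
      intro e
      conv_lhs => rw [← h2]
      simp [Finset.sum_apply, hb]
    calc x a = ∑ e, (Pi.single a (1 : ℂ) : Fin (m + 1) → ℂ) e * x e := by
          simp [Pi.single_apply]
      _ = ∑ e, (∑ j, b.repr (Pi.single a 1) j * v j e) * x e := by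
          refine Finset.sum_congr rfl fun e _ => by rw [h3 e]
      _ = _ := by
          simp_rw [Finset.sum_mul, Finset.mul_sum]
          rw [Finset.sum_comm]
          refine Finset.sum_congr rfl fun j _ => Finset.sum_congr rfl fun e _ => by ring
  rw [h1]
  calc ‖∑ j, b.repr (Pi.single a 1) j * ∑ e, v j e * x e‖
      ≤ ∑ j, ‖b.repr (Pi.single a 1) j * ∑ e, v j e * x e‖ := norm_sum_le _ _
    _ ≤ ∑ j, ‖b.repr (Pi.single a 1) j‖ * ‖∑ a, v k a * x a‖ := by
        refine Finset.sum_le_sum fun j _ => ?_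
        rw [norm_mul]
        exact mul_le_mul_of_nonneg_left (hM j) (norm_nonneg _)
    _ = (∑ j, ‖b.repr (Pi.single a 1) j‖) * ‖∑ a, v k a * x a‖ := by rw [Finset.sum_mul]
    _ ≤ _ := by
        refine mul_le_mul_of_nonneg_right ?_ (norm_nonneg _)
        have := Finset.single_le_sum (f := fun a : Fin (m + 1) => ∑ k, ‖b.repr (Pi.single a 1) k‖)
          (fun i _ => by positivity) (Finset.mem_univ a)
        linarith

private theorem pgrd_low {m N : ℕ} (q : Fin N → Fin (m + 1) → ℂ) :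
    ∃ C : ℝ, ∀ κ : Fin (m + 1) → Fin N, LinearIndependent ℂ (fun k => q (κ k)) →
      ∀ x : Fin (m + 1) → ℂ, x ≠ 0 → (∀ i, ∑ a, q i a * x a ≠ 0) →
        ∃ k, Real.log ‖x‖ - Real.log ‖∑ a, q (κ k) a * x a‖ ≤ C := by
  have h1 : ∀ κ : Fin (m + 1) → Fin N, ∃ C : ℝ, LinearIndependent ℂ (fun k => q (κ k)) →
      ∀ x : Fin (m + 1) → ℂ, x ≠ 0 → (∀ i, ∑ a, q i a * x a ≠ 0) →
        ∃ k, Real.log ‖x‖ - Real.log ‖∑ a, q (κ k) a * x a‖ ≤ C := by
    intro κ
    by_cases hκ : LinearIndependent ℂ (fun k => q (κ k))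
    · obtain ⟨C, hC, h⟩ := pgrd_low1 _ hκ
      refine ⟨Real.log C, fun _ x hx hqx => ?_⟩
      obtain ⟨k, hk⟩ := h x
      refine ⟨k, ?_⟩
      have h2 : Real.log ‖x‖ ≤ Real.log (C * ‖∑ a, q (κ k) a * x a‖) :=
        Real.log_le_log (norm_pos_iff.mpr hx) hk
      rw [Real.log_mul hC.ne' (norm_ne_zero_iff.mpr (hqx _))] at h2
      linarith
    · exact ⟨0, fun h => absurd h hκ⟩
  choose C hC using h1
  obtain ⟨M, hM⟩ := Finite.exists_le C
  refine ⟨M, fun κ hκ x hx hqx => ?_⟩
  obtain ⟨k, hk⟩ := hC κ hκ x hx hqx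
  exact ⟨k, hk.trans (hM κ)⟩

private theorem pgrd_up {m N : ℕ} (q : Fin N → Fin (m + 1) → ℂ) :
    ∃ C : ℝ, 0 ≤ C ∧ ∀ x : Fin (m + 1) → ℂ, x ≠ 0 → (∀ i, ∑ a, q i a * x a ≠ 0) →
        ∀ i, 0 ≤ Real.log ‖x‖ - Real.log ‖∑ a, q i a * x a‖ + C := by
  obtain ⟨M, hM⟩ := Finite.exists_le (fun i => ∑ a, ‖q i a‖)
  refine ⟨Real.log (max M 1), Real.log_nonneg (le_max_right _ _), fun x hx hqx i => ?_⟩
  have h1 : ‖∑ a, q i a * x a‖ ≤ max M 1 * ‖x‖ := by
    calc ‖∑ a, q i a * x a‖ ≤ ∑ a, ‖q i a * x a‖ := norm_sum_le _ _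
      _ ≤ ∑ a, ‖q i a‖ * ‖x‖ := by
          refine Finset.sum_le_sum fun a _ => ?_
          rw [norm_mul]
          exact mul_le_mul_of_nonneg_left (norm_le_pi_norm x a) (norm_nonneg _)
      _ = (∑ a, ‖q i a‖) * ‖x‖ := by rw [Finset.sum_mul]
      _ ≤ _ := mul_le_mul_of_nonneg_right ((hM i).trans (le_max_left _ _)) (norm_nonneg _)
  have h2 := Real.log_le_log (norm_pos_iff.mpr (hqx i)) h1
  rw [Real.log_mul (by positivity) (norm_ne_zero_iff.mpr hx)] at h2
  linarith

/-- at most `m + 1` of the linear forms are small at a point -/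
theorem pgreedy_gen {m N : ℕ} (q : Fin N → Fin (m + 1) → ℂ) (hN : m + 1 ≤ N)
    (hgp : ∀ κ : Fin (m + 1) → Fin N, Function.Injective κ →
      LinearIndependent ℂ (fun k => q (κ k))) :
    ∃ C : ℝ, ∀ x : Fin (m + 1) → ℂ, (∀ i, ∑ a, q i a * x a ≠ 0) →
      ∃ κ : Fin (m + 1) → Fin N, LinearIndependent ℂ (fun k => q (κ k)) ∧
        ∑ i, (Real.log ‖x‖ - Real.log ‖∑ a, q i a * x a‖) ≤
          (1 : ℝ) * ∑ k, (Real.log ‖x‖ - Real.log ‖∑ a, q (κ k) a * x a‖) + C := by
  classical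
  obtain ⟨C0, hC0, hup⟩ := pgrd_up q
  obtain ⟨C1, hlow⟩ := pgrd_low q
  have hκ₁ := hgp (Fin.castLE hN) (Fin.castLE_injective hN)
  set κ₁ : Fin (m + 1) → Fin N := Fin.castLE hN with hκ₁def
  set D : ℝ := max (C1 + C0) 0 with hD
  refine ⟨N * (D + C0), fun x hqx => ?_⟩
  have hx : x ≠ 0 := by
    rintro rfl
    exact hqx (κ₁ 0) (by simp)
  set lam : Fin N → ℝ := fun i => Real.log ‖x‖ - Real.log ‖∑ a, q i a * x a‖ with hlam
  -- the best independent family
  obtain ⟨κ, hκS, hκmax⟩ := Finset.exists_max_image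
    ((Finset.univ : Finset (Fin (m + 1) → Fin N)).filter
      (fun κ => LinearIndependent ℂ (fun k => q (κ k))))
    (fun κ => ∑ k, lam (κ k)) ⟨κ₁, by simpa using hκ₁⟩
  have hκ : LinearIndependent ℂ (fun k => q (κ k)) := by simpa using hκS
  have hκinj : Function.Injective κ := fun a b hab => hκ.injective (by simp only [hab])
  refine ⟨κ, hκ, ?_⟩
  obtain ⟨k₀, hk₀⟩ := hlow κ hκ x hx hqx
  have hD0 : 0 ≤ D := le_max_right _ _
  have hD1 : C1 + C0 ≤ D := le_max_left _ _
  have hsmall : ∀ i, i ∉ Set.range κ → lam i ≤ D := by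
    intro i hi
    have hli : LinearIndependent ℂ (fun l => q (Function.update κ k₀ i l)) := by
      apply hgp
      intro a b hab
      by_cases ha : a = k₀
      · by_cases hb : b = k₀
        · rw [ha, hb]
        · exfalso
          rw [ha, Function.update_self, Function.update_of_ne hb] at hab
          exact hi ⟨b, hab.symm⟩
      · by_cases hb : b = k₀
        · exfalso
          rw [hb, Function.update_self, Function.update_of_ne ha] at hab
          exact hi ⟨a, hab⟩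
        · rw [Function.update_of_ne ha, Function.update_of_ne hb] at hab
          exact hκinj hab
    have h1 := hκmax (Function.update κ k₀ i) (by simpa using hli)
    have h2 : ∑ l, lam (Function.update κ k₀ i l) =
        lam i + ∑ l ∈ Finset.univ.erase k₀, lam (κ l) := by
      rw [← Finset.add_sum_erase _ _ (Finset.mem_univ k₀), Function.update_self]
      congr 1
      refine Finset.sum_congr rfl fun l hl => ?_
      rw [Function.update_of_ne (Finset.ne_of_mem_erase hl)]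
    rw [h2, ← Finset.add_sum_erase _ _ (Finset.mem_univ k₀)] at h1
    have h3 : lam (κ k₀) ≤ C1 := hk₀
    linarith
  have hsplit : ∑ i, lam i = ∑ k, lam (κ k) +
      ∑ i ∈ Finset.univ.filter (fun i => i ∉ Set.range κ), lam i := by
    rw [← Finset.sum_filter_add_sum_filter_not Finset.univ (fun i => i ∈ Set.range κ)]
    congr 1
    have h1 : Finset.univ.filter (fun i => i ∈ Set.range κ) = Finset.univ.image κ := by
      ext i
      simp
    rw [h1, Finset.sum_image (fun a _ b _ h => hκinj h)]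
  rw [hsplit, one_mul]
  have h3 : ∑ i ∈ Finset.univ.filter (fun i => i ∉ Set.range κ), lam i ≤ N * (D + C0) := by
    have h4 : ∑ i ∈ Finset.univ.filter (fun i => i ∉ Set.range κ), lam i ≤
        ∑ _i ∈ Finset.univ.filter (fun i => i ∉ Set.range κ), (D + C0) :=
      Finset.sum_le_sum fun i hi => by
        have := hsmall i (Finset.mem_filter.mp hi).2
        linarith
    refine h4.trans ?_
    rw [Finset.sum_const, nsmul_eq_mul]
    apply mul_le_mul_of_nonneg_right _ (by linarith)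
    have h5 := Finset.card_filter_le (Finset.univ : Finset (Fin N)) (fun i => i ∉ Set.range κ)
    rw [Finset.card_univ, Fintype.card_fin] at h5
    exact_mod_cast h5
  linarith

end Pool.Agent.LO
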