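import Mathlib

/-! Borel's growth lemma in the measure form, with a factor close to one. -/

set_option autoImplicit false

namespace Pool.Agent.LO

theorem growthE {b : ℝ} (hb : 1 < b) (T : ℝ → ℝ) (hmono : MonotoneOn T (Set.Ici 1))
    (h1 : ∀ r, 1 ≤ r → 1 ≤ T r) :
    MeasureTheory.volume {r : ℝ | 1 ≤ r ∧ b * T r < T (r + 1 / T r)} < ⊤ := by
  have hb0 : 0 < b := by linarith
  set E : ℕ → Set ℝ := fun k =>
    {r : ℝ | (1 ≤ r ∧ b * T r < T (r + 1 / T r)) ∧ b ^ k ≤ T r ∧ T r < b ^ (k + 1)} with hE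
  have hsub : {r : ℝ | 1 ≤ r ∧ b * T r < T (r + 1 / T r)} ⊆ ⋃ k, E k := by
    intro r hr
    obtain ⟨k, hk1, hk2⟩ := exists_nat_pow_near (h1 r hr.1) hb
    exact Set.mem_iUnion.mpr ⟨k, hr, hk1, hk2⟩
  have hpair : ∀ (k : ℕ) (x y : ℝ), x ∈ E k → y ∈ E k → x ≤ y → y - x ≤ (b⁻¹) ^ k := by
    intro k x y hx hy hxy
    obtain ⟨⟨hx1, hx2⟩, hx3, hx4⟩ := hx
    obtain ⟨⟨hy1, hy2⟩, hy3, hy4⟩ := hy
    have hT : 0 < T x := lt_of_lt_of_le one_pos (h1 x hx1)
    have hle : y ≤ x + 1 / T x := by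
      by_contra hcon
      push Not at hcon
      have h2 : T (x + 1 / T x) ≤ T y := by
        apply hmono _ _ hcon.le
        · exact Set.mem_Ici.mpr (by have : 0 < 1 / T x := by positivity
                                    linarith)
        · exact Set.mem_Ici.mpr hy1
      have h3 : b ^ (k + 1) ≤ b * T x := by
        rw [pow_succ, mul_comm]
        exact mul_le_mul_of_nonneg_left hx3 hb0.le
      linarith
    have h4 : 1 / T x ≤ 1 / b ^ k := one_div_le_one_div_of_le (by positivity) hx3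
    rw [inv_pow, ← one_div]
    linarith
  have hvol : ∀ k, MeasureTheory.volume (E k) ≤ ENNReal.ofReal ((b⁻¹) ^ k) := by
    intro k
    refine (Real.volume_le_diam _).trans (Metric.ediam_le ?_)
    intro x hx y hy
    rw [edist_dist]
    apply ENNReal.ofReal_le_ofReal
    rw [Real.dist_eq]
    rcases le_total x y with h | h
    · rw [abs_sub_comm, abs_of_nonneg (by linarith)]
      exact hpair k x y hx hy h
    · rw [abs_of_nonneg (by linarith)]
      exact hpair k y x hy hx h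
  have hb1 : b⁻¹ < 1 := inv_lt_one_of_one_lt₀ hb
  have hb2 : 0 ≤ b⁻¹ := by positivity
  calc MeasureTheory.volume {r : ℝ | 1 ≤ r ∧ b * T r < T (r + 1 / T r)}
      ≤ MeasureTheory.volume (⋃ k, E k) := MeasureTheory.measure_mono hsub
    _ ≤ ∑' k, MeasureTheory.volume (E k) := MeasureTheory.measure_iUnion_le E
    _ ≤ ∑' k, ENNReal.ofReal ((b⁻¹) ^ k) := ENNReal.tsum_le_tsum hvol
    _ = ENNReal.ofReal (∑' k : ℕ, (b⁻¹) ^ k) :=
      (ENNReal.ofReal_tsum_of_nonneg (fun k => by positivity)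
        (summable_geometric_of_lt_one hb2 hb1)).symm
    _ < ⊤ := ENNReal.ofReal_lt_top

end Pool.Agent.LO
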