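import Pool.Agent.Lib_MP_b9fedf_lo.Pkg3
import Pool.Agent.Lib_MP_b9fedf_lo.Pack2R
import Pool.Agent.Lib_MP_b9fedf_qy.SetCaseY

/-! Packages on a variety (helper17). -/

set_option autoImplicit false

namespace Pool.Agent.LO
open Filter Metric Real Set Function MeromorphicOn ValueDistribution
open Pool.Agent.GGL Pool.Agent.SQ Pool.Agent.Stat Pool.Agent.QY

/-- the coordinates of the curve in terms of the pulled back curve -/
private theorem pull_coord3 {σ τ : Type} [Fintype σ] [Fintype τ] [DecidableEq σ] [DecidableEq τ]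
    (Ψ : (τ → ℂ) ≃ₗ[ℂ] (σ → ℂ)) (F : τ → Ent) (k : τ) (z : ℂ) :
    (F k).1 z = ∑ i, Ψ (Pi.single k 1) i * (pull Ψ.symm.toLinearMap F i).1 z := by
  rw [pull_sum]
  have h4 : Ψ.symm.toLinearMap (Ψ (Pi.single k 1)) = Pi.single k 1 := Ψ.symm_apply_apply _
  rw [h4, Finset.sum_eq_single k]
  · rw [Pi.single_eq_same, one_mul]
  · intro y _ hy
    rw [Pi.single_apply, if_neg hy, zero_mul]
  · intro hx
    exact absurd (Finset.mem_univ _) hx

/-- the coordinates of a non-constant curve are not proportional after an invertible change of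
coordinates -/
private theorem pull_nc3 {σ τ : Type} [Fintype σ] [Fintype τ] [DecidableEq σ] [DecidableEq τ]
    (Ψ : (τ → ℂ) ≃ₗ[ℂ] (σ → ℂ)) (F : τ → Ent)
    (hF : ∀ t : τ → ℂ, t ≠ 0 → ∃ i i', t i • F i' ≠ t i' • F i) :
    ∀ t : σ → ℂ, t ≠ 0 → ∃ i i', t i • pull Ψ.symm.toLinearMap F i' ≠
      t i' • pull Ψ.symm.toLinearMap F i := by
  intro t ht
  by_contra hcon
  push Not at hcon
  set G := pull Ψ.symm.toLinearMap F with hG
  set t' : τ → ℂ := fun k => dt (Ψ (Pi.single k 1)) t with ht'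
  have h1 : ∀ v : σ → ℂ, dt v t = ∑ k, Ψ.symm v k * t' k := by
    intro v
    have h2 : ∀ x, v x = ∑ k, Ψ.symm v k * Ψ (Pi.single k 1) x := by
      intro x
      have h3 := map_eq_sum Ψ.toLinearMap (Ψ.symm v) x
      have h4 : Ψ.toLinearMap (Ψ.symm v) = v := Ψ.apply_symm_apply v
      rw [h4] at h3
      exact h3
    unfold dt
    conv_lhs => rw [Finset.sum_congr rfl fun x _ => by rw [h2 x]]
    simp only [ht', dt, Finset.sum_mul, Finset.mul_sum]
    rw [Finset.sum_comm]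
    exact Finset.sum_congr rfl fun k _ => Finset.sum_congr rfl fun x _ => by ring
  have ht0 : t' ≠ 0 := by
    intro h0
    apply ht
    funext x
    have h2 := h1 (Pi.single x 1)
    rw [h0] at h2
    have h3 : dt (Pi.single x 1) t = t x := by
      unfold dt
      rw [Finset.sum_eq_single x]
      · rw [Pi.single_eq_same, one_mul]
      · intro y _ hy
        rw [Pi.single_apply, if_neg hy, zero_mul]
      · intro hx
        exact absurd (Finset.mem_univ _) hx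
    rw [← h3, h2]
    simp
  obtain ⟨k, l, hkl⟩ := hF t' ht0
  apply hkl
  apply Ent.ext'
  intro z
  have hFz : ∀ k, (F k).1 z = ∑ i, Ψ (Pi.single k 1) i * (G i).1 z := by
    intro k
    rw [hG, pull_sum]
    have h4 : Ψ.symm.toLinearMap (Ψ (Pi.single k 1)) = Pi.single k 1 := Ψ.symm_apply_apply _
    rw [h4, Finset.sum_eq_single k]
    · rw [Pi.single_eq_same, one_mul]
    · intro y _ hy
      rw [Pi.single_apply, if_neg hy, zero_mul]
    · intro hx
      exact absurd (Finset.mem_univ _) hx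
  have hGz : ∀ i i', t i * (G i').1 z = t i' * (G i).1 z := by
    intro i i'
    have h5 := congrArg (fun x : Ent => x.1 z) (hcon i i')
    exact h5
  show t' k * (F l).1 z = t' l * (F k).1 z
  rw [hFz, hFz]
  simp only [ht', dt, Finset.sum_mul, Finset.mul_sum]
  rw [Finset.sum_comm]
  apply Finset.sum_congr rfl
  intro i _
  apply Finset.sum_congr rfl
  intro i' _
  linear_combination (Ψ (Pi.single k 1) i * Ψ (Pi.single l 1) i') * hGz i i'

/-- a bounded change of the characteristic -/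
theorem shift_num {η N t T S K c r : ℝ} (hη : 0 < η) (hη1 : η < 1) (hN : 0 ≤ N)
    (hc : 0 ≤ c) (hr : 1 ≤ r) (h1 : T ≤ t + c) (h2 : t ≤ T + c)
    (h : (1 - η) * N * t ≤ S + K * (Real.posLog t + Real.log r + 1)) :
    (1 - η) * N * T ≤ S + (|K| * (1 + Real.log 2 + Real.posLog c) + N * c) *
      (Real.posLog T + Real.log r + 1) := by
  have hpt : 0 ≤ Real.posLog t := Real.posLog_nonneg
  have hpT : 0 ≤ Real.posLog T := Real.posLog_nonneg
  have hpc : 0 ≤ Real.posLog c := Real.posLog_nonneg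
  have hl : 0 ≤ Real.log r := Real.log_nonneg hr
  have hl2 : 0 ≤ Real.log 2 := Real.log_nonneg (by norm_num)
  have h3 : Real.posLog t ≤ Real.log 2 + Real.posLog T + Real.posLog c := by
    have e1 : Real.posLog t ≤ Real.log 2 + Real.posLog T + Real.posLog (t - T) := by
      have := Real.posLog_add (x := T) (y := t - T)
      rwa [add_sub_cancel] at this
    have e2 : Real.posLog (t - T) ≤ Real.posLog c := by
      rw [← Real.posLog_abs]
      exact Real.posLog_le_posLog (abs_nonneg _) (abs_le.mpr ⟨by linarith, by linarith⟩)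
    linarith
  set X : ℝ := Real.posLog T + Real.log r + 1 with hX
  have hX1 : 1 ≤ X := by linarith
  have h4 : K * (Real.posLog t + Real.log r + 1) ≤ |K| * (1 + Real.log 2 + Real.posLog c) * X := by
    have e1 : Real.posLog t + Real.log r + 1 ≤ (1 + Real.log 2 + Real.posLog c) * X := by
      have e2 : 0 ≤ (Real.log 2 + Real.posLog c) * (X - 1) :=
        mul_nonneg (by linarith) (by linarith)
      nlinarith
    have e3 : K * (Real.posLog t + Real.log r + 1) ≤ |K| * (Real.posLog t + Real.log r + 1) :=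
      mul_le_mul_of_nonneg_right (le_abs_self K) (by linarith)
    have e4 := mul_le_mul_of_nonneg_left e1 (abs_nonneg K)
    rw [← mul_assoc] at e4
    linarith
  have h5 : (1 - η) * N * T ≤ (1 - η) * N * t + N * c := by
    have e1 : 0 ≤ (1 - η) * N := mul_nonneg (by linarith) hN
    have e2 := mul_le_mul_of_nonneg_left h1 e1
    have e3 : (1 - η) * N * c ≤ N * c := by
      apply mul_le_mul_of_nonneg_right _ hc
      nlinarith
    linarith
  have h6 : N * c ≤ N * c * X := le_mul_of_one_le_right (mul_nonneg hN hc) hX1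
  have h8 : (|K| * (1 + Real.log 2 + Real.posLog c) + N * c) * X =
    |K| * (1 + Real.log 2 + Real.posLog c) * X + N * c * X := by ring
  rw [h8]
  linarith

/-- `set_case_y` with the package of rate `R` (helper17). -/
theorem set_pack_y (n e m M₀ eₛ : ℕ) {η : ℝ} (hη : 0 < η) (hη1 : η < 1) : ∃ N₀ : ℕ,
    ∀ q : Ideal (MvPolynomial (Fin (n + 1)) ℂ), q.IsPrime →
    ∀ P : Fin (m + 1) → MvPolynomial (Fin (n + 1)) ℂ, (∀ i, (P i).IsHomogeneous e) →
    ∀ A : Finset (Fin (m + 1) → ℂ), PW A → N₀ < A.card →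
    (∀ a ∈ A, ∃ s : MvPolynomial (Fin (m + 1)) ℂ, s.IsHomogeneous eₛ ∧ MvPolynomial.eval a s ≠ 0 ∧
      ExcOn q P s) →
    (∀ h : Fin (m + 1) → ℂ, h ≠ 0 → ∀ A' ⊆ A, (∀ a ∈ A', dt a h = 0) → A'.card ≤ M₀) →
    ∃ (Q : Finset (Fin (m + 1) → ℂ)) (dZ : ℕ) (Z : MvPolynomial (Fin (n + 1)) ℂ),
      Q ⊆ A ∧ Q.Nonempty ∧ Z ∉ q ∧ Z.IsHomogeneous dZ ∧
    ∀ f : Fin (n + 1) → Ent, (∀ g ∈ q, MvPolynomial.aeval f g = 0) →
    (∀ a ∈ Q, (∑ i, a i • MvPolynomial.aeval f (P i) : Ent) ≠ 0) →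
    (∀ t : Fin (m + 1) → ℂ, t ≠ 0 → ∃ i i', t i • (MvPolynomial.aeval f (P i') : Ent) ≠
      t i' • (MvPolynomial.aeval f (P i) : Ent)) →
    (∀ z, ∃ i, (MvPolynomial.aeval f (P i) : Ent).1 z ≠ 0) →
    MvPolynomial.aeval f Z ≠ 0 →
    ∃ (C : ℝ) (E : Set ℝ), MeasureTheory.volume E < ⊤ ∧ ∀ r, 1 ≤ r → r ∉ E →
      (1 - η) * Q.card * TF (fun i z => (MvPolynomial.aeval f (P i) : Ent).1 z) r ≤
        ∑ a ∈ Q, Nbar (fun z => ∑ i, a i * (MvPolynomial.aeval f (P i) : Ent).1 z) r +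
          C * (Real.posLog (TF (fun i z => (MvPolynomial.aeval f (P i) : Ent).1 z) r) +
            Real.log r + 1) := by
  classical
  set R : ℕ := ⌈2 * ((m : ℝ) + 3) / η⌉₊ with hRdef
  have hR0 : 0 < 2 * ((m : ℝ) + 3) / η := by positivity
  have hR1 : 1 ≤ R := Nat.ceil_pos.mpr hR0
  have hR2 : ((m : ℝ) + 1) + 2 ≤ η / 2 * (R + 1) := by
    have h1 : 2 * ((m : ℝ) + 3) / η ≤ R := Nat.le_ceil _
    rw [div_le_iff₀ hη] at h1
    nlinarith
  choose Di Dp hD using fun k j r => pack2R R hR1 k j r eₛ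
  obtain ⟨N₀, hN₀⟩ := select m M₀ Di Dp
  refine ⟨N₀, fun q hq P hP A hA hcard hsq hM => ?_⟩
  obtain ⟨k, j, hk, hkj, A', hA', hA'card, Ψ, I, r, b, db, hCI, hzero, hirr, hpd⟩ :=
    hN₀ A hA hcard
  have hspan : ∀ h : Fin (m + 1) → ℂ, h ≠ 0 → ∃ a ∈ A', dt a h ≠ 0 := by
    intro h hh
    by_contra hcon
    push Not at hcon
    have := hM h hh A' hA' hcon
    omega
  set T : (Fin (k + 1) ⊕ Fin j → ℂ) →ₗ[ℂ] (Fin (m + 1) → ℂ) := Ψ.symm.toLinearMap with hT
  have hTΨ : ∀ a, T (Ψ a) = a := fun a => Ψ.symm_apply_apply a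
  have hTinj : Function.Injective T := Ψ.symm.injective
  set Ac : Finset (Fin (k + 1) ⊕ Fin j → ℂ) := A'.image Ψ with hAc
  have hAcc : (Ac : Set (Fin (k + 1) ⊕ Fin j → ℂ)) = Ψ '' (A' : Set (Fin (m + 1) → ℂ)) := by
    rw [hAc, Finset.coe_image]
  have hspan' : ∀ h : Fin (k + 1) ⊕ Fin j → ℂ, h ≠ 0 →
      ∃ a ∈ (Ac : Set (Fin (k + 1) ⊕ Fin j → ℂ)), dt a h ≠ 0 := by
    intro h hh
    have h1 : ∀ a, dt (Ψ a) h = dt a (fun i => ∑ x, Ψ (Pi.single i 1) x * h x) := by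
      intro a
      unfold dt
      have h2 : ∀ x, Ψ a x = ∑ i, a i * Ψ (Pi.single i 1) x := fun x =>
        map_eq_sum Ψ.toLinearMap a x
      simp only [h2, Finset.sum_mul, Finset.mul_sum]
      rw [Finset.sum_comm]
      exact Finset.sum_congr rfl fun i _ => Finset.sum_congr rfl fun x _ => by ring
    obtain ⟨a, ha, ha'⟩ := hspan (fun i => ∑ x, Ψ (Pi.single i 1) x * h x) (by
      intro h0
      apply hh
      funext x
      have h3 := h1 (Ψ.symm (Pi.single x 1))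
      rw [Ψ.apply_symm_apply, h0] at h3
      have h4 : dt (Pi.single x 1) h = h x := by
        unfold dt
        rw [Finset.sum_eq_single x]
        · rw [Pi.single_eq_same, one_mul]
        · intro y _ hy
          rw [Pi.single_apply, if_neg hy, zero_mul]
        · intro hx
          exact absurd (Finset.mem_univ _) hx
      rw [h4] at h3
      rw [h3]
      unfold dt
      simp)
    refine ⟨Ψ a, ?_, ?_⟩
    · rw [hAcc]
      exact ⟨a, ha, rfl⟩
    · rw [h1]
      exact ha'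
  obtain ⟨a₀, ha₀⟩ : A'.Nonempty := by
    rw [← Finset.card_pos]
    omega
  obtain ⟨s, hs1, hs2, hs3⟩ := hsq a₀ (hA' ha₀)
  obtain ⟨pk, p, α, hp0, hps⟩ :=
    hD k j r I b db hCI Ac (by
      intro a ha t ht
      obtain ⟨a', ha', rfl⟩ := Finset.mem_image.mp ha
      exact hzero a' ha' t ht) (by rw [hAcc]; exact hirr) (by rw [hAcc]; exact hpd) (by
      intro h hh hv
      obtain ⟨a, ha, ha'⟩ := hspan' h hh
      apply ha'
      rw [← eval_lin']
      exact hv a ha) (subs T s) (subs_hom T hs1) (by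
      intro hv
      have h1 := hv (Ψ a₀) (by rw [hAcc]; exact ⟨a₀, ha₀, rfl⟩)
      rw [eval_subs, hTΨ] at h1
      exact hs2 h1)
  obtain ⟨Q, ε, hε0, hεli, hdet⟩ := planes hk pk.B p hp0
  have hIN : I ≤ annI I pk.V := le_annI I pk.V
  have hab : ∀ ab : Fin Q × Fin Q, ∃ (dZ : ℕ) (Z : MvPolynomial (Fin (n + 1)) ℂ), Z ∉ q ∧
      Z.IsHomogeneous dZ ∧ ∀ f : Fin (n + 1) → Ent, (∀ g ∈ q, MvPolynomial.aeval f g = 0) →
        MvPolynomial.aeval f Z ≠ 0 → NoTr (annI I pk.V) (ε ab.1) (fun i => ε ab.2 i - ε ab.1 i)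
          (fun x => MvPolynomial.aeval f (pullP T P x)) := fun ab =>
    exc_form_y hCI (annI I pk.V) hIN (subs T s) α p hps (ε ab.1)
      (fun i => ε ab.2 i - ε ab.1 i) (hε0 ab.1) (pullP T P) hq (excOn_pull T hs3)
  choose dZ Z hZ0 hZh hZ using hab
  have hqa : ∀ i, ∃ a ∈ A', Ψ a = pk.q i := by
    intro i
    obtain ⟨a', ha', h1⟩ := Finset.mem_image.mp (pk.hqA i)
    exact ⟨a', ha', h1⟩
  have hqinj : Function.Injective (fun i => Ψ.symm (pk.q i)) := by
    intro i i' h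
    have h1 : pk.q i = pk.q i' := Ψ.symm.injective h
    by_contra hne
    have h2 := pk.hLq i i'
    rw [if_neg hne, h1, pk.hLq i' i', if_pos rfl] at h2
    exact one_ne_zero h2
  have hN0 : 0 < pk.N := lt_of_le_of_lt (Nat.zero_le _) pk.hcard
  refine ⟨Finset.univ.image (fun i => Ψ.symm (pk.q i)), ∑ ab, dZ ab, ∏ ab, Z ab, ?_, ?_, ?_,
    MvPolynomial.IsHomogeneous.prod _ _ _ fun ab _ => hZh ab,
    fun f hfq hAf hnc hf0 hZf => ?_⟩
  · intro a ha
    obtain ⟨i, -, rfl⟩ := Finset.mem_image.mp ha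
    obtain ⟨a, ha, h1⟩ := hqa i
    show Ψ.symm (pk.q i) ∈ A
    rw [← h1, Ψ.symm_apply_apply]
    exact hA' ha
  · exact ⟨_, Finset.mem_image_of_mem _ (Finset.mem_univ ⟨0, hN0⟩)⟩
  · intro h
    obtain ⟨ab, _, hab⟩ := (hq.prod_mem_iff).1 h
    exact hZ0 ab hab
  rw [map_prod] at hZf
  have hZab : ∀ ab, MvPolynomial.aeval f (Z ab) ≠ 0 := fun ab =>
    Finset.prod_ne_zero_iff.mp hZf ab (Finset.mem_univ _)
  set F : Fin (m + 1) → Ent := fun i => MvPolynomial.aeval f (P i) with hF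
  set G := pull T F with hG
  have hGR : (fun x => MvPolynomial.aeval f (pullP T P x)) = G :=
    funext fun x => aeval_pullP T P f x
  have hNT : ∀ a b, a ≠ b → NoTr (annI I pk.V) (ε a) (fun i => ε b i - ε a i) G := by
    intro a b _
    have h1 := hZ (a, b) f hfq (hZab (a, b))
    rw [hGR] at h1
    exact h1
  have hGnc := pull_nc3 Ψ F hnc
  have hFz : ∀ k z, (F k).1 z = ∑ i, Ψ (Pi.single k 1) i * (G i).1 z := fun k z =>
    pull_coord3 Ψ F k z
  have hG0' : ∀ z, ∃ x, (G x).1 z ≠ 0 := by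
    intro z
    by_contra hcon
    push Not at hcon
    obtain ⟨i, hi⟩ := hf0 z
    apply hi
    rw [show (MvPolynomial.aeval f (P i) : Ent).1 z = (F i).1 z from rfl, hFz i z]
    exact Finset.sum_eq_zero fun l _ => by rw [hcon l, mul_zero]
  have hG0 : G ≠ 0 := by
    intro h0
    obtain ⟨x, hx⟩ := hG0' 0
    apply hx
    rw [h0]
    rfl
  -- the members of `A` on the curve
  have e1 : ∀ (a : Fin (m + 1) → ℂ) (ζ : ℂ), ∑ x, Ψ a x * (G x).1 ζ = ∑ k, a k * (F k).1 ζ := by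
    intro a ζ
    rw [hG, pull_sum, hTΨ]
  have e1' : ∀ i (ζ : ℂ), ∑ x, pk.q i x * (G x).1 ζ =
      ∑ k, Ψ.symm (pk.q i) k * (F k).1 ζ := by
    intro i ζ
    rw [← e1, Ψ.apply_symm_apply]
  have hqG : ∀ i, (∑ x, pk.q i x • G x : Ent) ≠ 0 := by
    intro i h0
    apply hAf (Ψ.symm (pk.q i)) (Finset.mem_image_of_mem _ (Finset.mem_univ i))
    apply Ent.ext'
    intro z
    rw [ent_sum_apply]
    show ∑ k, Ψ.symm (pk.q i) k * (F k).1 z = 0
    rw [← e1', ← ent_sum_apply, h0]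
    rfl
  -- the point `z₂`
  have hprod : ∏ i, (∑ x, pk.q i x • G x : Ent) ≠ 0 :=
    Finset.prod_ne_zero_iff.mpr fun i _ => hqG i
  obtain ⟨z₂, hz₂⟩ := (Ent.ne_zero_iff _).mp hprod
  have hqz : ∀ i, dt (pk.q i) (fun x => (G x).1 z₂) ≠ 0 := by
    have h1 : (∏ i, (∑ x, pk.q i x • G x : Ent)).1 z₂ =
        ∏ i, dt (pk.q i) (fun x => (G x).1 z₂) := by
      rw [SubmonoidClass.coe_finsetProd, Finset.prod_apply]
      exact Finset.prod_congr rfl fun i _ => ent_sum_apply (pk.q i) G z₂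
    rw [h1] at hz₂
    intro i
    exact Finset.prod_ne_zero_iff.mp hz₂ i (Finset.mem_univ _)
  obtain ⟨d, b₀, hd0, hstar⟩ := star hk hCI pk.V pk.hIV pk.hsat pk.B pk.hinv Q ε hdet G hG0 hNT z₂
  have hqI : ∀ i, ∀ s ∈ I, MvPolynomial.eval (pk.q i) s = 0 := by
    intro i s hs
    obtain ⟨a', ha', h1⟩ := hqa i
    rw [← h1]
    exact hzero a' ha' s hs
  have hcardτ : Fintype.card (Fin (k + 1) ⊕ Fin j) = m + 1 := by
    rw [Fintype.card_sum, Fintype.card_fin, Fintype.card_fin]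
    omega
  obtain ⟨C, E, hE, hCE⟩ := pkg3 (τ := Fin (k + 1) ⊕ Fin j) (R := R) pk.q
    (Y := {y : Fin (k + 1) ⊕ Fin j → ℂ // ∀ s ∈ I, MvPolynomial.eval y s = 0}) (fun y => y.1)
    (fun i y => MvPolynomial.eval y.1 (pk.Lp i)) pk.K pk.hcard
    (fun γ hγ h h' y => pk.hK1 γ hγ h h' y.1 y.2) pk.hK2 G hGnc hG0' hqG (by
      intro z₁ c hc hc' γ hγ hγ0 hsupp
      refine lim hCI pk.V pk.hIV pk.hVhom (fun h hh => ?_) pk.q hqI pk.Lp pk.hLV pk.hLd pk.hδ
        pk.hLq G z₂ hqz d hd0 hstar z₁ c hc hc' γ hγ ?_ hsupp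
      · obtain ⟨p, dp, α, h1, _, _, h2⟩ := pk.hinv h hh
        exact ⟨p, α, h1, h2⟩
      · filter_upwards [hγ0] with z hz y hy
        exact hz ⟨y, hy⟩) hη hη1 (by
      rw [hcardτ]
      push_cast
      exact hR2)
  obtain ⟨c₁, hc₁, hc₁'⟩ := TF_linear_le (F := fun x z => (F x).1 z) (G := fun l z => (G l).1 z)
    (fun x => Ent.diff _) (fun l => Ent.diff _) hf0 (fun i k => Ψ (Pi.single k 1) i) hFz
  obtain ⟨c₂, hc₂, hc₂'⟩ := TF_linear_le (F := fun l z => (G l).1 z) (G := fun x z => (F x).1 z)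
    (fun x => Ent.diff _) (fun l => Ent.diff _) hG0' (fun k x => T (Pi.single x 1) k) (by
      intro x z
      have h1 : (G x).1 z = ∑ y, (Pi.single x (1 : ℂ) : Fin (k + 1) ⊕ Fin j → ℂ) y * (G y).1 z := by
        rw [Finset.sum_eq_single x]
        · rw [Pi.single_eq_same, one_mul]
        · intro y _ hy
          rw [Pi.single_apply, if_neg hy, zero_mul]
        · intro hx
          exact absurd (Finset.mem_univ _) hx
      rw [h1, hG, pull_sum])
  refine ⟨|C| * (1 + Real.log 2 + Real.posLog (max c₁ c₂)) + pk.N * max c₁ c₂, E, hE,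
    fun r hr hrE => ?_⟩
  have e2 := hCE r hr hrE
  simp only [e1'] at e2
  rw [Finset.card_image_of_injective _ hqinj, Finset.card_univ, Fintype.card_fin,
    Finset.sum_image (fun x _ y _ h => hqinj h)]
  refine shift_num hη hη1 (Nat.cast_nonneg pk.N) (hc₁.trans (le_max_left _ _)) hr ?_ ?_ e2
  · exact (hc₁' r).trans (by linarith [le_max_left c₁ c₂])
  · exact (hc₂' r).trans (by linarith [le_max_right c₁ c₂])

end Pool.Agent.LO
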