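import Pool.Agent.Lib_MP_b9fedf_lo.HypMain
import Pool.Agent.Lib_MP_b9fedf_lo.SetPackY
import Pool.Agent.Lib_MP_b9fedf_ag.TanGrd
import Pool.Agent.Lib_MP_b9fedf_ag.TanExt

/-! The second main theorem with truncation level one for hyperplanes in any position and all
non-constant entire curves. -/

set_option autoImplicit false

namespace Pool.Agent.LO
open Filter Metric Real Set Function MeromorphicOn ValueDistribution
open Pool.Agent.GGL Pool.Agent.SQ Pool.Agent.Stat

/-- unisolvent points are distinct -/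
theorem uni_injective {m d : ℕ} {q : Mon m d → Fin (m + 1) → ℂ} (hq : Uni q) :
    Function.Injective q := by
  classical
  intro i j hij
  by_contra hne
  set W : Matrix (Mon m d) (Mon m d) ℂ := Matrix.of fun i β =>
    ∏ k, (q i k) ^ ((β : Fin (m + 1) →₀ ℕ) k) with hW
  have hdet : W.det = 0 := by
    apply Matrix.det_zero_of_row_eq hne
    funext β
    simp only [hW, Matrix.of_apply, hij]
  obtain ⟨c, hc0, hc⟩ := Matrix.exists_mulVec_eq_zero_iff.mpr hdet
  apply hc0
  have hP := hq (∑ β : Mon m d, MvPolynomial.monomial (β : Fin (m + 1) →₀ ℕ) (c β)) (by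
    apply MvPolynomial.IsHomogeneous.sum
    intro β _
    apply MvPolynomial.isHomogeneous_monomial
    have h1 := Finset.mem_finsuppAntidiag.mp β.2
    rw [Finsupp.degree_eq_sum]
    exact h1.1) (by
    intro i
    have h1 := congrFun hc i
    rw [Pi.zero_apply] at h1
    rw [map_sum, ← h1, Matrix.mulVec, dotProduct]
    refine Finset.sum_congr rfl fun β _ => ?_
    rw [MvPolynomial.eval_monomial, Finsupp.prod_fintype _ _ (fun i => pow_zero _), hW,
      Matrix.of_apply, mul_comm])
  funext β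
  have h2 := congrArg (MvPolynomial.coeff (β : Fin (m + 1) →₀ ℕ)) hP
  rw [MvPolynomial.coeff_sum, Finset.sum_eq_single β] at h2
  · simpa using h2
  · intro γ _ hγ
    rw [MvPolynomial.coeff_monomial, if_neg]
    exact fun h => hγ (Subtype.ext h)
  · intro h
    exact absurd (Finset.mem_univ β) h

/-- unisolvent hyperplanes, linearly non-degenerate curves -/
theorem hyp_poised {m d : ℕ} (hm : 1 ≤ m) (hd : 1 ≤ d) (q : Mon m d → Fin (m + 1) → ℂ)
    (hq : Uni q) (g : ℂ → Fin (m + 1) → ℂ) (hg : Differentiable ℂ g) (hg0 : ∀ z, g z ≠ 0)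
    (hli : LinearIndependent ℂ (fun (i : Fin (m + 1)) z => g z i)) :
    ∃ (K : ℝ) (E : Set ℝ), MeasureTheory.volume E < ⊤ ∧ ∀ r, 1 ≤ r → r ∉ E →
      ((1 - (3 * m + 1) / (m + d)) * Fintype.card (Mon m d)) * charT g r ≤
        ∑ i, Nbar (fun z => ∑ a, q i a * g z a) r +
          K * (Real.posLog (charT g r) + Real.log r + 1) := by
  classical
  have hgd : ∀ a, Differentiable ℂ (fun z => g z a) := fun a => differentiable_pi.1 hg a
  have hgz : ∀ z, ∃ a, g z a ≠ 0 := by
    intro z
    by_contra hcon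
    push Not at hcon
    exact hg0 z (funext hcon)
  have hm0 : (0 : ℝ) < m := by exact_mod_cast hm
  have hd0 : (0 : ℝ) < d := by exact_mod_cast hd
  have hmd : (0 : ℝ) < (m : ℝ) + d := by positivity
  have hratio : ((m + d - 1).choose d : ℝ) = (m : ℝ) / (m + d) * (Fintype.card (Mon m d) : ℝ) := by
    have h1 : (m : ℝ) * (Fintype.card (Mon m d) : ℝ) =
        ((d : ℝ) + m) * ((m + d - 1).choose d : ℝ) := by
      exact_mod_cast card_mul m d hm
    rw [div_mul_eq_mul_div, h1, eq_div_iff hmd.ne']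
    ring
  set s : ℝ := ((m + d - 1).choose d : ℝ) / m with hs
  have hs0 : 0 ≤ s := by positivity
  have hgr : Greedy q s := by
    obtain ⟨C, hC⟩ := greedy hm hd q hq
    refine ⟨C / m, fun x hx => ?_⟩
    obtain ⟨κ, hκ, hle⟩ := hC x hx
    refine ⟨κ, hκ, ?_⟩
    have h1 : ∑ i, (Real.log ‖x‖ - Real.log ‖∑ a, q i a * x a‖) ≤
        (((m + d - 1).choose d : ℝ) *
            ∑ k, (Real.log ‖x‖ - Real.log ‖∑ a, q (κ k) a * x a‖) + C) / m := by
      rw [le_div_iff₀ hm0, mul_comm]
      exact hle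
    refine h1.trans (le_of_eq ?_)
    rw [hs]
    ring
  have hq0 : ∀ i, q i ≠ 0 := fun i => uni_ne_zero hd hq i
  set κ : ℝ := (1 - (3 * m + 1) / (m + d)) * Fintype.card (Mon m d) with hκdef
  have hκeq : κ = (Fintype.card (Mon m d) : ℝ) - (m + 1) * s -
      2 * ((m + d - 1).choose d : ℝ) := by
    rw [hκdef, hs, hratio]
    field_simp
    ring
  rcases lt_or_ge κ 0 with hκ | hκ
  · refine ⟨|κ * charT g 1|, ∅, by simp, fun r hr _ => ?_⟩
    have h1 := charT_mono hg hg0 one_pos hr
    have h2 : κ * charT g r ≤ κ * charT g 1 := mul_le_mul_of_nonpos_left h1 hκ.le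
    have h3 : 0 ≤ ∑ i, Nbar (fun z => ∑ a, q i a * g z a) r :=
      Finset.sum_nonneg fun a _ => Nbar_nonneg _ hr
    have h4 : 0 ≤ Real.posLog (charT g r) := Real.posLog_nonneg
    have h5 : 0 ≤ Real.log r := Real.log_nonneg hr
    have h6 : |κ * charT g 1| ≤ |κ * charT g 1| * (Real.posLog (charT g r) + Real.log r + 1) :=
      le_mul_of_one_le_right (abs_nonneg _) (by linarith)
    linarith [le_abs_self (κ * charT g 1)]
  refine smt_of_key q hq0 g hg hg0 hli hκ ?_
  intro Z hZ1 hZ2
  obtain ⟨C1, hC1⟩ := average_gen q hq0 hs0 hgr (fun i z => g z i) hgd hli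
  obtain ⟨C2, hC20, hC2⟩ := ram_uni hm hd q hq (fun i z => g z i) hgd hli hgz Z hZ1 hZ2
  refine ⟨|C1| + s * (m + 1) ^ 2 + C2, by positivity, ?_⟩
  intro r B hr hB hg1 hg2
  have hlB : 0 ≤ Real.log B := Real.log_nonneg hB
  have h1 := hC1 r B hr hB hg2
  have h2 := hC2 r B hr hB hg1
  have h5 : circleAverage (fun z => Real.log ‖fun a => g z a‖) 0 r = charT g r := rfl
  rw [h5] at h1 h2
  have h6 : C1 ≤ |C1| := le_abs_self _
  have h7 : 0 ≤ |C1| * Real.log B := by positivity
  have h8 : 0 ≤ s * ((m : ℝ) + 1) ^ 2 := by positivity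
  have h9 : κ * charT g r = ((Fintype.card (Mon m d) : ℝ) - (m + 1) * s) * charT g r -
      2 * ((m + d - 1).choose d : ℝ) * charT g r := by
    rw [hκeq]
    ring
  rw [h9]
  nlinarith

/-- the numbers -/
private theorem all_num {m n d : ℕ} (hmn : m ≤ n) (hd : 1 ≤ d) (hm : 1 ≤ m)
    {N t T S K c r : ℝ} (hN : 0 ≤ N)
    (hc : 0 ≤ c) (hr : 1 ≤ r) (h1 : T ≤ t + c) (h2 : t ≤ T + c) (h3 : -c ≤ t)
    (h : ((1 - (3 * m + 1) / (m + d)) * N) * t ≤ S + K * (Real.posLog t + Real.log r + 1)) :
    (1 - (3 * (n : ℝ) + 1) / (n + d)) * N * T ≤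
      S + (|K| * (1 + Real.log 2 + Real.posLog c) + 5 * (3 * n + 2) * N * c) *
      (Real.posLog T + Real.log r + 1) := by
  have hmd : (0 : ℝ) < (m : ℝ) + d := by positivity
  have hnd : (0 : ℝ) < (n : ℝ) + d := by
    have : (m : ℝ) ≤ n := by exact_mod_cast hmn
    linarith
  have hd1 : (1 : ℝ) ≤ d := by exact_mod_cast hd
  have hmn' : (m : ℝ) ≤ n := by exact_mod_cast hmn
  set x : ℝ := 1 - (3 * (m : ℝ) + 1) / (m + d) with hx
  set y : ℝ := 1 - (3 * (n : ℝ) + 1) / (n + d) with hy
  have hxy : y ≤ x := by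
    rw [hx, hy]
    have : (3 * (m : ℝ) + 1) / (m + d) ≤ (3 * (n : ℝ) + 1) / (n + d) := by
      rw [div_le_div_iff₀ hmd hnd]
      nlinarith
    linarith
  have hy1 : y ≤ 1 := by
    rw [hy]
    have : 0 ≤ (3 * (n : ℝ) + 1) / (n + d) := by positivity
    linarith
  have hx1 : x ≤ 1 := by
    rw [hx]
    have : 0 ≤ (3 * (m : ℝ) + 1) / (m + d) := by positivity
    linarith
  have hy2 : -(3 * n + 1 : ℝ) ≤ y := by
    rw [hy]
    have h4 : (3 * (n : ℝ) + 1) / (n + d) ≤ (3 * (n : ℝ) + 1) := by
      rw [div_le_iff₀ hnd]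
      have h5 : (1 : ℝ) ≤ (n : ℝ) + d := by
        have : (0 : ℝ) ≤ n := Nat.cast_nonneg n
        linarith
      have h6 : (0 : ℝ) ≤ 3 * (n : ℝ) + 1 := by positivity
      nlinarith
    linarith
  have hpt : 0 ≤ Real.posLog t := Real.posLog_nonneg
  have hpT : 0 ≤ Real.posLog T := Real.posLog_nonneg
  have hpc : 0 ≤ Real.posLog c := Real.posLog_nonneg
  have hl : 0 ≤ Real.log r := Real.log_nonneg hr
  have hl2 : 0 ≤ Real.log 2 := Real.log_nonneg (by norm_num)
  have h5 : Real.posLog t ≤ Real.log 2 + Real.posLog T + Real.posLog c := by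
    have e1 : Real.posLog t ≤ Real.log 2 + Real.posLog T + Real.posLog (t - T) := by
      have := Real.posLog_add (x := T) (y := t - T)
      rwa [add_sub_cancel] at this
    have e2 : Real.posLog (t - T) ≤ Real.posLog c := by
      rw [← Real.posLog_abs]
      exact Real.posLog_le_posLog (abs_nonneg _) (abs_le.mpr ⟨by linarith, by linarith⟩)
    linarith
  set X : ℝ := Real.posLog T + Real.log r + 1 with hX
  have hX1 : 1 ≤ X := by linarith
  have h6 : K * (Real.posLog t + Real.log r + 1) ≤ |K| * (1 + Real.log 2 + Real.posLog c) * X := by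
    have e1 : Real.posLog t + Real.log r + 1 ≤ (1 + Real.log 2 + Real.posLog c) * X := by
      have e2 : 0 ≤ (Real.log 2 + Real.posLog c) * (X - 1) :=
        mul_nonneg (by linarith) (by linarith)
      nlinarith
    have e3 : K * (Real.posLog t + Real.log r + 1) ≤ |K| * (Real.posLog t + Real.log r + 1) :=
      mul_le_mul_of_nonneg_right (le_abs_self K) (by linarith)
    have e4 := mul_le_mul_of_nonneg_left e1 (abs_nonneg K)
    rw [← mul_assoc] at e4
    linarith
  -- replace `t` by `t + c ≥ 0`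
  have h7 : y * N * (t + c) ≤ x * N * (t + c) := by
    apply mul_le_mul_of_nonneg_right _ (by linarith)
    exact mul_le_mul_of_nonneg_right hxy hN
  have h8 : x * N * c ≤ 1 * (N * c) := by
    rw [mul_assoc]
    exact mul_le_mul_of_nonneg_right hx1 (mul_nonneg hN hc)
  have h9 : y * N * T ≤ y * N * (t + c) + (3 * n + 2) * N * (2 * c) := by
    have e1 : y * N * T = y * N * (t + c) + (-y) * N * (t + c - T) := by ring
    rw [e1]
    have e2 : 0 ≤ t + c - T := by linarith
    have e3 : t + c - T ≤ 2 * c := by linarith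
    have e4 : (-y) * N * (t + c - T) ≤ (3 * n + 2) * N * (t + c - T) := by
      apply mul_le_mul_of_nonneg_right _ e2
      apply mul_le_mul_of_nonneg_right _ hN
      linarith
    have e5 : (3 * n + 2) * N * (t + c - T) ≤ (3 * n + 2) * N * (2 * c) :=
      mul_le_mul_of_nonneg_left e3 (by positivity)
    linarith
  have h10 : N * c ≤ (3 * n + 2) * N * c := by
    have : 0 ≤ N * c := mul_nonneg hN hc
    have hn0 : (0 : ℝ) ≤ n := Nat.cast_nonneg n
    nlinarith
  have h11 : 5 * (3 * n + 2) * N * c ≤ 5 * (3 * n + 2) * N * c * X :=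
    le_mul_of_one_le_right (by positivity) hX1
  have h12 : (|K| * (1 + Real.log 2 + Real.posLog c) + 5 * (3 * n + 2) * N * c) * X =
    |K| * (1 + Real.log 2 + Real.posLog c) * X + 5 * (3 * n + 2) * N * c * X := by ring
  rw [h12]
  have h13 : 0 ≤ (3 * (n : ℝ) + 2) * N * c := by positivity
  have h14 : x * N * (t + c) = x * N * t + x * N * c := by ring
  linarith

/-- **Hyperplanes in any position, all non-constant curves.** -/
theorem hyp_all {n d : ℕ} (hd : 1 ≤ d) (A : Set (Fin (n + 1) → ℂ))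
    (hA : ∀ P : MvPolynomial (Fin (n + 1)) ℂ, P.IsHomogeneous d →
      (∀ a ∈ A, MvPolynomial.eval a P = 0) → P = 0)
    (f : ℂ → Fin (n + 1) → ℂ) (hf : Differentiable ℂ f) (hf0 : ∀ z, f z ≠ 0)
    (hnc : ¬ ∀ z w, ∃ c : ℂ, f w = c • f z) :
    ∃ B : Finset (Fin (n + 1) → ℂ), B.Nonempty ∧ (B : Set (Fin (n + 1) → ℂ)) ⊆ A ∧
      (∀ b ∈ B, ∃ z, ∑ i, b i * f z i ≠ 0) ∧
    ∃ (K : ℝ) (E : Set ℝ), MeasureTheory.volume E < ⊤ ∧ ∀ r, 1 ≤ r → r ∉ E →
      (1 - (3 * (n : ℝ) + 1) / (n + d)) * B.card * charT f r ≤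
        ∑ b ∈ B, Nbar (fun z => ∑ i, b i * f z i) r +
          K * (Real.posLog (charT f r) + Real.log r + 1) := by
  classical
  have hfd : ∀ a, Differentiable ℂ (fun z => f z a) := fun a => differentiable_pi.1 hf a
  set F : Fin (n + 1) → ℂ → ℂ := fun i z => f z i with hF
  obtain ⟨κ₀, a, ha, hsp, hli⟩ := exists_linearIndependent' ℂ F
  have : Fintype κ₀ := Fintype.ofInjective a ha
  obtain ⟨r, ⟨e⟩⟩ : ∃ r, Nonempty (κ₀ ≃ Fin r) := ⟨Fintype.card κ₀, ⟨Fintype.equivFin κ₀⟩⟩
  set κ : Fin r → Fin (n + 1) := fun i => a (e.symm i) with hκ'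
  have hli' : LinearIndependent ℂ (fun i => F (κ i)) := hli.comp e.symm e.symm.injective
  have hmem : ∀ k, F k ∈ Submodule.span ℂ (Set.range (fun i => F (κ i))) := by
    intro k
    have h1 : F k ∈ Submodule.span ℂ (Set.range (F ∘ a)) := by
      rw [hsp]
      exact Submodule.subset_span ⟨k, rfl⟩
    have h2 : Set.range (F ∘ a) = Set.range (fun i => F (κ i)) := by
      ext x
      constructor
      · rintro ⟨y, rfl⟩
        exact ⟨e y, by simp [hκ']⟩
      · rintro ⟨y, rfl⟩
        exact ⟨e.symm y, rfl⟩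
    rwa [h2] at h1
  have hB : ∀ k, ∃ B : Fin r → ℂ, ∑ b, B b • F (κ b) = F k := fun k =>
    (Submodule.mem_span_range_iff_exists_fun ℂ).mp (hmem k)
  choose B hB using hB
  have hr : r ≤ n + 1 := by
    have h1 : Function.Injective κ := ha.comp e.symm.injective
    simpa using Fintype.card_le_of_injective κ h1
  rcases r with _ | _ | m
  · exfalso
    apply hf0 0
    funext k
    have h1 := congrFun (hB k) 0
    simp at h1
    exact h1.symm
  · exfalso
    apply hnc
    intro z w
    have h1 : ∀ k z, f z k = B k 0 * f z (κ 0) := by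
      intro k z
      have := congrFun (hB k) z
      rw [Fin.sum_univ_one] at this
      exact this.symm
    have h2 : ∀ z, f z (κ 0) ≠ 0 := by
      intro z h0
      apply hf0 z
      funext k
      rw [h1 k z, h0, mul_zero]
      rfl
    refine ⟨f w (κ 0) / f z (κ 0), ?_⟩
    funext k
    rw [Pi.smul_apply, smul_eq_mul, h1 k w, h1 k z]
    field_simp [h2 z]
  -- the curve spans a subspace of dimension `m + 1 ≥ 1`
  have hm1 : 1 ≤ m + 1 := by omega
  have hmn : m + 1 ≤ n := by omega
  have hBκ : ∀ b b', B (κ b) b' = if b = b' then 1 else 0 := by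
    intro b b'
    have h1 := hB (κ b)
    have h2 : ∑ b', (B (κ b) b' - if b = b' then 1 else 0) • F (κ b') = 0 := by
      simp only [sub_smul, Finset.sum_sub_distrib, ite_smul, one_smul, zero_smul,
        Finset.sum_ite_eq, Finset.mem_univ, if_true]
      rw [h1, sub_self]
    have h3 := (Fintype.linearIndependent_iff.mp hli') _ h2 b'
    exact sub_eq_zero.mp h3
  set A' : Set (Fin (m + 1 + 1) → ℂ) := {v | ∃ a ∈ A, v = fun b => ∑ k, a k * B k b} with hA'
  have hA'' : ∀ P : MvPolynomial (Fin (m + 1 + 1)) ℂ, P.IsHomogeneous d →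
      (∀ a ∈ A', MvPolynomial.eval a P = 0) → P = 0 := by
    intro P hP hPA
    set l : Fin (m + 1 + 1) → MvPolynomial (Fin (n + 1)) ℂ := fun b =>
      ∑ k, MvPolynomial.C (B k b) * MvPolynomial.X k with hl
    have hlh : ∀ b, (l b).IsHomogeneous 1 := by
      intro b
      apply MvPolynomial.IsHomogeneous.sum
      intro k _
      have := (MvPolynomial.isHomogeneous_C (Fin (n + 1)) (B k b)).mul
        (MvPolynomial.isHomogeneous_X ℂ k)
      rwa [zero_add] at this
    have hev : ∀ a : Fin (n + 1) → ℂ, MvPolynomial.eval a (MvPolynomial.aeval l P) =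
        MvPolynomial.eval (fun b => ∑ k, a k * B k b) P := by
      intro a
      have h1 : (MvPolynomial.eval a).comp (MvPolynomial.aeval l).toRingHom =
          MvPolynomial.eval (fun b => ∑ k, a k * B k b) := by
        apply MvPolynomial.ringHom_ext
        · intro r
          simp
        · intro b
          simp only [AlgHom.toRingHom_eq_coe, RingHom.coe_comp, RingHom.coe_coe,
            Function.comp_apply, MvPolynomial.aeval_X, MvPolynomial.eval_X, hl, map_sum, map_mul,
            MvPolynomial.eval_C]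
          exact Finset.sum_congr rfl fun k _ => mul_comm _ _
      exact congrArg (fun φ => φ P) h1
    have h2 : MvPolynomial.aeval l P = 0 := by
      apply hA
      · have := hP.aeval l hlh
        rwa [one_mul] at this
      · intro a ha
        rw [hev]
        exact hPA _ ⟨a, ha, rfl⟩
    apply MvPolynomial.funext
    intro v
    rw [map_zero]
    have h3 := hev (fun k => ∑ b, if κ b = k then v b else 0)
    rw [h2, map_zero] at h3
    rw [h3]
    suffices h5 : v = fun b' => ∑ k, (∑ b, if κ b = k then v b else 0) * B k b' by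
      rw [← h5]
    funext b'
    have h4 : ∑ k, (∑ b, if κ b = k then v b else 0) * B k b' =
        ∑ b, v b * B (κ b) b' := by
      simp only [Finset.sum_mul]
      rw [Finset.sum_comm]
      apply Finset.sum_congr rfl
      intro b _
      simp [ite_mul]
    rw [h4]
    simp only [hBκ, mul_ite, mul_one, mul_zero, Finset.sum_ite_eq', Finset.mem_univ, if_true]
  obtain ⟨q, hqA, hq⟩ := exists_uni A' hA''
  choose a' haA haq using hqA
  -- the curve in the coordinates of its span
  set g : ℂ → Fin (m + 1 + 1) → ℂ := fun z b => f z (κ b) with hg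
  have hgd : Differentiable ℂ g := differentiable_pi.mpr fun b => hfd (κ b)
  have hfg : ∀ k z, f z k = ∑ b, B k b * g z b := by
    intro k z
    have h1 := congrFun (hB k) z
    rw [Finset.sum_apply] at h1
    exact h1.symm
  have hg0 : ∀ z, g z ≠ 0 := by
    intro z h0
    apply hf0 z
    funext k
    rw [hfg k z, h0]
    simp
  have hqf : ∀ i z, ∑ b, q i b * g z b = ∑ k, a' i k * f z k := by
    intro i z
    rw [haq i]
    calc ∑ b, (∑ k, a' i k * B k b) * g z b
        = ∑ b, ∑ k, a' i k * (B k b * g z b) := by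
          apply Finset.sum_congr rfl
          intro b _
          rw [Finset.sum_mul]
          exact Finset.sum_congr rfl fun k _ => by ring
      _ = ∑ k, ∑ b, a' i k * (B k b * g z b) := Finset.sum_comm
      _ = _ := by
          apply Finset.sum_congr rfl
          intro k _
          rw [hfg k z, Finset.mul_sum]
  obtain ⟨K, E, hE, hKE⟩ := hyp_poised hm1 hd q hq g hgd hg0 hli'
  have hainj : Function.Injective a' := by
    have hqinj : Function.Injective q := uni_injective hq
    intro i j hij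
    apply hqinj
    rw [haq i, haq j, hij]
  have hf0' : ∀ z, ∃ x, f z x ≠ 0 := by
    intro z
    by_contra hcon
    push Not at hcon
    exact hf0 z (funext hcon)
  have hg0' : ∀ z, ∃ x, g z x ≠ 0 := by
    intro z
    by_contra hcon
    push Not at hcon
    exact hg0 z (funext hcon)
  obtain ⟨c₁, hc₁, hc₁'⟩ := TF_linear_le (F := fun k z => f z k) (G := fun b z => g z b)
    hfd (fun b => hfd (κ b)) hf0' (fun b k => B k b) hfg
  obtain ⟨c₂, hc₂, hc₂'⟩ := TF_linear_le (F := fun b z => g z b) (G := fun k z => f z k)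
    (fun b => hfd (κ b)) hfd hg0' (fun k b => if κ b = k then 1 else 0) (by
      intro b z
      simp [hg])
  refine ⟨Finset.univ.image a', ?_, ?_, ?_, ?_⟩
  · have : Nonempty (Mon (m + 1) d) := by
      rw [← Fintype.card_pos_iff, card_Mon]
      exact Nat.choose_pos (by omega)
    exact Finset.image_nonempty.mpr Finset.univ_nonempty
  · intro b hb
    obtain ⟨i, -, rfl⟩ := Finset.mem_image.mp (Finset.mem_coe.mp hb)
    exact haA i
  · intro b hb
    obtain ⟨i, -, rfl⟩ := Finset.mem_image.mp hb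
    obtain ⟨z, hz⟩ := combination_ne_zero (q i) (uni_ne_zero hd hq i) (fun b z => g z b) hli'
    exact ⟨z, by rw [← hqf]; exact hz⟩
  set c : ℝ := max (max c₁ c₂) |charT g 1| with hc
  refine ⟨|K| * (1 + Real.log 2 + Real.posLog c) +
    5 * (3 * n + 2) * (Fintype.card (Mon (m + 1) d) : ℝ) * c, E, hE, fun r hr hrE => ?_⟩
  have h1 := hKE r hr hrE
  simp only [hqf] at h1
  rw [Finset.card_image_of_injective _ hainj, Finset.card_univ,
    Finset.sum_image (fun x _ y _ h => hainj h)]
  have hcc1 : c₁ ≤ c := (le_max_left _ _).trans (le_max_left _ _)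
  have hcc2 : c₂ ≤ c := (le_max_right _ _).trans (le_max_left _ _)
  have hcc3 : |charT g 1| ≤ c := le_max_right _ _
  have h2 := charT_mono hgd hg0 one_pos hr
  have h3 := neg_abs_le (charT g 1)
  refine all_num hmn hd hm1 (Nat.cast_nonneg _) (hc₁.trans hcc1) hr (t := charT g r) ?_ ?_ ?_ h1
  · exact (hc₁' r).trans (by
      show TF (fun b z => g z b) r + c₁ ≤ TF (fun b z => g z b) r + c
      linarith)
  · exact (hc₂' r).trans (by
      show TF (fun b z => f z b) r + c₂ ≤ TF (fun b z => f z b) r + c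
      linarith)
  · linarith

end Pool.Agent.LO
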