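import Pool.Agent.Lib_MP_b9fedf_ag.TanKey

/-! Ramification over an unisolvent set of hyperplanes. -/

set_option autoImplicit false

namespace Pool.Agent.LO
open Filter Metric Real Set Function MeromorphicOn ValueDistribution
open Pool.Agent.GGL

/-- the total ramification over an unisolvent set of hyperplanes is bounded -/
theorem ram_uni {m d : ℕ} (hm : 1 ≤ m) (hd : 1 ≤ d) (q : Mon m d → Fin (m + 1) → ℂ) (hq : Uni q)
    (g : Fin (m + 1) → ℂ → ℂ) (hg : ∀ k, Differentiable ℂ (g k)) (hli : LinearIndependent ℂ g)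
    (hgz : ∀ z, ∃ a, g a z ≠ 0)
    (Z : Mon m d → locallyFinsupp ℂ ℤ) (hZ1 : ∀ i z, ∑ a, q i a * g a z = 0 → Z i z = 1)
    (hZ2 : ∀ i z, ∑ a, q i a * g a z ≠ 0 → Z i z = 0) :
    ∃ C : ℝ, 0 ≤ C ∧ ∀ (r B : ℝ), 1 ≤ r → 1 ≤ B →
      (∀ a, ∀ z ∈ sphere (0 : ℂ) r, Good (fun z => g a z / g 0 z) B z) →
      ∑ i, Function.locallyFinsuppWithin.logCounting (Dv (fun z => ∑ a, q i a * g a z)) r ≤
      ∑ i, Function.locallyFinsuppWithin.logCounting (Z i) r +
        2 * ((m + d - 1).choose d : ℝ) *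
          circleAverage (fun z => Real.log ‖fun a => g a z‖) 0 r + C * (1 + Real.log B) := by
  classical
  have hhd : ∀ i, Differentiable ℂ (fun z => ∑ a, q i a * g a z) := fun i =>
    Differentiable.fun_sum fun a _ => (hg a).const_mul (q i a)
  have hhne : ∀ i, ∃ z, ∑ a, q i a * g a z ≠ 0 := fun i =>
    combination_ne_zero (q i) (uni_ne_zero hd hq i) g hli
  have hgne : ∀ a, ∃ z, g a z ≠ 0 := by
    intro a
    have := hli.ne_zero a
    by_contra hcon
    push Not at hcon
    exact this (funext hcon)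
  obtain ⟨Φ, CΦ, hCΦ, hΦ, hΦ0, hΦle, hΦord⟩ := exists_phi hm hd q hq g hg hli
  obtain ⟨C2, hC2⟩ := average_phi (s := (m + d - 1).choose d) g hg (hgne 0) Φ CΦ hCΦ hΦ hΦ0 hΦle
  have hdiv1 : ∀ r : ℝ, 1 ≤ r → ∑ i, Function.locallyFinsuppWithin.logCounting
        (Dv (fun z => ∑ a, q i a * g a z)) r ≤
      Function.locallyFinsuppWithin.logCounting (Dv Φ) r +
        ∑ i, Function.locallyFinsuppWithin.logCounting (Z i) r := by
    intro r hr
    have h1 : (∑ i, Dv (fun z => ∑ a, q i a * g a z)) ≤ Dv Φ + ∑ i, Z i := by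
      intro z
      set o : Mon m d → ℕ := fun i =>
        (analyticOrderAt (fun z => ∑ a, q i a * g a z) z).toNat with ho
      have ho1 : ∀ i, analyticOrderAt (fun ζ => ∑ a, q i a * g a ζ) z = o i := fun i =>
        (ENat.natCast_toNat (order_ne_top (hhd i) (hhne i) z)).symm
      obtain ⟨a₀, ha₀⟩ := hgz z
      have h2 := hΦord z 0 (fun a => by simp) ⟨a₀, by
        rw [((hg a₀).analyticAt z).analyticOrderAt_eq_zero.mpr ha₀]
        rfl⟩ o ho1
      rw [← ENat.natCast_toNat (order_ne_top hΦ hΦ0 z)] at h2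
      have h3 : ∑ i, (o i - 1) ≤ (analyticOrderAt Φ z).toNat := by
        have h4 : 2 * (m + d - 1).choose d * 0 + ∑ i, (o i - 0 - 1) ≤
            (analyticOrderAt Φ z).toNat := by exact_mod_cast h2
        simpa using h4
      have h4 : ∀ i, (o i : ℤ) ≤ ((o i - 1 : ℕ) : ℤ) + Z i z := by
        intro i
        by_cases hz : ∑ a, q i a * g a z = 0
        · rw [hZ1 i z hz]
          omega
        · have h5 : o i = 0 := by
            have h6 := (AnalyticAt.analyticOrderAt_eq_zero ((hhd i).analyticAt z)).mpr hz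
            rw [ho1 i] at h6
            exact_mod_cast h6
          rw [hZ2 i z hz, h5]
          simp
      rw [locallyFinsuppWithin.coe_add, Pi.add_apply,
        locallyFinsuppWithin.coe_sum, Finset.sum_apply, locallyFinsuppWithin.coe_sum,
        Finset.sum_apply, Dv_apply hΦ]
      have h5 : ∀ i, (Dv (fun z => ∑ a, q i a * g a z)) z = (o i : ℤ) := fun i =>
        Dv_apply (hhd i) z
      simp_rw [h5]
      refine (Finset.sum_le_sum fun i _ => h4 i).trans ?_
      rw [Finset.sum_add_distrib]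
      have h6 : ((∑ i, (o i - 1) : ℕ) : ℤ) ≤ (((analyticOrderAt Φ z).toNat : ℕ) : ℤ) :=
        Int.ofNat_le.mpr h3
      push_cast at h6 ⊢
      linarith
    have h2 := Function.locallyFinsuppWithin.logCounting_le h1 hr
    rw [map_add, map_sum, map_sum, Pi.add_apply, Finset.sum_apply, Finset.sum_apply] at h2
    exact h2
  refine ⟨|C2| + (m + d - 1).choose d, by positivity, ?_⟩
  intro r B hr hB hgood1
  have h2 := hC2 r B hr hB hgood1
  have h3 := hdiv1 r hr
  have hlogB : 0 ≤ Real.log B := Real.log_nonneg hB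
  have h4 : C2 ≤ |C2| := le_abs_self _
  have h5 : 0 ≤ |C2| * Real.log B := by positivity
  have h6 : (0 : ℝ) ≤ ((m + d - 1).choose d : ℝ) := Nat.cast_nonneg _
  nlinarith

/-- averaging over the subsets of `M` elements -/
theorem subset_avg {α : Type} [DecidableEq α] (x : α → ℝ) {M : ℕ} (hM : 1 ≤ M) (c : ℝ) (k : ℕ) :
    ∀ A : Finset α, A.card = M + k →
    (∀ B ⊆ A, B.card = M → ∑ a ∈ B, x a ≤ c) → ∑ a ∈ A, x a ≤ ((M : ℝ) + k) / M * c := by
  have hM0 : (0 : ℝ) < M := by exact_mod_cast hM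
  induction k with
  | zero =>
    intro A hA h
    rw [Nat.cast_zero, add_zero, div_self hM0.ne', one_mul]
    exact h A (Finset.Subset.refl A) hA
  | succ k ih =>
    intro A hA h
    have h1 : ∀ b ∈ A, ∑ a ∈ A, x a - x b ≤ ((M : ℝ) + k) / M * c := by
      intro b hb
      have h2 := ih (A.erase b) (by rw [Finset.card_erase_of_mem hb, hA]; omega)
        (fun B hB hBc => h B (hB.trans (Finset.erase_subset _ _)) hBc)
      have h3 := Finset.add_sum_erase A x hb
      linarith
    have h2 := Finset.sum_le_sum h1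
    rw [Finset.sum_sub_distrib, Finset.sum_const, Finset.sum_const, hA, nsmul_eq_mul,
      nsmul_eq_mul] at h2
    push_cast at h2 ⊢
    have hMk : (0 : ℝ) < (M : ℝ) + k := by positivity
    have h3 : ((M : ℝ) + k) * ∑ a ∈ A, x a ≤ ((M : ℝ) + (k + 1)) * (((M : ℝ) + k) / M * c) := by
      linarith
    have h4 : ((M : ℝ) + k) * ∑ a ∈ A, x a ≤ ((M : ℝ) + k) * (((M : ℝ) + (k + 1)) / M * c) := by
      refine h3.trans (le_of_eq ?_)
      ring
    exact le_of_mul_le_mul_left h4 hMk

end Pool.Agent.LO
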