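import Pool.Agent.Lib_MP_b9fedf_lo.SmtKey
import Pool.Agent.Lib_MP_b9fedf_lo.GenAvg
import Pool.Agent.Lib_MP_b9fedf_lo.RamUni
import Pool.Agent.Lib_MP_b9fedf_lo.GenGreedy
import Pool.Agent.Lib_MP_b9fedf_ag.TanCnt
import Pool.Agent.Lib_MP_b9fedf_st.Final3

/-! The second main theorem with truncation level one for hyperplanes, explicit form. -/

set_option autoImplicit false

namespace Pool.Agent.LO
open Filter Metric Real Set Function MeromorphicOn ValueDistribution
open Pool.Agent.GGL Pool.Agent.SQ Pool.Agent.Stat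

/-- the greedy estimate does not depend on the enumeration -/
theorem Greedy.of_equiv {m : ℕ} {ι κ : Type} [Fintype ι] [Fintype κ] (e : κ ≃ ι)
    {q : ι → Fin (m + 1) → ℂ} {s : ℝ} (h : Greedy (fun i => q (e i)) s) : Greedy q s := by
  obtain ⟨C, hC⟩ := h
  refine ⟨C, fun x hx => ?_⟩
  obtain ⟨ρ, hρ, hle⟩ := hC x fun i => hx (e i)
  refine ⟨fun k => e (ρ k), hρ, ?_⟩
  rwa [Equiv.sum_comp e (fun i => Real.log ‖x‖ - Real.log ‖∑ a, q i a * x a‖)] at hle

/-- hyperplanes in general position satisfy the greedy estimate with weight one -/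
theorem greedy_general {n : ℕ} (A : Finset (Fin (n + 1) → ℂ)) (hA : n + 1 ≤ A.card)
    (hgp : ∀ v : Fin (n + 1) → Fin (n + 1) → ℂ, (∀ k, v k ∈ A) → Function.Injective v →
      LinearIndependent ℂ v) : Greedy (fun a : A => (a : Fin (n + 1) → ℂ)) 1 := by
  have e : Fin A.card ≃ A := (Fintype.equivFinOfCardEq (Fintype.card_coe A)).symm
  apply Greedy.of_equiv e
  refine pgreedy_gen (fun i => ((e i : A) : Fin (n + 1) → ℂ)) hA ?_
  intro κ hκ
  exact hgp _ (fun k => (e (κ k)).2) fun a b hab => hκ (e.injective (Subtype.ext hab))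

/-- the second main theorem, from a greedy estimate -/
theorem hyp_key {n d : ℕ} (hn : 1 ≤ n) (hd : 1 ≤ d) (A : Finset (Fin (n + 1) → ℂ))
    (hA0 : ∀ a ∈ A, a ≠ 0) {s : ℝ} (hs0 : 0 ≤ s)
    (hgr : Greedy (fun a : A => (a : Fin (n + 1) → ℂ)) s)
    (hcard : (n + d).choose n ≤ A.card)
    (huni : ∀ B ⊆ A, B.card = (n + d).choose n → ∀ P : MvPolynomial (Fin (n + 1)) ℂ,
      P.IsHomogeneous d → (∀ b ∈ B, MvPolynomial.eval b P = 0) → P = 0)
    (f : ℂ → Fin (n + 1) → ℂ) (hf : Differentiable ℂ f) (hf0 : ∀ z, f z ≠ 0)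
    (hli : LinearIndependent ℂ (fun (i : Fin (n + 1)) z => f z i)) :
    ∃ (K : ℝ) (E : Set ℝ), MeasureTheory.volume E < ⊤ ∧ ∀ r, 1 ≤ r → r ∉ E →
      ((A.card : ℝ) - (n + 1) * s - 2 * n / (n + d) * A.card) * charT f r ≤
        ∑ a ∈ A, Nbar (fun z => ∑ i, a i * f z i) r +
          K * (Real.posLog (charT f r) + Real.log r + 1) := by
  classical
  have hfd : ∀ a, Differentiable ℂ (fun z => f z a) := fun a => differentiable_pi.1 hf a
  have hfz : ∀ z, ∃ a, f z a ≠ 0 := by
    intro z
    by_contra hcon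
    push Not at hcon
    exact hf0 z (funext hcon)
  have hMon : Fintype.card (Mon n d) = (n + d).choose n := by
    rw [card_Mon, Nat.choose_symm_add]
  have hM1 : 1 ≤ (n + d).choose n := Nat.choose_pos (by omega)
  have hMR : (0 : ℝ) < ((n + d).choose n : ℝ) := by exact_mod_cast hM1
  have hnd : (0 : ℝ) < (n : ℝ) + d := by positivity
  have hratio : ((n + d - 1).choose d : ℝ) = (n : ℝ) / (n + d) * ((n + d).choose n : ℝ) := by
    have h1 : (n : ℝ) * ((n + d).choose n : ℝ) = ((d : ℝ) + n) * ((n + d - 1).choose d : ℝ) := by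
      have h2 := card_mul n d hn
      rw [hMon] at h2
      exact_mod_cast h2
    rw [div_mul_eq_mul_div, h1, eq_div_iff hnd.ne']
    ring
  set κ : ℝ := (A.card : ℝ) - (n + 1) * s - 2 * n / (n + d) * A.card with hκdef
  -- the trivial case
  rcases lt_or_ge κ 0 with hκ | hκ
  · refine ⟨|κ * charT f 1|, ∅, by simp, fun r hr _ => ?_⟩
    have h1 := charT_mono hf hf0 one_pos hr
    have h2 : κ * charT f r ≤ κ * charT f 1 := mul_le_mul_of_nonpos_left h1 hκ.le
    have h3 : 0 ≤ ∑ a ∈ A, Nbar (fun z => ∑ i, a i * f z i) r :=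
      Finset.sum_nonneg fun a _ => Nbar_nonneg _ hr
    have h4 : 0 ≤ Real.posLog (charT f r) := Real.posLog_nonneg
    have h5 : 0 ≤ Real.log r := Real.log_nonneg hr
    have h6 : |κ * charT f 1| ≤ |κ * charT f 1| * (Real.posLog (charT f r) + Real.log r + 1) :=
      le_mul_of_one_le_right (abs_nonneg _) (by linarith)
    linarith [le_abs_self (κ * charT f 1)]
  have hsum : ∀ r, ∑ a : A, Nbar (fun z => ∑ i, (a : Fin (n + 1) → ℂ) i * f z i) r =
      ∑ a ∈ A, Nbar (fun z => ∑ i, a i * f z i) r := fun r =>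
    Finset.sum_coe_sort A (fun a => Nbar (fun z => ∑ i, a i * f z i) r)
  have key := smt_of_key (fun a : A => (a : Fin (n + 1) → ℂ)) (fun a => hA0 a a.2) f hf hf0 hli hκ
    (by
      intro Z hZ1 hZ2
      -- Cartan
      obtain ⟨C1, hC1⟩ := average_gen (fun a : A => (a : Fin (n + 1) → ℂ)) (fun a => hA0 a a.2)
        hs0 hgr (fun i z => f z i) hfd hli
      -- ramification
      have hram : ∀ B : Finset A, ∃ C : ℝ, 0 ≤ C ∧ (B.card = (n + d).choose n →
          ∀ (r B' : ℝ), 1 ≤ r → 1 ≤ B' →
          (∀ a, ∀ z ∈ sphere (0 : ℂ) r, Good (fun z => f z a / f z 0) B' z) →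
          ∑ a ∈ B, (Function.locallyFinsuppWithin.logCounting
              (Dv (fun z => ∑ i, (a : Fin (n + 1) → ℂ) i * f z i)) r -
            Function.locallyFinsuppWithin.logCounting (Z a) r) ≤
          2 * ((n + d - 1).choose d : ℝ) * charT f r + C * (1 + Real.log B')) := by
        intro B
        by_cases hB : B.card = (n + d).choose n
        · have hcB : Fintype.card (Mon n d) = Fintype.card B := by
            rw [hMon, Fintype.card_coe, hB]
          let e : Mon n d ≃ B := Fintype.equivOfCardEq hcB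
          have hU : Uni (fun i => ((e i : A) : Fin (n + 1) → ℂ)) := by
            intro P hP hz
            refine huni (B.map (Function.Embedding.subtype _)) ?_ ?_ P hP ?_
            · intro b hb
              obtain ⟨b', _, rfl⟩ := Finset.mem_map.mp hb
              exact b'.2
            · rw [Finset.card_map, hB]
            · intro b hb
              obtain ⟨b', hb', rfl⟩ := Finset.mem_map.mp hb
              have h1 : MvPolynomial.eval ((e (e.symm ⟨b', hb'⟩) : A) : Fin (n + 1) → ℂ) P = 0 :=
                hz _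
              rw [Equiv.apply_symm_apply] at h1
              exact h1
          obtain ⟨C, hC0, hC⟩ := ram_uni hn hd (fun i => ((e i : A) : Fin (n + 1) → ℂ)) hU
            (fun i z => f z i) hfd hli hfz (fun i => Z (e i)) (fun i z h => hZ1 _ z h)
            (fun i z h => hZ2 _ z h)
          refine ⟨C, hC0, fun _ r B' hr hB' hgood => ?_⟩
          have h1 := hC r B' hr hB' hgood
          have h2 : ∀ F : A → ℝ, ∑ i : Mon n d, F (e i : A) = ∑ a ∈ B, F a := by
            intro F
            rw [Equiv.sum_comp e (fun b : B => F (b : A)), Finset.sum_coe_sort B F]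
          rw [h2 (fun a => Function.locallyFinsuppWithin.logCounting
              (Dv (fun z => ∑ i, (a : Fin (n + 1) → ℂ) i * f z i)) r),
            h2 (fun a => Function.locallyFinsuppWithin.logCounting (Z a) r)] at h1
          rw [Finset.sum_sub_distrib]
          have h3 : circleAverage (fun z => Real.log ‖fun a => f z a‖) 0 r = charT f r := rfl
          rw [h3] at h1
          linarith
        · exact ⟨0, le_rfl, fun h => absurd h hB⟩
      choose C2 hC20 hC2 using hram
      set C3 : ℝ := ∑ B, C2 B with hC3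
      have hC30 : 0 ≤ C3 := Finset.sum_nonneg fun B _ => hC20 B
      obtain ⟨k, hk⟩ : ∃ k, A.card = (n + d).choose n + k := ⟨_, (Nat.add_sub_of_le hcard).symm⟩
      refine ⟨|C1| + s * (n + 1) ^ 2 + A.card / ((n + d).choose n : ℝ) * C3, by positivity, ?_⟩
      intro r B' hr hB' hg1 hg2
      have hlB : 0 ≤ Real.log B' := Real.log_nonneg hB'
      have h1 := hC1 r B' hr hB' hg2
      have h2 := subset_avg (fun a : A => Function.locallyFinsuppWithin.logCounting
              (Dv (fun z => ∑ i, (a : Fin (n + 1) → ℂ) i * f z i)) r -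
            Function.locallyFinsuppWithin.logCounting (Z a) r) hM1
          (2 * ((n + d - 1).choose d : ℝ) * charT f r + C3 * (1 + Real.log B')) k Finset.univ (by
            rw [Finset.card_univ, Fintype.card_coe, hk]) (by
            intro B _ hB
            refine (hC2 B hB r B' hr hB' hg1).trans ?_
            have h3 : C2 B ≤ C3 := Finset.single_le_sum (f := C2) (fun B _ => hC20 B)
              (Finset.mem_univ B)
            have h4 : C2 B * (1 + Real.log B') ≤ C3 * (1 + Real.log B') :=
              mul_le_mul_of_nonneg_right h3 (by linarith)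
            linarith)
      rw [Finset.sum_sub_distrib] at h2
      have h3 : (((n + d).choose n : ℕ) : ℝ) + k = A.card := by
        rw [hk]
        push_cast
        ring
      rw [h3] at h2
      have h4 : (A.card : ℝ) / ((n + d).choose n : ℝ) *
          (2 * ((n + d - 1).choose d : ℝ) * charT f r + C3 * (1 + Real.log B')) =
          2 * n / (n + d) * A.card * charT f r +
            A.card / ((n + d).choose n : ℝ) * C3 * (1 + Real.log B') := by
        rw [hratio]
        field_simp
      rw [h4] at h2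
      rw [Fintype.card_coe] at h1
      have h5 : circleAverage (fun z => Real.log ‖fun a => f z a‖) 0 r = charT f r := rfl
      rw [h5] at h1
      have h6 : C1 ≤ |C1| := le_abs_self _
      have h7 : 0 ≤ |C1| * Real.log B' := by positivity
      have h8 : 0 ≤ s * ((n : ℝ) + 1) ^ 2 := by positivity
      have h9 : κ * charT f r = ((A.card : ℝ) - (n + 1) * s) * charT f r -
        2 * n / (n + d) * A.card * charT f r := by
        rw [hκdef]
        ring
      rw [h9]
      nlinarith)
  obtain ⟨K, E, hE, hKE⟩ := key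
  refine ⟨K, E, hE, fun r hr hrE => ?_⟩
  have h1 := hKE r hr hrE
  rwa [hsum r] at h1

/-- **The second main theorem with truncation level one for hyperplanes in general position.** -/
theorem hyp_general {n d : ℕ} (hn : 1 ≤ n) (hd : 1 ≤ d) (A : Finset (Fin (n + 1) → ℂ))
    (hcard : (n + d).choose n ≤ A.card)
    (hgp : ∀ v : Fin (n + 1) → Fin (n + 1) → ℂ, (∀ k, v k ∈ A) → Function.Injective v →
      LinearIndependent ℂ v)
    (huni : ∀ B ⊆ A, B.card = (n + d).choose n → ∀ P : MvPolynomial (Fin (n + 1)) ℂ,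
      P.IsHomogeneous d → (∀ b ∈ B, MvPolynomial.eval b P = 0) → P = 0)
    (f : ℂ → Fin (n + 1) → ℂ) (hf : Differentiable ℂ f) (hf0 : ∀ z, f z ≠ 0)
    (hli : LinearIndependent ℂ (fun (i : Fin (n + 1)) z => f z i)) :
    ∃ (K : ℝ) (E : Set ℝ), MeasureTheory.volume E < ⊤ ∧ ∀ r, 1 ≤ r → r ∉ E →
      ((A.card : ℝ) - (n + 1) - 2 * n / (n + d) * A.card) * charT f r ≤
        ∑ a ∈ A, Nbar (fun z => ∑ i, a i * f z i) r +
          K * (Real.posLog (charT f r) + Real.log r + 1) := by
  classical
  have hcard2 : n + 1 ≤ A.card := by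
    refine le_trans ?_ hcard
    have h1 : (n + 1).choose n ≤ (n + d).choose n := Nat.choose_le_choose n (by omega)
    rwa [Nat.choose_succ_self_right] at h1
  have hA0 : ∀ a ∈ A, a ≠ 0 := by
    intro a ha h0
    have h1 := huni
    -- `a` belongs to a subset of `n + 1` elements
    obtain ⟨B, hB1, hB2, hB3⟩ := Finset.exists_subsuperset_card_eq
      (Finset.singleton_subset_iff.mpr ha) (by rw [Finset.card_singleton]; omega) hcard2
    have e : Fin (n + 1) ≃ B := (Fintype.equivFinOfCardEq (by rw [Fintype.card_coe, hB3])).symm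
    have h2 := hgp (fun k => (e k : Fin (n + 1) → ℂ)) (fun k => hB2 (e k).2)
      (fun a b hab => e.injective (Subtype.ext hab))
    have h3 := h2.ne_zero (e.symm ⟨a, hB1 (Finset.mem_singleton_self a)⟩)
    apply h3
    simp only [Equiv.apply_symm_apply]
    exact h0
  have := hyp_key hn hd A hA0 zero_le_one (greedy_general A hcard2 hgp) hcard huni f hf hf0 hli
  rwa [mul_one] at this

end Pool.Agent.LO
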