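import Pool.Agent.Lib_MP_b9fedf_lo.HypAll
import Pool.Agent.Lib_MP_b9fedf_lo.DefsLO

/-! All members of a set of hyperplanes, all non-constant entire curves. -/

set_option autoImplicit false

namespace Pool.Agent.LO
open Pool.Agent.GGL Pool.Agent.SQ Pool.Agent.Stat

/-- **The second main theorem with truncation level one for all non-constant entire curves.**  No
`C(n+d,n)` members of `A` lie on a hypersurface of degree `d` of the dual space. -/
theorem hyp_sum {n d : ℕ} (hd : 1 ≤ d) (A : Finset (Fin (n + 1) → ℂ))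
    (huni : ∀ B ⊆ A, B.card = (n + d).choose n → ∀ P : MvPolynomial (Fin (n + 1)) ℂ,
      P.IsHomogeneous d → (∀ b ∈ B, MvPolynomial.eval b P = 0) → P = 0)
    (f : ℂ → Fin (n + 1) → ℂ) (hf : Differentiable ℂ f) (hf0 : ∀ z, f z ≠ 0)
    (hnc : ¬ ∀ z w, ∃ c : ℂ, f w = c • f z) :
    ∃ D ⊆ A, A.card < D.card + (n + d).choose n ∧ (∀ a ∈ D, ∃ z, ∑ i, a i * f z i ≠ 0) ∧
      ∃ (K : ℝ) (E : Set ℝ), MeasureTheory.volume E < ⊤ ∧ ∀ r, 1 ≤ r → r ∉ E →
        (1 - (3 * (n : ℝ) + 1) / (n + d)) * D.card * charT f r ≤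
          ∑ a ∈ D, Nbar (fun z => ∑ i, a i * f z i) r +
            K * (Real.posLog (charT f r) + Real.log r + 1) := by
  classical
  have hK : 0 < (n + d).choose n := Nat.choose_pos (by omega)
  suffices h : ∀ (k : ℕ) (A₀ : Finset (Fin (n + 1) → ℂ)), A₀.card = k → A₀ ⊆ A →
      ∃ D ⊆ A₀, A₀.card < D.card + (n + d).choose n ∧ (∀ a ∈ D, ∃ z, ∑ i, a i * f z i ≠ 0) ∧
      ∃ (K : ℝ) (E : Set ℝ), MeasureTheory.volume E < ⊤ ∧ ∀ r, 1 ≤ r → r ∉ E →
        (1 - (3 * (n : ℝ) + 1) / (n + d)) * D.card * charT f r ≤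
          ∑ a ∈ D, Nbar (fun z => ∑ i, a i * f z i) r +
            K * (Real.posLog (charT f r) + Real.log r + 1) from
    h A.card A rfl (Finset.Subset.refl A)
  intro k
  induction k using Nat.strong_induction_on with
  | _ k ih =>
    intro A₀ hk hA₀
    rcases Nat.lt_or_ge A₀.card ((n + d).choose n) with hlt | hge
    · refine ⟨∅, Finset.empty_subset _, by simpa using hlt, by simp, 0, ∅, by simp, ?_⟩
      intro r _ _
      simp
    obtain ⟨B₀, hB₀, hB₀c⟩ := Finset.exists_subset_card_eq hge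
    obtain ⟨B, hBn, hBA, hB0, K, E, hE, hKE⟩ := hyp_all (n := n) hd
      (B₀ : Set (Fin (n + 1) → ℂ)) (by
        intro P hP h0
        exact huni B₀ (hB₀.trans hA₀) hB₀c P hP fun b hb => h0 b (Finset.mem_coe.mpr hb))
      f hf hf0 hnc
    have hBA₀ : B ⊆ A₀ := fun b hb => hB₀ (Finset.mem_coe.mp (hBA (Finset.mem_coe.mpr hb)))
    have hcard := Finset.card_sdiff_add_card_eq_card hBA₀
    have hBpos := Finset.card_pos.mpr hBn
    obtain ⟨D, hD, hDc, hD0, K', E', hE', hKE'⟩ := ih (A₀ \ B).card (by omega) (A₀ \ B) rfl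
      (Finset.sdiff_subset.trans hA₀)
    have hdisj : Disjoint B D := Finset.disjoint_of_subset_right hD Finset.disjoint_sdiff
    refine ⟨B ∪ D, Finset.union_subset hBA₀ (hD.trans Finset.sdiff_subset), ?_, ?_, K + K',
      E ∪ E', ?_, ?_⟩
    · rw [Finset.card_union_of_disjoint hdisj]
      omega
    · intro a ha
      rcases Finset.mem_union.mp ha with ha | ha
      · exact hB0 a ha
      · exact hD0 a ha
    · exact lt_of_le_of_lt (MeasureTheory.measure_union_le _ _) (ENNReal.add_lt_top.2 ⟨hE, hE'⟩)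
    · intro r hr hrE
      have h1 := hKE r hr fun h => hrE (Or.inl h)
      have h2 := hKE' r hr fun h => hrE (Or.inr h)
      rw [Finset.card_union_of_disjoint hdisj, Finset.sum_union hdisj]
      push_cast
      nlinarith

/-- the sum over all members of `A` -/
theorem hyp_sum' {n d : ℕ} (hd : 2 * n + 1 ≤ d) (A : Finset (Fin (n + 1) → ℂ))
    (huni : ∀ B ⊆ A, B.card = (n + d).choose n → ∀ P : MvPolynomial (Fin (n + 1)) ℂ,
      P.IsHomogeneous d → (∀ b ∈ B, MvPolynomial.eval b P = 0) → P = 0)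
    (f : ℂ → Fin (n + 1) → ℂ) (hf : Differentiable ℂ f) (hf0 : ∀ z, f z ≠ 0)
    (hnc : ¬ ∀ z w, ∃ c : ℂ, f w = c • f z) :
      ∃ (K : ℝ) (E : Set ℝ), MeasureTheory.volume E < ⊤ ∧ ∀ r, 1 ≤ r → r ∉ E →
        (1 - (3 * (n : ℝ) + 1) / (n + d)) * ((A.card : ℝ) - ((n + d).choose n : ℝ)) * charT f r ≤
          ∑ a ∈ A, Nbar (fun z => ∑ i, a i * f z i) r +
            K * (Real.posLog (charT f r) + Real.log r + 1) := by
  classical
  obtain ⟨D, hDA, hDc, -, K, E, hE, hKE⟩ := hyp_sum (by omega) A huni f hf hf0 hnc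
  set x : ℝ := 1 - (3 * (n : ℝ) + 1) / (n + d) with hx
  have hx0 : 0 ≤ x := by
    have hnd : (0 : ℝ) < (n : ℝ) + d := by
      have : (1 : ℝ) ≤ d := by exact_mod_cast (by omega : 1 ≤ d)
      positivity
    have : (3 * (n : ℝ) + 1) / (n + d) ≤ 1 := by
      rw [div_le_one hnd]
      have h1 : (2 * (n : ℝ) + 1) ≤ d := by exact_mod_cast hd
      linarith
    linarith
  have hcardR : (A.card : ℝ) - ((n + d).choose n : ℝ) ≤ D.card := by
    have : (A.card : ℝ) ≤ D.card + ((n + d).choose n : ℝ) := by exact_mod_cast hDc.le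
    linarith
  set y : ℝ := (A.card : ℝ) - ((n + d).choose n : ℝ) with hy
  set c : ℝ := |charT f 1| with hc
  refine ⟨|K| + x * (D.card - y) * c, E, hE, fun r hr hrE => ?_⟩
  have h1 := hKE r hr hrE
  have h2 := charT_mono hf hf0 one_pos hr
  have h3 : -c ≤ charT f r := by linarith [neg_abs_le (charT f 1)]
  have hpl : 0 ≤ Real.posLog (charT f r) := Real.posLog_nonneg
  have hlr : 0 ≤ Real.log r := Real.log_nonneg hr
  set X : ℝ := Real.posLog (charT f r) + Real.log r + 1 with hX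
  have hX1 : 1 ≤ X := by linarith
  have h4 : ∑ a ∈ D, Nbar (fun z => ∑ i, a i * f z i) r ≤
      ∑ a ∈ A, Nbar (fun z => ∑ i, a i * f z i) r :=
    Finset.sum_le_sum_of_subset_of_nonneg hDA fun a _ _ => Nbar_nonneg _ hr
  have h5 : 0 ≤ x * (D.card - y) := mul_nonneg hx0 (by linarith)
  have h6 : x * y * charT f r ≤ x * D.card * charT f r + x * (D.card - y) * c := by
    have e1 : x * y * charT f r = x * D.card * charT f r -
      x * (D.card - y) * charT f r := by ring
    have e2 := mul_le_mul_of_nonneg_left h3 h5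
    rw [e1]
    linarith
  have h7 : K * X ≤ |K| * X := mul_le_mul_of_nonneg_right (le_abs_self K) (by linarith)
  have h8 : x * (D.card - y) * c ≤ x * (D.card - y) * c * X :=
    le_mul_of_one_le_right (mul_nonneg h5 (abs_nonneg _)) hX1
  have h9 : (|K| + x * (D.card - y) * c) * X = |K| * X + x * (D.card - y) * c * X := by ring
  rw [h9]
  linarith

end Pool.Agent.LO
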