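import Pool.Agent.Lib_MP_b9fedf_sq.Key2

/-! The key estimate with truncated counting functions, for curves without common zeros. -/

set_option autoImplicit false

namespace Pool.Agent.LO
open Filter Metric Real Set Function MeromorphicOn ValueDistribution
open Pool.Agent.GGL Pool.Agent.SQ

/-- the key estimate -/
theorem key_estimate3 {m s N : ℕ} (q : Fin N → Fin (m + 1) → ℂ) (hq0 : ∀ i, q i ≠ 0)
    (hsN : s < N)
    (hs : ∀ h : Fin (m + 1) → ℂ, h ≠ 0 →
      ((Finset.univ : Finset (Fin N)).filter (fun i => ∑ a, q i a * h a = 0)).card ≤ s)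
    (g : Fin (m + 1) → ℂ → ℂ)
    (hg : ∀ k, Differentiable ℂ (g k)) (hli : LinearIndependent ℂ g)
    (hgz : ∀ z, ∃ a, g a z ≠ 0)
    (hphi : ∃ (s₀ : ℕ) (Φ : ℂ → ℂ) (C : ℝ), s₀ ≤ s ∧ 0 < C ∧ Differentiable ℂ Φ ∧ (∃ z, Φ z ≠ 0) ∧
      (∀ z, ‖Φ z‖ ≤ C * (‖fun ab : Fin (m + 1) × Fin (m + 1) =>
        g ab.1 z * deriv (g ab.2) z - g ab.2 z * deriv (g ab.1) z‖) ^ s₀) ∧
      ∀ (z : ℂ) (c : ℕ), (∀ a, (c : ℕ∞) ≤ analyticOrderAt (g a) z) →
        (∃ a, analyticOrderAt (g a) z = c) →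
        ∀ o : Fin N → ℕ, (∀ i, analyticOrderAt (fun ζ => ∑ a, q i a * g a ζ) z = o i) →
          ((2 * s₀ * c + ∑ i, (o i - c - 1) : ℕ) : ℕ∞) ≤ analyticOrderAt Φ z)
    (Z : Fin N → locallyFinsupp ℂ ℤ) (hZ1 : ∀ i z, ∑ a, q i a * g a z = 0 → Z i z = 1)
    (hZ2 : ∀ i z, ∑ a, q i a * g a z ≠ 0 → Z i z = 0) :
    ∃ C : ℝ, 0 ≤ C ∧ ∀ (r B : ℝ), 1 ≤ r → 1 ≤ B →
      (∀ a, ∀ z ∈ sphere (0 : ℂ) r, Good (fun z => g a z / g 0 z) B z) →
      (∀ i, ∀ z ∈ sphere (0 : ℂ) r, Good (fun z => (∑ a, q i a * g a z) / g 0 z) B z) →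
      ((N : ℝ) - (m + 3) * (s : ℝ)) *
        circleAverage (fun z => Real.log ‖fun a => g a z‖) 0 r ≤
      ∑ i, Function.locallyFinsuppWithin.logCounting (Z i) r + C * (1 + Real.log B) := by
  classical
  have hhd : ∀ i, Differentiable ℂ (fun z => ∑ a, q i a * g a z) := fun i =>
    Differentiable.fun_sum fun a _ => (hg a).const_mul (q i a)
  have hhne : ∀ i, ∃ z, ∑ a, q i a * g a z ≠ 0 := fun i =>
    combination_ne_zero (q i) (hq0 i) g hli
  have hgne : ∀ a, ∃ z, g a z ≠ 0 := by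
    intro a
    have := hli.ne_zero a
    by_contra hcon
    push Not at hcon
    exact this (funext hcon)
  have hWd : Differentiable ℂ (Wr g) := Wr_differentiable hg
  have hWne := exists_Wr_ne_zero g hg hli
  obtain ⟨C1, hC1⟩ := average_main' q hq0 hs hsN g hg hli
  obtain ⟨s₀, Φ, CΦ, hs₀, hCΦ, hΦ, hΦ0, hΦle, hΦord⟩ := hphi
  obtain ⟨C2, hC2⟩ := average_phi (s := s₀) g hg (hgne 0) Φ CΦ hCΦ hΦ hΦ0 hΦle
  have hdiv1 : ∀ r : ℝ, 1 ≤ r → ∑ i, Function.locallyFinsuppWithin.logCounting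
        (Dv (fun z => ∑ a, q i a * g a z)) r ≤
      Function.locallyFinsuppWithin.logCounting (Dv Φ) r +
        ∑ i, Function.locallyFinsuppWithin.logCounting (Z i) r := by
    intro r hr
    have h1 : (∑ i, Dv (fun z => ∑ a, q i a * g a z)) ≤ Dv Φ + ∑ i, Z i := by
      intro z
      set o : Fin N → ℕ := fun i =>
        (analyticOrderAt (fun z => ∑ a, q i a * g a z) z).toNat with ho
      have ho1 : ∀ i, analyticOrderAt (fun ζ => ∑ a, q i a * g a ζ) z = o i := fun i =>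
        (ENat.natCast_toNat (order_ne_top (hhd i) (hhne i) z)).symm
      have h2 := hΦord z 0 (fun a => by simp) (by
        obtain ⟨a, ha⟩ := hgz z
        exact ⟨a, by
          rw [Nat.cast_zero]
          exact ((hg a).analyticAt z).analyticOrderAt_eq_zero.2 ha⟩) o ho1
      rw [← ENat.natCast_toNat (order_ne_top hΦ hΦ0 z)] at h2
      have h3 : 2 * s₀ * 0 + ∑ i, (o i - 0 - 1) ≤ (analyticOrderAt Φ z).toNat := by
        exact_mod_cast h2
      have h4 : ∀ i, (o i : ℤ) ≤ ((o i - 0 - 1 : ℕ) : ℤ) + Z i z := by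
        intro i
        by_cases h5 : ∑ a, q i a * g a z = 0
        · rw [hZ1 i z h5]
          omega
        · rw [hZ2 i z h5]
          have h6 : analyticOrderAt (fun ζ => ∑ a, q i a * g a ζ) z = 0 :=
            ((hhd i).analyticAt z).analyticOrderAt_eq_zero.2 h5
          have h7 : o i = 0 := by
            rw [ho1 i] at h6
            exact_mod_cast h6
          omega
      rw [locallyFinsuppWithin.coe_add, Pi.add_apply,
        locallyFinsuppWithin.coe_sum, locallyFinsuppWithin.coe_sum, Finset.sum_apply,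
        Finset.sum_apply, Dv_apply hΦ]
      have h5 : ∀ i, (Dv (fun z => ∑ a, q i a * g a z)) z = (o i : ℤ) := fun i =>
        Dv_apply (hhd i) z
      simp_rw [h5]
      have h6 : ∑ i, (o i : ℤ) ≤ ∑ i, (((o i - 0 - 1 : ℕ) : ℤ) + Z i z) :=
        Finset.sum_le_sum fun i _ => h4 i
      rw [Finset.sum_add_distrib] at h6
      have h7 : ∑ i, ((o i - 0 - 1 : ℕ) : ℤ) ≤ ((analyticOrderAt Φ z).toNat : ℤ) := by
        rw [← Nat.cast_sum]
        exact_mod_cast (by omega : ∑ i, (o i - 0 - 1) ≤ (analyticOrderAt Φ z).toNat)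
      linarith
    have h2 := Function.locallyFinsuppWithin.logCounting_le h1 hr
    rw [map_add, map_sum, map_sum, Pi.add_apply, Finset.sum_apply, Finset.sum_apply] at h2
    exact h2
  have hs0 : (0 : ℝ) ≤ s := Nat.cast_nonneg s
  have hs₀0 : (0 : ℝ) ≤ s₀ := Nat.cast_nonneg s₀
  have hs₀s : (s₀ : ℝ) ≤ s := Nat.cast_le.mpr hs₀
  set c3 : ℝ := Real.log ‖meromorphicTrailingCoeffAt (g 0) 0‖ with hc3
  have hA : ∀ r : ℝ, 1 ≤ r → c3 ≤ circleAverage (fun z => Real.log ‖fun a => g a z‖) 0 r := by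
    intro r hr
    have hr0 : 0 < r := by linarith
    have h1 := jensen (mero_of_diff (hg 0)) hr
    have h2 : 0 ≤ Function.locallyFinsuppWithin.logCounting (Dv (g 0)) r := by
      apply Function.locallyFinsuppWithin.logCounting_nonneg _ hr
      intro z
      rw [Dv_apply (hg 0)]
      exact Int.natCast_nonneg _
    have h3 : circleAverage (fun z => Real.log ‖g 0 z‖) 0 r ≤
        circleAverage (fun z => Real.log ‖fun a => g a z‖) 0 r := by
      apply circleAverage_mono_codiscrete hr0 (log_integrable (mero_of_diff (hg 0)) r)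
        (vec_integrable hg r)
      filter_upwards [nonzero_codiscrete (hg 0) (hgne 0) r] with z hz
      exact Real.log_le_log (norm_pos_iff.2 hz) (norm_le_pi_norm (fun a => g a z) 0)
    linarith
  refine ⟨|C1| + |C2| + 2 * s * |c3| + s * (m + 1) ^ 2 + s₀, by positivity, ?_⟩
  intro r B hr hB hgood1 hgood2
  have h1 := hC1 r B hr hB hgood2
  have h2 := hC2 r B hr hB hgood1
  have h3 := hdiv1 r hr
  have h5 := hA r hr
  have hlogB : 0 ≤ Real.log B := Real.log_nonneg hB
  set A := circleAverage (fun z => Real.log ‖fun a => g a z‖) 0 r with hAd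
  set LΦ := Function.locallyFinsuppWithin.logCounting (Dv Φ) r with hLΦ
  have hLW : 0 ≤ Function.locallyFinsuppWithin.logCounting (Dv (Wr g)) r := by
    apply Function.locallyFinsuppWithin.logCounting_nonneg _ hr
    intro z
    rw [Dv_apply hWd]
    exact Int.natCast_nonneg _
  set LW := Function.locallyFinsuppWithin.logCounting (Dv (Wr g)) r with hLWd
  set LH := ∑ i, Function.locallyFinsuppWithin.logCounting
        (Dv (fun z => ∑ a, q i a * g a z)) r with hLH
  set SN := ∑ i, Function.locallyFinsuppWithin.logCounting (Z i) r with hSN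
  have h7 : -|c3| ≤ c3 := neg_abs_le c3
  have h8 : 2 * (s₀ : ℝ) * A ≤ 2 * s * A + 2 * s * |c3| := by
    have h9 : 0 ≤ A + |c3| := by linarith
    have h10 : 2 * (s₀ : ℝ) * (A + |c3|) ≤ 2 * s * (A + |c3|) := by
      apply mul_le_mul_of_nonneg_right _ h9
      linarith
    have h11 : 0 ≤ 2 * (s₀ : ℝ) * |c3| := by positivity
    nlinarith
  have h10 : C1 ≤ |C1| := le_abs_self _
  have h11 : C2 ≤ |C2| := le_abs_self _
  have h12 : 0 ≤ s * LW := mul_nonneg hs0 hLW
  have h13 : ((N : ℝ) - (m + 3) * s) * A ≤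
      SN + (|C1| + |C2| + 2 * s * |c3|) + (s * (m + 1) ^ 2 + s₀) * Real.log B := by
    nlinarith
  have h14 : 0 ≤ (|C1| + |C2| + 2 * s * |c3|) * Real.log B := by positivity
  have h15 : 0 ≤ (s * (m + 1) ^ 2 + s₀ : ℝ) := by positivity
  nlinarith

end Pool.Agent.LO
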