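import Pool.Agent.Lib_MP_b9fedf_lo.DefsLO
import Pool.Agent.Lib_MP_b9fedf_lo.Mono

/-! The second main theorem with a smaller defect implies the one with a larger defect. -/

set_option autoImplicit false

namespace Pool.Agent.LO
open MvPolynomial Pool.Agent.QY Pool.Agent.Stat

theorem LevelOne.mono {n : ℕ} {η ε : ℝ} (hηε : η ≤ ε) {q : Ideal (MvPolynomial (Fin (n + 1)) ℂ)}
    {D : Finset (MvPolynomial (Fin (n + 1)) ℂ)} {Z : MvPolynomial (Fin (n + 1)) ℂ}
    (hL : LevelOne η q D Z) : LevelOne ε q D Z := by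
  intro f hf hf0 hfq hfZ hfc
  obtain ⟨K, E, hE, hK⟩ := hL f hf hf0 hfq hfZ hfc
  set s : ℝ := ∑ P ∈ D, (P.totalDegree : ℝ) with hs
  have hs0 : 0 ≤ s := Finset.sum_nonneg fun P _ => Nat.cast_nonneg _
  set c : ℝ := (ε - η) * s * |charT f 1| with hc
  have hc0 : 0 ≤ c := by
    have h1 : 0 ≤ ε - η := by linarith
    rw [hc]
    positivity
  refine ⟨K + c, E, hE, fun r hr hrE => ?_⟩
  have h1 := hK r hr hrE
  have h2 := charT_mono hf hf0 one_pos hr
  have h3 : -|charT f 1| ≤ charT f r := (neg_abs_le _).trans h2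
  have h4 : 0 ≤ (ε - η) * s := mul_nonneg (by linarith) hs0
  have h5 := mul_le_mul_of_nonneg_left h3 h4
  have h6 : 0 ≤ Real.posLog (charT f r) := Real.posLog_nonneg
  have h7 : 0 ≤ Real.log r := Real.log_nonneg hr
  have h8 : 0 ≤ c * (Real.posLog (charT f r) + Real.log r) := by positivity
  have h9 : (1 - ε) * s * charT f r = (1 - η) * s * charT f r - (ε - η) * s * charT f r := by ring
  have h10 : (K + c) * (Real.posLog (charT f r) + Real.log r + 1) =
      K * (Real.posLog (charT f r) + Real.log r + 1) +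
        c * (Real.posLog (charT f r) + Real.log r) + c := by ring
  have h11 : (ε - η) * s * -|charT f 1| = -c := by rw [hc]; ring
  rw [h9, h10]
  rw [h11] at h5
  linarith

end Pool.Agent.LO
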