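import Pool.Agent.Lib_MP_b9fedf_lo.HypMult

/-!
# A second main theorem with truncation level one for hyperplanes

Sketch of the proof. Let `f` be linearly non-degenerate. The interpolation matrix of `K` members
`a` of `A` at degree `d` is invertible. If `a · f` vanishes at `z` to order at least two, then `a`
lies in the subspace of the dual space orthogonal to `f(z)` and `f'(z)`. The product of the zeros of
all `a · f`, each counted with its multiplicity minus one, divides a determinant of size `K`, formed
with `f` and `f'` only, the growth of which is at most `(2n/(n+d)) K T(r)`. The sum of the counting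
functions with multiplicities is bounded below by Cartan's method (general position) or by the
multiplicity estimate for unisolvent sets. A degenerate curve is treated by a projection with a
well chosen centre.
-/

set_option autoImplicit false

namespace Pool.Agent.LO.LevelOneHyperplanesRes

open Pool.Agent.GGL Pool.Agent.SQ Pool.Agent.Stat Pool.Agent.LO

open scoped Classical in
/-- Let `A` be a set of `q ≥ K = C(n+d, n)` hyperplanes of `ℙⁿ`, no `K` of them on a hypersurface
of degree `d` of the dual space.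

(1) The second main theorem with truncation level one, with the factor
`(1 - (3n+1)/(n+d)) (q - K)`, holds for all non-constant entire curves of `ℙⁿ`.

(2) If any `n + 1` members are linearly independent and the curve is linearly non-degenerate, it
holds with the factor `q - n - 1 - 2nq/(n+d)`.

(3) If a variety `X` over `ℙⁿ` is ramified over the members of `A` on average with the ratio `ρ`,
`ρ q < (1 - (3n+1)/(n+d)) (q - K)`, or if it is ramified over the members of `A`, at most `M` of
them pass through a point and `ρ = M/(M+1)`, then every entire curve of `X` lies in a fibre or over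
a member of `A`.

(4) If `d ≥ 4n+2` and all members of `A` are multiple on `X`, then every entire curve of `X` lies in
a fibre. -/
theorem result :
    ∀ (n d : ℕ) (A : Finset (Fin (n + 1) → ℂ)), 1 ≤ n → 1 ≤ d → (n + d).choose n ≤ A.card →
      (∀ B ⊆ A, B.card = (n + d).choose n → ∀ P : MvPolynomial (Fin (n + 1)) ℂ,
        P.IsHomogeneous d → (∀ b ∈ B, MvPolynomial.eval b P = 0) → P = 0) →
      (∀ f : ℂ → Fin (n + 1) → ℂ, Differentiable ℂ f → (∀ z, f z ≠ 0) →
        (¬ ∀ z w, ∃ c : ℂ, f w = c • f z) →
        ∃ (K : ℝ) (E : Set ℝ), MeasureTheory.volume E < ⊤ ∧ ∀ r, 1 ≤ r → r ∉ E →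
          (1 - (3 * (n : ℝ) + 1) / (n + d)) * ((A.card : ℝ) - ((n + d).choose n : ℝ)) *
              charT f r ≤
            ∑ a ∈ A, Nbar (fun z => ∑ i, a i * f z i) r +
              K * (Real.posLog (charT f r) + Real.log r + 1)) ∧
      ((∀ v : Fin (n + 1) → Fin (n + 1) → ℂ, (∀ k, v k ∈ A) → Function.Injective v →
          LinearIndependent ℂ v) →
        ∀ f : ℂ → Fin (n + 1) → ℂ, Differentiable ℂ f → (∀ z, f z ≠ 0) →
          LinearIndependent ℂ (fun (i : Fin (n + 1)) z => f z i) →
          ∃ (K : ℝ) (E : Set ℝ), MeasureTheory.volume E < ⊤ ∧ ∀ r, 1 ≤ r → r ∉ E →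
            ((A.card : ℝ) - (n + 1) - 2 * n / (n + d) * A.card) * charT f r ≤
              ∑ a ∈ A, Nbar (fun z => ∑ i, a i * f z i) r +
                K * (Real.posLog (charT f r) + Real.log r + 1)) ∧
      ∀ (m e : ℕ) (S : Set (MvPolynomial (Fin (m + 1)) ℂ))
        (φ : Fin (n + 1) → MvPolynomial (Fin (m + 1)) ℂ),
        (∀ p ∈ S, ∃ d' : ℕ, p.IsHomogeneous d') → (∀ i, (φ i).IsHomogeneous e) →
        (∀ ρ : ℝ, 0 ≤ ρ →
          ρ * A.card <
            (1 - (3 * (n : ℝ) + 1) / (n + d)) * ((A.card : ℝ) - ((n + d).choose n : ℝ)) →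
          (RamifiedOnAverage ρ S φ (A.image lin) ∨
            ∃ M : ℕ, ρ = (M : ℝ) / (M + 1) ∧
              (∀ x : Fin (n + 1) → ℂ, x ≠ 0 → ∀ B ⊆ A, (∀ b ∈ B, ∑ i, b i * x i = 0) →
                B.card ≤ M) ∧
              Ramified S φ (A.image lin)) →
          CurvesIn S (MvPolynomial.aeval φ (∏ a ∈ A, lin a)) φ ∧
          (GGL m (insert (MvPolynomial.aeval φ (∏ a ∈ A, lin a)) S) →
            (∀ t : Fin (n + 1) → ℂ, t ≠ 0 → GGL m (Fibre S φ t)) → GGL m S)) ∧
        (4 * n + 2 ≤ d → (∀ a ∈ A, Multiple S φ a) →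
          (∀ f : ℂ → (Fin (m + 1) → ℂ), Differentiable ℂ f → (∀ z, f z ≠ 0) →
            (∀ z, ∀ p ∈ S, MvPolynomial.eval (f z) p = 0) →
            ∃ t : Fin (n + 1) → ℂ, t ≠ 0 ∧
              ∀ z, ∀ p ∈ Fibre S φ t, MvPolynomial.eval (f z) p = 0) ∧
          ((∀ t : Fin (n + 1) → ℂ, t ≠ 0 → GGL m (Fibre S φ t)) → GGL m S)) := by
  intro n d A hn hd hcard huni
  refine ⟨fun f hf hf0 hnc => hyp_sum_all hd A hcard huni f hf hf0 hnc, ?_, ?_⟩
  · intro hgp f hf hf0 hli
    exact hyp_general hn hd A hcard hgp huni f hf hf0 hli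
  intro m e S φ _ _
  refine ⟨fun ρ hρ0 hρ hR => ?_, fun hd4 hA => ?_⟩
  · have key2 : CurvesIn S (MvPolynomial.aeval φ (∏ a ∈ A, lin a)) φ :=
      hyp_ram_all hd A hcard huni hρ0 hρ S φ hR
    exact ⟨key2, ggl_of_curves key2⟩
  · have key := mult_curves m n e S φ fun P hP h0 =>
      deg_reduce hd4 A hcard huni P hP fun a ha => h0 a (hA a ha)
    exact ⟨key, ggl_of_fibres key⟩

end Pool.Agent.LO.LevelOneHyperplanesRes
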