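import Pool.Agent.Lib_MP_b9fedf_lo.LoPack

/-! Piece LO-3: many forms of one degree. -/

set_option autoImplicit false

namespace Pool.Agent.LO
open MvPolynomial Pool.Agent.GGL Pool.Agent.SQ Pool.Agent.Stat Pool.Agent.QY

section
open Filter Metric Real Set Function MeromorphicOn ValueDistribution

/-- The characteristic is bounded below. -/
private theorem lf_below {n : ℕ} {f : ℂ → Fin (n + 1) → ℂ} (hf : Differentiable ℂ f)
    (hf0 : ∀ z, f z ≠ 0) : ∃ c : ℝ, ∀ r, 1 ≤ r → c ≤ charT f r := by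
  obtain ⟨k, hk⟩ : ∃ k, f 0 k ≠ 0 := by
    by_contra hcon
    push Not at hcon
    exact hf0 0 (funext hcon)
  have hg : ∀ a, Differentiable ℂ (fun z => f z a) := fun a => differentiable_pi.1 hf a
  refine ⟨Real.log ‖meromorphicTrailingCoeffAt (fun z => f z k) 0‖, fun r hr => ?_⟩
  have hr0 : 0 < r := by linarith
  have h1 := jensen (mero_of_diff (hg k)) hr
  have h2 : 0 ≤ Function.locallyFinsuppWithin.logCounting (Dv (fun z => f z k)) r := by
    apply Function.locallyFinsuppWithin.logCounting_nonneg _ hr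
    intro z
    rw [Dv_apply (hg k)]
    exact Int.natCast_nonneg _
  have h3 : circleAverage (fun z => Real.log ‖f z k‖) 0 r ≤
      circleAverage (fun z => Real.log ‖fun a => f z a‖) 0 r := by
    apply circleAverage_mono_codiscrete hr0 (log_integrable (mero_of_diff (hg k)) r)
      (vec_integrable hg r)
    filter_upwards [nonzero_codiscrete (hg k) ⟨0, hk⟩ r] with z hz
    exact Real.log_le_log (norm_pos_iff.2 hz) (norm_le_pi_norm (fun a => f z a) k)
  show _ ≤ circleAverage (fun z => Real.log ‖f z‖) 0 r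
  linarith

end

/-- `Nbar` is nonnegative. -/
private theorem lf_nbar (W : ℂ → ℂ) {r : ℝ} (hr : 1 ≤ r) : 0 ≤ Nbar W r := by
  unfold Nbar
  refine finsum_mem_induction (fun x : ℝ => 0 ≤ x) le_rfl (fun x y hx hy => add_nonneg hx hy)
    fun a ha => ?_
  apply Real.log_nonneg
  rw [one_le_div (by positivity)]
  exact max_le hr ha.1

private theorem lf_one {n : ℕ} (ε : ℝ) (q : Ideal (MvPolynomial (Fin (n + 1)) ℂ)) :
    LevelOne ε q ∅ 1 := by
  intro f _ _ _ _ _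
  refine ⟨0, ∅, by simp, fun r _ _ => ?_⟩
  simp

private theorem lf_union {n : ℕ} {ε : ℝ} {q : Ideal (MvPolynomial (Fin (n + 1)) ℂ)}
    {D D' : Finset (MvPolynomial (Fin (n + 1)) ℂ)} [DecidableEq (MvPolynomial (Fin (n + 1)) ℂ)]
    (hdis : Disjoint D D')
    {Z Z' : MvPolynomial (Fin (n + 1)) ℂ} (h : LevelOne ε q D Z) (h' : LevelOne ε q D' Z') :
    LevelOne ε q (D ∪ D') (Z * Z') := by
  intro f hf hf0 hfq hfZ hnc
  obtain ⟨z, hz⟩ := hfZ
  rw [map_mul] at hz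
  obtain ⟨K, E, hE, hKE⟩ := h f hf hf0 hfq ⟨z, left_ne_zero_of_mul hz⟩ hnc
  obtain ⟨K', E', hE', hKE'⟩ := h' f hf hf0 hfq ⟨z, right_ne_zero_of_mul hz⟩ hnc
  refine ⟨K + K', E ∪ E', (MeasureTheory.measure_union_le _ _).trans_lt
    (ENNReal.add_lt_top.2 ⟨hE, hE'⟩), fun r hr hrE => ?_⟩
  rw [Set.mem_union, not_or] at hrE
  have h1 := hKE r hr hrE.1
  have h2 := hKE' r hr hrE.2
  rw [Finset.sum_union hdis, Finset.sum_union hdis]
  calc _ = (1 - ε) * (∑ P ∈ D, (P.totalDegree : ℝ)) * charT f r +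
        (1 - ε) * (∑ P ∈ D', (P.totalDegree : ℝ)) * charT f r := by ring
    _ ≤ _ := add_le_add h1 h2
    _ = _ := by ring

/-- the greedy choice -/
private theorem lf_greedy (n e M N₁ : ℕ) (q : Ideal (MvPolynomial (Fin (n + 1)) ℂ))
    (hq : q.IsPrime) {η : ℝ}
    (hpack : ∀ D : Finset (MvPolynomial (Fin (n + 1)) ℂ),
      (∀ P ∈ D, P.IsHomogeneous e ∧ RedOn q P) →
      (∀ P ∈ D, ∀ P' ∈ D, ∀ c : ℂ, P' - C c * P ∈ q → P' = P) →
      (∀ x : Fin (n + 1) → ℂ, x ≠ 0 → (∀ g ∈ q, eval x g = 0) → ∀ D' ⊆ D,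
        (∀ P ∈ D', eval x P = 0) → D'.card ≤ M) →
      N₁ < D.card →
      ∃ (D₁ : Finset (MvPolynomial (Fin (n + 1)) ℂ)) (d : ℕ) (Z : MvPolynomial (Fin (n + 1)) ℂ),
        D₁ ⊆ D ∧ D₁.Nonempty ∧ Z ∉ q ∧ Z.IsHomogeneous d ∧ LevelOne η q D₁ Z) (k : ℕ) :
    ∀ D : Finset (MvPolynomial (Fin (n + 1)) ℂ), D.card = k →
      (∀ P ∈ D, P.IsHomogeneous e ∧ RedOn q P) →
      (∀ P ∈ D, ∀ P' ∈ D, ∀ c : ℂ, P' - C c * P ∈ q → P' = P) →
      (∀ x : Fin (n + 1) → ℂ, x ≠ 0 → (∀ g ∈ q, eval x g = 0) → ∀ D' ⊆ D,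
        (∀ P ∈ D', eval x P = 0) → D'.card ≤ M) →
      ∃ (D' : Finset (MvPolynomial (Fin (n + 1)) ℂ)) (d : ℕ) (Z : MvPolynomial (Fin (n + 1)) ℂ),
        D' ⊆ D ∧ D.card ≤ D'.card + N₁ ∧ Z ∉ q ∧ Z.IsHomogeneous d ∧ LevelOne η q D' Z := by
  classical
  induction k using Nat.strong_induction_on with
  | _ k ih =>
    intro D hDk h1 h2 h3
    by_cases hc : N₁ < D.card
    · obtain ⟨D₁, d₁, Z₁, hD₁, hne, hZ₁, hh₁, hL₁⟩ := hpack D h1 h2 h3 hc
      have hlt : (D \ D₁).card < k := by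
        rw [← hDk]
        exact Finset.card_lt_card (Finset.sdiff_ssubset hD₁ hne)
      have hsub : D \ D₁ ⊆ D := Finset.sdiff_subset
      obtain ⟨D', d', Z', hD', hcard, hZ', hh', hL'⟩ := ih _ hlt (D \ D₁) rfl
        (fun P hP => h1 P (hsub hP)) (fun P hP P' hP' => h2 P (hsub hP) P' (hsub hP'))
        (fun x hx hxq D'' hD'' => h3 x hx hxq D'' (hD''.trans hsub))
      have hdis : Disjoint D₁ D' := by
        rw [Finset.disjoint_left]
        intro P hP hP'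
        exact (Finset.mem_sdiff.1 (hD' hP')).2 hP
      refine ⟨D₁ ∪ D', d₁ + d', Z₁ * Z', Finset.union_subset hD₁ (hD'.trans hsub), ?_, ?_,
        hh₁.mul hh', lf_union hdis hL₁ hL'⟩
      · rw [Finset.card_union_of_disjoint hdis]
        have h4 := Finset.card_sdiff_add_card_eq_card hD₁
        omega
      · intro h4
        rcases hq.mem_or_mem h4 with h5 | h5
        · exact hZ₁ h5
        · exact hZ' h5
    · refine ⟨∅, 0, 1, Finset.empty_subset _, ?_, ?_, isHomogeneous_one _ _, lf_one η q⟩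
      · rw [Finset.card_empty]
        omega
      · exact (Ideal.ne_top_iff_one q).1 hq.ne_top

/-- PIECE LO-3. Proof.  Let `η' = η / 2` (then `(1 - η')^2 ≥ 1 - η`), `N₁` from `lo_pack` for `η'`,
`N₀` with `N₁ ≤ η' N₀`.  By strong induction on `|D|`: every `D` as in `lo_pack` has a subset `D'` with
`|D| ≤ |D'| + N₁`, and `Z ∉ q` homogeneous with `LevelOne η' q D' Z` (if `|D| ≤ N₁`: `D' = ∅`, `Z = 1`, `K = 0`,
`E = ∅`; otherwise `D₁` from `lo_pack`, the induction hypothesis for `D \ D₁` gives `D'`, `Z'`; take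
`D₁ ∪ D'`, `Z Z'`, `E ∪ E'`, `K + K'`: the sums over disjoint sets add up; `Z Z'(f(z)) ≠ 0` for some `z`
gives both conditions).  Then for `D` with `|D| > N₀`: `(1 - η) e |D| ≤ (1 - η') e |D'|` and
`∑_(D') Nbar ≤ ∑_D Nbar` (`Nbar_nonneg`, Lib_MP_b9fedf_st/Final3.lean, or directly: all terms are
nonnegative for `r ≥ 1`).  `charT f r` is bounded below: `charT f r ≥ c` for `r ≥ 1`
(circle average of `log |f_k|`, `jensen`, `logCounting_nonneg`, as in Key3.lean, `hA`); so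
`(1 - η) e |D| charT f r ≤ (1 - η') e |D'| charT f r + constant`.  Sum of the total degrees is `e |D|`. -/
theorem lo_forms (n e M : ℕ) (he : 1 ≤ e) (q : Ideal (MvPolynomial (Fin (n + 1)) ℂ))
    (hq : q.IsPrime) (hqh : HomI q) {η : ℝ} (hη : 0 < η) (hη1 : η < 1) :
    ∃ N₀ : ℕ, ∀ D : Finset (MvPolynomial (Fin (n + 1)) ℂ),
      (∀ P ∈ D, P.IsHomogeneous e ∧ RedOn q P) →
      (∀ P ∈ D, ∀ P' ∈ D, ∀ c : ℂ, P' - C c * P ∈ q → P' = P) →
      (∀ x : Fin (n + 1) → ℂ, x ≠ 0 → (∀ g ∈ q, eval x g = 0) → ∀ D' ⊆ D,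
        (∀ P ∈ D', eval x P = 0) → D'.card ≤ M) →
      N₀ < D.card →
      ∃ (d : ℕ) (Z : MvPolynomial (Fin (n + 1)) ℂ), Z ∉ q ∧ Z.IsHomogeneous d ∧
        LevelOne η q D Z := by
  obtain ⟨η', hη'⟩ : ∃ η' : ℝ, η' = η / 2 := ⟨_, rfl⟩
  have hη0 : 0 < η' := by rw [hη']; positivity
  have hη1' : η' < 1 := by rw [hη']; linarith
  obtain ⟨N₁, hN₁⟩ := lo_pack n e M he q hq hqh hη0 hη1'
  obtain ⟨N₀, hN₀⟩ : ∃ N₀ : ℕ, (N₁ : ℝ) / η' ≤ N₀ := exists_nat_ge _
  rw [div_le_iff₀ hη0] at hN₀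
  refine ⟨N₀, fun D h1 h2 h3 hcard => ?_⟩
  obtain ⟨D', d, Z, hD', hc', hZ, hh, hL⟩ := lf_greedy n e M N₁ q hq hN₁ D.card D rfl h1 h2 h3
  refine ⟨d, Z, hZ, hh, ?_⟩
  have hdeg : ∀ P ∈ D, P.totalDegree = e := by
    intro P hP
    refine (h1 P hP).1.totalDegree ?_
    rintro rfl
    exact (h1 0 hP).2.1 q.zero_mem
  have hs : ∑ P ∈ D, (P.totalDegree : ℝ) = D.card * e := by
    rw [Finset.sum_congr rfl fun P hP => by rw [hdeg P hP], Finset.sum_const, nsmul_eq_mul]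
  have hs' : ∑ P ∈ D', (P.totalDegree : ℝ) = D'.card * e := by
    rw [Finset.sum_congr rfl fun P hP => by rw [hdeg P (hD' hP)], Finset.sum_const, nsmul_eq_mul]
  have hcR : (D.card : ℝ) ≤ D'.card + N₁ := by exact_mod_cast hc'
  have hNR : (N₀ : ℝ) ≤ D.card := by exact_mod_cast hcard.le
  have heR : (0 : ℝ) < e := by exact_mod_cast he
  obtain ⟨δ, hδ⟩ : ∃ δ : ℝ, δ = (1 - η') * (D'.card * e) - (1 - η) * (D.card * e) := ⟨_, rfl⟩
  have hδ0 : 0 ≤ δ := by
    have h4 : (N₁ : ℝ) ≤ D.card * η' := hN₀.trans (mul_le_mul_of_nonneg_right hNR hη0.le)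
    have h5 : (D.card : ℝ) * (1 - η') ≤ D'.card := by linarith
    have h6 : (1 - η) * D.card ≤ (1 - η') * D'.card := by
      have h7 : (1 - η') * (D.card * (1 - η')) ≤ (1 - η') * D'.card :=
        mul_le_mul_of_nonneg_left h5 (by linarith)
      have h8 : (1 - η) * D.card ≤ (1 - η') * (D.card * (1 - η')) := by
        have h9 : (1 - η') * (D.card * (1 - η')) - (1 - η) * D.card = η' ^ 2 * D.card := by
          rw [hη']
          ring
        have h10 : 0 ≤ η' ^ 2 * (D.card : ℝ) := by positivity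
        linarith
      linarith
    have h7 := mul_le_mul_of_nonneg_right h6 heR.le
    rw [hδ]
    linarith
  intro f hf hf0 hfq hfZ hnc
  obtain ⟨K, E, hE, hKE⟩ := hL f hf hf0 hfq hfZ hnc
  obtain ⟨c, hc⟩ := lf_below hf hf0
  refine ⟨|K| + δ * |c|, E, hE, fun r hr hrE => ?_⟩
  have h4 := hKE r hr hrE
  have h5 := hc r hr
  rw [hs'] at h4
  rw [hs]
  have h6 : ∑ P ∈ D', Nbar (fun z => eval (f z) P) r ≤ ∑ P ∈ D, Nbar (fun z => eval (f z) P) r :=
    Finset.sum_le_sum_of_subset_of_nonneg hD' fun P _ _ => lf_nbar _ hr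
  obtain ⟨L, hLd⟩ : ∃ L : ℝ, L = Real.posLog (charT f r) + Real.log r + 1 := ⟨_, rfl⟩
  have hL1 : 1 ≤ L := by
    have h7 := Real.posLog_nonneg (x := charT f r)
    have h8 := Real.log_nonneg hr
    linarith
  rw [← hLd] at h4 ⊢
  have h7 : K * L ≤ |K| * L := mul_le_mul_of_nonneg_right (le_abs_self K) (by linarith)
  have h8 : -(δ * |c|) ≤ δ * charT f r := by
    have h9 : -|c| ≤ charT f r := (neg_abs_le c).trans h5
    have h10 := mul_le_mul_of_nonneg_left h9 hδ0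
    linarith
  have h9 : δ * |c| ≤ δ * |c| * L := le_mul_of_one_le_right (by positivity) hL1
  have h10 : (1 - η) * (D.card * e) * charT f r =
      (1 - η') * (D'.card * e) * charT f r - δ * charT f r := by
    rw [hδ]
    ring
  rw [h10]
  linarith

end Pool.Agent.LO
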