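import Pool.Agent.Lib_MP_b9fedf_lo.AbsPackY
import Pool.Agent.Lib_MP_b9fedf_lo.CharForms
import Pool.Agent.Lib_MP_b9fedf_qy.ManyY
import Pool.Agent.Lib_MP_b9fedf_qy.FiniteMapY

/-! Piece LO-2: one package of forms. -/

set_option autoImplicit false

namespace Pool.Agent.LO
open MvPolynomial Pool.Agent.GGL Pool.Agent.SQ Pool.Agent.Stat Pool.Agent.QY

/-- the last step: from `ψ(f)` to `f` -/
private theorem fin_lop {e N t s C₂ C η S r : ℝ} (hr : 1 ≤ r) (he : 0 ≤ e) (hN : 0 ≤ N)
    (hη : η < 1) (h1 : e * t ≤ s + C₂) (h2 : s ≤ e * t + C₂)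
    (h : (1 - η) * N * s ≤ S + C * (Real.posLog s + Real.log r + 1)) :
    (1 - η) * (e * N) * t ≤ S + (|C| * (Real.log 2 + Real.posLog e + Real.posLog C₂ + 1) +
      |(1 - η) * N * C₂|) * (Real.posLog t + Real.log r + 1) := by
  have hlr : 0 ≤ Real.log r := Real.log_nonneg hr
  have hpt := Real.posLog_nonneg (x := t)
  have hpe := Real.posLog_nonneg (x := e)
  have hpC := Real.posLog_nonneg (x := C₂)
  have hl2 : 0 ≤ Real.log 2 := Real.log_nonneg (by norm_num)
  have hC₂ : 0 ≤ C₂ := by linarith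
  -- the positive logarithm
  have hs : Real.posLog s ≤ Real.log 2 + (Real.posLog e + Real.posLog t) + Real.posLog C₂ := by
    have h3 : Real.posLog s ≤ Real.log 2 + Real.posLog (e * t) + Real.posLog (s - e * t) := by
      have h4 := Real.posLog_add (x := e * t) (y := s - e * t)
      rwa [show e * t + (s - e * t) = s by ring] at h4
    have h5 : Real.posLog (s - e * t) ≤ Real.posLog C₂ := by
      rw [← Real.posLog_abs (s - e * t)]
      exact Real.posLog_le_posLog (abs_nonneg _) (abs_le.2 ⟨by linarith, by linarith⟩)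
    have h6 := Real.posLog_mul (x := e) (y := t)
    linarith
  have hA : (1 - η) * (e * N) * t ≤ (1 - η) * N * s + (1 - η) * N * C₂ := by
    have h7 : 0 ≤ (1 - η) * N := mul_nonneg (by linarith) hN
    have h8 := mul_le_mul_of_nonneg_left h1 h7
    linarith
  have hB : C * (Real.posLog s + Real.log r + 1) ≤
      |C| * (Real.log 2 + Real.posLog e + Real.posLog C₂ + 1) *
        (Real.posLog t + Real.log r + 1) := by
    have h9 : C * (Real.posLog s + Real.log r + 1) ≤ |C| * (Real.posLog s + Real.log r + 1) :=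
      mul_le_mul_of_nonneg_right (le_abs_self C)
        (by have := Real.posLog_nonneg (x := s); linarith)
    have h10 : Real.posLog s + Real.log r + 1 ≤
        (Real.log 2 + Real.posLog e + Real.posLog C₂ + 1) * (Real.posLog t + Real.log r + 1) := by
      have h11 : 0 ≤ (Real.log 2 + Real.posLog e + Real.posLog C₂) *
          (Real.posLog t + Real.log r) := mul_nonneg (by linarith) (by linarith)
      nlinarith
    rw [mul_assoc]
    exact h9.trans (mul_le_mul_of_nonneg_left h10 (abs_nonneg C))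
  have hD : (1 - η) * N * C₂ ≤ |(1 - η) * N * C₂| * (Real.posLog t + Real.log r + 1) :=
    (le_abs_self _).trans (le_mul_of_one_le_right (abs_nonneg _) (by linarith))
  linarith

/-- a curve which is proportional to a constant vector is constant -/
private theorem const_lop {n : ℕ} {f : ℂ → Fin (n + 1) → ℂ} (hf0 : ∀ z, f z ≠ 0)
    {v : Fin (n + 1) → ℂ} (hv0 : v ≠ 0) (hv : ∀ z i j, v i * f z j = v j * f z i) :
    ∀ z w, ∃ c : ℂ, f w = c • f z := by
  obtain ⟨i₀, hi₀⟩ : ∃ i, v i ≠ 0 := by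
    by_contra hn
    push Not at hn
    exact hv0 (funext hn)
  have h1 : ∀ z, f z i₀ ≠ 0 := by
    intro z hz
    apply hf0 z
    funext j
    have h2 := hv z i₀ j
    rw [hz, mul_zero] at h2
    exact (mul_eq_zero.mp h2).resolve_left hi₀
  intro z w
  refine ⟨f w i₀ / f z i₀, ?_⟩
  funext j
  have h2 := hv z i₀ j
  have h3 := hv w i₀ j
  have hz := h1 z
  show f w j = f w i₀ / f z i₀ * f z j
  have h4 : v i₀ * f z i₀ * f w j = v i₀ * (f w i₀ * f z j) := by
    linear_combination (f z i₀) * h3 - (f w i₀) * h2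
  rw [mul_assoc] at h4
  have h5 := mul_left_cancel₀ hi₀ h4
  field_simp
  linear_combination h5

/-- PIECE LO-2. One package in a large set of forms of one degree.  Proof.  As `many_y`
(Lib_MP_b9fedf_qy/ManyY.lean; copy its proof up to the application of `curve_y`): basis `P_i` of the
forms of degree `e` modulo `q`, coefficient vectors `κ Q`, `N₀` from `abs_pack_y` with this `M` instead of
`curve_y`.  `D₁ = D.filter (κ Q ∈ Q')`, `Q'` the set `Q` of `abs_pack_y`; `Z` := its `Z` times the product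
of the members of `D₁` (each `∉ q` by `RedOn`, `q` prime).  For `f` as in `LevelOne`: `F k = ⟨f_k, _⟩ : Ent`,
`ent_aeval`.  Members of `D₁` do not vanish identically on `f` as they divide `Z`.  The forms
`ψ = pullP T P` have no common zero `x ≠ 0` on `V(q)`: otherwise all `Q ∈ D` with `κ Q ∈ A₁` vanish at `x`
(`pullP_sum`, `hκ`), more than `M` of them (see the end of the proof of
Results/MP_b9fedf_ag/ManyHypersurfaces.lean, `hbase`).  So `ψ(f)` has no zeros; it is not
proportional to a constant vector `t` by `finite_map_y` (Lib_MP_b9fedf_qy/FiniteMapY.lean), as `f` is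
not constant.  `abs_pack_y` bounds `(1 - η) |Q'| TF(ψ(f))`; `TF (fun i z => ..) r = charT (fun z i => ..) r`
by definition; `charT_forms`: `e charT f r ≤ charT (ψ f) r + C ≤ e charT f r + 2 C`; `posLog` of the
latter is at most `posLog (charT f r) + C'` (`Real.posLog_add_le`, ..).
`∑ P ∈ D₁, P.totalDegree = e |D₁|` (`IsHomogeneous.totalDegree`, members are not zero), and
`|D₁| = |Q'|` (`κ` is injective on `D`, `Q' ⊆ D.image κ`).  If `1 - η` multiplies a negative `charT` nothing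
happens: all constants go into `K`, `1 ≤ posLog _ + log r + 1`. -/
theorem lo_pack (n e M : ℕ) (he : 1 ≤ e) (q : Ideal (MvPolynomial (Fin (n + 1)) ℂ))
    (hq : q.IsPrime) (hqh : HomI q) {η : ℝ} (hη : 0 < η) (hη1 : η < 1) :
    ∃ N₀ : ℕ, ∀ D : Finset (MvPolynomial (Fin (n + 1)) ℂ),
      (∀ P ∈ D, P.IsHomogeneous e ∧ RedOn q P) →
      (∀ P ∈ D, ∀ P' ∈ D, ∀ c : ℂ, P' - C c * P ∈ q → P' = P) →
      (∀ x : Fin (n + 1) → ℂ, x ≠ 0 → (∀ g ∈ q, eval x g = 0) → ∀ D' ⊆ D,
        (∀ P ∈ D', eval x P = 0) → D'.card ≤ M) →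
      N₀ < D.card →
      ∃ (D₁ : Finset (MvPolynomial (Fin (n + 1)) ℂ)) (d : ℕ) (Z : MvPolynomial (Fin (n + 1)) ℂ),
        D₁ ⊆ D ∧ D₁.Nonempty ∧ Z ∉ q ∧ Z.IsHomogeneous d ∧ LevelOne η q D₁ Z := by
  classical
  by_cases htr : Tr q 2
  swap
  · refine ⟨1, fun D hD hD' _ hcard => ?_⟩
    exfalso
    obtain ⟨P, hP, P', hP', hne⟩ := Finset.one_lt_card.mp hcard
    exact htr (tr_two_forms hq hqh P P' (hD P hP).1 (hD P' hP').1 (hD P hP).2.1
      fun c hc => hne (hD' P hP P' hP' c hc).symm)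
  obtain ⟨m', P, hPh, hPi, hPs⟩ := exists_basis_q (e := e) q
  rcases Nat.eq_zero_or_pos m' with rfl | hm'
  · refine ⟨0, fun D hD hD' _ hcard => ?_⟩
    exfalso
    obtain ⟨Q, hQ⟩ := Finset.card_pos.mp hcard
    obtain ⟨c, hc⟩ := hPs Q (hD Q hQ).1
    rw [Finset.univ_eq_empty, Finset.sum_empty, sub_zero] at hc
    exact (hD Q hQ).2.1 hc
  obtain ⟨m, rfl⟩ : ∃ m, m' = m + 1 := ⟨m' - 1, by omega⟩
  obtain ⟨e₂, he₂⟩ := good_uniform hq hqh htr P hPh
  have hPs' : ∀ Q : MvPolynomial (Fin (n + 1)) ℂ, ∃ c : Fin (m + 1) → ℂ,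
      Q.IsHomogeneous e → Q - ∑ l, C (c l) * P l ∈ q := by
    intro Q
    by_cases hQ : Q.IsHomogeneous e
    · obtain ⟨c, hc⟩ := hPs Q hQ
      exact ⟨c, fun _ => hc⟩
    · exact ⟨0, fun h => absurd h hQ⟩
  choose κ hκ using hPs'
  obtain ⟨N₀, hN₀⟩ := abs_pack_y n e M m e₂ hη hη1
  refine ⟨N₀, fun D hD hD' hpos hcard => ?_⟩
  -- linear relations modulo `q`
  have hrel : ∀ Q ∈ D, ∀ Q' ∈ D, ∀ α β : ℂ, α • κ Q + β • κ Q' = 0 →
      C α * Q + C β * Q' ∈ q := by
    intro Q hQ Q' hQ' α β h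
    have h1 := Ideal.add_mem _ (Ideal.mul_mem_left _ (C α) (hκ Q (hD Q hQ).1))
      (Ideal.mul_mem_left _ (C β) (hκ Q' (hD Q' hQ').1))
    have h2 : C α * ∑ l, C (κ Q l) * P l + C β * ∑ l, C (κ Q' l) * P l = 0 := by
      rw [Finset.mul_sum, Finset.mul_sum, ← Finset.sum_add_distrib]
      apply Finset.sum_eq_zero
      intro l _
      have h3 := congrFun h l
      simp only [Pi.add_apply, Pi.smul_apply, smul_eq_mul, Pi.zero_apply] at h3
      rw [← mul_assoc, ← mul_assoc, ← map_mul, ← map_mul, ← add_mul, ← map_add, h3, map_zero,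
        zero_mul]
    have h3 : C α * (Q - ∑ l, C (κ Q l) * P l) + C β * (Q' - ∑ l, C (κ Q' l) * P l) =
        C α * Q + C β * Q' - (C α * ∑ l, C (κ Q l) * P l + C β * ∑ l, C (κ Q' l) * P l) := by
      ring
    rw [h3, h2, sub_zero] at h1
    exact h1
  have hpair : ∀ Q ∈ D, ∀ Q' ∈ D, Q ≠ Q' → ∀ α β : ℂ, α • κ Q + β • κ Q' = 0 →
      α = 0 ∧ β = 0 := by
    intro Q hQ Q' hQ' hne α β h
    have h1 := hrel Q hQ Q' hQ' α β h
    have hβ : β = 0 := by
      by_contra hβ
      apply hne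
      refine (hD' Q hQ Q' hQ' (-(α / β)) ?_).symm
      have h2 := Ideal.mul_mem_left _ (C β⁻¹) h1
      have h3 : C β⁻¹ * (C α * Q + C β * Q') = Q' - C (-(α / β)) * Q := by
        rw [mul_add, ← mul_assoc, ← mul_assoc, ← map_mul, ← map_mul, inv_mul_cancel₀ hβ, map_one,
          one_mul, map_neg, neg_mul, sub_neg_eq_add, div_eq_inv_mul]
        exact add_comm _ _
      rwa [h3] at h2
    refine ⟨?_, hβ⟩
    by_contra hα
    apply (hD Q hQ).2.1
    rw [hβ, map_zero, zero_mul, add_zero] at h1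
    have h2 := Ideal.mul_mem_left _ (C α⁻¹) h1
    rwa [← mul_assoc, ← map_mul, inv_mul_cancel₀ hα, map_one, one_mul] at h2
  have hinj : Set.InjOn κ D := by
    intro Q hQ Q' hQ' h
    by_contra hne
    exact one_ne_zero (hpair Q hQ Q' hQ' hne 1 (-1) (by rw [h]; simp)).1
  have hPW : PW (D.image κ) := by
    intro a ha
    obtain ⟨Q, hQ, rfl⟩ := Finset.mem_image.mp ha
    refine ⟨?_, ?_⟩
    · intro h0
      apply (hD Q hQ).2.1
      have h1 := hκ Q (hD Q hQ).1
      rw [h0] at h1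
      have h2 : ∑ l, C ((0 : Fin (m + 1) → ℂ) l) * P l = 0 :=
        Finset.sum_eq_zero fun l _ => by rw [Pi.zero_apply, map_zero, zero_mul]
      rwa [h2, sub_zero] at h1
    · intro y hy hne
      obtain ⟨Q', hQ', rfl⟩ := Finset.mem_image.mp hy
      rw [LinearIndependent.pair_iff]
      intro α β h
      exact hpair Q hQ Q' hQ' (fun h1 => hne (by rw [h1])) α β h
  obtain ⟨l, T, A₁, Q', dZ, Z, hl, hT, hA₁, hA₁r, hA₁c, hQ'A₁, hQ'ne, hZ0, hZh, hZ⟩ :=
    hN₀ q hq P hPh (D.image κ) hPW (by rw [Finset.card_image_of_injOn hinj]; exact hcard) (by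
      intro a ha
      obtain ⟨Q, hQ, rfl⟩ := Finset.mem_image.mp ha
      exact he₂ _ (redOn_congr (hκ Q (hD Q hQ).1) (hD Q hQ).2))
  -- the members of the package
  obtain ⟨D₁, hD₁⟩ : ∃ D₁, D₁ = D.filter fun R => κ R ∈ Q' := ⟨_, rfl⟩
  have hD₁D : D₁ ⊆ D := by
    rw [hD₁]
    exact Finset.filter_subset _ _
  have hD₁Q : ∀ R ∈ D₁, κ R ∈ Q' := by
    intro R hR
    rw [hD₁] at hR
    exact (Finset.mem_filter.mp hR).2
  have himg : D₁.image κ = Q' := by
    ext a
    constructor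
    · intro ha
      obtain ⟨R, hR, rfl⟩ := Finset.mem_image.mp ha
      exact hD₁Q R hR
    · intro ha
      obtain ⟨R, hR, rfl⟩ := Finset.mem_image.mp (hA₁ (hQ'A₁ ha))
      refine Finset.mem_image.mpr ⟨R, ?_, rfl⟩
      rw [hD₁]
      exact Finset.mem_filter.mpr ⟨hR, ha⟩
  have hinj₁ : Set.InjOn κ D₁ := hinj.mono (by exact_mod_cast hD₁D)
  have hcard₁ : D₁.card = Q'.card := by
    rw [← himg, Finset.card_image_of_injOn hinj₁]
  have hD₁ne : D₁.Nonempty := by
    rw [← Finset.card_pos, hcard₁, Finset.card_pos]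
    exact hQ'ne
  have hprodq : ∏ R ∈ D₁, R ∉ q := by
    intro h
    obtain ⟨R, hR, hRq⟩ := (hq.prod_mem_iff).mp h
    exact (hD R (hD₁D hR)).2.1 hRq
  refine ⟨D₁, dZ + ∑ _R ∈ D₁, e, Z * ∏ R ∈ D₁, R, hD₁D, hD₁ne, ?_,
    hZh.mul (IsHomogeneous.prod _ _ _ fun R hR => (hD R (hD₁D hR)).1), ?_⟩
  · intro h
    exact (hq.mem_or_mem h).elim hZ0 hprodq
  intro f hf hf0 hfq hfZ hfc
  obtain ⟨z₀, hz₀⟩ := hfZ
  rw [map_mul, map_prod] at hz₀
  have hz₀Z : eval (f z₀) Z ≠ 0 := left_ne_zero_of_mul hz₀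
  have hz₀R : ∀ R ∈ D₁, eval (f z₀) R ≠ 0 := fun R hR =>
    (Finset.prod_ne_zero_iff.mp (right_ne_zero_of_mul hz₀)) R hR
  -- the curve in `Ent`
  obtain ⟨F, hF⟩ : ∃ F : Fin (n + 1) → Ent, ∀ k z, (F k).1 z = f z k :=
    ⟨fun k => ⟨fun z => f z k, (differentiable_pi.mp hf) k⟩, fun _ _ => rfl⟩
  have hFev : ∀ (g : MvPolynomial (Fin (n + 1)) ℂ) (z : ℂ),
      (aeval F g : Ent).1 z = eval (f z) g := by
    intro g z
    rw [ent_aeval]
    congr 2
    funext k
    exact hF k z
  have hFq : ∀ g ∈ q, aeval F g = 0 := by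
    intro g hg
    apply Ent.ext'
    intro z
    rw [hFev, hfq g hg z]
    rfl
  -- values of the members of `D`
  have hval : ∀ R ∈ D, ∀ x : Fin (n + 1) → ℂ, (∀ g ∈ q, eval x g = 0) →
      ∑ i, κ R i * eval x (P i) = eval x R := by
    intro R hR x hx
    have h1 := hx _ (hκ R (hD R hR).1)
    rw [map_sub, map_sum, sub_eq_zero] at h1
    rw [h1]
    exact Finset.sum_congr rfl fun i _ => by rw [map_mul, eval_C]
  have hψh : ∀ i, (pullP T P i).IsHomogeneous e := pullP_hom T P hPh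
  have hbase : ∀ x : Fin (n + 1) → ℂ, (∀ g ∈ q, eval x g = 0) →
      (∀ i, eval x (pullP T P i) = 0) → x = 0 := by
    intro x hxq hx
    by_contra hx0
    have h1 := hpos x hx0 hxq (D.filter fun R => κ R ∈ A₁) (Finset.filter_subset _ _) (by
      intro R hR
      obtain ⟨hRD, hRA⟩ := Finset.mem_filter.mp hR
      obtain ⟨v, hv⟩ := hA₁r _ hRA
      rw [← hval R hRD x hxq, ← hv]
      have h2 : ∑ k, C (T v k) * P k = ∑ i, C (v i) * pullP T P i := (pullP_sum T P v).symm
      have h3 : ∑ k, T v k * eval x (P k) = eval x (∑ k, C (T v k) * P k) := by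
        rw [map_sum]
        exact Finset.sum_congr rfl fun k _ => by rw [map_mul, eval_C]
      rw [h3, h2, map_sum]
      exact Finset.sum_eq_zero fun i _ => by rw [map_mul, hx i, mul_zero])
    have h4 : A₁.card ≤ (D.filter fun R => κ R ∈ A₁).card := by
      have h5 : A₁ ⊆ (D.filter fun R => κ R ∈ A₁).image κ := by
        intro y hy
        obtain ⟨R, hR, rfl⟩ := Finset.mem_image.mp (hA₁ hy)
        exact Finset.mem_image.mpr ⟨R, Finset.mem_filter.mpr ⟨hR, hy⟩, rfl⟩
      exact (Finset.card_le_card h5).trans Finset.card_image_le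
    omega
  have hsumE : ∀ (a : Fin (m + 1) → ℂ) (z : ℂ),
      (∑ i, a i • aeval F (P i) : Ent).1 z = ∑ i, a i * eval (f z) (P i) := by
    intro a z
    have h1 : (∑ i, a i • aeval F (P i) : Ent) = aeval F (∑ i, a i • P i) := by
      rw [map_sum]
      exact Finset.sum_congr rfl fun i _ => by rw [map_smul]
    rw [h1, hFev, map_sum]
    exact Finset.sum_congr rfl fun i _ => by rw [smul_eval]
  obtain ⟨C₁, E, hE, hCE⟩ := hZ F hFq (by
      intro a ha
      rw [← himg] at ha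
      obtain ⟨R, hR, rfl⟩ := Finset.mem_image.mp ha
      rw [Ent.ne_zero_iff]
      refine ⟨z₀, ?_⟩
      rw [hsumE, hval R (hD₁D hR) _ (fun g hg => hfq g hg z₀)]
      exact hz₀R R hR) (by
      intro t ht
      by_contra hcon
      push Not at hcon
      apply hfc
      obtain ⟨v, hv0, hv⟩ := finite_map_y he q hqh (pullP T P) hψh hbase
        (fun k z => f z k) (fun k => (differentiable_pi.mp hf) k) (fun g hg z => hfq g hg z) t ht
        (by
          intro z i i'
          have h1 := congrArg (fun u : Ent => u.1 z) (hcon i i')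
          have h2 : t i * (aeval F (pullP T P i') : Ent).1 z =
              t i' * (aeval F (pullP T P i) : Ent).1 z := h1
          rw [hFev, hFev] at h2
          exact h2)
      exact const_lop hf0 hv0 hv) (by
      intro z
      by_contra hcon
      push Not at hcon
      apply hf0 z
      refine hbase (f z) (fun g hg => hfq g hg z) fun i => ?_
      rw [← hFev]
      exact hcon i) (by
      rw [Ent.ne_zero_iff]
      exact ⟨z₀, by rw [hFev]; exact hz₀Z⟩)
  obtain ⟨C₂, hC₂⟩ := charT_forms q (pullP T P) hψh hbase hqh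
  refine ⟨|C₁| * (Real.log 2 + Real.posLog (e : ℝ) + Real.posLog C₂ + 1) +
    |(1 - η) * (Q'.card : ℝ) * C₂|, E, hE, fun r hr hrE => ?_⟩
  have h1 := hCE r hr hrE
  have h2 := hC₂ f hf hf0 hfq r hr
  have hTF : TF (fun i z => (aeval F (pullP T P i) : Ent).1 z) r =
      charT (fun z i => eval (f z) (pullP T P i)) r := by
    have h3 : (fun (i : Fin (l + 1)) (z : ℂ) => (aeval F (pullP T P i) : Ent).1 z) =
        fun i z => eval (f z) (pullP T P i) := by
      funext i z
      exact hFev _ z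
    rw [h3]
    rfl
  rw [hTF] at h1
  have hNb : ∑ a ∈ Q', Nbar (fun z => ∑ i, a i * (aeval F (P i) : Ent).1 z) r =
      ∑ R ∈ D₁, Nbar (fun z => eval (f z) R) r := by
    rw [← himg, Finset.sum_image hinj₁]
    refine Finset.sum_congr rfl fun R hR => ?_
    congr 1
    funext z
    rw [← hval R (hD₁D hR) _ (fun g hg => hfq g hg z)]
    exact Finset.sum_congr rfl fun i _ => by rw [hFev]
  rw [hNb] at h1
  have hdeg : ∑ R ∈ D₁, (R.totalDegree : ℝ) = (e : ℝ) * (Q'.card : ℝ) := by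
    have h3 : ∀ R ∈ D₁, (R.totalDegree : ℝ) = (e : ℝ) := by
      intro R hR
      have h4 : R ≠ 0 := by
        intro h5
        apply (hD R (hD₁D hR)).2.1
        rw [h5]
        exact Ideal.zero_mem _
      rw [(hD R (hD₁D hR)).1.totalDegree h4]
    rw [Finset.sum_congr rfl h3, Finset.sum_const, nsmul_eq_mul, hcard₁, mul_comm]
  rw [hdeg]
  exact fin_lop hr (Nat.cast_nonneg e) (Nat.cast_nonneg _) hη1 h2.1 h2.2 h1

end Pool.Agent.LO
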