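import Pool.Agent.Lib_MP_b9fedf_ag.TanRed
import Pool.Agent.Lib_MP_b9fedf_ag.TanStatement
import Pool.Agent.Lib_MP_b9fedf_ag.Hyper

set_option autoImplicit false

namespace Pool.Agent.LO.MultipleHyperplanesRes

open Pool.Agent.GGL

/-- Let `X = V(S)` be a projective variety and `φ : X ⇢ ℙⁿ` a rational map given by forms of the
same degree.  If the hyperplanes which are multiple on `X` are not contained in a hypersurface of
degree `4n+2` of the dual projective space, then every entire curve in `X` is contained in a fibre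
of `φ`; in particular the statement of Green-Griffiths-Lang holds for `X` if it holds for the
fibres. -/
theorem result :
    ∀ (m n e : ℕ) (S : Set (MvPolynomial (Fin (m + 1)) ℂ))
      (φ : Fin (n + 1) → MvPolynomial (Fin (m + 1)) ℂ),
      (∀ p ∈ S, ∃ d : ℕ, p.IsHomogeneous d) → (∀ i, (φ i).IsHomogeneous e) →
      (∀ P : MvPolynomial (Fin (n + 1)) ℂ, P.IsHomogeneous (4 * n + 2) →
        (∀ a : Fin (n + 1) → ℂ, Multiple S φ a → MvPolynomial.eval a P = 0) → P = 0) →
      (∀ f : ℂ → (Fin (m + 1) → ℂ), Differentiable ℂ f → (∀ z, f z ≠ 0) →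
        (∀ z, ∀ p ∈ S, MvPolynomial.eval (f z) p = 0) →
        ∃ t : Fin (n + 1) → ℂ, t ≠ 0 ∧ ∀ z, ∀ p ∈ Fibre S φ t, MvPolynomial.eval (f z) p = 0) ∧
      ((∀ t : Fin (n + 1) → ℂ, t ≠ 0 → GGL m (Fibre S φ t)) → GGL m S) := by
  intro m n e S φ hS hφ hA
  have key : ∀ f : ℂ → (Fin (m + 1) → ℂ), Differentiable ℂ f → (∀ z, f z ≠ 0) →
        (∀ z, ∀ p ∈ S, MvPolynomial.eval (f z) p = 0) →
        ∃ t : Fin (n + 1) → ℂ, t ≠ 0 ∧
          ∀ z, ∀ p ∈ Fibre S φ t, MvPolynomial.eval (f z) p = 0 := by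
    intro f hf hf0 hfS
    obtain ⟨t, ht0, ht⟩ := tangential {a | Multiple S φ a} hA
      (fun i z => MvPolynomial.eval (f z) (φ i)) (fun i => diff_eval hf (φ i)) (by
        intro a ha z c hc hc' hcon
        have hsh : ∀ u : ℂ → ℂ, analyticOrderAt (fun ζ => u (z + ζ)) 0 = analyticOrderAt u z := by
          intro u
          have h1 := analyticOrderAt_comp_of_deriv_ne_zero (f := u) (g := fun ζ : ℂ => z + ζ)
            (z₀ := 0) (by fun_prop) (by
              rw [deriv_const_add]
              simp)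
          simpa [Function.comp_def] using h1
        refine ha (fun ζ => f (z + ζ)) ?_ ?_ ?_ c ?_ ?_ ?_
        · have h1 : AnalyticAt ℂ f (z + 0) := hf.analyticAt _
          exact h1.fun_comp (f := fun ζ : ℂ => z + ζ) (by fun_prop)
        · exact hf0 _
        · exact Filter.Eventually.of_forall fun ζ => hfS _
        · intro i
          rw [hsh (fun w => MvPolynomial.eval (f w) (φ i))]
          exact hc i
        · obtain ⟨i, hi⟩ := hc'
          refine ⟨i, ?_⟩
          rw [hsh (fun w => MvPolynomial.eval (f w) (φ i))]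
          exact hi
        · rw [hsh (fun w => ∑ i, a i * MvPolynomial.eval (f w) (φ i))]
          exact hcon)
    refine ⟨t, ht0, ?_⟩
    rintro z p (hp | ⟨i, j, rfl⟩)
    · exact hfS z p hp
    · rw [map_sub, map_mul, map_mul, MvPolynomial.eval_C, MvPolynomial.eval_C, sub_eq_zero]
      exact ht z i j
  refine ⟨key, ?_⟩
  intro hfib htor f hf hf0 hfS
  obtain ⟨t, ht0, ht⟩ := key f hf hf0 hfS
  refine hfib t ht0 ?_ f hf hf0 ht
  intro g L hL hspan F hF hF0 hFX hFL
  exact htor g L hL hspan F hF hF0 (fun z p hp => hFX z p (Or.inl hp)) hFL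

end Pool.Agent.LO.MultipleHyperplanesRes
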