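import Pool.Agent.Lib_MP_b9fedf_lo.SmtBasis
import Pool.Agent.Lib_MP_b9fedf_sq.Pkg2
import Pool.Agent.Lib_MP_b9fedf_st.Final3

/-! The package in coordinates (helper17). -/

set_option autoImplicit false

namespace Pool.Agent.LO
open Filter Metric Real Set Function MeromorphicOn ValueDistribution
open Pool.Agent.GGL Pool.Agent.SQ Pool.Agent.Stat

/-! helpers copied from `Lib_MP_b9fedf_sq/Pkg2.lean` -/

private theorem hyper_count_pkg3 {τ : Type} [Fintype τ] {s N : ℕ} (q : Fin N → τ → ℂ)
    (K : Submodule ℂ (Fin N → ℂ)) (hfin : Module.finrank ℂ ((Fin N → ℂ) ⧸ K) = s)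
    (hK2 : ∀ h : τ → ℂ, h ≠ 0 → ∀ γ ∈ K,
      (∀ i, dt (q i) h ≠ 0 → γ i = 0) → γ = 0) (h : τ → ℂ) (hh : h ≠ 0) :
    ((Finset.univ : Finset (Fin N)).filter (fun i => dt (q i) h = 0)).card ≤ s := by
  classical
  set I : Type := {i : Fin N // dt (q i) h = 0} with hI
  have hli : LinearIndependent ℂ (fun i : I => K.mkQ (Pi.single i.1 (1 : ℂ))) := by
    rw [Fintype.linearIndependent_iff]
    intro lam hlam
    set γ : Fin N → ℂ := ∑ i : I, lam i • (Pi.single i.1 (1 : ℂ)) with hγ
    have h1 : γ ∈ K := by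
      rw [← Submodule.Quotient.mk_eq_zero K, ← Submodule.mkQ_apply, hγ, map_sum, ← hlam]
      exact Finset.sum_congr rfl fun i _ => by rw [map_smul]
    have h2 : γ = 0 := by
      apply hK2 h hh γ h1
      intro i hi
      rw [hγ, Finset.sum_apply]
      apply Finset.sum_eq_zero
      intro l _
      rw [Pi.smul_apply, Pi.single_apply, if_neg, smul_zero]
      intro h6
      apply hi
      rw [h6]
      exact l.2
    intro i
    have h4 := congrFun h2 i.1
    rw [hγ, Finset.sum_apply, Finset.sum_eq_single i] at h4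
    · simpa using h4
    · intro l _ hl
      rw [Pi.smul_apply, Pi.single_apply, if_neg, smul_zero]
      intro h6
      exact hl (Subtype.ext h6.symm)
    · intro h6
      exact absurd (Finset.mem_univ _) h6
  have h5 := hli.fintype_card_le_finrank
  rw [hfin] at h5
  exact (Fintype.card_subtype (fun i : Fin N => dt (q i) h = 0)).symm.le.trans h5

/-- coordinates on the span of a family -/
private theorem coords_gen_pkg3 {τ V : Type} [Fintype τ] [Nonempty τ] [AddCommGroup V] [Module ℂ V]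
    (F : τ → V) (hF : ∀ t : τ → ℂ, t ≠ 0 → ∃ i i', t i • F i' ≠ t i' • F i) :
    ∃ (u : ℕ) (G : Fin (u + 1) → V) (lam mu : Fin (u + 1) → τ → ℂ), 1 ≤ u ∧
      u + 1 ≤ Fintype.card τ ∧ LinearIndependent ℂ G ∧ (∀ x, F x = ∑ l, lam l x • G l) ∧
      (∀ l, G l = ∑ x, mu l x • F x) ∧
      ∀ l l', ∑ x, mu l x * lam l' x = if l = l' then 1 else 0 := by
  classical
  set W : Submodule ℂ V := Submodule.span ℂ (Set.range F) with hW
  have hfd : Module.Finite ℂ W := FiniteDimensional.span_of_finite ℂ (Set.finite_range F)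
  have hFW : ∀ x, F x ∈ W := fun x => Submodule.subset_span ⟨x, rfl⟩
  obtain ⟨r, hr⟩ : ∃ r, Module.finrank ℂ W = r := ⟨_, rfl⟩
  let b : Module.Basis (Fin r) ℂ W := Module.finBasisOfFinrankEq ℂ W hr
  obtain ⟨lam, hlam⟩ : ∃ lam : Fin r → τ → ℂ, ∀ x, F x = ∑ l, lam l x • (b l : V) := by
    refine ⟨fun l x => b.repr ⟨F x, hFW x⟩ l, ?_⟩
    intro x
    have h1 := congrArg (Subtype.val) (b.sum_repr ⟨F x, hFW x⟩)
    rw [AddSubmonoidClass.coe_finsetSum] at h1
    exact h1.symm
  have hmu : ∀ l, ∃ c : τ → ℂ, ∑ x, c x • F x = (b l : V) := by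
    intro l
    exact (Submodule.mem_span_range_iff_exists_fun ℂ).mp (b l).2
  choose mu hmu using hmu
  have hGli : LinearIndependent ℂ (fun l => (b l : V)) := by
    have := b.linearIndependent.map' W.subtype (Submodule.ker_subtype W)
    exact this
  have hr2 : 2 ≤ r := by
    by_contra hcon
    have h1 : r = 0 ∨ r = 1 := by omega
    rcases h1 with rfl | rfl
    · obtain ⟨i, i', hne⟩ := hF (fun _ => 1) (by
        intro h0
        exact one_ne_zero (congrFun h0 (Classical.arbitrary τ)))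
      apply hne
      rw [hlam i, hlam i']
      simp
    · by_cases hc : lam 0 = 0
      · obtain ⟨i, i', hne⟩ := hF (fun _ => 1) (by
          intro h0
          exact one_ne_zero (congrFun h0 (Classical.arbitrary τ)))
        apply hne
        rw [hlam i, hlam i']
        simp [hc]
      · obtain ⟨i, i', hne⟩ := hF _ hc
        apply hne
        rw [hlam i, hlam i', Fin.sum_univ_one, Fin.sum_univ_one, smul_smul, smul_smul, mul_comm]
  obtain ⟨u, rfl⟩ : ∃ u, r = u + 1 := ⟨r - 1, by omega⟩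
  refine ⟨u, fun l => (b l : V), lam, mu, by omega, ?_, hGli, hlam, fun l => (hmu l).symm, ?_⟩
  · rw [← hr]
    exact finrank_range_le_card (R := ℂ) F
  · intro l l'
    have h1 : ∑ l', (∑ x, mu l x * lam l' x - if l = l' then 1 else 0) • (b l' : V) = 0 := by
      simp only [sub_smul, Finset.sum_sub_distrib, Finset.sum_smul, mul_smul]
      rw [Finset.sum_comm]
      simp only [← Finset.smul_sum]
      simp only [← hlam, hmu, ite_smul, one_smul, zero_smul, Finset.sum_ite_eq, Finset.mem_univ,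
        if_true, sub_self]
    have h2 := (Fintype.linearIndependent_iff.mp hGli) _ h1 l'
    exact sub_eq_zero.mp h2

/-- linear maps change the characteristic by a bounded term at most -/
theorem TF_linear_le {σ τ : Type} [Fintype σ] [Fintype τ] {F : τ → ℂ → ℂ} {G : σ → ℂ → ℂ}
    (hF : ∀ k, Differentiable ℂ (F k)) (hG : ∀ k, Differentiable ℂ (G k))
    (hF0 : ∀ z, ∃ x, F x z ≠ 0) (lam : σ → τ → ℂ) (h : ∀ x z, F x z = ∑ l, lam l x * G l z) :
    ∃ C : ℝ, 0 ≤ C ∧ ∀ r, TF F r ≤ TF G r + C := by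
  classical
  set K : ℝ := 1 + ∑ x, ∑ l, ‖lam l x‖ with hK
  have hK1 : 1 ≤ K := by
    have : 0 ≤ ∑ x, ∑ l, ‖lam l x‖ :=
      Finset.sum_nonneg fun x _ => Finset.sum_nonneg fun l _ => norm_nonneg _
    linarith
  have hle : ∀ z, ‖fun x => F x z‖ ≤ K * ‖fun l => G l z‖ := by
    intro z
    rw [pi_norm_le_iff_of_nonneg (by positivity)]
    intro x
    rw [h x z]
    refine (norm_sum_le _ _).trans ?_
    have h1 : ∀ l, ‖lam l x * G l z‖ ≤ ‖lam l x‖ * ‖fun l => G l z‖ := by
      intro l
      rw [norm_mul]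
      exact mul_le_mul_of_nonneg_left (norm_le_pi_norm (fun l => G l z) l) (norm_nonneg _)
    refine (Finset.sum_le_sum fun l _ => h1 l).trans ?_
    rw [← Finset.sum_mul]
    apply mul_le_mul_of_nonneg_right _ (norm_nonneg _)
    have h2 : ∑ l, ‖lam l x‖ ≤ ∑ x, ∑ l, ‖lam l x‖ :=
      Finset.single_le_sum (f := fun x => ∑ l, ‖lam l x‖)
        (fun x _ => Finset.sum_nonneg fun l _ => norm_nonneg _) (Finset.mem_univ x)
    linarith
  refine ⟨Real.log K, Real.log_nonneg hK1, fun r => ?_⟩
  have h1 : TF F r ≤ circleAverage (fun z => Real.log ‖fun l => G l z‖ + Real.log K) 0 r := by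
    apply circleAverage_mono (vec_integrable hF r)
      (CircleIntegrable.add (vec_integrable hG r) (circleIntegrable_const _ _ _))
    intro z _
    have h2 : 0 < ‖fun x => F x z‖ := by
      rw [norm_pos_iff]
      intro h3
      obtain ⟨x, hx⟩ := hF0 z
      exact hx (congrFun h3 x)
    have h3 : 0 < ‖fun l => G l z‖ := by
      by_contra hcon
      have h4 : ‖fun l => G l z‖ = 0 := le_antisymm (not_lt.mp hcon) (norm_nonneg _)
      have := hle z
      rw [h4, mul_zero] at this
      linarith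
    have h4 := Real.log_le_log h2 (hle z)
    rw [Real.log_mul (by linarith) h3.ne'] at h4
    show Real.log ‖fun x => F x z‖ ≤ Real.log ‖fun l => G l z‖ + Real.log K
    linarith
  rw [circleAverage_fun_add (vec_integrable hG r) (circleIntegrable_const _ _ _),
    circleAverage_const] at h1
  exact h1

/-- the numbers in `pkg3` -/
theorem pkg3_num {η N κ t T S K c r : ℝ} (hη : 0 < η) (hη1 : η < 1) (hN : 0 ≤ N)
    (hκ : (1 - η / 2) * N ≤ κ) (hc : 0 ≤ c) (hS : 0 ≤ S) (hr : 1 ≤ r) (h1 : T ≤ t + c)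
    (h2 : t ≤ T + c)
    (h : κ * t ≤ (1 + η / 2) * S + K * (Real.posLog t + Real.log r + 1)) :
    (1 - η) * N * T ≤ S + (|K| * (1 + Real.log 2 + Real.posLog c) + N * c) *
      (Real.posLog T + Real.log r + 1) := by
  have hpt : 0 ≤ Real.posLog t := Real.posLog_nonneg
  have hpT : 0 ≤ Real.posLog T := Real.posLog_nonneg
  have hpc : 0 ≤ Real.posLog c := Real.posLog_nonneg
  have hl : 0 ≤ Real.log r := Real.log_nonneg hr
  have hl2 : 0 ≤ Real.log 2 := Real.log_nonneg (by norm_num)
  have h3 : Real.posLog t ≤ Real.log 2 + Real.posLog T + Real.posLog c := by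
    have e1 : Real.posLog t ≤ Real.log 2 + Real.posLog T + Real.posLog (t - T) := by
      have := Real.posLog_add (x := T) (y := t - T)
      rwa [add_sub_cancel] at this
    have e2 : Real.posLog (t - T) ≤ Real.posLog c := by
      rw [← Real.posLog_abs]
      exact Real.posLog_le_posLog (abs_nonneg _) (abs_le.mpr ⟨by linarith, by linarith⟩)
    linarith
  set X : ℝ := Real.posLog T + Real.log r + 1 with hX
  have hX1 : 1 ≤ X := by linarith
  have h4 : K * (Real.posLog t + Real.log r + 1) ≤ |K| * (1 + Real.log 2 + Real.posLog c) * X := by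
    have e1 : Real.posLog t + Real.log r + 1 ≤ (1 + Real.log 2 + Real.posLog c) * X := by
      have e2 : 0 ≤ (Real.log 2 + Real.posLog c) * (X - 1) :=
        mul_nonneg (by linarith) (by linarith)
      nlinarith
    have e3 : K * (Real.posLog t + Real.log r + 1) ≤ |K| * (Real.posLog t + Real.log r + 1) :=
      mul_le_mul_of_nonneg_right (le_abs_self K) (by linarith)
    have e4 := mul_le_mul_of_nonneg_left e1 (abs_nonneg K)
    rw [← mul_assoc] at e4
    linarith
  have h5 : (1 - η) * N * T ≤ (1 - η) * N * t + N * c := by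
    have e1 : 0 ≤ (1 - η) * N := mul_nonneg (by linarith) hN
    have e2 := mul_le_mul_of_nonneg_left h1 e1
    have e3 : (1 - η) * N * c ≤ N * c := by
      apply mul_le_mul_of_nonneg_right _ hc
      nlinarith
    linarith
  have h6 : N * c ≤ N * c * X := le_mul_of_one_le_right (mul_nonneg hN hc) hX1
  have hY : 0 ≤ |K| * (1 + Real.log 2 + Real.posLog c) * X := by positivity
  have h7 : (1 - η) * N * t ≤ S + |K| * (1 + Real.log 2 + Real.posLog c) * X := by
    by_cases ht : 0 ≤ t
    · have e1 := mul_le_mul_of_nonneg_right hκ ht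
      have hb : 0 < 1 + η / 2 := by linarith
      have e2 : (1 - η) * N * t * (1 + η / 2) ≤ (1 - η / 2) * N * t := by
        have : 0 ≤ N * t := mul_nonneg hN ht
        nlinarith [mul_nonneg (mul_nonneg hη.le hη.le) this]
      have e3 : (1 - η) * N * t * (1 + η / 2) ≤
          (S + |K| * (1 + Real.log 2 + Real.posLog c) * X) * (1 + η / 2) := by
        have e4 : 0 ≤ |K| * (1 + Real.log 2 + Real.posLog c) * X * (η / 2) :=
          mul_nonneg hY (by linarith)
        nlinarith
      exact le_of_mul_le_mul_right e3 hb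
    · have e1 : (1 - η) * N * t ≤ 0 :=
        mul_nonpos_of_nonneg_of_nonpos (mul_nonneg (by linarith) hN) (not_le.mp ht).le
      linarith
  have h8 : (|K| * (1 + Real.log 2 + Real.posLog c) + N * c) * X =
    |K| * (1 + Real.log 2 + Real.posLog c) * X + N * c * X := by ring
  rw [h8]
  linarith

/-- Pkg2 without multiplicities and without periodicity (helper17). -/
theorem pkg3 {τ : Type} [Fintype τ] [DecidableEq τ] [Nonempty τ] {N R : ℕ}
    (q : Fin N → τ → ℂ) {Y : Type} (yv : Y → τ → ℂ) (L : Fin N → Y → ℂ)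
    (K : Submodule ℂ (Fin N → ℂ))
    (hcard : (R + 1) * Module.finrank ℂ ((Fin N → ℂ) ⧸ K) < N)
    (h1 : ∀ γ ∈ K, ∀ (h h' : τ → ℂ) (y : Y), ∑ i, γ i * (L i y * wdt h h' (yv y) (q i)) = 0)
    (h2 : ∀ h : τ → ℂ, h ≠ 0 → ∀ γ ∈ K, (∀ i, dt (q i) h ≠ 0 → γ i = 0) → γ = 0)
    (F : τ → Ent) (hF : ∀ t : τ → ℂ, t ≠ 0 → ∃ i i', t i • F i' ≠ t i' • F i)
    (hF0 : ∀ z, ∃ x, (F x).1 z ≠ 0)
    (hqF : ∀ i, ∑ x, q i x • F x ≠ 0)
    (hlim : ∀ (z₁ : ℂ) (c : ℕ), (∀ x, (c : ℕ∞) ≤ analyticOrderAt (F x).1 z₁) →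
      (∃ x, analyticOrderAt (F x).1 z₁ = c) → ∀ γ : ℂ → Fin N → ℂ, ContinuousAt γ z₁ →
      (∀ᶠ z in nhdsWithin z₁ {z₁}ᶜ, ∀ y : Y, ∑ i, γ z i *
        (L i y * wdt (fun x => (F x).1 z) (fun x => (dE (F x)).1 z) (yv y) (q i)) = 0) →
      (∀ i, analyticOrderAt (fun ζ => ∑ x, q i x * (F x).1 ζ) z₁ = c → γ z₁ i = 0) → γ z₁ = 0)
    {η : ℝ} (hη : 0 < η) (hη1 : η < 1) (hR : ((Fintype.card τ : ℝ) + 2) ≤ η / 2 * (R + 1)) :
    ∃ (C : ℝ) (E : Set ℝ), MeasureTheory.volume E < ⊤ ∧ ∀ r, 1 ≤ r → r ∉ E →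
      (1 - η) * N * TF (fun x z => (F x).1 z) r ≤
        ∑ i, Nbar (fun z => ∑ x, q i x * (F x).1 z) r +
          C * (Real.posLog (TF (fun x z => (F x).1 z) r) + Real.log r + 1) := by
  classical
  obtain ⟨u, G, lam, mu, hu1, hucard, hGli, hFG, hGF, hmulam⟩ := coords_gen_pkg3 F hF
  obtain ⟨s, hs⟩ : ∃ s, Module.finrank ℂ ((Fin N → ℂ) ⧸ K) = s := ⟨_, rfl⟩
  rw [hs] at hcard
  have hcount := hyper_count_pkg3 q K hs h2
  -- the vector `h` in the coordinates of `τ`
  set up : (Fin (u + 1) → ℂ) → τ → ℂ := fun h x => ∑ l, h l * lam l x with hup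
  have hup0 : ∀ h, h ≠ 0 → up h ≠ 0 := by
    intro h hh h0
    apply hh
    funext l
    have e1 : ∑ x, mu l x * up h x = h l := by
      simp only [hup, Finset.mul_sum]
      rw [Finset.sum_comm]
      have e2 : ∀ l', ∑ x, mu l x * (h l' * lam l' x) = h l' * (if l = l' then 1 else 0) := by
        intro l'
        rw [← hmulam l l', Finset.mul_sum]
        exact Finset.sum_congr rfl fun x _ => by ring
      rw [Finset.sum_congr rfl fun l' _ => e2 l']
      simp
    rw [← e1, h0]
    simp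
  have hFz : ∀ x z, (F x).1 z = ∑ l, lam l x * (G l).1 z := by
    intro x z
    conv_lhs => rw [hFG x]
    rw [AddSubmonoidClass.coe_finsetSum, Finset.sum_apply]
    rfl
  have hGz : ∀ l z, (G l).1 z = ∑ x, mu l x * (F x).1 z := by
    intro l z
    conv_lhs => rw [hGF l]
    rw [AddSubmonoidClass.coe_finsetSum, Finset.sum_apply]
    rfl
  have hdFz : ∀ x z, (dE (F x)).1 z = ∑ l, lam l x * deriv (G l).1 z := by
    intro x z
    have e1 : (F x).1 = fun z => ∑ l, lam l x * (G l).1 z := funext fun z => hFz x z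
    show deriv (F x).1 z = _
    rw [e1, deriv_fun_sum (fun l _ => ((Ent.diff (G l)).differentiableAt).const_mul _)]
    exact Finset.sum_congr rfl fun l _ => by
      rw [deriv_const_mul _ (Ent.diff (G l)).differentiableAt]
  have hupG : ∀ z, up (fun l => (G l).1 z) = fun x => (F x).1 z := by
    intro z
    funext x
    rw [hFz x z]
    exact Finset.sum_congr rfl fun l _ => by ring
  have hupG' : ∀ z, up (fun l => deriv (G l).1 z) = fun x => (dE (F x)).1 z := by
    intro z
    funext x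
    rw [hdFz x z]
    exact Finset.sum_congr rfl fun l _ => by ring
  have hdtup : ∀ (a : τ → ℂ) (h : Fin (u + 1) → ℂ), ∑ l, (∑ x, a x * lam l x) * h l =
      dt a (up h) := by
    intro a h
    unfold dt
    simp only [hup, Finset.sum_mul, Finset.mul_sum]
    rw [Finset.sum_comm]
    exact Finset.sum_congr rfl fun x _ => Finset.sum_congr rfl fun l _ => by ring
  set q' : Fin N → Fin (u + 1) → ℂ := fun i l => ∑ x, q i x * lam l x with hq'
  set yv' : Y → Fin (u + 1) → ℂ := fun y l => ∑ x, yv y x * lam l x with hyv'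
  have hwd : ∀ (h h' : Fin (u + 1) → ℂ) (y : Y) (i : Fin N), wd h h' (yv' y) (q' i) =
      wdt (up h) (up h') (yv y) (q i) := by
    intro h h' y i
    unfold wd wdt
    rw [← hdtup, ← hdtup, ← hdtup, ← hdtup]
  have hq'G : ∀ i z, ∑ l, q' i l * (G l).1 z = ∑ x, q i x * (F x).1 z := by
    intro i z
    rw [hdtup (q i) (fun l => (G l).1 z), hupG]
    rfl
  -- orders
  have hord1 : ∀ (z : ℂ) (c : ℕ), (∀ l, (c : ℕ∞) ≤ analyticOrderAt (G l).1 z) →
      ∀ x, (c : ℕ∞) ≤ analyticOrderAt (F x).1 z := by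
    intro z c hc x
    have e1 : (F x).1 = fun z => ∑ l, lam l x * (G l).1 z := funext fun z => hFz x z
    rw [e1]
    exact order_linear (fun l => lam l x) (fun l => (G l).1) z
      (fun l => (Ent.diff (G l)).analyticAt z) c hc
  have hord2 : ∀ (z : ℂ) (c : ℕ), (∀ x, (c : ℕ∞) ≤ analyticOrderAt (F x).1 z) →
      ∀ l, (c : ℕ∞) ≤ analyticOrderAt (G l).1 z := by
    intro z c hc l
    rw [show (G l).1 = fun z => ∑ x, mu l x * (F x).1 z from funext fun z => hGz l z]
    have hana : ∀ x, AnalyticAt ℂ (fun ζ => mu l x * (F x).1 ζ) z := fun x =>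
      analyticAt_const.mul ((Ent.diff (F x)).analyticAt z)
    have e2 : ∀ S : Finset τ, AnalyticAt ℂ (fun ζ => ∑ x ∈ S, mu l x * (F x).1 ζ) z ∧
        (c : ℕ∞) ≤ analyticOrderAt (fun ζ => ∑ x ∈ S, mu l x * (F x).1 ζ) z := by
      intro S
      induction S using Finset.induction_on with
      | empty =>
        refine ⟨?_, ?_⟩
        · simp only [Finset.sum_empty]
          exact analyticAt_const
        · simp only [Finset.sum_empty]
          rw [analyticOrderAt_eq_top.mpr (Filter.Eventually.of_forall fun _ => rfl)]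
          exact le_top
      | insert x S hx ih =>
        have e3 : (fun ζ => ∑ x ∈ insert x S, mu l x * (F x).1 ζ) =
            (fun ζ => mu l x * (F x).1 ζ) + (fun ζ => ∑ x ∈ S, mu l x * (F x).1 ζ) := by
          funext ζ
          rw [Finset.sum_insert hx]
          rfl
        rw [e3]
        refine ⟨(hana x).add ih.1, ?_⟩
        refine le_trans (le_min ?_ ih.2) (le_analyticOrderAt_add)
        have e4 : (fun ζ => mu l x * (F x).1 ζ) = (fun _ => mu l x) * (F x).1 := rfl
        rw [e4, analyticOrderAt_mul analyticAt_const ((Ent.diff (F x)).analyticAt z)]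
        exact le_add_left (hc x)
    exact (e2 Finset.univ).2
  have hord3 : ∀ (z : ℂ) (c : ℕ), (∀ l, (c : ℕ∞) ≤ analyticOrderAt (G l).1 z) →
      (∃ l, analyticOrderAt (G l).1 z = c) → ∃ x, analyticOrderAt (F x).1 z = c := by
    intro z c hc ⟨l, hl⟩
    by_contra hcon
    push Not at hcon
    have e1 : ∀ x, ((c + 1 : ℕ) : ℕ∞) ≤ analyticOrderAt (F x).1 z := by
      intro x
      have e2 := hord1 z c hc x
      have e3 := hcon x
      push_cast
      exact Order.add_one_le_of_lt (lt_of_le_of_ne e2 (Ne.symm e3))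
    have e2 := hord2 z (c + 1) e1 l
    rw [hl] at e2
    have e3 : c + 1 ≤ c := by exact_mod_cast e2
    omega
  -- the numbers
  have hR1 : (R : ℝ) + 1 ≥ (Fintype.card τ : ℝ) + 2 := by
    have h3 : 0 ≤ (R : ℝ) + 1 := by positivity
    nlinarith
  have hus : ((u : ℝ) + 3) * s ≤ η / 2 * N := by
    have e1 : (u : ℝ) + 1 ≤ Fintype.card τ := by exact_mod_cast hucard
    have e2 : ((R : ℝ) + 1) * s ≤ N := by exact_mod_cast hcard.le
    have e3 : (0 : ℝ) ≤ s := Nat.cast_nonneg s
    have e4 : ((u : ℝ) + 3) * s ≤ η / 2 * (R + 1) * s :=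
      mul_le_mul_of_nonneg_right (by linarith) e3
    have e5 := mul_le_mul_of_nonneg_left e2 (by linarith : (0 : ℝ) ≤ η / 2)
    linarith
  have hκ : (u + 3) * s ≤ N := by
    have e1 : ((u : ℝ) + 3) * s ≤ N := by
      have e2 : (0 : ℝ) ≤ N := Nat.cast_nonneg N
      nlinarith
    exact_mod_cast e1
  have hsN : s < N := by nlinarith
  have hgd : Differentiable ℂ (fun z (l : Fin (u + 1)) => (G l).1 z) :=
    differentiable_pi.mpr fun l => Ent.diff _
  have hGz0 : ∀ z, ∃ l, (G l).1 z ≠ 0 := by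
    intro z
    by_contra hcon
    push Not at hcon
    obtain ⟨x, hx⟩ := hF0 z
    apply hx
    rw [hFz x z]
    exact Finset.sum_eq_zero fun l _ => by rw [hcon l, mul_zero]
  obtain ⟨c₁, hc₁, hc₁'⟩ := TF_linear_le (F := fun x z => (F x).1 z) (G := fun l z => (G l).1 z)
    (fun x => Ent.diff _) (fun l => Ent.diff _) hF0 lam hFz
  obtain ⟨c₂, hc₂, hc₂'⟩ := TF_linear_le (F := fun l z => (G l).1 z) (G := fun x z => (F x).1 z)
    (fun x => Ent.diff _) (fun l => Ent.diff _) hGz0 (fun x l => mu l x) hGz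
  obtain ⟨Kc, E, hE, hKE⟩ := smt_basis (m := u) (s := s) q' (by
      intro i hi
      apply hqF i
      apply Ent.ext'
      intro z
      have e1 := hq'G i z
      rw [hi] at e1
      rw [AddSubmonoidClass.coe_finsetSum, Finset.sum_apply]
      show ∑ x, q i x * (F x).1 z = 0
      rw [← e1]
      simp) hsN (by
      intro h hh
      have e1 := hcount (up h) (hup0 h hh)
      refine le_trans (le_of_eq ?_) e1
      congr 1
      apply Finset.filter_congr
      intro i _
      rw [← hdtup]) (fun z l => (G l).1 z) hgd (by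
      intro z h
      obtain ⟨l, hl⟩ := hGz0 z
      exact hl (congrFun h l)) (by
      rw [Fintype.linearIndependent_iff]
      intro c hc
      apply (Fintype.linearIndependent_iff.mp hGli) c
      apply Ent.ext'
      intro z
      have e2 := congrFun hc z
      rw [Finset.sum_apply] at e2
      rw [AddSubmonoidClass.coe_finsetSum, Finset.sum_apply]
      exact e2) (by
      refine exists_phi2 q' yv' L K hs ?_ (fun l => (G l).1) (fun l => Ent.diff _) ?_
      · intro γ hγ h h' y
        rw [← h1 γ hγ (up h) (up h') y]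
        exact Finset.sum_congr rfl fun i _ => by rw [hwd]
      · intro z₁ c hc hc' γ hγ hγ0 hsupp
        refine hlim z₁ c (hord1 z₁ c hc) (hord3 z₁ c hc hc') γ hγ ?_ ?_
        · filter_upwards [hγ0] with z hz y
          rw [← hz y]
          apply Finset.sum_congr rfl
          intro i _
          rw [hwd, hupG, hupG']
        · intro i hi
          apply hsupp i
          rw [← hi]
          congr 1
          funext ζ
          exact hq'G i ζ) hκ (b := 1 + η / 2) (by linarith)
  refine ⟨|Kc| * (1 + Real.log 2 + Real.posLog (max c₁ c₂)) + N * max c₁ c₂, E, hE,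
    fun r hr hrE => ?_⟩
  have e1 := hKE r hr hrE
  have e2 : ∀ i, (fun z => ∑ l, q' i l * (G l).1 z) = fun z => ∑ x, q i x * (F x).1 z :=
    fun i => funext fun z => hq'G i z
  simp only [e2] at e1
  refine pkg3_num (t := charT (fun z l => (G l).1 z) r) hη hη1 (Nat.cast_nonneg N) ?_
    (hc₁.trans (le_max_left _ _)) (Finset.sum_nonneg fun i _ => Nbar_nonneg _ hr) hr ?_ ?_ e1
  · linarith
  · exact (hc₁' r).trans (by
      have := le_max_left c₁ c₂
      show TF (fun l z => (G l).1 z) r + c₁ ≤ TF (fun l z => (G l).1 z) r + max c₁ c₂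
      linarith)
  · exact (hc₂' r).trans (by
      have := le_max_right c₁ c₂
      linarith)

end Pool.Agent.LO
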