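import Pool.Agent.Lib_MP_b9fedf_qy.FinalY

/-!
# Every projective variety is the exceptional set of smooth complete intersections of quadrics

Let `X = V(S) ⊆ ℙⁿ` be an arbitrary projective variety (any zero set of homogeneous polynomials).
There are a Veronese map `v` of `ℙⁿ` and smooth complete intersections `Y ⊆ ℙᵐ` of `r` quadrics,
with `2 r - m - 1` as large as desired (the canonical bundle of `Y` is `O(2 r - m - 1)`), which
contain a linear image `L (v X)` of `v X`, and such that every non-constant entire curve of `Y` is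
contained in one of the images of `L (v X)` under the automorphisms of `Y` which change the signs
of coordinates. Consequently the Green-Griffiths-Lang statement holds for `X` if and only if it
holds for `Y`, and the Green-Griffiths-Lang conjecture (frozen statement S00411) is equivalent to
its restriction to smooth complete intersections of quadrics with ample canonical bundle.

The equations of `Y` are `y_j² = Q_j(x)`, `Q_j = ℓ_j² + ∑ c_i g_i`, where the `g_i` are quadrics
with common zero set `v X` (in a larger space). The quadrics `Q_j` are chosen one after the other;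
Noetherian induction over the closed subsets `Z` of the space of the `x`: if `Z` is irreducible
and not contained in `V(g)`, many quadrics `Q_j` force the entire curves of `Z` along which
all `Q_j` are squares into a proper closed subset or to be constant. This is the tangency
argument of the hand-in ManyHypersurfaces with `ℙⁿ` replaced by the arbitrary variety `Z`.
-/

set_option autoImplicit false

open Pool.Agent.GGL (GGL)
open Pool.Agent.QY

namespace Pool.Agent.Results.MP_b9fedf_ag.QuadricIntersections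

/-- `Y = V(F)` contains the image `L (v_k X)` of `X = V(S)`, and every non-constant entire curve
of `Y` is contained in the image of `L (v_k X)` under an automorphism of `Y` given by sign changes
of the coordinates. -/
def ExcSigns {n m k r : ℕ} (S : Set (MvPolynomial (Fin (n + 1)) ℂ))
    (F : Fin r → MvPolynomial (Fin (m + 1)) ℂ) (L : (Mon n k → ℂ) →ₗ[ℂ] (Fin (m + 1) → ℂ)) :
    Prop :=
  (∀ x : Fin (n + 1) → ℂ, x ≠ 0 → (∀ p ∈ S, MvPolynomial.eval x p = 0) →
    ∀ j, MvPolynomial.eval (L (vero k x)) (F j) = 0) ∧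
  ∀ f : ℂ → (Fin (m + 1) → ℂ), Differentiable ℂ f → (∀ z, f z ≠ 0) →
    (∀ z j, MvPolynomial.eval (f z) (F j) = 0) →
    (∀ z w, ∃ c : ℂ, f w = c • f z) ∨
    ∃ ε : Fin (m + 1) → ℂ, (∀ i, ε i = 1 ∨ ε i = -1) ∧
      (∀ j (z : Fin (m + 1) → ℂ), MvPolynomial.eval (ε * z) (F j) = MvPolynomial.eval z (F j)) ∧
      ∀ z, ∃ x : Fin (n + 1) → ℂ, x ≠ 0 ∧ (∀ p ∈ S, MvPolynomial.eval x p = 0) ∧
        f z = ε * L (vero k x)

theorem result (n : ℕ) (S : Set (MvPolynomial (Fin (n + 1)) ℂ))
    (hS : ∀ p ∈ S, ∃ d : ℕ, p.IsHomogeneous d) (B : ℕ) :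
    ∃ (k m r : ℕ) (F : Fin r → MvPolynomial (Fin (m + 1)) ℂ)
      (L : (Mon n k → ℂ) →ₗ[ℂ] (Fin (m + 1) → ℂ)),
      1 ≤ k ∧ r < m ∧ m + 1 + B ≤ 2 * r ∧ (∀ j, (F j).IsHomogeneous 2) ∧ SCI F ∧
      Function.Injective L ∧ ExcSigns S F L ∧ (GGL n S ↔ GGL m (Set.range F)) := by
  obtain ⟨k, m, r, F, L, hk, hr, hB, hF, hsm, hL, hin, halt⟩ := exists_quadrics n S hS B
  refine ⟨k, m, r, F, L, hk, hr, hB, hF, hsm, hL, ⟨?_, ?_⟩, ggl_iff hk S hS _ L hL hin halt⟩
  · intro x hx hxS j
    exact hin x hx hxS _ ⟨j, rfl⟩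
  · intro f hf hf0 hfF
    rcases halt ℂ f hf hf0 (by
      rintro z p ⟨j, rfl⟩
      exact hfF z j) with h | ⟨ε, hε, hinv, h⟩
    · exact Or.inl h
    · exact Or.inr ⟨ε, hε, fun j z => hinv _ ⟨j, rfl⟩ z, h⟩

/-- Consequence: the conjecture for all varieties is equivalent to its case of smooth complete
intersections of quadrics with canonical bundle `O(d)`, `d ≥ B`. -/
theorem reduction (B : ℕ) :
    (∀ (m r : ℕ) (F : Fin r → MvPolynomial (Fin (m + 1)) ℂ), r < m → m + 1 + B ≤ 2 * r →
      (∀ j, (F j).IsHomogeneous 2) → SCI F → GGL m (Set.range F)) ↔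
    ∀ (n : ℕ) (S : Set (MvPolynomial (Fin (n + 1)) ℂ)),
      (∀ p ∈ S, ∃ d : ℕ, p.IsHomogeneous d) → GGL n S := by
  refine ⟨fun h n S hS => ?_, fun h m r F _ _ hF _ => ?_⟩
  · obtain ⟨k, m, r, F, L, _, h1, h2, h3, h4, _, _, h5⟩ := result n S hS B
    exact h5.mpr (h m r F h1 h2 h3 h4)
  · refine h m (Set.range F) ?_
    rintro p ⟨j, rfl⟩
    exact ⟨2, hF j⟩

end Pool.Agent.Results.MP_b9fedf_ag.QuadricIntersections
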