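import Pool.Agent.Lib_MP_b9fedf_lo.DefsLC
import Pool.Agent.Lib_MP_b9fedf_lo.DefsRp
import Pool.Agent.Lib_MP_b9fedf_lo.RamArc
import Pool.Agent.Lib_MP_1209e6_mh.CoreE

/-! Ramified maps are ramified on average with ratio `M / (M + 1)`, function field version. -/

set_option autoImplicit false

namespace Pool.Agent.LO
open MvPolynomial Pool.Agent.Campana

theorem ramifiedAt_avg {K : Type} [Field K] [Algebra ℂ K] {n M : ℕ}
    (y : Fin (n + 1) → K) (hy0 : y 0 ≠ 0)
    (hy : AlgebraicIndependent ℂ (fun i : Fin n => y i.succ / y 0))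
    (D : Finset (MvPolynomial (Fin (n + 1)) ℂ))
    (hD : ∀ P ∈ D, P.IsHomogeneous P.totalDegree ∧ P ≠ 0)
    (hpt : ∀ x : Fin (n + 1) → ℂ, x ≠ 0 → ∀ A ⊆ D, (∀ P ∈ A, eval x P = 0) → A.card ≤ M)
    (hT : RamifiedPl y D) : RamifiedAt ((M : ℝ) / (M + 1)) y D := by
  classical
  have hnd := hom_eq_zero y hy0 hy
  have hyne : ∀ l, y l ≠ 0 := by
    intro l h0
    have h1 := hnd 1 (X l) (isHomogeneous_X ℂ l) (by rw [aeval_X]; exact h0)
    exact X_ne_zero l h1
  intro O hO v hv c hc hc'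
  obtain ⟨i₀, hi₀⟩ := hc'
  have hT1 := hT O hO v hv c (fun i _ => hc i) ⟨i₀, hyne i₀, hi₀⟩
  set h := y i₀ with hh
  have hh0 : h ≠ 0 := hyne i₀
  set x : Fin (n + 1) → K := fun j => y j / h with hx
  have hxO : ∀ j, x j ∈ O := by
    intro i
    rw [hx, hv.2.1 _ (div_ne_zero (hyne i) hh0), ord_div hv _ _ (hyne i) hh0]
    have h1 := hc i
    omega
  have hxi : x i₀ = 1 := div_self hh0
  have hyx : y = fun j => h * x j := by
    ext j
    rw [hx]
    field_simp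
  have hPx : ∀ (d : ℕ) (Q : MvPolynomial (Fin (n + 1)) ℂ), Q.IsHomogeneous d →
      aeval y Q = h ^ d * aeval x Q := by
    intro d Q hQ
    conv_lhs => rw [hyx]
    exact aeval_mul_hom _ _ _ _ hQ
  have hPxne : ∀ Q ∈ D, aeval x Q ≠ 0 := by
    intro Q hQ h0
    refine (hD Q hQ).2 (hnd Q.totalDegree Q (hD Q hQ).1 ?_)
    rw [hPx Q.totalDegree Q (hD Q hQ).1, h0, mul_zero]
  have hvP : ∀ Q ∈ D, v (aeval y Q) = Q.totalDegree * c + v (aeval x Q) := by
    intro Q hQ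
    rw [hPx Q.totalDegree Q (hD Q hQ).1, hv.1 _ _ (pow_ne_zero _ hh0) (hPxne Q hQ),
      F_ord_pow hv _ hh0, hi₀]
  have hν0 : ∀ Q ∈ D, 0 ≤ v (aeval x Q) := fun Q hQ =>
    (hv.2.1 _ (hPxne Q hQ)).1 (aeval_mem hO x hxO Q)
  have hBM := card_vanishing hO hv x hxO i₀ hxi D hPxne hpt
    (D.filter fun P => (v (aeval x P)).toNat ≠ 0) (Finset.filter_subset _ _) fun Q hQ => by
      have h1 := (Finset.mem_filter.1 hQ).2
      omega
  have h1 := ratio_count D (fun P => (v (aeval x P)).toNat) hBM (by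
    intro h2 P hP
    have h3 := hT1 (fun Q hQ => by
      rw [hvP Q hQ]
      have := h2 Q hQ
      omega) P hP
    rw [hvP P hP] at h3
    show (v (aeval x P)).toNat = 0
    omega)
  have h2 : (D.filter fun P => (P.totalDegree : ℤ) * c < v (aeval y P)) =
      D.filter fun P => (v (aeval x P)).toNat ≠ 0 := by
    refine Finset.filter_congr fun Q hQ => ?_
    rw [hvP Q hQ]
    have := hν0 Q hQ
    omega
  have h3 : ∑ P ∈ D, ((v (aeval y P) - P.totalDegree * c : ℤ) : ℝ) =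
      ∑ P ∈ D, (((v (aeval x P)).toNat : ℕ) : ℝ) := by
    refine Finset.sum_congr rfl fun Q hQ => ?_
    rw [hvP Q hQ, add_sub_cancel_left]
    have h4 : (v (aeval x Q)) = ((v (aeval x Q)).toNat : ℤ) := by
      have := hν0 Q hQ
      omega
    conv_lhs => rw [h4]
    norm_cast
  rw [h2, h3]
  exact h1

end Pool.Agent.LO
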