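import Pool.Agent.Lib_MP_1209e6_mh.FinalG
import Pool.Agent.Lib_MP_b9fedf_qy.RedBot
import Pool.Agent.Lib_MP_b9fedf_lo.LoMixed
import Pool.Agent.Lib_MP_b9fedf_lo.NotSpecialAvg
import Pool.Agent.Lib_MP_b9fedf_lo.NotBrodyAvg
import Pool.Agent.Lib_MP_b9fedf_lo.RamPlace

/-! Varieties which are ramified over many hypersurfaces, at most `M` through a point. -/

set_option autoImplicit false

namespace Pool.Agent.LO
open MvPolynomial Pool.Agent.Campana Pool.Agent.QY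

theorem ramified_special (n e M : ℕ) (hn : 1 ≤ n) : ∃ N : ℕ,
    ∀ D : Finset (MvPolynomial (Fin (n + 1)) ℂ),
    (∀ Q ∈ D, 1 ≤ Q.totalDegree ∧ Q.totalDegree ≤ e ∧ Q.IsHomogeneous Q.totalDegree ∧
      Squarefree Q) →
    (∀ Q ∈ D, ∀ Q' ∈ D, ∀ c : ℂ, Q' = C c * Q → Q' = Q) →
    (∀ x : Fin (n + 1) → ℂ, x ≠ 0 → ∀ A ⊆ D, (∀ P ∈ A, eval x P = 0) → A.card ≤ M) →
    N < D.card →
    ∀ (m : ℕ) (P : Ideal (MvPolynomial (Fin (m + 1)) ℂ)) [P.IsPrime], IsVariety P →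
    ∀ y : Fin (n + 1) → FunField P, y 0 ≠ 0 →
      AlgebraicIndependent ℂ (fun i : Fin n => y i.succ / y 0) → RamifiedPl y D →
      ¬ SpecialField (FunField P) ∧ ¬ BrodySpecial P := by
  have hM2 : (0 : ℝ) < (M : ℝ) + 2 := by positivity
  set η : ℝ := 1 / ((M : ℝ) + 2) with hη
  have hη0 : 0 < η := by positivity
  have hη1 : η < 1 := by
    rw [hη, div_lt_one hM2]
    have : (0 : ℝ) ≤ M := Nat.cast_nonneg M
    linarith
  obtain ⟨N₁, hN₁⟩ := lo_mixed n e M (⊥ : Ideal (MvPolynomial (Fin (n + 1)) ℂ))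
    Ideal.isPrime_bot (by
      intro s hs d
      rw [Ideal.mem_bot] at hs ⊢
      rw [hs, map_zero]) hη0 hη1
  refine ⟨N₁ + 2 * e * (n + 1) * (M + 1), ?_⟩
  intro D hD hD' hpt hcard m P _ hP y hy0 hy hT
  have hDn : D.Nonempty := Finset.card_pos.1 (lt_of_le_of_lt (Nat.zero_le _) hcard)
  have he : 1 ≤ e := by
    obtain ⟨Q, hQ⟩ := hDn
    exact (hD Q hQ).1.trans (hD Q hQ).2.1
  obtain ⟨d, Z, hd, hZ0, hZh, hZD, hL⟩ := hN₁ D
    (fun Q hQ => ⟨(hD Q hQ).1, (hD Q hQ).2.1, (hD Q hQ).2.2.1, redOn_bot Q (hD Q hQ).2.2.2⟩)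
    (fun Q hQ Q' hQ' c hc => hD' Q hQ Q' hQ' c (by rwa [Ideal.mem_bot, sub_eq_zero] at hc))
    (fun x hx _ => hpt x hx) (by omega)
  have hρ0 : (0 : ℝ) ≤ (M : ℝ) / (M + 1) := by positivity
  have hρ : (M : ℝ) / (M + 1) < 1 - η := by
    have hM0 : (0 : ℝ) ≤ M := Nat.cast_nonneg M
    have h2 : (1 : ℝ) - η = ((M : ℝ) + 1) / (M + 2) := by
      rw [hη]
      field_simp
      ring
    rw [h2, div_lt_div_iff₀ (by positivity) hM2]
    nlinarith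
  have hT2 := ramifiedAt_avg y hy0 hy D (fun Q hQ => ⟨(hD Q hQ).2.2.1, (hD Q hQ).2.2.2.ne_zero⟩)
    hpt hT
  refine ⟨?_, ?_⟩
  · refine not_special_avg (M := M + 1) hn he (by omega) y hy0 hy D hD (by omega)
      (fun x hx A hA hAx => (hpt x hx A hA hAx).trans (Nat.le_succ M)) (hρ.trans ?_) hT2
    linarith
  · refine not_brody_avg hn hρ hρ0 D hDn (fun Q hQ => ⟨(hD Q hQ).1, (hD Q hQ).2.2.1⟩) Z ?_ hZh hZD
      hL P hP y hy0 hy hT2
    rintro rfl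
    exact hZ0 (Ideal.zero_mem _)

end Pool.Agent.LO
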